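import Pool.Agent.PLD.Alt
import Pool.Agent.Tight.Leaves
import Pool.Agent.Tight.LeafArcs

/-!
PLD: cyclic chains of leaves: rotation, the fold relations.
-/

set_option autoImplicit false

namespace HexObs

namespace PLD

open Finset TS SDN

/-! ### 1. Rotation at an edge that goes down -/

lemma turn_neg (b : Bool) (d : Pt) : turn b (-d) = -turn b d := by
  cases b <;> ext <;> simp [turn, rotL, rotR] <;> ring

lemma ds_neg (d : Pt) (τ : ℕ → Bool) (i : ℕ) : ds (-d) τ i = -ds d τ i := by
  induction i with
  | zero => rfl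
  | succ i ih => rw [ds_succ, ds_succ, ih, turn_neg]

lemma vs_neg (v d : Pt) (τ : ℕ → Bool) (i : ℕ) : vs v (-d) τ i = v - vs oo d τ i := by
  induction i with
  | zero => exact (sub_zero v).symm
  | succ i ih =>
    rw [vs_succ, vs_succ, ih, ds_neg]
    abel

lemma pv_shiftN {z : List Bool} (hz : z ≠ []) {r : ℕ} (hr : pd z r = -up) (i : ℕ) :
    pv z (r + i) = pv z r - pv (z.rotate r) i := by
  have h1 : pv z (r + i) = vs (pv z r) (pd z r) (fun k => per z (r + k)) i := vs_shift oo up (per z) r i
  rw [h1, hr, vs_neg]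
  congr 1
  exact vs_congr i fun k _ => (per_rotate hz r k).symm

lemma pd_shiftN {z : List Bool} (hz : z ≠ []) {r : ℕ} (hr : pd z r = -up) (i : ℕ) :
    pd z (r + i) = -pd (z.rotate r) i := by
  have h1 : pd z (r + i) = ds (pd z r) (fun k => per z (r + k)) i := ds_shift up (per z) r i
  rw [h1, hr, ds_neg]
  congr 1
  exact ds_congr i fun k _ => (per_rotate hz r k).symm

/-- the rotation of a closed word at an edge that goes down (the polygon turned by 180 degrees) -/
theorem rotate_mem_CwN {z : List Bool} (hz : z ∈ Cw) {r : ℕ} (hr : r ≤ z.length) (hd : dx up z r = -up) :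
    z.rotate r ∈ Cw := by
  have h0 : 0 < z.length := List.length_pos_iff.2 hz.1
  have hl : (z.rotate r).length = z.length := List.length_rotate _ _
  have hd' : pd z r = -up := by
    rw [← dx_eq_pd hr]
    exact hd
  have hsh := pv_shiftN hz.1 hd'
  refine ⟨fun h => hz.1 (List.rotate_eq_nil_iff.1 h), ?_, ?_, ?_⟩
  · rw [vx_eq_pv le_rfl, hl]
    have h1 := hsh z.length
    rw [Nat.add_comm, pv_add_len hz] at h1
    exact (sub_eq_self.1 h1.symm)
  · rw [dx_eq_pd le_rfl, hl]
    have h1 := pd_shiftN hz.1 hd' z.length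
    rw [Nat.add_comm, pd_add_len hz, hd'] at h1
    exact (neg_injective h1).symm
  · intro i k hik hk h
    rw [hl] at hk
    rw [vx_eq_pv (by omega), vx_eq_pv (by omega)] at h
    have h1 : pv z (r + i) = pv z (r + k) := by rw [hsh i, hsh k, h]
    refine pv_inj hz ?_ h1
    intro h2
    have h3 : i % z.length = k % z.length := Nat.ModEq.add_left_cancel' r h2
    rw [Nat.mod_eq_of_lt (by omega), Nat.mod_eq_of_lt hk] at h3
    omega

/-! ### 2. The word of a cyclic chain -/

/-- a leaf and its fold -/
def blk (g : List Bool) : List Bool := g.dropLast ++ [!lst g, !lst g]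

lemma unf_cons {g g' : List Bool} {gs : List (List Bool)} : unf (g :: g' :: gs) = blk g ++ unf (g' :: gs) := by
  show g.dropLast ++ (!lst g) :: (!lst g) :: unf (g' :: gs) = _
  unfold blk
  simp

lemma unf_app (gs : List (List Bool)) (x : List Bool) : unf (gs ++ [x]) = (gs.map blk).flatten ++ x := by
  induction gs with
  | nil => rfl
  | cons g gs ih =>
    obtain ⟨g', gs', h⟩ : ∃ g' gs', gs ++ [x] = g' :: gs' := by
      cases gs with
      | nil => exact ⟨x, [], rfl⟩
      | cons a b => exact ⟨a, b ++ [x], rfl⟩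
    rw [List.cons_append, h, unf_cons, ← h, ih]
    simp

lemma cuf_eq (gs : List (List Bool)) : cuf gs = (gs.map blk).flatten := by
  unfold cuf
  rw [unf_app, List.append_nil]

lemma blk_length {g : List Bool} (hg : g ≠ []) : (blk g).length = g.length + 1 := by
  unfold blk
  have := List.length_pos_iff.2 hg
  simp
  omega

lemma cuf_rotate (g : List Bool) (gs : List (List Bool)) : cuf (gs ++ [g]) = (cuf (g :: gs)).rotate (blk g).length := by
  rw [cuf_eq, cuf_eq]
  simp [List.rotate_append_length_eq]

/-! ### 3. The fold relations -/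

lemma blk_app (g r : List Bool) : blk g ++ r = g.dropLast ++ (!lst g) :: (!lst g) :: r := by
  unfold blk
  simp

/-- the fold relation from the self-avoidance of the folded word -/
lemma lfold_of {g g' r : List Bool} {h h' : ℕ} (hg : g ∈ Brd h) (hh : 1 ≤ h) (hg' : g' ∈ Brd h') (hh' : 1 ≤ h')
    (hr : ∀ k, k ≤ g'.length → vx oo up r k = vx oo up g' k) (hlen : g'.length ≤ r.length)
    (hinj : ∀ i k, i < k → k ≤ g.length + 1 + g'.length →
      vx oo up (blk g ++ r) i ≠ vx oo up (blk g ++ r) k) : LFold g g' := by
  have hne := Brd_ne_nil hg hh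
  have hne' := Brd_ne_nil hg' hh'
  have hgl := List.length_pos_iff.2 hne
  have hgl' := List.length_pos_iff.2 hne'
  rw [blk_app] at hinj
  obtain ⟨w1, w2, w3⟩ := unf_step (r := r) hg hh
  obtain ⟨w4, w5⟩ := unf_step_lev (r := r) hg hh
  obtain ⟨w, hw⟩ : ∃ w, w = g.dropLast ++ (!lst g) :: (!lst g) :: r := ⟨_, rfl⟩
  rw [← hw] at w1 w2 w3 w4 w5 hinj
  obtain ⟨q, hq⟩ : ∃ q, q = w.take (g.length + 1 + g'.length) := ⟨_, rfl⟩
  have hql : q.length = g.length + 1 + g'.length := by
    rw [hq, List.length_take, w1]
    omega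
  have hqv : ∀ i, i ≤ q.length → vx oo up q i = vx oo up w i := by
    intro i hi
    have h1 : w = q ++ w.drop (g.length + 1 + g'.length) := by
      rw [hq]
      exact (List.take_append_drop _ w).symm
    conv_rhs => rw [h1]
    rw [vx_append (by omega)]
  have hqlev : ∀ i, i ≤ q.length → lev q i = lev w i := fun i hi => by
    unfold lev
    rw [hqv i hi]
  have hlg : lev g g.length = 3 * h := (mem_Brd.1 hg).2.2.2
  have hlr : ∀ k, k ≤ g'.length → lev r k = lev g' k := fun k hk => by
    unfold lev
    rw [hr k hk]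
  have hg1 := (mem_Brd.1 hg').1
  obtain ⟨c, M, hM, f1, f2, f3, f4, f5, f6, f7, f8, f9⟩ := fold_step (q := q) (e := g.length) hgl (by omega)
    (fun i k hik hk => by
      rw [hqv i (by omega), hqv k hk]
      exact hinj i k hik (by omega))
    (fun j j1 j2 => by
      rw [hqlev j (by omega), hqlev g.length (by omega), (w4 j j2).1, (w4 g.length le_rfl).1, hlg]
      exact (mem_Brd.1 hg).1 j j1 j2)
    (by
      rw [hqlev _ (by omega), hqlev g.length (by omega), (w4 g.length le_rfl).1, hlg]
      have h1 := (w5 0).1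
      rw [Nat.add_zero, lev_zero] at h1
      rw [h1]
      omega)
    (by
      rw [hqlev _ (by omega), hqlev g.length (by omega), (w4 g.length le_rfl).1, hlg]
      have h1 := (w5 1).1
      rw [show g.length + 2 = g.length + 1 + 1 from rfl, h1, hlr 1 hgl']
      have h2 := (hg1 1 le_rfl hgl').1
      omega)
  have hc : c = !lst g := by
    have e1 : q[g.length - 1]? = some c := by
      rw [f2, List.getElem?_append_right (by simp), List.length_take, Nat.min_eq_left (by omega), Nat.sub_self]
      rfl
    have e2 : q[g.length - 1]? = some (!lst g) := by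
      rw [hq, List.getElem?_take_of_lt (by omega), hw, List.getElem?_append_right (by simp), List.length_dropLast,
        Nat.sub_self]
      rfl
    rw [e1] at e2
    exact Option.some.inj e2
  have hg2 : q.take (g.length - 1) ++ [!c] = g := by
    rw [hc, Bool.not_not, hq, List.take_take, Nat.min_eq_left (by omega), hw, List.take_append_of_le_length (by simp),
      ← List.length_dropLast, List.take_length]
    exact (split_lst hne).symm
  have key := f9 g' (fun k hk => ⟨by omega, by
    have e1 := w3 0
    have e2 := w3 k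
    rw [hqv _ (by omega), hqv _ (by omega), e2]
    rw [Nat.add_zero] at e1
    rw [e1, hr k hk]
    have e3 : vx oo up r 0 = 0 := rfl
    rw [e3]
    abel⟩)
  rw [hg2, hc, Bool.not_not] at key
  exact key

lemma cuf_blk (g : List Bool) (gs : List (List Bool)) : cuf (g :: gs) = blk g ++ cuf gs := by
  rw [cuf_eq, cuf_eq]
  rfl

/-- the vertices of the first leaf -/
lemma vx_blk {g : List Bool} {h : ℕ} (hg : g ∈ Brd h) (hh : 1 ≤ h) (r : List Bool) {k : ℕ} (hk : k ≤ g.length) :
    vx oo up (blk g ++ r) k = vx oo up g k := by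
  rw [blk_app]
  exact (unf_step (r := r) hg hh).2.1 k hk

/-- the direction behind the first fold -/
lemma dx_blk {g : List Bool} {h : ℕ} (hg : g ∈ Brd h) (hh : 1 ≤ h) (r : List Bool) :
    dx up (blk g ++ r) (g.length + 1) = -up := by
  have h3 := (unf_step (r := r) hg hh).2.2
  rw [← blk_app] at h3
  have h0 := h3 0
  have h1 := h3 1
  have e0 : vx oo up r 0 = 0 := rfl
  have e1 : vx oo up r 1 = up := by
    show vs oo up (tf r) 1 = up
    rw [vs_succ]
    exact zero_add _
  rw [e0, sub_zero, Nat.add_zero] at h0
  rw [e1, show g.length + 1 + 1 = (g.length + 1) + 1 from rfl, vx_succ, h0] at h1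
  rw [sub_eq_add_neg] at h1
  exact add_left_cancel h1

theorem Cyc.fold {g g' : List Bool} {gs : List (List Bool)} (hc : Cyc (g :: g' :: gs)) : LFold g g' := by
  obtain ⟨h, hh, hg⟩ := hc.brd g (List.mem_cons_self)
  obtain ⟨h', hh', hg'⟩ := hc.brd g' (List.mem_cons_of_mem _ List.mem_cons_self)
  have hz := hc.cw
  rw [cuf_blk, cuf_blk] at hz
  have hl1 := blk_length (Brd_ne_nil hg hh)
  have hl2 := blk_length (Brd_ne_nil hg' hh')
  refine lfold_of (r := blk g' ++ cuf gs) hg hh hg' hh' (fun k hk => vx_blk hg' hh' _ hk) ?_ ?_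
  · rw [List.length_append]
    omega
  · intro i k hik hk
    refine hz.2.2.2 i k hik ?_
    rw [List.length_append, List.length_append]
    omega

theorem Cyc.rot1 {g : List Bool} {gs : List (List Bool)} (hc : Cyc (g :: gs)) : Cyc (gs ++ [g]) := by
  obtain ⟨h, hh, hg⟩ := hc.brd g (List.mem_cons_self)
  have hl := blk_length (Brd_ne_nil hg hh)
  refine ⟨?_, ?_, ?_, ?_⟩
  · have := hc.even
    rw [List.length_cons] at this
    rw [List.length_append]
    exact this
  · have := hc.two
    rw [List.length_cons] at this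
    rw [List.length_append]
    exact this
  · intro x hx
    rw [List.mem_append, List.mem_singleton] at hx
    exact hc.brd x (List.mem_cons.2 hx.symm)
  · rw [cuf_rotate]
    refine rotate_mem_CwN hc.cw ?_ ?_
    · rw [cuf_blk, List.length_append]
      omega
    · rw [cuf_blk, hl]
      exact dx_blk hg hh _

theorem Cyc.rotate {gs : List (List Bool)} (hc : Cyc gs) (n : ℕ) : Cyc (gs.rotate n) := by
  induction n with
  | zero => rwa [List.rotate_zero]
  | succ n ih =>
    rw [← List.rotate_rotate]
    obtain ⟨g, l, hl⟩ : ∃ g l, gs.rotate n = g :: l := by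
      have h2 := ih.two
      cases h : gs.rotate n with
      | nil =>
        rw [h] at h2
        simp at h2
      | cons a b => exact ⟨a, b, rfl⟩
    rw [hl] at ih ⊢
    rw [List.rotate_cons_succ, List.rotate_zero]
    exact ih.rot1

/-- consecutive leaves, also the last one and the first one, are folded -/
theorem Cyc.fold_mod {gs : List (List Bool)} (hc : Cyc gs) {i : ℕ} (hi : i < gs.length) :
    LFold gs[i] (gs[(i + 1) % gs.length]'(Nat.mod_lt _ (by omega))) := by
  have hr := hc.rotate i
  have h2 := hr.two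
  rw [List.length_rotate] at h2
  obtain ⟨a, b, l, hl⟩ : ∃ a b l, gs.rotate i = a :: b :: l := by
    have h3 : 2 ≤ (gs.rotate i).length := hr.two
    match h : gs.rotate i, h3 with
    | [], h3 => exact absurd h3 (by simp)
    | [_], h3 => exact absurd h3 (by simp)
    | a :: b :: l, _ => exact ⟨a, b, l, rfl⟩
  have ea : a = gs[i] := by
    have e := List.getElem?_rotate (l := gs) (n := i) (m := 0) (by omega)
    rw [hl, Nat.zero_add, Nat.mod_eq_of_lt hi, List.getElem?_eq_getElem hi] at e
    exact Option.some.inj e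
  have eb : b = gs[(i + 1) % gs.length]'(Nat.mod_lt _ (by omega)) := by
    have e := List.getElem?_rotate (l := gs) (n := i) (m := 1) (by omega)
    rw [hl, Nat.add_comm 1 i, List.getElem?_eq_getElem (Nat.mod_lt _ (by omega))] at e
    exact Option.some.inj e
  rw [hl] at hr
  rw [← ea, ← eb]
  exact hr.fold

theorem Cyc.chain {gs : List (List Bool)} (hc : Cyc gs) : gs.IsChain LFold := by
  rw [List.isChain_iff_getElem]
  intro i hi
  have h := hc.fold_mod (i := i) (by omega)
  simp only [Nat.mod_eq_of_lt hi] at h
  exact h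

theorem Cyc.ne {gs : List (List Bool)} (hc : Cyc gs) : gs ≠ [] := by
  rintro rfl
  have := hc.two
  simp at this

/-- the last leaf and the first one are folded -/
theorem Cyc.close {gs : List (List Bool)} (hc : Cyc gs) : LFold (gs.getLast hc.ne) (gs.head hc.ne) := by
  have h2 := hc.two
  have h := hc.fold_mod (i := gs.length - 1) (by omega)
  have e : (gs.length - 1 + 1) % gs.length = 0 := by
    rw [Nat.sub_add_cancel (by omega), Nat.mod_self]
  simp only [e] at h
  rw [List.getLast_eq_getElem, List.head_eq_getElem]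
  exact h

end PLD

end HexObs
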