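import Pool.Agent.PLD.OpDefs
import Pool.Agent.TightN.SK1
import Pool.Agent.PHW.HangA
import Pool.Agent.SDN.NormT
import Pool.Agent.SDN.XT
import Pool.Agent.Tight.Prob

/-!
PLD (E1'), open chains of leaves with weights: the first piece, the last piece, the product of the norms.
-/

set_option autoImplicit false

namespace HexObs

namespace PLD

open Finset TS SDN

open scoped ENNReal

open Rec8 (mb)

variable {C δ : ℝ}

theorem Brd_ne (n : ℕ) : ∃ Y, Y ∈ Brd n := by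
  induction n with
  | zero => exact ⟨[], nil_mem_Brd⟩
  | succ n ih =>
    obtain ⟨Y, hY⟩ := ih
    exact ⟨Y ++ [!true, true], Brd_append hY (step_mem_Brd true)⟩

open Classical in
/-- the last piece behind I ++ M -/
theorem psiE_le {D N j1 : ℕ} {R : List Bool → List Bool → Prop} (hR : RNb R) {i m : ℕ} {I M : List Bool}
    (hI : I ∈ Brd i) (hM : M ∈ Brd m) :
    psiE D N R j1 (I ++ M) ≤ ∑' n : ℕ, ∑' r : ℕ, mu j1 n r * Rec8.sw (Brd n) (fun X =>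
      Rec8.sw {P | P ∈ Irr r ∧ ∃ c : Bool, KRel D I P M ((!c) :: c :: X)} (fun _ => 1)) := by
  have e1 : ∑' n : ℕ, ∑' r : ℕ, mu j1 n r * Rec8.sw (Brd n) (fun X =>
      Rec8.sw {P | P ∈ Irr r ∧ ∃ c : Bool, KRel D I P M ((!c) :: c :: X)} (fun _ => 1)) =
      sB BU (fun X => wE X * sB IU (fun P => wE P * (mu j1 (hgt X) (hgt P) *
        if ∃ c : Bool, KRel D I P M ((!c) :: c :: X) then 1 else 0))) := by
    have e2 : ∀ X : List Bool, sB IU (fun P => wE P * (mu j1 (hgt X) (hgt P) *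
        if ∃ c : Bool, KRel D I P M ((!c) :: c :: X) then 1 else 0)) =
        ∑' r : ℕ, mu j1 (hgt X) r * Rec8.sw {P | P ∈ Irr r ∧ ∃ c : Bool, KRel D I P M ((!c) :: c :: X)} (fun _ => 1) := by
      intro X
      rw [sB_IU (fun r P => mu j1 (hgt X) r * if ∃ c : Bool, KRel D I P M ((!c) :: c :: X) then 1 else 0)]
      refine tsum_congr fun r => ?_
      rw [Rec8.sw_mul_left, Rec8.sw_and]
      congr 1
      refine Rec8.sw_congr fun P _ => ?_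
      congr
    simp only [e2]
    rw [sB_BU (fun n X => ∑' r : ℕ, mu j1 n r *
      Rec8.sw {P | P ∈ Irr r ∧ ∃ c : Bool, KRel D I P M ((!c) :: c :: X)} (fun _ => 1))]
    refine tsum_congr fun n => ?_
    rw [NX_sw_tsum]
    refine tsum_congr fun r => ?_
    rw [Rec8.sw_mul_left]
  rw [e1]
  unfold psiE
  refine sB_mono le_rfl fun X hX => ?_
  rw [← sB_mul]
  refine sB_mono le_rfl fun P hP => ?_
  by_cases h : ∃ Y ∈ BU, X ++ (P ++ Y) ∈ BrR D N ∧ RT D R (I ++ M) (X ++ (P ++ Y))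
  · rw [if_pos h]
    obtain ⟨Y, ⟨y, hY⟩, h1, h2⟩ := h
    obtain ⟨x, hX'⟩ := hX
    obtain ⟨p, hP'⟩ := hP
    rw [if_pos (RT_KRel hR hI hM hX' hP'.1 hY (BrR_sub_HB h1) h2), mul_one]
    exact le_of_eq (by ring)
  · rw [if_neg h]
    exact zero_le

/-- the norm of the last piece -/
theorem psiE_norm (h : Inp C δ) : ∃ K : ℝ, 1 ≤ K ∧ ∀ (D N k j1 : ℕ) (R : List Bool → List Bool → Prop), RNb R →
    2 ^ (k + 4) ≤ D → j1 ≤ k → xT D k (psiE D N R j1) ≤ ENNReal.ofReal (K / Ub j1) := by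
  obtain ⟨K1, hK1, k1h⟩ := k1 h
  refine ⟨16 * K1, by linarith, fun D N k j1 R hR hD hj => ?_⟩
  refine xT_le fun b I hb hI => ?_
  obtain ⟨i, hIi⟩ := hI
  have s1 : Rec8.sw (Fld.BrB b) (fun M => psiE D N R j1 (I ++ M)) ≤
      Rec8.sw (Fld.BrB b) (fun M => ∑' n : ℕ, ∑' r : ℕ, mu j1 n r * Rec8.sw (Brd n) (fun X =>
      Rec8.sw {P | P ∈ Irr r ∧ ∃ c : Bool, KRel D I P M ((!c) :: c :: X)} (fun _ => 1))) := by
    refine Rec8.sw_mono' fun M hM => ?_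
    obtain ⟨m, -, hMm⟩ := hM
    exact psiE_le hR hIi.1 hMm
  refine s1.trans ((fold_sum D b j1 I (mu j1) (mb j1) (fun a n r => mu_le_mb) (fun n r => mu_eq_zero)
    (fun a r => mb_mono (Nat.le_succ a) r) (fun _ _ => 1)).trans ?_)
  have e1 : ∑ a ∈ range (j1 + 2), ∑' r : ℕ, mb j1 a r * Rec8.sw (Irr r) (fun P => KT D b I a P * 1) =
      ∑ a ∈ range (j1 + 2), pm j1 a (fun P => KT D b I a P) := by
    refine Finset.sum_congr rfl fun a _ => ?_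
    unfold pm
    simp only [mul_one]
  rw [e1]
  have h2 := k1h D k j1 b I hD hj hb
  have h3 : (16 : ℝ≥0∞) * (ENNReal.ofReal (K1 / Ub j1) * Sw D k b I) = ENNReal.ofReal (16 * K1 / Ub j1) * Sw D k b I := by
    rw [← mul_assoc, mul_div_assoc, ENNReal.ofReal_mul (by norm_num : (0 : ℝ) ≤ 16)]
    congr 2
    norm_num
  rw [← h3]
  exact mul_le_mul_right h2 _

open Classical in
/-- the first piece -/
theorem fstP_norm (h : Inp C δ) : ∃ K : ℝ, 1 ≤ K ∧ ∀ (D N k : ℕ) (ρ : ℝ) (Φ : List Bool → ℝ≥0∞), Hered Φ →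
    2 ^ (k + 4) ≤ D → D ≤ N → 1 ≤ ρ → UU N ≤ ρ * Ub k → fstP D N k Φ ≤ ENNReal.ofReal (K * ρ) * xT D k Φ := by
  obtain ⟨K1, hK1, hrest⟩ := restH h
  obtain ⟨K2, hK2, hn2⟩ := n2 h
  obtain ⟨K3, hK3, havg⟩ := avg_mass
  refine ⟨K2 + K1 * 2 * K3, by nlinarith, fun D N k ρ Φ hΦ hD hDN hρ hU => ?_⟩
  have hUb : 0 < Ub k := Ub_pos k
  have hUN : UU (N + 2 ^ (k + 1)) ≤ 2 * UU N := by
    have h1 : N + 2 ^ (k + 1) ≤ (1 + 1) * N := by
      have h2 : 2 ^ (k + 1) ≤ 2 ^ (k + 4) := Nat.pow_le_pow_right (by norm_num) (by omega)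
      omega
    have h3 := TH7.UU_mul_le 1 N
    have h4 : UU (N + 2 ^ (k + 1)) ≤ UU ((1 + 1) * N) := by
      unfold UU
      exact Finset.sum_le_sum_of_subset_of_nonneg (Finset.range_mono (by omega)) fun _ _ _ => TH7.uu_nonneg _
    refine h4.trans (h3.trans (le_of_eq ?_))
    norm_num
  -- the sum by heights
  have s1 : fstP D N k Φ ≤ ∑' r : ℕ, Rec8.sw (Irr r) (fun P => min 1 ((r : ℝ≥0∞) / 2 ^ k) *
      Rec8.sw {Z | Z ∈ BU ∧ ∃ Y ∈ Brd (2 ^ (k + 1)), Y ++ (P ++ Z) ∈ BrR D (N + 2 ^ (k + 1))} (fun Z => Φ (P ++ Z))) := by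
    rw [← sB_IU (fun r P => min 1 ((r : ℝ≥0∞) / 2 ^ k) *
      Rec8.sw {Z | Z ∈ BU ∧ ∃ Y ∈ Brd (2 ^ (k + 1)), Y ++ (P ++ Z) ∈ BrR D (N + 2 ^ (k + 1))} (fun Z => Φ (P ++ Z)))]
    unfold fstP
    refine sB_mono le_rfl fun P hP => ?_
    have e1 : ∀ (A : List Bool → Prop) (Ψ : List Bool → ℝ≥0∞), Rec8.sw {Z | Z ∈ BU ∧ A Z} Ψ =
        sB BU (fun Z => wE Z * if A Z then Ψ Z else 0) := by
      intro A Ψ
      rw [Rec8.sw_and]
      rfl
    rw [e1, ← sB_mul, ← sB_mul]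
    refine sB_mono le_rfl fun Q hQ => ?_
    by_cases h1 : ∃ Y ∈ BU, hgt Y ≤ 2 ^ (k + 1) ∧ Y ++ (P ++ Q) ∈ BrR D N
    · have h2 : ∃ Y ∈ Brd (2 ^ (k + 1)), Y ++ (P ++ Q) ∈ BrR D (N + 2 ^ (k + 1)) := by
        obtain ⟨Y, hY, h3, h4⟩ := h1
        obtain ⟨Y', hY'⟩ := Brd_ne (2 ^ (k + 1))
        obtain ⟨p, hp⟩ := hP
        obtain ⟨q, hq⟩ := hQ
        obtain ⟨y, hy⟩ := hY
        obtain ⟨t, ht1, ht2, ht3⟩ := h4
        have h5 := Brd_append hy (Brd_append hp.1 hq)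
        have h6 := Brd_height ht3 h5
        rw [hgt_eq hy] at h3
        exact ⟨Y', hY', 2 ^ (k + 1) + (p + q), by omega, by omega, Brd_append hY' (Brd_append hp.1 hq)⟩
      rw [if_pos h1, if_pos h2]
      exact le_of_eq (by ring)
    · rw [if_neg h1]
      exact zero_le
  refine s1.trans ?_
  have h1 : ∀ r : ℕ, Rec8.sw (Irr r) (fun P => min 1 ((r : ℝ≥0∞) / 2 ^ k) *
      Rec8.sw {Z | Z ∈ BU ∧ ∃ Y ∈ Brd (2 ^ (k + 1)), Y ++ (P ++ Z) ∈ BrR D (N + 2 ^ (k + 1))} (fun Z => Φ (P ++ Z))) ≤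
      xT D k Φ * (∑ b ∈ range (k + 1), mb k b r * Rec8.sw (Irr r) (fun P => Sw D k b P)) +
        xT D k Φ * (ENNReal.ofReal (K1 * UU (N + 2 ^ (k + 1))) * (min 1 ((r : ℝ≥0∞) / 2 ^ k) * kap' r)) := by
    intro r
    rw [Rec8.sw_mul_left]
    have h2 : Rec8.sw (Irr r) (fun P =>
        Rec8.sw {Z | Z ∈ BU ∧ ∃ Y ∈ Brd (2 ^ (k + 1)), Y ++ (P ++ Z) ∈ BrR D (N + 2 ^ (k + 1))} (fun Z => Φ (P ++ Z))) ≤
        xT D k Φ * (∑ b ∈ range (k + 1), mb k b r * Rec8.sw (Irr r) (fun P => Sw D k b P)) +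
          xT D k Φ * (ENNReal.ofReal (K1 * UU (N + 2 ^ (k + 1))) * kap' r) := by
      refine (Rec8.sw_mono' (Ψ := fun P => xT D k Φ * (∑ b ∈ range (k + 1), mb k b r * Sw D k b P +
        ENNReal.ofReal (K1 * UU (N + 2 ^ (k + 1))))) fun P hP => hrest D (N + 2 ^ (k + 1)) k (2 ^ (k + 1)) r Φ P hΦ hD le_rfl
          hP).trans (le_of_eq ?_)
      rw [Rec8.sw_mul_left, Rec8.sw_add, mul_add, Rec8.sw_sum, NX_const]
      congr 2
      · exact Finset.sum_congr rfl fun b _ => Rec8.sw_mul_left _ _ _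
      · unfold kap'
        ring
    have hmu1 : min 1 ((r : ℝ≥0∞) / 2 ^ k) ≤ 1 := min_le_left _ _
    calc min 1 ((r : ℝ≥0∞) / 2 ^ k) * _
        ≤ min 1 ((r : ℝ≥0∞) / 2 ^ k) * (xT D k Φ * (∑ b ∈ range (k + 1), mb k b r *
            Rec8.sw (Irr r) (fun P => Sw D k b P)) +
          xT D k Φ * (ENNReal.ofReal (K1 * UU (N + 2 ^ (k + 1))) * kap' r)) := mul_le_mul_right h2 _
      _ = min 1 ((r : ℝ≥0∞) / 2 ^ k) * (xT D k Φ * (∑ b ∈ range (k + 1), mb k b r *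
            Rec8.sw (Irr r) (fun P => Sw D k b P))) +
          xT D k Φ * (ENNReal.ofReal (K1 * UU (N + 2 ^ (k + 1))) * (min 1 ((r : ℝ≥0∞) / 2 ^ k) * kap' r)) := by ring
      _ ≤ 1 * (xT D k Φ * (∑ b ∈ range (k + 1), mb k b r * Rec8.sw (Irr r) (fun P => Sw D k b P))) +
          xT D k Φ * (ENNReal.ofReal (K1 * UU (N + 2 ^ (k + 1))) * (min 1 ((r : ℝ≥0∞) / 2 ^ k) * kap' r)) := by
          gcongr
      _ = _ := by rw [one_mul]
  refine (ENNReal.tsum_le_tsum h1).trans ?_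
  rw [ENNReal.tsum_add, ENNReal.tsum_mul_left, ENNReal.tsum_mul_left, ENNReal.tsum_mul_left]
  have h4 : ∑' r : ℕ, ∑ b ∈ range (k + 1), mb k b r * Rec8.sw (Irr r) (fun P => Sw D k b P) ≤
      ENNReal.ofReal K2 := by
    rw [Summable.tsum_finsetSum (fun b _ => ENNReal.summable)]
    exact hn2 D k hD
  have hKU : 0 ≤ K1 * UU (N + 2 ^ (k + 1)) := mul_nonneg (by linarith) (TH7.UU_nonneg _)
  calc xT D k Φ * ∑' r : ℕ, ∑ b ∈ range (k + 1), mb k b r * Rec8.sw (Irr r) (fun P => Sw D k b P) +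
        xT D k Φ * (ENNReal.ofReal (K1 * UU (N + 2 ^ (k + 1))) * ∑' r : ℕ, min 1 ((r : ℝ≥0∞) / 2 ^ k) * kap' r)
      ≤ xT D k Φ * ENNReal.ofReal K2 +
        xT D k Φ * (ENNReal.ofReal (K1 * UU (N + 2 ^ (k + 1))) * ENNReal.ofReal (K3 / Ub k)) := by
        gcongr
        exact havg k
    _ ≤ xT D k Φ * ENNReal.ofReal (K2 * ρ) + xT D k Φ * ENNReal.ofReal (K1 * 2 * K3 * ρ) := by
        gcongr
        · nlinarith
        · rw [← ENNReal.ofReal_mul hKU]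
          refine ENNReal.ofReal_le_ofReal ?_
          have h5 : K1 * UU (N + 2 ^ (k + 1)) * (K3 / Ub k) ≤ K1 * (2 * UU N) * (K3 / Ub k) := by
            gcongr
          refine h5.trans ?_
          have h6 : K1 * (2 * UU N) * (K3 / Ub k) = K1 * 2 * K3 * (UU N / Ub k) := by ring
          rw [h6]
          have h7 : UU N / Ub k ≤ ρ := (div_le_iff₀ hUb).2 hU
          exact mul_le_mul_of_nonneg_left h7 (by positivity)
    _ = ENNReal.ofReal ((K2 + K1 * 2 * K3) * ρ) * xT D k Φ := by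
        rw [← mul_add, ← ENNReal.ofReal_add (by positivity) (by positivity), mul_comm, add_mul]

/-- the sum over the open chains of a closed leaf -/
theorem chain_prod (h : Inp C δ) : ∃ K : ℝ, 1 ≤ K ∧ ∀ (D N k j1 : ℕ) (ρ : ℝ)
    (Fs : List (List Bool → ℝ≥0∞)) (cs : List ℝ≥0∞), 2 ^ (k + 4) ≤ D → D ≤ N → j1 ≤ k → 1 ≤ ρ →
    UU N ≤ ρ * Ub k → List.Forall₂ (fun F c => Nrm D N k F c) Fs cs →
    fstP D N k (chn D N LFold j1 Fs) ≤ ENNReal.ofReal (K * ρ / Ub j1) * cs.prod := by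
  obtain ⟨K1, hK1, h1⟩ := psiE_norm h
  obtain ⟨K2, hK2, h2⟩ := fstP_norm h
  refine ⟨K1 * K2, by nlinarith, fun D N k j1 ρ Fs cs hD hDN hj hρ hU hF => ?_⟩
  have hD1 : 1 ≤ D := le_trans Nat.one_le_two_pow hD
  have hher : HerD D (Fs.foldr (uF D N LFold) (psiE D N LFold j1)) := foldr_herD hD1 N Fs (psiE_herD hD1 N j1)
  have hchn : chn D N LFold j1 Fs = Fs.foldr (uF D N LFold) (psiE D N LFold j1) := rfl
  rw [hchn]
  refine (h2 D N k ρ _ hher.her hD hDN hρ hU).trans ?_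
  have hUj := Ub_pos j1
  calc ENNReal.ofReal (K2 * ρ) * xT D k (Fs.foldr (uF D N LFold) (psiE D N LFold j1))
      ≤ ENNReal.ofReal (K2 * ρ) * (cs.prod * ENNReal.ofReal (K1 / Ub j1)) := by
        gcongr
        exact (foldr_norm hD1 hF (psiE_herD hD1 N j1)).trans
          (mul_le_mul_right (h1 D N k j1 LFold RNb_LFold hD hj) _)
    _ = ENNReal.ofReal (K1 * K2 * ρ / Ub j1) * cs.prod := by
        rw [mul_comm cs.prod, ← mul_assoc, ← ENNReal.ofReal_mul (by positivity)]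
        congr 2
        ring

/-- the sum over the open chains that start with a whole leaf -/
theorem open_prod (h : Inp C δ) : ∃ K : ℝ, 1 ≤ K ∧ ∀ (D N k : ℕ)
    (Fs : List (List Bool → ℝ≥0∞)) (cs : List ℝ≥0∞), 2 ^ (k + 4) ≤ D →
    List.Forall₂ (fun F c => Nrm D N k F c) Fs cs →
    Rec8.sw (BrR D N) (Fs.foldr (uF D N LFold) (fun _ => 1)) ≤ ENNReal.ofReal (K * UU N) * cs.prod := by
  obtain ⟨K1, hK1, h1⟩ := totH h
  refine ⟨K1 * 2, by linarith, fun D N k Fs cs hD hF => ?_⟩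
  have hD1 : 1 ≤ D := le_trans Nat.one_le_two_pow hD
  have h0 : HerD D (fun _ : List Bool => (1 : ℝ≥0∞)) := ⟨fun _ _ _ => le_rfl, fun _ _ _ _ => le_rfl⟩
  refine (h1 D N k _ (foldr_herD hD1 N Fs h0).her hD).trans ?_
  have hUN := TH7.UU_nonneg N
  calc ENNReal.ofReal (K1 * UU N) * xT D k (Fs.foldr (uF D N LFold) (fun _ => 1))
      ≤ ENNReal.ofReal (K1 * UU N) * (cs.prod * 2) := by
        gcongr
        exact (foldr_norm hD1 hF h0).trans (mul_le_mul_right (xT_one D k) _)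
    _ = ENNReal.ofReal (K1 * 2 * UU N) * cs.prod := by
        have e1 : ENNReal.ofReal (K1 * 2 * UU N) = ENNReal.ofReal (K1 * UU N) * 2 := by
          have : K1 * 2 * UU N = (K1 * UU N) * 2 := by ring
          rw [this, ENNReal.ofReal_mul (by positivity)]
          norm_num
        rw [e1]
        ring

/-- the weight 1 -/
theorem nrm_one (h : Inp C δ) : ∃ K : ℝ, 1 ≤ K ∧ ∀ (D N k : ℕ) (ρ : ℝ), 2 ^ (k + 4) ≤ D → 1 ≤ ρ →
    UU N ≤ ρ * Ub k → Nrm D N k (fun _ => 1) (ENNReal.ofReal (K * ρ)) := by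
  obtain ⟨K, hK, hA⟩ := nA h
  refine ⟨K, hK, fun D N k ρ hD hρ hU Φ hΦ => ?_⟩
  rw [uF_one]
  exact hA D N k LFold ρ Φ hΦ.her RNb_LFold hD hρ hU

end PLD

end HexObs
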