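import Pool.Agent.PLD.Sel
import Pool.Agent.PLD.OpNorm
import Pool.Agent.PLD.CycA

/-!
PLD (E1'): norm of the bad weight, open lists, size of Ub.
-/

set_option autoImplicit false

namespace HexObs

namespace PLD

open Finset TS SDN

open scoped ENNReal

variable {C δ : ℝ}

/-- lower bound of the renewal function -/
theorem Ub_low : ∃ C : ℝ, 1 ≤ C ∧ ∀ j : ℕ, (2 : ℝ) ^ ((3 / 4 : ℝ) * j) ≤ C * Ub j := by
  obtain ⟨C, hC, h⟩ := Ex.P2.main (fun n => HexObs.bT_nonneg n) (fun _ _ h => Pool.Agent.EXL.bT_anti h)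
    (fun _ => rfl) Pool.Agent.EXL.Glue.relE_bT
  refine ⟨max 1 C, le_max_left _ _, fun j => ?_⟩
  have h0 : (0 : ℝ) < 2 ^ j := by positivity
  have h1 : (2 : ℝ) ^ ((3 / 4 : ℝ) * j) = 2 ^ j * ((2 ^ j : ℝ)) ^ (-(1 / 4) : ℝ) := by
    rw [← Real.rpow_natCast 2 j, ← Real.rpow_mul (by norm_num), ← Real.rpow_add (by norm_num)]
    congr 1
    ring
  have h2 : (2 ^ j : ℝ) * (((2 ^ j : ℝ)) ^ (-(1 / 4) : ℝ) / C) ≤ Ub j := by
    unfold Ub UU
    have h3 : ∑ t ∈ Icc 1 (2 ^ j), uu t ≤ ∑ t ∈ range (2 ^ j + 1), uu t := by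
      refine Finset.sum_le_sum_of_subset_of_nonneg ?_ fun t _ _ => TH7.uu_nonneg t
      intro t ht
      rw [mem_Icc] at ht
      rw [mem_range]
      omega
    refine le_trans ?_ h3
    have h4 : ∑ t ∈ Icc 1 (2 ^ j), (((2 ^ j : ℝ)) ^ (-(1 / 4) : ℝ) / C) ≤ ∑ t ∈ Icc 1 (2 ^ j), uu t := by
      refine Finset.sum_le_sum fun t ht => ?_
      rw [mem_Icc] at ht
      refine le_trans ?_ (h t ht.1).1
      refine div_le_div_of_nonneg_right ?_ hC.le
      have h5 : (t : ℝ) ≤ 2 ^ j := by exact_mod_cast ht.2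
      have h6 : (0 : ℝ) < t := by exact_mod_cast ht.1
      exact Real.rpow_le_rpow_of_nonpos h6 h5 (by norm_num)
    refine le_trans (le_of_eq ?_) h4
    rw [Finset.sum_const, Nat.card_Icc, nsmul_eq_mul]
    push_cast
    ring
  rw [h1]
  have h7 : (2 ^ j : ℝ) * ((2 ^ j : ℝ)) ^ (-(1 / 4) : ℝ) ≤ C * Ub j := by
    have h8 := mul_le_mul_of_nonneg_left h2 hC.le
    refine le_trans (le_of_eq ?_) h8
    field_simp
  refine h7.trans (mul_le_mul_of_nonneg_right (le_max_right _ _) (Ub_pos j).le)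

/-- norm of the bad weight -/
theorem nrm_bet (h : Inp C δ) : ∃ K c : ℝ, 1 ≤ K ∧ 0 < c ∧ ∀ (D N k n : ℕ) (ρ : ℝ), 2 ^ (k + 4) ≤ D → 1 ≤ ρ →
    UU N ≤ ρ * Ub k → 3 ≤ n → 2 * n ≤ k →
    Nrm D N k (bet k (k - n) (k - 2 * n)) (ENNReal.ofReal (K * ρ * (2 : ℝ) ^ (-(c * n)))) := by
  obtain ⟨K, c, hK, hc, hB⟩ := nB h
  have hk0 := kap0_pos
  refine ⟨3 * K, min c kap0, by linarith, lt_min hc hk0, fun D N k n ρ hD hρ hU hn hnk Φ hΦ => ?_⟩
  rw [uF_bet]
  refine (hB D N k (k - n) (k - 2 * n) LFold ρ Φ hΦ.her RNb_LFold hD hρ hU (by omega) (by omega)).trans ?_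
  refine mul_le_mul_left (ENNReal.ofReal_le_ofReal ?_) _
  have e1 : (k : ℝ) - ((k - n : ℕ) : ℝ) = n := by
    rw [Nat.cast_sub (by omega)]
    ring
  have h1 : (2 : ℝ) ^ (-(c * ((k : ℝ) - ((k - n : ℕ) : ℝ)))) ≤ (2 : ℝ) ^ (-(min c kap0 * n)) := by
    rw [e1]
    refine Real.rpow_le_rpow_of_exponent_le (by norm_num) (neg_le_neg ?_)
    exact mul_le_mul_of_nonneg_right (min_le_left _ _) (Nat.cast_nonneg _)
  have h2 : Ub (k - 2 * n) / Ub (k - n) ≤ 2 * (2 : ℝ) ^ (-(min c kap0 * n)) := by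
    have h3 := Ub_growth (a := k - 2 * n) (b := k - n) (by omega)
    have e2 : ((k - n : ℕ) : ℝ) - ((k - 2 * n : ℕ) : ℝ) = n := by
      rw [Nat.cast_sub (by omega), Nat.cast_sub (by omega)]
      push_cast
      ring
    rw [e2] at h3
    have h4 := Ub_pos (k - n)
    have h5 : (0 : ℝ) < (2 : ℝ) ^ (kap0 * n) := Real.rpow_pos_of_pos (by norm_num) _
    have h6 : (2 : ℝ) ^ (-(kap0 * n)) ≤ (2 : ℝ) ^ (-(min c kap0 * n)) := by
      refine Real.rpow_le_rpow_of_exponent_le (by norm_num) (neg_le_neg ?_)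
      exact mul_le_mul_of_nonneg_right (min_le_right _ _) (Nat.cast_nonneg _)
    rw [div_le_iff₀ h4]
    have h7 : Ub (k - 2 * n) ≤ 2 * (2 : ℝ) ^ (-(kap0 * n)) * Ub (k - n) := by
      rw [Real.rpow_neg (by norm_num)]
      have : 2 * ((2 : ℝ) ^ (kap0 * n))⁻¹ * Ub (k - n) = 2 * Ub (k - n) / (2 : ℝ) ^ (kap0 * n) := by
        field_simp
      rw [this, le_div_iff₀ h5]
      exact h3
    refine h7.trans ?_
    gcongr
  have h8 : 0 ≤ K * ρ := by positivity
  calc K * ρ * ((2 : ℝ) ^ (-(c * ((k : ℝ) - ((k - n : ℕ) : ℝ)))) + Ub (k - 2 * n) / Ub (k - n))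
      ≤ K * ρ * ((2 : ℝ) ^ (-(min c kap0 * n)) + 2 * (2 : ℝ) ^ (-(min c kap0 * n))) := by gcongr
    _ = 3 * K * ρ * (2 : ℝ) ^ (-(min c kap0 * n)) := by ring

/-! ### open lists -/

/-- open chains behind the leaf t -/
def OP (D N : ℕ) : List Bool → List (List Bool) → Prop
  | _, [] => True
  | t, g :: gs => g ∈ BrR D N ∧ RT D LFold t g ∧ OP D N g gs

open Classical in
lemma sum_OP (D N : ℕ) : ∀ (Fs : List (List Bool → ℝ≥0∞)) (t : List Bool),
    ∑' gs : List (List Bool), (if OP D N t gs then wF Fs gs else 0) ≤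
      Fs.foldr (uF D N LFold) (fun _ => 1) t := by
  intro Fs
  induction Fs with
  | nil =>
    intro t
    rw [tsum_eq_single []]
    · show (if OP D N t [] then (1 : ℝ≥0∞) else 0) ≤ 1
      split_ifs <;> simp
    · intro gs hgs
      rcases gs with _ | ⟨g, gs⟩
      · exact absurd rfl hgs
      · show (if OP D N t (g :: gs) then (0 : ℝ≥0∞) else 0) = 0
        split_ifs <;> rfl
  | cons F Fs ih =>
    intro t
    have hs : Function.support (fun gs : List (List Bool) => if OP D N t gs then wF (F :: Fs) gs else 0) ⊆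
        Set.range fun p : List Bool × List (List Bool) => p.1 :: p.2 := by
      intro gs hgs
      rcases gs with _ | ⟨g, gs⟩
      · exfalso
        apply hgs
        show (if OP D N t [] then (0 : ℝ≥0∞) else 0) = 0
        split_ifs <;> rfl
      · exact ⟨(g, gs), rfl⟩
    rw [← cons_inj.tsum_eq hs, ENNReal.tsum_prod']
    show _ ≤ uF D N LFold F (Fs.foldr (uF D N LFold) (fun _ => 1)) t
    have hd : ∀ Φ : List Bool → ℝ≥0∞, uF D N LFold F Φ t = ∑' g : List Bool,
        Set.indicator {g' | g' ∈ BrR D N ∧ RT D LFold t g'} (fun g' => wE g' * (F g' * Φ g')) g := fun Φ =>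
      tsum_subtype {g' | g' ∈ BrR D N ∧ RT D LFold t g'} (fun g' => wE g' * (F g' * Φ g'))
    rw [hd]
    refine ENNReal.tsum_le_tsum fun g => ?_
    by_cases hg : g ∈ {g' | g' ∈ BrR D N ∧ RT D LFold t g'}
    · rw [Set.indicator_of_mem hg]
      calc ∑' gs : List (List Bool), (if OP D N t (g :: gs) then wF (F :: Fs) (g :: gs) else 0)
          ≤ ∑' gs : List (List Bool), wE g * F g * (if OP D N g gs then wF Fs gs else 0) := by
            refine ENNReal.tsum_le_tsum fun gs => ?_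
            by_cases h1 : OP D N t (g :: gs)
            · rw [if_pos h1, if_pos h1.2.2]
              exact le_rfl
            · rw [if_neg h1]
              exact bot_le
        _ = wE g * F g * ∑' gs : List (List Bool), (if OP D N g gs then wF Fs gs else 0) :=
            ENNReal.tsum_mul_left
        _ ≤ wE g * F g * Fs.foldr (uF D N LFold) (fun _ => 1) g := mul_le_mul_right (ih g) _
        _ = wE g * (F g * Fs.foldr (uF D N LFold) (fun _ => 1) g) := mul_assoc _ _ _
    · rw [Set.indicator_of_notMem hg]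
      refine le_of_eq (ENNReal.tsum_eq_zero.2 fun gs => ?_)
      rw [if_neg]
      intro h1
      exact hg ⟨h1.1, h1.2.1⟩

lemma OP_of {D N : ℕ} : ∀ (gs : List (List Bool)) (g : List Bool), List.IsChain LFold (g :: gs) →
    (∀ x ∈ g :: gs, x ∈ BrR D N) → OP D N g gs := by
  intro gs
  induction gs with
  | nil => exact fun _ _ _ => trivial
  | cons g' gs ih =>
    intro g hch hx
    have h1 := List.isChain_cons_cons.1 hch
    exact ⟨hx g' (by simp), RT_of (BrR_sub_HB (hx g (by simp))) h1.1,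
      ih g' h1.2 fun x hx' => hx x (List.mem_cons_of_mem _ hx')⟩

open Classical in
/-- sum over open lists -/
theorem openL (D N : ℕ) (Fs : List (List Bool → ℝ≥0∞)) (S : Set (List (List Bool)))
    (hS : ∀ gs ∈ S, gs.IsChain LFold ∧ ∀ g ∈ gs, g ∈ BrR D N) :
    ∑' gs : S, cW (fun _ => 1) Fs gs.1 ≤ Rec8.sw (BrR D N) (Fs.foldr (uF D N LFold) (fun _ => 1)) := by
  rw [tsum_subtype S (fun gs => cW (fun _ => 1) Fs gs)]
  have hs : Function.support (S.indicator (fun gs => cW (fun _ => 1) Fs gs)) ⊆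
      Set.range fun p : List Bool × List (List Bool) => p.1 :: p.2 := by
    intro gs hgs
    rcases gs with _ | ⟨g, gs⟩
    · exfalso
      apply hgs
      by_cases h : [] ∈ S
      · rw [Set.indicator_of_mem h]
        rfl
      · rw [Set.indicator_of_notMem h]
    · exact ⟨(g, gs), rfl⟩
  rw [← cons_inj.tsum_eq hs, ENNReal.tsum_prod', Rec8.sw_ind]
  refine ENNReal.tsum_le_tsum fun g => ?_
  by_cases hg : g ∈ BrR D N
  · rw [if_pos hg]
    calc ∑' gs : List (List Bool), S.indicator (fun gs => cW (fun _ => 1) Fs gs) (g :: gs)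
        ≤ ∑' gs : List (List Bool), wE g * (if OP D N g gs then wF Fs gs else 0) := by
          refine ENNReal.tsum_le_tsum fun gs => ?_
          by_cases h1 : (g :: gs) ∈ S
          · rw [Set.indicator_of_mem h1, if_pos (OP_of gs g (hS _ h1).1 (hS _ h1).2)]
            show wE g * 1 * wF Fs gs ≤ _
            rw [mul_one]
          · rw [Set.indicator_of_notMem h1]
            exact bot_le
      _ = wE g * ∑' gs : List (List Bool), (if OP D N g gs then wF Fs gs else 0) := ENNReal.tsum_mul_left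
      _ ≤ _ := mul_le_mul_right (sum_OP D N Fs g) _
  · rw [if_neg hg]
    refine le_of_eq (ENNReal.tsum_eq_zero.2 fun gs => ?_)
    rw [Set.indicator_of_notMem]
    intro h1
    exact hg ((hS _ h1).2 g (by simp))

end PLD

end HexObs
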