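import Pool.Agent.PLD.FinQ

/-!
PLD, final part (E1'): the theorem for words from the lists.
-/

set_option autoImplicit false

namespace HexObs

namespace PLD

open Finset TS SDN

open scoped ENNReal

variable {K c : ℝ}

lemma nb_crude {L b : ℕ} {g : List Bool} (hg : g ∈ WL (L + 2)) (hb : b ≤ L) : (nb b g : ℝ) ≤ 4 ^ (L - b + 4) := by
  have h := DimMain.nb_box hg (L + 3 - b) b (by omega)
  have e : L + 3 - b + 1 = L - b + 4 := by omega
  rw [e] at h
  exact_mod_cast h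

lemma list_sum_le {f : List Bool → ℕ} {X : ℝ} : ∀ gs : List (List Bool), (∀ g ∈ gs, (f g : ℝ) ≤ X) →
    (((gs.map f).sum : ℕ) : ℝ) ≤ gs.length * X := by
  intro gs
  induction gs with
  | nil => intro _; simp
  | cons g gs ih =>
    intro h
    have h1 := ih fun g hg => h g (List.mem_cons_of_mem _ hg)
    have h2 := h g (by simp)
    rw [List.map_cons, List.sum_cons, List.length_cons]
    push_cast
    push_cast at h1
    linarith

open Classical in
lemma split_sum {S T : Set (List (List Bool))} {f : List (List Bool) → ℝ≥0∞} {x y : ℝ≥0∞}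
    (h1 : ∀ gs ∈ S, gs ∉ T → f gs ≤ x) (h2 : ∀ gs ∈ S, f gs ≤ y) :
    ∑' gs : S, SDN.wl gs.1 * f gs.1 ≤ x * WS S + y * WS (S ∩ T) := by
  have e1 : ∑' gs : S, SDN.wl gs.1 * f gs.1 = ∑' gs, S.indicator (fun gs => SDN.wl gs * f gs) gs :=
    tsum_subtype S (fun gs => SDN.wl gs * f gs)
  have e2 : ∀ S : Set (List (List Bool)), WS S = ∑' gs, S.indicator SDN.wl gs := fun S => tsum_subtype S SDN.wl
  rw [e1, e2, e2, ← ENNReal.tsum_mul_left, ← ENNReal.tsum_mul_left, ← ENNReal.tsum_add]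
  refine ENNReal.tsum_le_tsum fun gs => ?_
  by_cases hS : gs ∈ S
  · rw [Set.indicator_of_mem hS, Set.indicator_of_mem hS]
    by_cases hT : gs ∈ T
    · rw [Set.indicator_of_mem (show gs ∈ S ∩ T from ⟨hS, hT⟩)]
      refine le_trans ?_ le_add_self
      rw [mul_comm]
      exact mul_le_mul_left (h2 gs hS) _
    · refine le_trans ?_ le_self_add
      rw [mul_comm]
      exact mul_le_mul_left (h1 gs hS hT) _
  · rw [Set.indicator_of_notMem hS]
    exact zero_le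

/-- short lists -/
lemma small_lists (hS : Sel K c) (hT : TallN) (m : ℕ) : ∃ C : ℝ, 0 ≤ C ∧ (Even m → 2 ≤ m → ∀ L : ℕ,
    WS (SK m L 0) ≤ ENNReal.ofReal (C * (1 / 8) ^ L)) := by
  by_cases hm : Even m ∧ 2 ≤ m
  swap
  · exact ⟨0, le_rfl, fun h1 h2 => absurd ⟨h1, h2⟩ hm⟩
  obtain ⟨hm2, hm1⟩ := hm
  obtain ⟨Kt, A, B, hKt, hB, hTn⟩ := hT m (by omega)
  obtain ⟨C0, hC0, hnum⟩ := tall_num (A + m + 4) B hB
  have hK := hS.oneK
  have hU0 := Ub_pos 0
  refine ⟨K * m * Ub 0 * Kt * (4 * K) ^ m * C0, by positivity, fun _ _ L => ?_⟩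
  have hNW := hTn L 0 (Nat.zero_le _)
  rw [Nat.sub_zero] at hNW
  have h1 := hS.triv m L 0 (Tl m L 0) _ hm2 hm1 (Nat.zero_le _) (by positivity) hNW
  rw [Nat.sub_zero] at h1
  refine (WS_mono ?_).trans (h1.trans (ENNReal.ofReal_le_ofReal ?_))
  · rintro gs ⟨g1, g2⟩
    exact ⟨g1, W1_of_W2 g2⟩
  · obtain ⟨q, hq⟩ : ∃ q, q = 2 ^ L / B := ⟨_, rfl⟩
    have hnum' := hnum L
    rw [← hq] at hnum' ⊢
    have h4q : (0 : ℝ) < 4 ^ q := by positivity
    have e3 : (K * 2 ^ (L + 2)) ^ m = (4 * K) ^ m * 2 ^ (m * L) := by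
      rw [mul_pow, mul_pow, ← pow_mul, show (L + 2) * m = 2 * m + m * L by ring, pow_add, pow_mul]
      norm_num
      ring
    have h8 : (8 : ℝ) ^ L * (1 / 8) ^ L = 1 := by rw [← mul_pow]; norm_num
    have e8 : (8 : ℝ) ^ L = 2 ^ (3 * L) := by rw [pow_mul]; norm_num
    have h2 : K * m * Ub L * (Kt * 2 ^ (A * L) / 4 ^ q) * (K * 2 ^ (L + 2)) ^ m * 8 ^ L ≤
        K * m * Ub 0 * Kt * (4 * K) ^ m * C0 := by
      calc K * m * Ub L * (Kt * 2 ^ (A * L) / 4 ^ q) * (K * 2 ^ (L + 2)) ^ m * 8 ^ L ≤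
            K * m * (Ub 0 * 2 ^ L) * (Kt * 2 ^ (A * L) / 4 ^ q) * (K * 2 ^ (L + 2)) ^ m * 8 ^ L := by
            gcongr
            exact Ub_le L
        _ = K * m * Ub 0 * Kt * (4 * K) ^ m * (2 ^ ((A + m + 4) * L) / 4 ^ q) := by
            rw [e3, e8, show (A + m + 4) * L = L + A * L + m * L + 3 * L by ring, pow_add, pow_add, pow_add]
            ring
        _ ≤ K * m * Ub 0 * Kt * (4 * K) ^ m * C0 := by
            refine mul_le_mul_of_nonneg_left ?_ (by positivity)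
            rw [div_le_iff₀ h4q]
            exact hnum'
    calc K * m * Ub L * (Kt * 2 ^ (A * L) / 4 ^ q) * (K * 2 ^ (L + 2)) ^ m =
          K * m * Ub L * (Kt * 2 ^ (A * L) / 4 ^ q) * (K * 2 ^ (L + 2)) ^ m * 8 ^ L * (1 / 8) ^ L := by
          rw [mul_assoc _ (8 ^ L : ℝ), h8, mul_one]
      _ ≤ _ := mul_le_mul_of_nonneg_right h2 (by positivity)

/-- the geometric sum over the scales -/
lemma geo_scales {a : ℝ} (ha : 0 ≤ a) (ha2 : a ≤ 1 / 2) (L : ℕ) : ∑ k ∈ range (L + 1), a ^ (L - k) ≤ 2 := by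
  have h := Finset.sum_range_reflect (fun k => a ^ k) (L + 1)
  calc ∑ k ∈ range (L + 1), a ^ (L - k) = ∑ k ∈ range (L + 1), a ^ (L + 1 - 1 - k) := rfl
    _ = ∑ k ∈ range (L + 1), a ^ k := h
    _ ≤ ∑ k ∈ range (L + 1), (1 / 2 : ℝ) ^ k := Finset.sum_le_sum fun k _ => pow_le_pow_left₀ ha ha2 k
    _ ≤ ∑' k : ℕ, ((1 : ℝ) / 2) ^ k := summable_geometric_two.sum_le_tsum _ fun _ _ => by positivity
    _ = 2 := tsum_geometric_two

lemma nb_coarse (z : List Bool) (b : ℕ) : ∀ a : ℕ, (nb b z : ℝ≥0∞) ≤ 4 ^ a * (nb (b + a) z : ℝ≥0∞) := by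
  intro a
  induction a with
  | zero => simp
  | succ a ih =>
    have h1 : (nb (b + a) z : ℝ≥0∞) ≤ 4 * (nb (b + a + 1) z : ℝ≥0∞) := by
      have h2 := nb_four (b + a) z
      calc (nb (b + a) z : ℝ≥0∞) ≤ ((4 * nb (b + a + 1) z : ℕ) : ℝ≥0∞) := by exact_mod_cast h2
        _ = _ := by push_cast; rfl
    refine ih.trans ?_
    rw [pow_succ, mul_assoc]
    exact mul_le_mul_right h1 _

/-- the length of a polygon of a small scale -/
lemma len_small {L : ℕ} {Z : Set (List Bool)} (hZ : ZOK L Z) {z : List Bool} (hz : z ∈ Z) :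
    z.length ≤ 2 * 4 ^ (L + 3) := by
  have hcw := hZ.cw hz
  obtain ⟨h1, h2, h3, h4⟩ := hcw
  have hlen : 0 < z.length := List.length_pos_iff.2 h1
  have hl : z.dropLast.length = z.length - 1 := List.length_dropLast
  have hv : ∀ i, i ≤ z.dropLast.length → vx oo up z.dropLast i = vx oo up z i := by
    intro i hi
    have e : z = z.dropLast ++ [z.getLast h1] := (List.dropLast_append_getLast h1).symm
    conv_rhs => rw [e]
    exact (vx_append (by omega)).symm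
  have hSA : z.dropLast ∈ SA := by
    refine ⟨fun _ _ _ => Set.mem_univ _, ?_⟩
    intro i k hik hk
    rw [hv i (by omega), hv k hk]
    exact h4 i k hik (by omega)
  have hWL : z.dropLast ∈ WL (L + 1) := by
    refine ⟨hSA, fun i hi dir => ?_⟩
    rw [hv i hi]
    have h5 := hZ.box z hz dir i 0 (by omega) (by omega)
    have h6 : row dir (vx oo up z 0) = 0 := by
      have : vx oo up z 0 = oo := rfl
      rw [this]
      cases dir <;> decide
    rwa [h6, sub_zero] at h5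
  have h5 := nb_zero hSA
  have h6 : nb 0 z.dropLast ≤ 4 ^ (L + 3) := DimMain.nb_box hWL (L + 2) 0 (by omega)
  omega

/-- a finite bound for the small scales -/
lemma tiny (N : ℕ) : ∃ C : ℝ, 0 ≤ C ∧ ∀ (b : ℕ) (Z : Set (List Bool)), (∀ z ∈ Z, z.length ≤ N) →
    ∑' z : Z, wE z.1 * (nb b z.1 : ℝ≥0∞) ≤ ENNReal.ofReal C := by
  have hfin : {z : List Bool | z.length ≤ N}.Finite := List.finite_length_le Bool N
  obtain ⟨R, hR⟩ : ∃ R : ℝ≥0∞, R = ∑' _ : {z : List Bool | z.length ≤ N}, (((N + 1 : ℕ) : ℝ≥0∞)) := ⟨_, rfl⟩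
  have hRt : R ≠ ⊤ := by
    rw [hR]
    have := hfin.fintype
    rw [tsum_fintype]
    simp only [Finset.sum_const, nsmul_eq_mul]
    exact ENNReal.mul_ne_top (ENNReal.natCast_ne_top _) (ENNReal.natCast_ne_top _)
  refine ⟨R.toReal, ENNReal.toReal_nonneg, fun b Z hZ => ?_⟩
  rw [ENNReal.ofReal_toReal hRt, hR]
  have h1 : ∑' z : Z, wE z.1 * (nb b z.1 : ℝ≥0∞) ≤ ∑' _ : Z, (((N + 1 : ℕ) : ℝ≥0∞)) := by
    refine ENNReal.tsum_le_tsum fun z => ?_
    have h2 : wE z.1 ≤ 1 := B2b_wE_le_one z.1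
    have h3 : (nb b z.1 : ℝ≥0∞) ≤ ((N + 1 : ℕ) : ℝ≥0∞) := by
      have h4 : nb b z.1 ≤ z.1.length + 1 := by
        refine le_trans Finset.card_image_le ?_
        simp
      exact_mod_cast h4.trans (by have := hZ z.1 z.2; omega)
    calc wE z.1 * (nb b z.1 : ℝ≥0∞) ≤ 1 * ((N + 1 : ℕ) : ℝ≥0∞) := mul_le_mul' h2 h3
      _ = _ := one_mul _
  exact h1.trans (ENNReal.tsum_mono_subtype (fun _ => (((N + 1 : ℕ) : ℝ≥0∞)))
    (show Z ⊆ {z : List Bool | z.length ≤ N} from hZ))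

/-- **the theorem for words** -/
theorem star_of (hS : Sel K c) (hT : TallN) (hR : Red) : Star := by
  classical
  have hK := hS.oneK
  have hc := hS.posc
  obtain ⟨C1, hC1, hred⟩ := hR
  obtain ⟨m, hm⟩ : ∃ m : ℕ, m = 2 * ⌈5 / c⌉₊ + 6 := ⟨_, rfl⟩
  have hm2 : Even m := ⟨⌈5 / c⌉₊ + 3, by omega⟩
  have hm6 : 6 ≤ m := by omega
  have hmc : 10 ≤ c * ((m : ℝ) - 4) := by
    have h1 : 5 / c ≤ (⌈5 / c⌉₊ : ℝ) := Nat.le_ceil _
    rw [div_le_iff₀ hc] at h1
    rw [hm]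
    push_cast
    nlinarith
  obtain ⟨CP, hCP, hP⟩ := lemP hS hT hm2 hm6 hmc
  obtain ⟨e, κ0, CQ, b0, l0, he0, he1, hκ0, hCQ, hQ⟩ := lemQ hS hT hm2 hm6 hmc
  choose Cf hCf0 hCf using small_lists hS hT
  obtain ⟨Cs, hCs⟩ : ∃ Cs : ℝ, Cs = ∑ m' ∈ (range m).filter (fun m' => Even m' ∧ 2 ≤ m'), Cf m' := ⟨_, rfl⟩
  have hCs0 : 0 ≤ Cs := by rw [hCs]; exact Finset.sum_nonneg fun _ _ => hCf0 _
  have hm1 : (1 : ℝ) ≤ m := by exact_mod_cast (by omega : 1 ≤ m)
  -- the sum, with two thresholds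
  have key : ∀ (L b : ℕ) (Z : Set (List Bool)), 6 ≤ L → b ≤ L → ZOK L Z → ∀ (T : Set (List (List Bool))) (X : ℝ) (t : ℕ → ℝ≥0∞),
      (∀ k, ∀ gs ∈ SK m L k, gs ∉ T → (((gs.map (nb b)).sum : ℕ) : ℝ) ≤ m * X) →
      (∀ k, k ≤ L → WS (SK m L k ∩ T) ≤ t k) →
      ∑' z : Z, wE z.1 * (nb b z.1 : ℝ≥0∞) ≤
        ENNReal.ofReal (C1 * (m * X) * (2 * CP * (1 / 4) ^ L)) +
          ENNReal.ofReal (C1 * (m * 4 ^ (L - b + 4))) * (∑ k ∈ range (L + 1), t k) +
          ENNReal.ofReal (C1 * (m * 4 ^ (L - b + 4)) * (Cs * (1 / 8) ^ L)) := by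
    intro L b Z hL hb hZ T X t hX ht
    have hY : ∀ m' k, m' ≤ m → ∀ gs ∈ SK m' L k, (((gs.map (nb b)).sum : ℕ) : ℝ) ≤ m * 4 ^ (L - b + 4) := by
      rintro m' k hm' gs ⟨⟨g1, g2, g3⟩, -⟩
      refine (list_sum_le gs (X := 4 ^ (L - b + 4)) fun g hg => nb_crude (g3 g hg).2.2 hb).trans ?_
      rw [g2]
      have : (m' : ℝ) ≤ m := by exact_mod_cast hm'
      gcongr
    refine (hred m L b Z hm2 (by omega) hL hZ).trans ?_
    refine add_le_add ?_ ?_
    · have h1 : ∀ k ∈ range (L + 1), ∑' gs : SK m L k, SDN.wl gs.1 * ENNReal.ofReal (C1 * ((gs.1.map (nb b)).sum : ℕ)) ≤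
          ENNReal.ofReal (C1 * (m * X) * (CP * (1 / 4) ^ L * (1 / 4) ^ (L - k))) +
            ENNReal.ofReal (C1 * (m * 4 ^ (L - b + 4))) * t k := by
        intro k hk
        rw [mem_range] at hk
        have h2 := hP L k 3 (by omega) le_rfl (by omega)
        have h3 : WS (SK m L k) ≤ ENNReal.ofReal (CP * (1 / 4) ^ L * (1 / 4) ^ (L - k)) := by
          refine (WS_mono ?_).trans (h2.trans (ENNReal.ofReal_le_ofReal ?_))
          · rintro gs ⟨g1, g2⟩
            exact ⟨g1, g2, fun n h3 h4 => by omega⟩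
          · have h6 : (1 / 2 : ℝ) ^ 3 ≤ 1 := by norm_num
            calc CP * (1 / 4) ^ L * (1 / 4) ^ (L - k) * (1 / 2) ^ 3 ≤ CP * (1 / 4) ^ L * (1 / 4) ^ (L - k) * 1 := by
                  gcongr
              _ = _ := mul_one _
        by_cases hX0 : 0 ≤ X
        · refine (split_sum (S := SK m L k) (T := T)
            (f := fun gs => ENNReal.ofReal (C1 * ((gs.map (nb b)).sum : ℕ))) (x := ENNReal.ofReal (C1 * (m * X)))
            (y := ENNReal.ofReal (C1 * (m * 4 ^ (L - b + 4)))) ?_ ?_).trans ?_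
          · intro gs hgs hT'
            exact ENNReal.ofReal_le_ofReal (mul_le_mul_of_nonneg_left (hX k gs hgs hT') (by linarith))
          · intro gs hgs
            exact ENNReal.ofReal_le_ofReal (mul_le_mul_of_nonneg_left (hY m k le_rfl gs hgs) (by linarith))
          · refine add_le_add ?_ (mul_le_mul_right (ht k (by omega)) _)
            rw [ENNReal.ofReal_mul (p := C1 * (m * X)) (by positivity)]
            exact mul_le_mul_right h3 _
        · push Not at hX0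
          refine (split_sum (S := SK m L k) (T := T)
            (f := fun gs => ENNReal.ofReal (C1 * ((gs.map (nb b)).sum : ℕ))) (x := 0)
            (y := ENNReal.ofReal (C1 * (m * 4 ^ (L - b + 4)))) ?_ ?_).trans ?_
          · intro gs hgs hT'
            exfalso
            have h4 := hX k gs hgs hT'
            have h5 : (0 : ℝ) ≤ (((gs.map (nb b)).sum : ℕ) : ℝ) := Nat.cast_nonneg _
            nlinarith
          · intro gs hgs
            exact ENNReal.ofReal_le_ofReal (mul_le_mul_of_nonneg_left (hY m k le_rfl gs hgs) (by linarith))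
          · rw [zero_mul, zero_add]
            exact (mul_le_mul_right (ht k (by omega)) _).trans le_add_self
      refine (Finset.sum_le_sum h1).trans ?_
      rw [Finset.sum_add_distrib, ← Finset.mul_sum]
      refine add_le_add ?_ le_rfl
      by_cases hX0 : 0 ≤ X
      · rw [← ENNReal.ofReal_sum_of_nonneg (fun k _ => by positivity)]
        refine ENNReal.ofReal_le_ofReal ?_
        rw [← Finset.mul_sum, ← Finset.mul_sum]
        have h2 := geo_scales (a := 1 / 4) (by norm_num) (by norm_num) L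
        have h3 : CP * (1 / 4) ^ L * (∑ k ∈ range (L + 1), (1 / 4 : ℝ) ^ (L - k)) ≤ CP * (1 / 4) ^ L * 2 := by
          gcongr
        calc C1 * (m * X) * (CP * (1 / 4) ^ L * (∑ k ∈ range (L + 1), (1 / 4 : ℝ) ^ (L - k))) ≤
              C1 * (m * X) * (CP * (1 / 4) ^ L * 2) := mul_le_mul_of_nonneg_left h3 (by positivity)
          _ = _ := by ring
      · push Not at hX0
        rw [Finset.sum_eq_zero]
        · exact zero_le
        · intro k _
          rw [ENNReal.ofReal_eq_zero]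
          have h4 : (0 : ℝ) ≤ CP * (1 / 4) ^ L * (1 / 4) ^ (L - k) := by positivity
          have h5 : C1 * (m * X) ≤ 0 := by
            have : (m : ℝ) * X ≤ 0 := by nlinarith
            nlinarith
          nlinarith
    · have h1 : ∀ m' ∈ (range m).filter (fun m' => Even m' ∧ 2 ≤ m'),
          ∑' gs : SK m' L 0, SDN.wl gs.1 * ENNReal.ofReal (C1 * ((gs.1.map (nb b)).sum : ℕ)) ≤
            ENNReal.ofReal (C1 * (m * 4 ^ (L - b + 4)) * (Cf m' * (1 / 8) ^ L)) := by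
        intro m' hm'
        rw [mem_filter, mem_range] at hm'
        have h2 := hCf m' hm'.2.1 hm'.2.2 L
        calc ∑' gs : SK m' L 0, SDN.wl gs.1 * ENNReal.ofReal (C1 * ((gs.1.map (nb b)).sum : ℕ)) ≤
            ∑' gs : SK m' L 0, ENNReal.ofReal (C1 * (m * 4 ^ (L - b + 4))) * SDN.wl gs.1 := by
              refine ENNReal.tsum_le_tsum fun gs => ?_
              rw [mul_comm]
              refine mul_le_mul_left (ENNReal.ofReal_le_ofReal (mul_le_mul_of_nonneg_left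
                (hY m' 0 hm'.1.le gs.1 gs.2) (by linarith))) _
          _ = ENNReal.ofReal (C1 * (m * 4 ^ (L - b + 4))) * WS (SK m' L 0) := ENNReal.tsum_mul_left
          _ ≤ ENNReal.ofReal (C1 * (m * 4 ^ (L - b + 4))) * ENNReal.ofReal (Cf m' * (1 / 8) ^ L) :=
              mul_le_mul_right h2 _
          _ = _ := by rw [← ENNReal.ofReal_mul (by positivity)]
      refine (Finset.sum_le_sum h1).trans ?_
      rw [← ENNReal.ofReal_sum_of_nonneg (fun m' _ => by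
        have := hCf0 m'
        positivity), ← Finset.mul_sum, ← Finset.sum_mul, ← hCs]
  obtain ⟨C4, hC4, htiny⟩ := tiny (2 * 4 ^ (5 + 3))
  obtain ⟨κ, hκ⟩ : ∃ κ, κ = min (min e κ0) 1 := ⟨_, rfl⟩
  have hκpos : 0 < κ := by rw [hκ]; exact lt_min (lt_min he0 hκ0) one_pos
  have hκe : κ ≤ e := by rw [hκ]; exact (min_le_left _ _).trans (min_le_left _ _)
  have hκκ : κ ≤ κ0 := by rw [hκ]; exact (min_le_left _ _).trans (min_le_right _ _)
  have hκ1 : κ ≤ 1 := by rw [hκ]; exact min_le_right _ _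
  obtain ⟨C2, hC2⟩ : ∃ C2 : ℝ, C2 = C1 * m * (32 * CP + 512 * CQ + 256 * Cs) := ⟨_, rfl⟩
  have hC20 : 0 ≤ C2 := by rw [hC2]; positivity
  obtain ⟨C3, hC3⟩ : ∃ C3 : ℝ, C3 = C1 * m * (512 * CP + 256 * Cs) := ⟨_, rfl⟩
  have hC30 : 0 ≤ C3 := by rw [hC3]; positivity
  -- the direct bound
  have direct : ∀ (L b : ℕ) (Z : Set (List Bool)), 6 ≤ L → b ≤ L → b0 ≤ b → b + l0 ≤ L → ZOK L Z →
      ∑' z : Z, wE z.1 * (nb b z.1 : ℝ≥0∞) ≤
        ENNReal.ofReal (C2 * (1 / 4) ^ L * (2 : ℝ) ^ ((2 - κ) * ((L : ℝ) - b))) := by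
    intro L b Z hL hb hb0 hbl hZ
    obtain ⟨l, rfl⟩ : ∃ l, L = b + l := ⟨L - b, by omega⟩
    have hlr : ((b + l : ℕ) : ℝ) - b = l := by push_cast; ring
    obtain ⟨X, hX⟩ : ∃ X : ℝ, X = (2 : ℝ) ^ ((2 - e) * (((b + l + 2 : ℕ) : ℝ) - b)) := ⟨_, rfl⟩
    have hX0 : 0 ≤ X := by rw [hX]; positivity
    have h1 := key (b + l) b Z hL hb hZ {gs | W1 (Dn (b + l + 2) b X) gs} X
      (fun k => ENNReal.ofReal (CQ * (1 / 4) ^ (b + l) * (1 / 2) ^ (b + l - k) * (2 : ℝ) ^ (-(κ0 * (((b + l : ℕ) : ℝ) - b)))))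
      (by
        rintro k gs ⟨⟨g1, g2, g3⟩, -⟩ hT
        have h2 := list_sum_le (f := nb b) gs (X := X) fun g hg => by
          by_contra hc
          push Not at hc
          obtain ⟨j, hj, hj2⟩ := List.getElem_of_mem hg
          exact hT ⟨j, hj, by rw [List.getD_eq_getElem _ _ hj, hj2]; exact ⟨(g3 g hg).2.2, hc.le⟩⟩
        rwa [g2] at h2)
      (by
        intro k hk
        have h2 := hQ (b + l) k b hk hb0 hbl
        refine (WS_mono ?_).trans h2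
        rintro gs ⟨⟨g1, g2⟩, g3⟩
        refine ⟨g1, g2, ?_⟩
        rw [← hX]
        exact g3)
    refine h1.trans ?_
    rw [← ENNReal.ofReal_sum_of_nonneg (fun k _ => by positivity), ← ENNReal.ofReal_mul (by positivity),
      ← ENNReal.ofReal_add (by positivity) (by positivity), ← ENNReal.ofReal_add (by positivity) (by positivity)]
    refine ENNReal.ofReal_le_ofReal ?_
    rw [hlr, show b + l - b + 4 = l + 4 by omega]
    obtain ⟨P, hP'⟩ : ∃ P : ℝ, P = (2 : ℝ) ^ ((2 - κ) * (l : ℝ)) := ⟨_, rfl⟩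
    have hP0 : 0 < P := by rw [hP']; positivity
    rw [← hP']
    have hl0 : (0 : ℝ) ≤ l := Nat.cast_nonneg _
    have b1 : X ≤ 16 * P := by
      have h16 : (16 : ℝ) = 2 ^ (4 : ℝ) := by norm_num
      rw [hX, hP', h16, ← Real.rpow_add (by norm_num)]
      refine Real.rpow_le_rpow_of_exponent_le (by norm_num) ?_
      push_cast
      nlinarith
    have e4 : (4 : ℝ) ^ l = (2 : ℝ) ^ (2 * (l : ℝ)) := by
      rw [Real.rpow_mul (by norm_num), Real.rpow_natCast]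
      norm_num
    have b2 : (4 : ℝ) ^ l * (2 : ℝ) ^ (-(κ0 * (l : ℝ))) ≤ P := by
      rw [e4, hP', ← Real.rpow_add (by norm_num)]
      refine Real.rpow_le_rpow_of_exponent_le (by norm_num) ?_
      nlinarith
    have b3 : (4 : ℝ) ^ l * (1 / 8) ^ (b + l) ≤ (1 / 4) ^ (b + l) * P := by
      have h2 : (1 / 8 : ℝ) ^ (b + l) = (1 / 4) ^ (b + l) * (1 / 2) ^ (b + l) := by
        rw [← mul_pow]
        norm_num
      have h3 : (1 / 2 : ℝ) ^ (b + l) ≤ (1 / 2) ^ l := pow_le_pow_of_le_one (by norm_num) (by norm_num) (by omega)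
      have h4 : (4 : ℝ) ^ l * (1 / 2) ^ l ≤ P := by
        have h5 : (1 / 2 : ℝ) ^ l = (2 : ℝ) ^ (-(l : ℝ)) := by
          rw [Real.rpow_neg (by norm_num), Real.rpow_natCast, one_div, inv_pow]
        rw [e4, h5, hP', ← Real.rpow_add (by norm_num)]
        refine Real.rpow_le_rpow_of_exponent_le (by norm_num) ?_
        nlinarith
      rw [h2]
      calc (4 : ℝ) ^ l * ((1 / 4) ^ (b + l) * (1 / 2) ^ (b + l)) ≤ 4 ^ l * ((1 / 4) ^ (b + l) * (1 / 2) ^ l) := by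
            gcongr
        _ = (1 / 4) ^ (b + l) * (4 ^ l * (1 / 2) ^ l) := by ring
        _ ≤ _ := by gcongr
    have b4 := geo_scales (a := 1 / 2) (by norm_num) le_rfl (b + l)
    have hA : C1 * (m * X) * (2 * CP * (1 / 4) ^ (b + l)) ≤ C1 * m * (32 * CP) * ((1 / 4) ^ (b + l) * P) := by
      calc C1 * (m * X) * (2 * CP * (1 / 4) ^ (b + l)) ≤ C1 * (m * (16 * P)) * (2 * CP * (1 / 4) ^ (b + l)) := by gcongr
        _ = _ := by ring
    have hB : C1 * (m * 4 ^ (l + 4)) * (∑ k ∈ range (b + l + 1),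
        CQ * (1 / 4) ^ (b + l) * (1 / 2) ^ (b + l - k) * (2 : ℝ) ^ (-(κ0 * (l : ℝ)))) ≤
        C1 * m * (512 * CQ) * ((1 / 4) ^ (b + l) * P) := by
      rw [← Finset.sum_mul, ← Finset.mul_sum]
      calc C1 * (m * 4 ^ (l + 4)) * (CQ * (1 / 4) ^ (b + l) * (∑ k ∈ range (b + l + 1), (1 / 2 : ℝ) ^ (b + l - k)) *
            (2 : ℝ) ^ (-(κ0 * (l : ℝ)))) ≤ C1 * (m * 4 ^ (l + 4)) * (CQ * (1 / 4) ^ (b + l) * 2 *
            (2 : ℝ) ^ (-(κ0 * (l : ℝ)))) := by gcongr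
        _ = C1 * m * (512 * CQ) * ((1 / 4) ^ (b + l) * (4 ^ l * (2 : ℝ) ^ (-(κ0 * (l : ℝ))))) := by
            rw [pow_add 4 l 4]
            ring
        _ ≤ _ := by gcongr
    have hC : C1 * (m * 4 ^ (l + 4)) * (Cs * (1 / 8) ^ (b + l)) ≤ C1 * m * (256 * Cs) * ((1 / 4) ^ (b + l) * P) := by
      calc C1 * (m * 4 ^ (l + 4)) * (Cs * (1 / 8) ^ (b + l)) = C1 * m * (256 * Cs) * (4 ^ l * (1 / 8) ^ (b + l)) := by
            rw [pow_add 4 l 4]
            ring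
        _ ≤ _ := by gcongr
    rw [hC2]
    linarith
  -- the crude bound
  have crude : ∀ (L b : ℕ) (Z : Set (List Bool)), 6 ≤ L → b ≤ L → ZOK L Z →
      ∑' z : Z, wE z.1 * (nb b z.1 : ℝ≥0∞) ≤ ENNReal.ofReal (C3 * (1 / 4) ^ L * 4 ^ (L - b)) := by
    intro L b Z hL hb hZ
    have h1 := key L b Z hL hb hZ Set.univ 0 (fun k => ENNReal.ofReal (CP * (1 / 4) ^ L * (1 / 4) ^ (L - k)))
      (fun k gs _ hT => absurd (Set.mem_univ _) hT)
      (by
        intro k hk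
        refine (WS_mono ?_).trans ((hP L k 3 hk le_rfl (by omega)).trans (ENNReal.ofReal_le_ofReal ?_))
        · rintro gs ⟨⟨g1, g2⟩, -⟩
          exact ⟨g1, g2, fun n h3 h4 => by omega⟩
        · have h6 : (1 / 2 : ℝ) ^ 3 ≤ 1 := by norm_num
          calc CP * (1 / 4) ^ L * (1 / 4) ^ (L - k) * (1 / 2) ^ 3 ≤ CP * (1 / 4) ^ L * (1 / 4) ^ (L - k) * 1 := by
                gcongr
            _ = _ := mul_one _)
    refine h1.trans ?_
    rw [← ENNReal.ofReal_sum_of_nonneg (fun k _ => by positivity), ← ENNReal.ofReal_mul (by positivity),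
      ← ENNReal.ofReal_add (by positivity) (by positivity), ← ENNReal.ofReal_add (by positivity) (by positivity)]
    refine ENNReal.ofReal_le_ofReal ?_
    have b4 := geo_scales (a := 1 / 4) (by norm_num) (by norm_num) L
    have h8 : (1 / 8 : ℝ) ^ L ≤ (1 / 4) ^ L := pow_le_pow_left₀ (by norm_num) (by norm_num) L
    rw [← Finset.mul_sum, pow_add 4 (L - b) 4, hC3]
    have hB : C1 * (m * (4 ^ (L - b) * 4 ^ 4)) * (CP * (1 / 4) ^ L * (∑ k ∈ range (L + 1), (1 / 4 : ℝ) ^ (L - k))) ≤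
        C1 * (m * (4 ^ (L - b) * 4 ^ 4)) * (CP * (1 / 4) ^ L * 2) := by gcongr
    have hC : C1 * (m * (4 ^ (L - b) * 4 ^ 4)) * (Cs * (1 / 8) ^ L) ≤ C1 * (m * (4 ^ (L - b) * 4 ^ 4)) * (Cs * (1 / 4) ^ L) := by
      gcongr
    nlinarith
  refine ⟨C2 * 4 ^ b0 + C3 * 4 ^ (l0 + b0 + 6) + C4 * 4 ^ 6 + 1, κ, by positivity, hκpos, hκ1, ?_⟩
  intro L b1 Z hb1 hZ
  obtain ⟨P, hP'⟩ : ∃ P : ℝ, P = (2 : ℝ) ^ ((2 - κ) * ((L : ℝ) - b1)) := ⟨_, rfl⟩
  have hb1r : (b1 : ℝ) ≤ L := by exact_mod_cast hb1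
  have hP1 : 1 ≤ P := by
    rw [hP']
    exact Real.one_le_rpow (by norm_num) (mul_nonneg (by linarith) (by linarith))
  rw [← hP']
  have hq : (0 : ℝ) < (1 / 4) ^ L := by positivity
  have hqP : (1 / 4 : ℝ) ^ L ≤ (1 / 4) ^ L * P := le_mul_of_one_le_right hq.le hP1
  rcases Nat.lt_or_ge L 6 with hL | hL
  · refine (htiny b1 Z ?_).trans (ENNReal.ofReal_le_ofReal ?_)
    · intro z hz
      refine (len_small hZ hz).trans ?_
      exact Nat.mul_le_mul_left _ (Nat.pow_le_pow_right (by norm_num) (by omega))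
    · have h1 : (1 : ℝ) ≤ 4 ^ 6 * (1 / 4) ^ L := by
        have h2 : (1 / 4 : ℝ) ^ 6 ≤ (1 / 4) ^ L := pow_le_pow_of_le_one (by norm_num) (by norm_num) (by omega)
        calc (1 : ℝ) = 4 ^ 6 * (1 / 4) ^ 6 := by norm_num
          _ ≤ _ := by gcongr
      have h3 : C4 ≤ C4 * 4 ^ 6 * ((1 / 4) ^ L * P) := by
        calc C4 = C4 * 1 := (mul_one _).symm
          _ ≤ C4 * (4 ^ 6 * (1 / 4) ^ L) := by gcongr
          _ = C4 * 4 ^ 6 * (1 / 4) ^ L := by ring
          _ ≤ _ := by gcongr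
      have h4 : 0 ≤ (C2 * 4 ^ b0 + C3 * 4 ^ (l0 + b0 + 6) + 1) * ((1 / 4) ^ L * P) := by positivity
      calc C4 ≤ C4 * 4 ^ 6 * ((1 / 4) ^ L * P) + (C2 * 4 ^ b0 + C3 * 4 ^ (l0 + b0 + 6) + 1) * ((1 / 4) ^ L * P) := by
            linarith
        _ = _ := by ring
  · rcases Nat.lt_or_ge (L - b1) (l0 + b0 + 6) with hl | hl
    · refine (crude L b1 Z hL hb1 hZ).trans (ENNReal.ofReal_le_ofReal ?_)
      have h1 : (4 : ℝ) ^ (L - b1) ≤ 4 ^ (l0 + b0 + 6) := pow_le_pow_right₀ (by norm_num) hl.le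
      have h4 : 0 ≤ (C2 * 4 ^ b0 + C4 * 4 ^ 6 + 1) * ((1 / 4) ^ L * P) := by positivity
      calc C3 * (1 / 4) ^ L * 4 ^ (L - b1) ≤ C3 * ((1 / 4) ^ L * P) * 4 ^ (l0 + b0 + 6) := by gcongr
        _ ≤ C3 * ((1 / 4) ^ L * P) * 4 ^ (l0 + b0 + 6) + (C2 * 4 ^ b0 + C4 * 4 ^ 6 + 1) * ((1 / 4) ^ L * P) := by
            linarith
        _ = _ := by ring
    · have h4 : 0 ≤ (C3 * 4 ^ (l0 + b0 + 6) + C4 * 4 ^ 6 + 1) * ((1 / 4) ^ L * P) := by positivity
      rcases Nat.lt_or_ge b1 b0 with hb | hb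
      · have h1 := direct L b0 Z hL (by omega) le_rfl (by omega) hZ
        have h2 : ∑' z : Z, wE z.1 * (nb b1 z.1 : ℝ≥0∞) ≤ 4 ^ b0 * ∑' z : Z, wE z.1 * (nb b0 z.1 : ℝ≥0∞) := by
          rw [← ENNReal.tsum_mul_left]
          refine ENNReal.tsum_le_tsum fun z => ?_
          have h3 := nb_coarse z.1 b1 (b0 - b1)
          rw [show b1 + (b0 - b1) = b0 by omega] at h3
          have h5 : (4 : ℝ≥0∞) ^ (b0 - b1) ≤ 4 ^ b0 := pow_le_pow_right₀ (by norm_num) (by omega)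
          calc wE z.1 * (nb b1 z.1 : ℝ≥0∞) ≤ wE z.1 * (4 ^ b0 * (nb b0 z.1 : ℝ≥0∞)) := by
                refine mul_le_mul_right (h3.trans (mul_le_mul_left h5 _)) _
            _ = _ := by ring
        refine h2.trans ((mul_le_mul_right h1 _).trans ?_)
        have e4 : (4 : ℝ≥0∞) ^ b0 = ENNReal.ofReal (4 ^ b0) := by
          rw [ENNReal.ofReal_pow (by norm_num)]
          norm_num
        rw [e4, ← ENNReal.ofReal_mul (by positivity)]
        refine ENNReal.ofReal_le_ofReal ?_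
        have h5 : (2 : ℝ) ^ ((2 - κ) * ((L : ℝ) - b0)) ≤ P := by
          rw [hP']
          refine Real.rpow_le_rpow_of_exponent_le (by norm_num) ?_
          have : (b1 : ℝ) ≤ b0 := by exact_mod_cast hb.le
          nlinarith
        calc (4 : ℝ) ^ b0 * (C2 * (1 / 4) ^ L * (2 : ℝ) ^ ((2 - κ) * ((L : ℝ) - b0))) ≤
              4 ^ b0 * (C2 * (1 / 4) ^ L * P) := by gcongr
          _ ≤ 4 ^ b0 * (C2 * (1 / 4) ^ L * P) + (C3 * 4 ^ (l0 + b0 + 6) + C4 * 4 ^ 6 + 1) * ((1 / 4) ^ L * P) := by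
              linarith
          _ = _ := by ring
      · refine (direct L b1 Z hL hb1 hb (by omega) hZ).trans (ENNReal.ofReal_le_ofReal ?_)
        rw [← hP']
        have h5 : (1 : ℝ) ≤ 4 ^ b0 := one_le_pow₀ (by norm_num)
        calc C2 * (1 / 4) ^ L * P ≤ C2 * (1 / 4) ^ L * P * 4 ^ b0 := le_mul_of_one_le_right (by positivity) h5
          _ ≤ C2 * (1 / 4) ^ L * P * 4 ^ b0 + (C3 * 4 ^ (l0 + b0 + 6) + C4 * 4 ^ 6 + 1) * ((1 / 4) ^ L * P) := by
              linarith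
          _ = _ := by ring

end PLD

end HexObs
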