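import Pool.Agent.PLD.CleanG
import Pool.Agent.PLD.OpNorm

/-!
PLD (E1'), O6: the norm of the sum over the tall leaves without backtracks.
-/

set_option autoImplicit false

namespace HexObs

namespace PLD

open Finset TS SDN SDN.CN

open scoped ENNReal

/-- the tall leaves are in the blocks with n + 1 at least 2 ^ (L - k) / (m 2 ^ (s + 1)) -/
lemma tall_block {m L k s : ℕ} (hk : k ≤ L) (hs : 6 ≤ s) (hbig : 64 * m < 2 ^ (L - k)) {g : List Bool}
    (hg : g ∈ BrR (2 ^ (k + 4)) (2 ^ (L + 2))) (ht : g ∈ Tl m L k) :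
    ∃ n, 2 ^ (L - k) / (m * 2 ^ (s + 1)) ≤ n + 1 ∧ n < 2 ^ (L + 2) + 1 ∧ g ∈ WW (k + 1) s n := by
  obtain ⟨h, h1, h2, hB⟩ := hg
  obtain ⟨hc, h3⟩ := ht
  rw [hgt_eq hB] at h3
  have e1 : 2 ^ L = 2 ^ k * 2 ^ (L - k) := by
    rw [← pow_add]
    congr 1
    omega
  have hm : 0 < m := by
    rcases Nat.eq_zero_or_pos m with h0 | h0
    · exfalso
      rw [h0, Nat.zero_mul] at h3
      have := Nat.one_le_two_pow (n := L)
      omega
    · exact h0
  have h4 : 64 * 2 ^ k < h + 1 := by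
    have h5 : m * (64 * 2 ^ k) < m * (h + 1) := by
      calc m * (64 * 2 ^ k) = 2 ^ k * (64 * m) := by ring
        _ < 2 ^ k * 2 ^ (L - k) := Nat.mul_lt_mul_of_pos_left hbig (by positivity)
        _ = 2 ^ L := e1.symm
        _ ≤ m * (h + 1) := h3
    exact Nat.lt_of_mul_lt_mul_left h5
  obtain ⟨n, hn⟩ : ∃ n, n = h / 2 ^ (k + 1 + s) := ⟨_, rfl⟩
  have hP : 0 < 2 ^ (k + 1 + s) := by positivity
  have h6 : n * 2 ^ (k + 1 + s) ≤ h := by
    rw [hn]
    exact Nat.div_mul_le_self _ _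
  have h7 : h < (n + 1) * 2 ^ (k + 1 + s) := by
    rw [hn]
    have h8 := Nat.div_add_mod h (2 ^ (k + 1 + s))
    have h9 := Nat.mod_lt h hP
    calc h = 2 ^ (k + 1 + s) * (h / 2 ^ (k + 1 + s)) + h % 2 ^ (k + 1 + s) := h8.symm
      _ < 2 ^ (k + 1 + s) * (h / 2 ^ (k + 1 + s)) + 2 ^ (k + 1 + s) := Nat.add_lt_add_left h9 _
      _ = (h / 2 ^ (k + 1 + s) + 1) * 2 ^ (k + 1 + s) := by ring
  refine ⟨n, ?_, ?_, ⟨hc, h, h6, h7, hB⟩, h, ?_, hB⟩
  · apply Nat.div_le_of_le_mul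
    have h8 : 2 ^ k * 2 ^ (L - k) ≤ 2 ^ k * (m * 2 ^ (s + 1) * (n + 1)) := by
      rw [← e1]
      calc 2 ^ L ≤ m * (h + 1) := h3
        _ ≤ m * ((n + 1) * 2 ^ (k + 1 + s)) := Nat.mul_le_mul_left _ h7
        _ = 2 ^ k * (m * 2 ^ (s + 1) * (n + 1)) := by
          rw [show k + 1 + s = k + (s + 1) by omega, pow_add 2 k (s + 1)]
          ring
    exact Nat.le_of_mul_le_mul_left h8 (by positivity)
  · have : n ≤ h := by
      rw [hn]
      exact Nat.div_le_self _ _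
    omega
  · have e2 : 2 ^ (k + 1 + 4) = 32 * 2 ^ k := by
      rw [show k + 1 + 4 = k + 5 by omega, pow_add]
      ring
    rw [e2]
    omega

lemma geo4 (K : ℝ) (hK : 0 ≤ K) (n0 N : ℕ) : ∑ n ∈ Ico n0 N, K / 4 ^ n ≤ 2 * K / 4 ^ n0 := by
  rcases Nat.lt_or_ge N n0 with h | h
  · rw [Finset.Ico_eq_empty (by omega), Finset.sum_empty]
    positivity
  · obtain ⟨d, rfl⟩ := Nat.exists_eq_add_of_le h
    have key : ∀ d : ℕ, ∑ n ∈ Ico n0 (n0 + d), K / 4 ^ n ≤ 2 * K / 4 ^ n0 - 2 * (K / 4 ^ (n0 + d)) := by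
      intro d
      induction d with
      | zero =>
        rw [Nat.add_zero, Finset.Ico_self, Finset.sum_empty]
        have : 2 * K / 4 ^ n0 - 2 * (K / 4 ^ n0) = 0 := by ring
        rw [this]
      | succ d ih =>
        rw [← Nat.add_assoc, Finset.sum_Ico_succ_top (by omega)]
        have h4 : (0 : ℝ) < 4 ^ (n0 + d) := by positivity
        have e : K / 4 ^ (n0 + d + 1) = K / 4 ^ (n0 + d) / 4 := by
          rw [pow_succ]
          field_simp
        rw [e]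
        have : 0 ≤ K / 4 ^ (n0 + d) := by positivity
        linarith
    have := key d
    have h2 : 0 ≤ K / 4 ^ (n0 + d) := by positivity
    linarith

/-- the sum over the tall leaves by the sums over the blocks -/
lemma tF_blocks {m L k s : ℕ} (hk : k ≤ L) (hs : 6 ≤ s) (hbig : 64 * m < 2 ^ (L - k)) (Φ : List Bool → ℝ≥0∞)
    (t : List Bool) : tF (2 ^ (k + 4)) (2 ^ (L + 2)) (Tl m L k) LFold Φ t ≤
      ∑ n ∈ Ico (2 ^ (L - k) / (m * 2 ^ (s + 1)) - 1) (2 ^ (L + 2) + 1), vA (2 ^ (k + 4)) (WW (k + 1) s n) Φ t := by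
  classical
  have h0 : tF (2 ^ (k + 4)) (2 ^ (L + 2)) (Tl m L k) LFold Φ t =
      Rec8.sw {g' | g' ∈ BrR (2 ^ (k + 4)) (2 ^ (L + 2)) ∧ g' ∈ Tl m L k ∧ RT (2 ^ (k + 4)) LFold t g'} Φ := rfl
  have e : ∀ i ∈ Ico (2 ^ (L - k) / (m * 2 ^ (s + 1)) - 1) (2 ^ (L + 2) + 1), vA (2 ^ (k + 4)) (WW (k + 1) s i) Φ t =
      ∑' g : List Bool, (if g ∈ WW (k + 1) s i ∧ RT (2 ^ (k + 4)) LFold t g then wE g * Φ g else 0) := by
    intro i _
    unfold vA
    rw [Rec8.sw_ind]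
    refine tsum_congr fun g => ?_
    by_cases hg : g ∈ WW (k + 1) s i ∧ RT (2 ^ (k + 4)) LFold t g
    · rw [if_pos hg, if_pos (show g ∈ {g' | g' ∈ WW (k + 1) s i ∧ RT (2 ^ (k + 4)) LFold t g'} from hg)]
    · rw [if_neg hg, if_neg (show ¬ g ∈ {g' | g' ∈ WW (k + 1) s i ∧ RT (2 ^ (k + 4)) LFold t g'} from hg)]
  rw [h0, Finset.sum_congr rfl e, ← Summable.tsum_finsetSum (fun _ _ => ENNReal.summable), Rec8.sw_ind]
  refine ENNReal.tsum_le_tsum fun g => ?_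
  by_cases hg : g ∈ {g' | g' ∈ BrR (2 ^ (k + 4)) (2 ^ (L + 2)) ∧ g' ∈ Tl m L k ∧ RT (2 ^ (k + 4)) LFold t g'}
  · rw [if_pos hg]
    obtain ⟨g1, g2, hr⟩ := hg
    obtain ⟨i, i1, i2, i3⟩ := tall_block hk hs hbig g1 g2
    refine le_trans ?_ (Finset.single_le_sum
      (f := fun i => (if g ∈ WW (k + 1) s i ∧ RT (2 ^ (k + 4)) LFold t g then wE g * Φ g else 0))
      (fun _ _ => zero_le) (Finset.mem_Ico.2 ⟨by omega, i2⟩))
    rw [if_pos ⟨i3, hr⟩]
  · rw [if_neg hg]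
    exact zero_le

/-- the norm of the tall leaves without backtracks -/
theorem tallN : TallN := by
  classical
  intro m hm
  obtain ⟨K, s, hK, hs, hcl⟩ := clean_g
  obtain ⟨C, δ, hInp⟩ := inp_exists
  obtain ⟨K1, hK1, hone⟩ := nrm_one hInp
  refine ⟨K1 * 4 * 4 ^ (64 * m) + 8 * K, 1, m * 2 ^ (s + 1), ?_, ?_, ?_⟩
  · have : 0 ≤ K1 * 4 * (4 : ℝ) ^ (64 * m) := by positivity
    linarith
  · exact Nat.one_le_iff_ne_zero.2 (by positivity)
  intro L k hk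
  rcases Nat.lt_or_ge (64 * m) (2 ^ (L - k)) with hbig | hsmall
  · -- tall
    intro Φ hΦ
    obtain ⟨q, hq⟩ : ∃ q, q = 2 ^ (L - k) / (m * 2 ^ (s + 1)) := ⟨_, rfl⟩
    rw [uF_ind]
    refine (xT_mono fun t => tF_blocks hk hs hbig Φ t).trans ((xT_sum _ _ _ _).trans ?_)
    rw [← hq]
    calc ∑ n ∈ Ico (q - 1) (2 ^ (L + 2) + 1), xT (2 ^ (k + 4)) k (fun t => vA (2 ^ (k + 4)) (WW (k + 1) s n) Φ t)
        ≤ ∑ n ∈ Ico (q - 1) (2 ^ (L + 2) + 1), ENNReal.ofReal (K / 4 ^ n) * xT (2 ^ (k + 4)) k Φ :=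
          Finset.sum_le_sum fun n _ => hcl k n Φ hΦ
      _ = ENNReal.ofReal (∑ n ∈ Ico (q - 1) (2 ^ (L + 2) + 1), K / 4 ^ n) * xT (2 ^ (k + 4)) k Φ := by
          rw [← Finset.sum_mul, ENNReal.ofReal_sum_of_nonneg]
          intro j _
          positivity
      _ ≤ _ := by
          refine mul_le_mul_left (ENNReal.ofReal_le_ofReal ((geo4 K (by linarith) _ _).trans ?_)) _
          have h1 : (4 : ℝ) ^ q ≤ 4 * 4 ^ (q - 1) := by
            rw [← pow_succ']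
            exact pow_le_pow_right₀ (by norm_num) (by omega)
          have h2 : (1 : ℝ) ≤ 2 ^ (1 * (L - k)) := one_le_pow₀ (by norm_num)
          have h3 : 0 < (4 : ℝ) ^ (q - 1) := by positivity
          have h4 : 0 < (4 : ℝ) ^ q := by positivity
          have h5 : 0 ≤ K1 * 4 * (4 : ℝ) ^ (64 * m) := by positivity
          rw [div_le_div_iff₀ h3 h4]
          calc 2 * K * 4 ^ q ≤ 2 * K * (4 * 4 ^ (q - 1)) := by
                exact mul_le_mul_of_nonneg_left h1 (by linarith)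
            _ = (8 * K) * 1 * 4 ^ (q - 1) := by ring
            _ ≤ ((K1 * 4 * 4 ^ (64 * m) + 8 * K) * 2 ^ (1 * (L - k))) * 4 ^ (q - 1) := by
                apply mul_le_mul_of_nonneg_right _ h3.le
                exact mul_le_mul (by linarith) h2 zero_le_one (by linarith)
  · -- not tall
    have hρ : UU (2 ^ (L + 2)) ≤ 2 ^ (L + 2 - k) * Ub k := by
      have h2 := UU_ratio_up k (L + 2 - k)
      rw [show k + (L + 2 - k) = L + 2 by omega] at h2
      exact h2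
    have h1 := hone (2 ^ (k + 4)) (2 ^ (L + 2)) k (2 ^ (L + 2 - k)) le_rfl (one_le_pow₀ (by norm_num)) hρ
    refine h1.mono (fun g => ?_) (ENNReal.ofReal_le_ofReal ?_)
    · split_ifs
      · exact le_rfl
      · exact zero_le
    · have h3 : 2 ^ (L - k) / (m * 2 ^ (s + 1)) ≤ 64 * m := (Nat.div_le_self _ _).trans hsmall
      have h4 : (4 : ℝ) ^ (2 ^ (L - k) / (m * 2 ^ (s + 1))) ≤ 4 ^ (64 * m) := pow_le_pow_right₀ (by norm_num) h3
      have h5 : (0 : ℝ) < 4 ^ (2 ^ (L - k) / (m * 2 ^ (s + 1))) := by positivity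
      rw [le_div_iff₀ h5]
      have e1 : (2 : ℝ) ^ (L + 2 - k) = 4 * 2 ^ (L - k) := by
        rw [show L + 2 - k = (L - k) + 2 by omega, pow_add]
        ring
      rw [e1, one_mul]
      calc K1 * (4 * 2 ^ (L - k)) * 4 ^ (2 ^ (L - k) / (m * 2 ^ (s + 1))) ≤ K1 * (4 * 2 ^ (L - k)) * 4 ^ (64 * m) := by
            apply mul_le_mul_of_nonneg_left h4
            positivity
        _ = K1 * 4 * 4 ^ (64 * m) * 2 ^ (L - k) := by ring
        _ ≤ (K1 * 4 * 4 ^ (64 * m) + 8 * K) * 2 ^ (L - k) := by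
            apply mul_le_mul_of_nonneg_right _ (by positivity)
            linarith

end PLD

end HexObs
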