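import Pool.Agent.PLD.SelH
import Pool.Agent.PLD.FinStar
import Pool.Agent.PLD.TallN

/-!
PLD (E1'): the final statement from the reduction Red.
-/

set_option autoImplicit false

namespace HexObs

namespace PLD

theorem star_red (hR : Red) : Star := by
  obtain ⟨K, c, hS⟩ := sel_exists
  exact star_of hS tallN hR

end PLD

end HexObs
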