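import Pool.Agent.PLD.Closing
import Pool.Agent.SDN.Defs

/-!
PLD (E1'), the frame of a polygon: a rotation of a closed word after which the extent is the largest in the direction
false.
-/

set_option autoImplicit false

namespace HexObs

namespace PLD

open Finset SDN

/-! ### 1. Rotation at an arbitrary edge -/

lemma ds_mulE (u d : Pt) (τ : ℕ → Bool) (i : ℕ) : ds (mulE u d) τ i = mulE u (ds d τ i) := by
  induction i with
  | zero => rfl
  | succ i ih => rw [ds_succ, ds_succ, ih, mulE_turn]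

lemma vs_mulE (v u d : Pt) (τ : ℕ → Bool) (i : ℕ) : vs v (mulE u d) τ i = v + mulE u (vs oo d τ i) := by
  induction i with
  | zero =>
    have h : mulE u oo = 0 := by
      ext <;> simp [mulE, oo]
    show v = v + mulE u oo
    rw [h, add_zero]
  | succ i ih => rw [vs_succ, vs_succ, ih, ds_mulE, mulE_add, add_assoc]

lemma pv_shiftR {z : List Bool} (hz : z ≠ []) {r : ℕ} {u : Pt} (hr : pd z r = mulE u up) (i : ℕ) :
    pv z (r + i) = pv z r + mulE u (pv (z.rotate r) i) := by
  have h1 : pv z (r + i) = vs (pv z r) (pd z r) (fun k => per z (r + k)) i := vs_shift oo up (per z) r i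
  rw [h1, hr, vs_mulE]
  congr 2
  exact vs_congr i fun k _ => (per_rotate hz r k).symm

lemma pd_shiftR {z : List Bool} (hz : z ≠ []) {r : ℕ} {u : Pt} (hr : pd z r = mulE u up) (i : ℕ) :
    pd z (r + i) = mulE u (pd (z.rotate r) i) := by
  have h1 : pd z (r + i) = ds (pd z r) (fun k => per z (r + k)) i := ds_shift up (per z) r i
  rw [h1, hr, ds_mulE]
  congr 1
  exact ds_congr i fun k _ => (per_rotate hz r k).symm

lemma pd_mem (z : List Bool) (i : ℕ) : pd z i ∈ dirs := ds_mem (by decide) i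

lemma pd_mod {z : List Bool} (hz : z ∈ Cw) (i : ℕ) : pd z i = pd z (i % z.length) := by
  have h : ∀ k j, pd z (z.length * k + j) = pd z j := by
    intro k j
    induction k with
    | zero => rw [Nat.mul_zero, Nat.zero_add]
    | succ k ih => rw [Nat.mul_succ, Nat.add_comm (z.length * k) z.length, Nat.add_assoc, pd_add_len hz, ih]
  conv_lhs => rw [← Nat.div_add_mod i z.length]
  exact h _ _

/-- the rotation of a closed word at an arbitrary edge -/
theorem rotate_mem {z : List Bool} (hz : z ∈ Cw) (r : ℕ) : z.rotate r ∈ Cw := by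
  have h0 : 0 < z.length := List.length_pos_iff.2 hz.1
  have hl : (z.rotate r).length = z.length := List.length_rotate _ _
  obtain ⟨u, hu⟩ : ∃ u, u = rotTo up (pd z r) := ⟨_, rfl⟩
  have hu1 : nrm u = 1 := by
    rw [hu]
    exact nrm_rotTo (by decide) (pd_mem z r)
  have hd : pd z r = mulE u up := by
    rw [hu]
    exact (rotTo_apply _ (by decide)).symm
  have hsh := pv_shiftR hz.1 hd
  refine ⟨fun h => hz.1 (List.rotate_eq_nil_iff.1 h), ?_, ?_, ?_⟩
  · rw [vx_eq_pv le_rfl, hl]
    have h1 := hsh z.length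
    rw [Nat.add_comm, pv_add_len hz] at h1
    have h2 : mulE u (pv (z.rotate r) z.length) = mulE u oo := by
      have h3 : mulE u oo = 0 := by
        ext <;> simp [mulE, oo]
      rw [h3]
      exact add_eq_left.1 h1.symm
    exact mulE_inj hu1 h2
  · rw [dx_eq_pd le_rfl, hl]
    have h1 := pd_shiftR hz.1 hd z.length
    rw [Nat.add_comm, pd_add_len hz, hd] at h1
    exact (mulE_inj hu1 h1).symm
  · intro i k hik hk h
    rw [hl] at hk
    rw [vx_eq_pv (by omega), vx_eq_pv (by omega)] at h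
    have h1 : pv z (r + i) = pv z (r + k) := by rw [hsh i, hsh k, h]
    refine pv_inj hz ?_ h1
    intro h2
    have h3 : i % z.length = k % z.length := Nat.ModEq.add_left_cancel' r h2
    rw [Nat.mod_eq_of_lt (by omega), Nat.mod_eq_of_lt hk] at h3
    omega

lemma wE_rotate (z : List Bool) (r : ℕ) : wE (z.rotate r) = wE z := by
  unfold wE
  rw [List.length_rotate]

/-! ### 2. The direction of the largest extent occurs -/

lemma step_cases : ∀ d ∈ dirs, ∀ e ∈ dirs, d ≠ e → (cl d = cl e ∧ ip d e = -1) ∨ (cl d = - cl e ∧ (ip d e = 1 ∨ ip d e = -2)) := by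
  decide

lemma cl_neg_ne : ∀ d ∈ dirs, cl d ≠ - cl d := by
  decide

/-- a walk that climbs by 2 in the direction d has an edge in the direction d -/
lemma exists_dir {z : List Bool} {d : Pt} (hd : d ∈ dirs) {i j : ℕ} (h : ip (pv z i) d + 2 ≤ ip (pv z (i + j)) d) :
    ∃ r, pd z r = d := by
  by_contra hne
  push Not at hne
  have key : ∀ j, ip (pv z (i + j)) d ≤ ip (pv z i) d + 1 ∧
      (cl (pd z (i + j)) = - cl d → ip (pv z (i + j)) d ≤ ip (pv z i) d) := by
    intro j
    induction j with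
    | zero => exact ⟨by rw [Nat.add_zero]; omega, fun _ => by rw [Nat.add_zero]⟩
    | succ j ih =>
      have e1 : pv z (i + (j + 1)) = pv z (i + j) + pd z (i + j) := rfl
      have e2 : pd z (i + (j + 1)) = turn (per z (i + j)) (pd z (i + j)) := rfl
      have e3 : cl (pd z (i + (j + 1))) = - cl (pd z (i + j)) := by
        rw [e2, cl_turn]
      rw [e1, ip_add_left, e3]
      rcases step_cases _ (pd_mem z (i + j)) d hd (hne _) with ⟨h1, h2⟩ | ⟨h1, h2⟩
      · rw [h2, h1]
        have := ih.1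
        exact ⟨by omega, fun _ => by omega⟩
      · have h3 := ih.2 h1
        refine ⟨by omega, fun h4 => ?_⟩
        rw [h1, neg_neg] at h4
        exact absurd h4 (cl_neg_ne d hd)
  have := (key j).1
  omega

/-! ### 3. The frame -/

/-- the frame of a polygon -/
theorem frame {z : List Bool} (hz : z ∈ Cw) : ∃ r L : ℕ, r < z.length ∧ z.rotate r ∈ Cw ∧
    (∀ dir i i', i ≤ z.length → i' ≤ z.length →
      |row dir (vx oo up (z.rotate r) i) - row dir (vx oo up (z.rotate r) i')| ≤ 2 ^ (L + 1)) ∧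
    (∃ i i', i ≤ z.length ∧ i' ≤ z.length ∧
      2 ^ L ≤ row false (vx oo up (z.rotate r) i) - row false (vx oo up (z.rotate r) i')) := by
  have h0 : 0 < z.length := List.length_pos_iff.2 hz.1
  -- the largest extent
  obtain ⟨⟨d, i1, i0⟩, hx, hmax⟩ := Finset.exists_max_image (dirs ×ˢ (range z.length ×ˢ range z.length))
    (fun x => ip (pv z x.2.1 - pv z x.2.2) x.1) ⟨(up, 0, 0), by
      simp only [Finset.mem_product, Finset.mem_range]
      exact ⟨by decide, h0, h0⟩⟩
  simp only [Finset.mem_product, Finset.mem_range] at hx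
  obtain ⟨hdm, hi1, hi0⟩ := hx
  have hmax' : ∀ e ∈ dirs, ∀ i i', ip (pv z i - pv z i') e ≤ ip (pv z i1 - pv z i0) d := by
    intro e he i i'
    rw [pv_mod hz i, pv_mod hz i']
    exact hmax (e, i % z.length, i' % z.length) (by
      simp only [Finset.mem_product, Finset.mem_range]
      exact ⟨he, Nat.mod_lt _ h0, Nat.mod_lt _ h0⟩)
  obtain ⟨m, hm⟩ : ∃ m, m = ip (pv z i1 - pv z i0) d := ⟨_, rfl⟩
  rw [← hm] at hmax'
  have hm3 : 3 ≤ m := by
    refine le_trans ?_ (hmax' up (by decide) 2 0)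
    have e1 : pv z 2 - pv z 0 = up + turn (per z 0) up := by
      show (oo + up + turn (per z 0) up) - oo = up + turn (per z 0) up
      ext <;> simp [oo]
    rw [e1]
    cases per z 0 <;> decide
  -- the root
  obtain ⟨r0, hr0⟩ : ∃ r, pd z r = d := by
    refine exists_dir (z := z) hdm (i := i0) (j := i1 + z.length - i0) ?_
    have e1 : i0 + (i1 + z.length - i0) = z.length + i1 := by omega
    rw [e1, pv_add_len hz]
    rw [ip_sub_left] at hm
    omega
  obtain ⟨r, hr, hrd⟩ : ∃ r < z.length, pd z r = d := ⟨r0 % z.length, Nat.mod_lt _ h0, by rw [← pd_mod hz]; exact hr0⟩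
  obtain ⟨u, hu⟩ : ∃ u, u = rotTo up (pd z r) := ⟨_, rfl⟩
  have hu1 : nrm u = 1 := by
    rw [hu]
    exact nrm_rotTo (by decide) (pd_mem z r)
  have hdu : pd z r = mulE u up := by
    rw [hu]
    exact (rotTo_apply _ (by decide)).symm
  have hsh := pv_shiftR hz.1 hdu
  have hl : (z.rotate r).length = z.length := List.length_rotate _ _
  -- levels in the frame
  have hlv : ∀ (e : Pt) (i i' : ℕ), i ≤ z.length → i' ≤ z.length →
      ip (vx oo up (z.rotate r) i) e - ip (vx oo up (z.rotate r) i') e = ip (pv z (r + i) - pv z (r + i')) (mulE u e) := by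
    intro e i i' hi hi'
    rw [vx_eq_pv (by omega), vx_eq_pv (by omega), ← ip_sub_left]
    have e1 : pv z (r + i) - pv z (r + i') = mulE u (pv (z.rotate r) i - pv (z.rotate r) i') := by
      rw [hsh i, hsh i', mulE_sub]
      abel
    rw [e1, ip_mulE, hu1, one_mul]
  have hdir : ∀ dir, mulE u (hd dir) ∈ dirs := by
    intro dir
    rw [mem_dirs, nrm_mulE, hu1, one_mul]
    cases dir <;> rfl
  have hub : ∀ dir i i', i ≤ z.length → i' ≤ z.length →
      lvl dir (vx oo up (z.rotate r) i) - lvl dir (vx oo up (z.rotate r) i') ≤ m := by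
    intro dir i i' hi hi'
    unfold lvl
    rw [hlv _ i i' hi hi']
    exact hmax' _ (hdir dir) _ _
  -- the highest and the lowest vertex
  have hex : ∀ i, i < z.length → ∃ j ≤ z.length, pv z (r + j) = pv z i := by
    intro i hi
    refine ⟨(i + z.length - r) % z.length, (Nat.mod_lt _ h0).le, ?_⟩
    rw [pv_mod hz (r + _), Nat.add_mod_mod, ← pv_mod hz, show r + (i + z.length - r) = z.length + i by omega,
      pv_add_len hz]
  obtain ⟨j1, hj1, e1⟩ := hex i1 hi1
  obtain ⟨j0, hj0, e0⟩ := hex i0 hi0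
  have htop : lvl false (vx oo up (z.rotate r) j1) - lvl false (vx oo up (z.rotate r) j0) = m := by
    unfold lvl
    rw [hlv _ j1 j0 hj1 hj0, e1, e0, hm]
    show ip (pv z i1 - pv z i0) (mulE u up) = _
    rw [← hdu, hrd]
  obtain ⟨e, he⟩ : ∃ e : ℤ, e = row false (vx oo up (z.rotate r) j1) - row false (vx oo up (z.rotate r) j0) := ⟨_, rfl⟩
  have he1 : 1 ≤ e := by
    rw [he]
    unfold row
    omega
  have hme : m ≤ 3 * e + 2 := by
    rw [he]
    unfold row
    omega
  have hlog1 : (2 : ℤ) ^ Nat.log 2 e.toNat ≤ e := by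
    have h1 : 2 ^ Nat.log 2 e.toNat ≤ e.toNat := Nat.pow_log_le_self 2 (by omega)
    have h2 : ((2 ^ Nat.log 2 e.toNat : ℕ) : ℤ) ≤ (e.toNat : ℤ) := by exact_mod_cast h1
    rw [Int.toNat_of_nonneg (by omega)] at h2
    exact_mod_cast h2
  have hlog2 : e + 1 ≤ (2 : ℤ) ^ (Nat.log 2 e.toNat + 1) := by
    have h1 : e.toNat < 2 ^ (Nat.log 2 e.toNat + 1) := Nat.lt_pow_succ_log_self (by norm_num) _
    have h2 : ((e.toNat + 1 : ℕ) : ℤ) ≤ ((2 ^ (Nat.log 2 e.toNat + 1) : ℕ) : ℤ) := by exact_mod_cast h1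
    push_cast at h2
    rw [Int.toNat_of_nonneg (by omega)] at h2
    exact h2
  refine ⟨r, Nat.log 2 e.toNat, hr, rotate_mem hz r, ?_, j1, j0, hj1, hj0, by rw [← he]; exact hlog1⟩
  intro dir i i' hi hi'
  have h1 := hub dir i i' hi hi'
  have h2 := hub dir i' i hi' hi
  refine le_trans ?_ hlog2
  rw [abs_le]
  unfold row
  constructor
  · omega
  · omega

end PLD

end HexObs
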