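import Pool.Agent.PLD.StarDefs
import Pool.Agent.PLD.Frame
import Pool.Agent.HexLoop.Wind

/-!
PLD (E1'): every oriented polygon is a placed closed word, one word for each class of rotations.
-/

set_option autoImplicit false

namespace HexObs

namespace PLD

open Finset SDN

/-- closed words of the scale L -/
def Good (L : ℕ) : Set (List Bool) := {z | z ∈ Cw ∧
  (∀ (dir : Bool) (i i' : ℕ), i ≤ z.length → i' ≤ z.length →
    |row dir (vx oo up z i) - row dir (vx oo up z i')| ≤ 2 ^ (L + 1)) ∧
  ∃ i i', i ≤ z.length ∧ i' ≤ z.length ∧ 2 ^ L ≤ row false (vx oo up z i) - row false (vx oo up z i')}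

/-- the representative of the class of z -/
noncomputable def rep (L : ℕ) (z : List Bool) : List Bool := Classical.epsilon fun z' => z' ∈ Good L ∧ z ~r z'

/-- the representatives -/
def ZR (L : ℕ) : Set (List Bool) := {z | z ∈ Good L ∧ rep L z = z}

lemma rep_congr {L : ℕ} {z z' : List Bool} (h : z ~r z') : rep L z = rep L z' := by
  unfold rep
  congr 1
  funext w
  exact propext ⟨fun hw => ⟨hw.1, h.symm.trans hw.2⟩, fun hw => ⟨hw.1, h.trans hw.2⟩⟩

lemma rep_spec {L : ℕ} {z : List Bool} (h : z ∈ Good L) : rep L z ∈ Good L ∧ z ~r rep L z :=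
  Classical.epsilon_spec (p := fun z' => z' ∈ Good L ∧ z ~r z') ⟨z, h, List.IsRotated.refl z⟩

lemma rep_mem {L : ℕ} {z : List Bool} (h : z ∈ Good L) : rep L z ∈ ZR L :=
  ⟨(rep_spec h).1, (rep_congr (rep_spec h).2).symm⟩

theorem zok_ZR (L : ℕ) : ZOK L (ZR L) where
  cw := fun _ hz => hz.1.1
  uniq := by
    intro z hz z' hz' r hr
    have h1 : rep L z = rep L z' := rep_congr ⟨r, hr.symm⟩
    rw [hz.2, hz'.2] at h1
    exact h1.symm
  box := fun _ hz => hz.1.2.1
  ext := fun _ hz => hz.1.2.2

/-- the word of a polygon -/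
lemma word_of_poly {v d : Pt} {τ : ℕ → Bool} {m : ℕ} (h : LP.Poly v d τ m) :
    ((List.range m).map τ) ∈ Cw ∧ per ((List.range m).map τ) = τ := by
  obtain ⟨z, hz⟩ : ∃ z, z = (List.range m).map τ := ⟨_, rfl⟩
  rw [← hz]
  have hl : z.length = m := by rw [hz, List.length_map, List.length_range]
  have hper : per z = τ := by
    funext i
    unfold per tf
    rw [hl, hz, List.getD_eq_getElem?_getD, List.getElem?_map, List.getElem?_range (Nat.mod_lt _ h.pos)]
    simp only [Option.map_some, Option.getD_some]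
    have h1 : Function.Periodic τ m := h.per
    exact h1.map_mod_nat i
  refine ⟨?_, hper⟩
  obtain ⟨u, hu⟩ : ∃ u, u = rotTo up d := ⟨_, rfl⟩
  have hu1 : nrm u = 1 := by
    rw [hu]
    exact nrm_rotTo (by decide) h.de.1
  have hd : d = mulE u up := by
    rw [hu]
    exact (rotTo_apply _ (by decide)).symm
  have h0 : mulE u oo = 0 := by
    ext <;> simp [mulE, oo]
  have hvs : ∀ i, vs v d τ i = v + mulE u (pv z i) := by
    intro i
    rw [hd, vs_mulE]
    unfold pv
    rw [hper]
  have hds : ∀ i, ds d τ i = mulE u (pd z i) := by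
    intro i
    rw [hd, ds_mulE]
    unfold pd
    rw [hper]
  refine ⟨?_, ?_, ?_, ?_⟩
  · intro h1
    rw [h1, List.length_nil] at hl
    have := h.pos
    omega
  · rw [vx_eq_pv le_rfl, hl]
    have h1 := h.clv
    rw [hvs m] at h1
    have h2 : mulE u (pv z m) = mulE u oo := by
      rw [h0]
      exact add_eq_left.1 h1
    exact mulE_inj hu1 h2
  · rw [dx_eq_pd le_rfl, hl]
    have h1 := h.cld
    rw [hds m] at h1
    rw [hd] at h1
    exact mulE_inj hu1 h1
  · intro i k hik hk
    rw [hl] at hk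
    rw [vx_eq_pv (by omega), vx_eq_pv (by omega)]
    intro h1
    refine h.inj i k hik hk ?_
    rw [hvs, hvs, h1]

/-- every oriented polygon is a placed representative -/
theorem poly_word {E : Finset (Pt × Pt)} (hE : LP.IsPoly E) : ∃ (L : ℕ) (v d : Pt) (z : List Bool), z ∈ ZR L ∧
    d ∈ dirs ∧ LP.Poly v d (per z) z.length ∧ E = LP.pe v d (per z) z.length := by
  obtain ⟨v, d, τ, m, h, rfl⟩ := hE
  obtain ⟨hc, hper⟩ := word_of_poly h
  obtain ⟨z, hz⟩ : ∃ z, z = (List.range m).map τ := ⟨_, rfl⟩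
  rw [← hz] at hc hper
  have hl : z.length = m := by rw [hz, List.length_map, List.length_range]
  obtain ⟨r, L, _, hcr, hbox, hext⟩ := frame hc
  have hlr : (z.rotate r).length = z.length := List.length_rotate _ _
  have hg : z.rotate r ∈ Good L := by
    refine ⟨hcr, ?_, ?_⟩
    · rw [hlr]
      exact hbox
    · rw [hlr]
      exact hext
  obtain ⟨k, hk⟩ := (rep_spec hg).2
  rw [List.rotate_rotate] at hk
  obtain ⟨s, hs⟩ : ∃ s, s = r + k := ⟨_, rfl⟩
  rw [← hs] at hk
  have hps : per (rep L (z.rotate r)) = fun i => τ (s + i) := by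
    funext i
    rw [← hk, per_rotate hc.1, hper]
  have hls : (rep L (z.rotate r)).length = m := by
    rw [← hk, List.length_rotate, hl]
  refine ⟨L, vs v d τ s, ds d τ s, rep L (z.rotate r), rep_mem hg, ds_mem h.de.1 s, ?_, ?_⟩
  · rw [hps, hls]
    exact (LP.poly_rot h s).1
  · rw [hps, hls]
    exact (LP.poly_rot h s).2.symm

end PLD

end HexObs
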