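import Pool.Agent.PLD.LoopSum
import Pool.Agent.PLD.PolyWord
import Pool.Agent.ZF.HexP1

/-!
PLD: (E1) for the polygons in the plane, from Star.
-/

set_option autoImplicit false

namespace HexObs

namespace PLD

open Finset TS SDN

/-- the polygons around f that hit the box of the radius 2 ^ J and are not contained in the box of the radius 2 ^ L -/
theorem loop_sum (hstar : Star) : ∃ C κ : ℝ, 0 < C ∧ 0 < κ ∧ ∀ (f : Pt) (J L : ℕ) (S : Finset (Finset (Pt × Pt))),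
    (∀ E ∈ S, LP.IsPoly E ∧ LP.Nw E f ≠ 0 ∧ (∃ w ∈ LP.VE E, LP.Bx f (2 ^ J) w) ∧
      ∃ w ∈ LP.VE E, ¬ LP.Bx f (2 ^ L) w) →
    ∑ E ∈ S, xc ^ E.card ≤ C * (2 : ℝ) ^ (-κ * ((L : ℝ) - J)) :=
  loop_sum_of hstar ZR zok_ZR fun _ hE => poly_word hE

/-- (E1) in the form of ZF -/
theorem twoC (hstar : Star) : Pool.Agent.ZF.TwoC := by
  obtain ⟨C, κ, _, _, h⟩ := loop_sum hstar
  intro a
  refine ⟨C * (2 : ℝ) ^ (κ * a), fun f _ j S hS => ?_⟩
  refine (h f (j + a) j S fun E hE => ?_).trans (le_of_eq ?_)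
  · obtain ⟨h1, h2, h3, h4⟩ := hS E hE
    exact ⟨h1, h2, h4, h3⟩
  · congr 2
    push_cast
    ring

end PLD

end HexObs
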