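import Pool.Agent.PLD.Sum
import Pool.Agent.PLD.StarR
import Pool.Agent.PLD.TwoC

/-!
PLD: Star, (E1) for the polygons in the plane, and P1 for the nested loops on the honeycomb lattice, without a hypothesis.
-/

set_option autoImplicit false

namespace HexObs

namespace PLD

open Finset

theorem star : Star := star_red red

/-- the polygons around f that hit the box of the radius 2 ^ J and are not contained in the box of the radius 2 ^ L -/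
theorem loops : ∃ C κ : ℝ, 0 < C ∧ 0 < κ ∧ ∀ (f : Pt) (J L : ℕ) (S : Finset (Finset (Pt × Pt))),
    (∀ E ∈ S, LP.IsPoly E ∧ LP.Nw E f ≠ 0 ∧ (∃ w ∈ LP.VE E, LP.Bx f (2 ^ J) w) ∧
      ∃ w ∈ LP.VE E, ¬ LP.Bx f (2 ^ L) w) →
    ∑ E ∈ S, xc ^ E.card ≤ C * (2 : ℝ) ^ (-κ * ((L : ℝ) - J)) := loop_sum star

theorem twoC_all : Pool.Agent.ZF.TwoC := twoC star

open Pool.Agent.ZF LP Pool.Agent.NUN in
/-- P1 for the nested loops -/
theorem P1 {a X : ℝ} (ha : 0 < a) (haX : a ≤ X) :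
    ∃ (t A : ℝ) (s0 R : ℕ), 0 < t ∧ 0 < A ∧ 1 ≤ s0 ∧ 2 ≤ R ∧ ∀ (f : Pt), Fc f → ∀ (J : ℕ) (Ω : Finset Pt), Full Ω →
      Ω ⊆ Ball f (s0 * R ^ J) → ∀ x : ℝ, a ≤ x → x ≤ X → ∀ z : ℂ, ‖z - x‖ ≤ t →
      NF (xc : ℂ) z f Ω ≠ 0 ∧ ‖NF (xc : ℂ) z f Ω‖ ≤ Real.exp (A * (J + 1)) ∧
      Real.exp (-(A * (J + 1))) ≤ ‖NF (xc : ℂ) z f Ω‖ :=
  P1_two twoC_all ha haX

end PLD

end HexObs
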