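import Pool.Agent.PLD.Defs
import Pool.Agent.Tight.LeafArcs

/-!
PLD (E1'): the alternating sums of a cyclic chain vanish.
-/

set_option autoImplicit false

namespace HexObs

namespace PLD

open Finset TS SDN

/-- the first leaf of the closed word -/
lemma cuf_cons (g : List Bool) (gs : List (List Bool)) :
    cuf (g :: gs) = g.dropLast ++ (!lst g) :: (!lst g) :: cuf gs := by
  unfold cuf
  cases gs with
  | nil => rfl
  | cons g' gs => rfl

lemma cuf_nil : cuf [] = [] := rfl

/-- the end of the closed word -/
theorem end_cuf (gs : List (List Bool)) (h : ∀ g ∈ gs, ∃ h, 1 ≤ h ∧ g ∈ Brd h) :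
    lev (cuf gs) (cuf gs).length = 3 * altH gs - (if Even gs.length then 0 else 1) ∧
    lat (cuf gs) (cuf gs).length = altX gs := by
  induction gs with
  | nil =>
    rw [cuf_nil]
    constructor
    · show lev [] 0 = 3 * (0 : ℤ) - _
      rw [lev_zero]
      simp
    · show lat [] 0 = 0
      unfold lat
      show -(cross up oo) = 0
      decide
  | cons g gs ih =>
    obtain ⟨n, hn, hg⟩ := h g (by simp)
    have ih' := ih fun g' hg' => h g' (List.mem_cons_of_mem _ hg')
    obtain ⟨e1, _, _⟩ := unf_step (r := cuf gs) hg hn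
    obtain ⟨_, e2⟩ := unf_step_lev (r := cuf gs) hg hn
    have e3 := e2 (cuf gs).length
    rw [cuf_cons, e1]
    constructor
    · rw [e3.1, ih'.1]
      show 3 * (n : ℤ) - 1 - (3 * altH gs - _) = 3 * (ht g - altH gs) - _
      have h1 : ht g = n := by
        unfold ht
        rw [(mem_Brd.1 hg).2.2.2]
        omega
      rw [h1, List.length_cons]
      by_cases h2 : Even gs.length
      · rw [if_pos h2, if_neg (by rw [Nat.even_add_one]; simpa using h2)]
        ring
      · rw [if_neg h2, if_pos (Nat.even_add_one.2 h2)]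
        ring
    · rw [e3.2, ih'.2]
      rfl

theorem Cyc.altH_eq {gs : List (List Bool)} (h : Cyc gs) : altH gs = 0 := by
  have h1 := (end_cuf gs h.brd).1
  rw [if_pos h.even] at h1
  have h2 : lev (cuf gs) (cuf gs).length = 0 := by
    unfold lev
    rw [h.cw.2.1]
    decide
  rw [h2] at h1
  linarith

theorem Cyc.altX_eq {gs : List (List Bool)} (h : Cyc gs) : altX gs = 0 := by
  have h1 := (end_cuf gs h.brd).2
  rw [← h1]
  unfold lat
  rw [h.cw.2.1]
  decide

end PLD

end HexObs
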