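import Pool.Agent.PLD.Alt
import Pool.Agent.SDN.Cells

/-!
PLD, (E1'): the cells visited by the polygon of a cyclic chain and the cells visited by its leaves.
-/

set_option autoImplicit false

namespace HexObs

namespace PLD

open Finset TS SDN

/-- the cell from the levels -/
lemma cell_lvl (b : ℕ) (v : Pt) : cell b v = (lvl false v / (3 * 2 ^ b), lvl true v / (3 * 2 ^ b)) := by
  unfold cell row
  rw [Int.ediv_ediv_of_nonneg (by norm_num), Int.ediv_ediv_of_nonneg (by norm_num)]

lemma lvl_aff (dir : Bool) (Q v : Pt) (ε : ℤ) : lvl dir (Q + ε • v) = lvl dir Q + ε * lvl dir v := by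
  unfold lvl ip
  simp only [Prod.fst_add, Prod.snd_add, Prod.smul_fst, Prod.smul_snd, smul_eq_mul]
  ring

/-- the two cells that meet the image of an interval -/
lemma ediv_aff {M c a ε : ℤ} (hM : 0 < M) (hε : ε = 1 ∨ ε = -1) : (c + ε * a) / M - (ε * (a / M) + c / M) ∈ Icc (-1 : ℤ) 1 := by
  have h1 := Int.emod_add_mul_ediv a M
  have h2 := Int.emod_nonneg a hM.ne'
  have h3 := Int.emod_lt_of_pos a hM
  have h4 := Int.emod_add_mul_ediv c M
  have h5 := Int.emod_nonneg c hM.ne'
  have h6 := Int.emod_lt_of_pos c hM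
  have h7 := Int.emod_add_mul_ediv (c + ε * a) M
  have h8 := Int.emod_nonneg (c + ε * a) hM.ne'
  have h9 := Int.emod_lt_of_pos (c + ε * a) hM
  rw [mem_Icc]
  rcases hε with rfl | rfl
  · constructor <;> nlinarith
  · constructor <;> nlinarith

/-- the cells of a translated or turned word -/
theorem cells_aff (b : ℕ) (t : List Bool) (Q : Pt) {ε : ℤ} (hε : ε = 1 ∨ ε = -1) :
    ((range (t.length + 1)).image fun i => cell b (Q + ε • vx oo up t i)).card ≤ 9 * nb b t := by
  have hM : (0 : ℤ) < 3 * 2 ^ b := by positivity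
  have hsub : ((range (t.length + 1)).image fun i => cell b (Q + ε • vx oo up t i)) ⊆
      ((cells b t) ×ˢ ((Icc (-1 : ℤ) 1) ×ˢ (Icc (-1 : ℤ) 1))).image (fun x =>
        (ε * x.1.1 + lvl false Q / (3 * 2 ^ b) + x.2.1, ε * x.1.2 + lvl true Q / (3 * 2 ^ b) + x.2.2)) := by
    intro q hq
    rw [mem_image] at hq
    obtain ⟨i, hi, rfl⟩ := hq
    rw [mem_image]
    refine ⟨(cell b (vx oo up t i), ((lvl false Q + ε * lvl false (vx oo up t i)) / (3 * 2 ^ b) -
      (ε * (lvl false (vx oo up t i) / (3 * 2 ^ b)) + lvl false Q / (3 * 2 ^ b)),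
      (lvl true Q + ε * lvl true (vx oo up t i)) / (3 * 2 ^ b) -
      (ε * (lvl true (vx oo up t i) / (3 * 2 ^ b)) + lvl true Q / (3 * 2 ^ b)))), ?_, ?_⟩
    · rw [mem_product, mem_product]
      exact ⟨mem_image_of_mem _ hi, ediv_aff hM hε, ediv_aff hM hε⟩
    · rw [cell_lvl, cell_lvl, lvl_aff, lvl_aff]
      simp only
      rw [add_sub_cancel, add_sub_cancel]
  refine (card_le_card hsub).trans (card_image_le.trans ?_)
  rw [card_product, card_product, Int.card_Icc]
  unfold nb
  simp
  omega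

theorem cells_cuf (b : ℕ) {gs : List (List Bool)} (h : ∀ g ∈ gs, ∃ h, 1 ≤ h ∧ g ∈ Brd h) :
    ∀ (Q : Pt) (ε : ℤ), ε = 1 ∨ ε = -1 →
    ((range ((cuf gs).length + 1)).image fun i => cell b (Q + ε • vx oo up (cuf gs) i)).card ≤
      9 * (gs.map (nb b)).sum + 1 := by
  induction gs with
  | nil =>
    intro Q ε _
    rw [cuf_nil]
    refine card_image_le.trans ?_
    simp
  | cons g gs ih =>
    intro Q ε hε
    obtain ⟨n, hn, hg⟩ := h g (by simp)
    have ih' := ih fun g' hg' => h g' (List.mem_cons_of_mem _ hg')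
    obtain ⟨e1, e2, e3⟩ := unf_step (r := cuf gs) hg hn
    rw [cuf_cons]
    obtain ⟨w, hw⟩ : ∃ w, w = g.dropLast ++ (!lst g) :: (!lst g) :: cuf gs := ⟨_, rfl⟩
    rw [← hw] at e1 e2 e3 ⊢
    obtain ⟨P, hP⟩ : ∃ P, P = vx oo up g g.length + turn (!lst g) (turn (!lst g) up) := ⟨_, rfl⟩
    rw [← hP] at e3
    have hsub : ((range (w.length + 1)).image fun i => cell b (Q + ε • vx oo up w i)) ⊆
        ((range (g.length + 1)).image fun i => cell b (Q + ε • vx oo up g i)) ∪
        ((range ((cuf gs).length + 1)).image fun i => cell b ((Q + ε • P) + (-ε) • vx oo up (cuf gs) i)) := by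
      intro q hq
      rw [mem_image] at hq
      obtain ⟨i, hi, rfl⟩ := hq
      rw [mem_range, e1] at hi
      rw [mem_union, mem_image, mem_image]
      rcases Nat.lt_or_ge g.length i with h1 | h1
      · obtain ⟨j, rfl⟩ := Nat.exists_eq_add_of_lt h1
        right
        refine ⟨j, by rw [mem_range]; omega, ?_⟩
        rw [show g.length + j + 1 = g.length + 1 + j by omega, e3]
        congr 1
        rw [smul_sub, neg_smul]
        abel
      · left
        exact ⟨i, by rw [mem_range]; omega, by rw [e2 i h1]⟩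
    refine (card_le_card hsub).trans ((card_union_le _ _).trans ?_)
    have h1 := cells_aff b g Q hε
    have h2 := ih' (Q + ε • P) (-ε) (by rcases hε with rfl | rfl <;> simp)
    rw [List.map_cons, List.sum_cons]
    omega

lemma nb_pos (b : ℕ) (t : List Bool) : 1 ≤ nb b t := by
  unfold nb cells
  rw [Nat.one_le_iff_ne_zero, Ne, Finset.card_eq_zero]
  simp

/-- CellT of helper35 (PLD/Sum) with C = 10 -/
theorem cell_t {b : ℕ} {gs : List (List Bool)} (hc : Cyc gs) : nb b (cuf gs) ≤ 10 * (gs.map (nb b)).sum := by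
  have h1 := cells_cuf b hc.brd 0 1 (Or.inl rfl)
  have h2 : nb b (cuf gs) ≤ 9 * (gs.map (nb b)).sum + 1 := by
    unfold nb cells
    refine le_trans (le_of_eq ?_) h1
    congr 1
    apply image_congr
    intro i _
    simp only [one_smul, zero_add]
  have h3 : 1 ≤ (gs.map (nb b)).sum := by
    have h4 := hc.two
    cases gs with
    | nil => simp at h4
    | cons g gs =>
      rw [List.map_cons, List.sum_cons]
      have := nb_pos b g
      omega
  omega

end PLD

end HexObs
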