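import Pool.Agent.PLD.SelDefs

/-!
PLD, (E1'): the final statement for words.
-/

set_option autoImplicit false

namespace HexObs

namespace PLD

open Finset TS SDN

open scoped ENNReal

/-- representatives mod rotation of polygons of the scale L: extent in the direction false at least 2 ^ L, extents in
the directions false, true at most 2 ^ (L + 1) -/
structure ZOK (L : ℕ) (Z : Set (List Bool)) : Prop where
  cw : Z ⊆ Cw
  uniq : ∀ z ∈ Z, ∀ z' ∈ Z, ∀ r, z' = z.rotate r → z' = z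
  box : ∀ z ∈ Z, ∀ (dir : Bool) (i i' : ℕ), i ≤ z.length → i' ≤ z.length →
    |row dir (vx oo up z i) - row dir (vx oo up z i')| ≤ 2 ^ (L + 1)
  ext : ∀ z ∈ Z, ∃ i i', i ≤ z.length ∧ i' ≤ z.length ∧ 2 ^ L ≤ row false (vx oo up z i) - row false (vx oo up z i')

/-- the weighted number of the visited cells of the polygons of the scale L -/
def Star : Prop := ∃ C κ : ℝ, 0 < C ∧ 0 < κ ∧ κ ≤ 1 ∧ ∀ (L b1 : ℕ) (Z : Set (List Bool)), b1 ≤ L → ZOK L Z →
  ∑' z : Z, wE z.1 * (nb b1 z.1 : ℝ≥0∞) ≤ ENNReal.ofReal (C * (1 / 4) ^ L * (2 : ℝ) ^ ((2 - κ) * ((L : ℝ) - b1)))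

/-- the sum over the polygons by the sums over the lists of m leaves (tall leaves: Tlh) -/
def Tlh (m L k : ℕ) : Set (List Bool) := {g | g ∈ CL (k + 6) ∧ 2 ^ L ≤ m * (hgt g + 1)}

/-- lists of the scale k with two tall leaves -/
def SK (m L k : ℕ) : Set (List (List Bool)) := {gs | gs ∈ CC m L k ∧ ∃ i j, i ≠ j ∧ i < gs.length ∧ j < gs.length ∧
  gs.getD i [] ∈ Tlh m L k ∧ gs.getD j [] ∈ Tlh m L k}

/-- the reduction from polygons to lists -/
def Red : Prop := ∃ C1 : ℝ, 1 ≤ C1 ∧ ∀ (m L b : ℕ) (Z : Set (List Bool)), Even m → 2 ≤ m → 6 ≤ L → ZOK L Z →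
  ∑' z : Z, wE z.1 * (nb b z.1 : ℝ≥0∞) ≤
    ∑ k ∈ range (L + 1), ∑' gs : SK m L k, SDN.wl gs.1 * ENNReal.ofReal (C1 * ((gs.1.map (nb b)).sum : ℕ)) +
    ∑ m' ∈ (range m).filter (fun m' => Even m' ∧ 2 ≤ m'), ∑' gs : SK m' L 0,
      SDN.wl gs.1 * ENNReal.ofReal (C1 * ((gs.1.map (nb b)).sum : ℕ))

end PLD

end HexObs
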