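import Pool.Agent.PLD.DenseB
import Pool.Agent.PLD.StarDefs

/-!
PLD, final part (E1'): the inputs from the selection (doc zf/E1_h80, messages of helper70).
-/

set_option autoImplicit false

namespace HexObs

namespace PLD

open Finset TS SDN

open scoped ENNReal

/-- g can be opened: the windows k - n and k -/
def gd (k n : ℕ) (g : List Bool) : Prop := 1 / 2 ≤ gam k (k - n) (k - 2 * n) g

/-- a leaf can be opened and another one is in W -/
def GW (k n : ℕ) (W : Set (List Bool)) (gs : List (List Bool)) : Prop :=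
  ∃ i j, i ≠ j ∧ i < gs.length ∧ j < gs.length ∧ gd k n (gs.getD i []) ∧ gs.getD j [] ∈ W

open Classical in
/-- w bounds the norm of the sum over the next leaf in W -/
def NW (L k : ℕ) (W : Set (List Bool)) (w : ℝ) : Prop :=
  Nrm (2 ^ (k + 4)) (2 ^ (L + 2)) k (fun g => if g ∈ W then 1 else 0) (ENNReal.ofReal w)

/-- the tall leaves without backtracks -/
abbrev Tl (m L k : ℕ) : Set (List Bool) := Tlh m L k

/-- two leaves are in W -/
def W2 (W : Set (List Bool)) (gs : List (List Bool)) : Prop :=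
  ∃ i j, i ≠ j ∧ i < gs.length ∧ j < gs.length ∧ gs.getD i [] ∈ W ∧ gs.getD j [] ∈ W

/-- a leaf is in W -/
def W1 (W : Set (List Bool)) (gs : List (List Bool)) : Prop := ∃ j, j < gs.length ∧ gs.getD j [] ∈ W

/-- the three bounds from the selection and the closing lemma -/
structure Sel (K c : ℝ) : Prop where
  oneK : 1 ≤ K
  posc : 0 < c
  sel : ∀ (m L k n : ℕ) (W : Set (List Bool)) (w : ℝ), Even m → 6 ≤ m → k ≤ L → 3 ≤ n → 2 * n ≤ k → 0 ≤ w → NW L k W w →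
    WS {gs | gs ∈ CC m L k ∧ Gd k n gs ∧ (n = 3 ∨ ¬ Gd k (n - 1) gs) ∧ GW k n W gs} ≤
      ENNReal.ofReal (K * (m : ℝ) ^ 3 * (2 : ℝ) ^ (-(2 * (k : ℝ))) * (2 : ℝ) ^ (13 / 4 * (n : ℝ)) *
        (K * 2 ^ (L + 2 - k)) ^ 4 * w *
        (K * 2 ^ (L + 2 - k) * (if n = 3 then 1 else (2 : ℝ) ^ (-(c * ((n : ℝ) - 1))))) ^ (m - 4))
  none : ∀ (m L k n : ℕ) (W : Set (List Bool)) (w : ℝ), Even m → 6 ≤ m → k ≤ L → 3 ≤ n → 2 * n ≤ k → 0 ≤ w → NW L k W w →
    WS {gs | gs ∈ CC m L k ∧ ¬ Gd k n gs ∧ W1 W gs} ≤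
      ENNReal.ofReal (K * (m : ℝ) ^ 3 * Ub L * (K * 2 ^ (L + 2 - k)) ^ 3 * w *
        (K * 2 ^ (L + 2 - k) * (2 : ℝ) ^ (-(c * (n : ℝ)))) ^ (m - 3))
  triv : ∀ (m L k : ℕ) (W : Set (List Bool)) (w : ℝ), Even m → 2 ≤ m → k ≤ L → 0 ≤ w → NW L k W w →
    WS {gs | gs ∈ CC m L k ∧ W1 W gs} ≤
      ENNReal.ofReal (K * m * Ub L * w * (K * 2 ^ (L + 2 - k)) ^ m)

/-- the norm of the tall leaves without backtracks -/
def TallN : Prop := ∀ m : ℕ, 1 ≤ m → ∃ (Kt : ℝ) (A B : ℕ), 1 ≤ Kt ∧ 1 ≤ B ∧ ∀ L k : ℕ, k ≤ L →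
  NW L k (Tl m L k) (Kt * 2 ^ (A * (L - k)) / 4 ^ (2 ^ (L - k) / B))

/-! ### indices -/

lemma one_idx {α : Type*} (d : α) (p : α → Bool) : ∀ gs : List α, 1 ≤ (gs.filter p).length →
    ∃ i, i < gs.length ∧ p (gs.getD i d) = true := by
  intro gs
  induction gs with
  | nil => intro h; simp at h
  | cons g gs ih =>
    intro h
    by_cases hp : p g = true
    · exact ⟨0, by simp, by simpa using hp⟩
    · rw [List.filter_cons_of_neg hp] at h
      obtain ⟨i, h1, h2⟩ := ih h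
      exact ⟨i + 1, by simpa using h1, by simpa using h2⟩

lemma two_idx {α : Type*} (d : α) (p : α → Bool) : ∀ gs : List α, 2 ≤ (gs.filter p).length →
    ∃ i j, i < j ∧ j < gs.length ∧ p (gs.getD i d) = true ∧ p (gs.getD j d) = true := by
  intro gs
  induction gs with
  | nil => intro h; simp at h
  | cons g gs ih =>
    intro h
    by_cases hp : p g = true
    · rw [List.filter_cons_of_pos hp, List.length_cons] at h
      obtain ⟨i, h1, h2⟩ := one_idx d p gs (by omega)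
      exact ⟨0, i + 1, by omega, by simpa using h1, by simpa using hp, by simpa using h2⟩
    · rw [List.filter_cons_of_neg hp] at h
      obtain ⟨i, j, h1, h2, h3, h4⟩ := ih h
      exact ⟨i + 1, j + 1, by omega, by simpa using h2, by simpa using h3, by simpa using h4⟩

lemma Gd_idx {k n : ℕ} {gs : List (List Bool)} (h : Gd k n gs) :
    ∃ i j, i < j ∧ j < gs.length ∧ gd k n (gs.getD i []) ∧ gd k n (gs.getD j []) := by
  obtain ⟨i, j, h1, h2, h3, h4⟩ := two_idx [] _ gs h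
  refine ⟨i, j, h1, h2, ?_, ?_⟩
  · unfold gd
    exact (decide_eq_true_iff).1 h3
  · unfold gd
    exact (decide_eq_true_iff).1 h4

lemma GW_of_W2 {k n : ℕ} {W : Set (List Bool)} {gs : List (List Bool)} (h : Gd k n gs) (hW : W2 W gs) : GW k n W gs := by
  obtain ⟨i, j, h1, h2, h3, h4⟩ := Gd_idx h
  obtain ⟨a, b, g1, g2, g3, g4, g5⟩ := hW
  by_cases hia : i = a
  · exact ⟨i, b, by omega, by omega, g3, h3, g5⟩
  · exact ⟨i, a, hia, by omega, g2, h3, g4⟩

lemma GW_of_W1 {k n : ℕ} {W : Set (List Bool)} {gs : List (List Bool)} (h : Gd k n gs) (hW : W1 W gs) : GW k n W gs := by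
  obtain ⟨i, j, h1, h2, h3, h4⟩ := Gd_idx h
  obtain ⟨a, g2, g4⟩ := hW
  by_cases hia : i = a
  · exact ⟨j, a, by omega, h2, g2, h4, g4⟩
  · exact ⟨i, a, hia, by omega, g2, h3, g4⟩

lemma W1_of_W2 {W : Set (List Bool)} {gs : List (List Bool)} (hW : W2 W gs) : W1 W gs := by
  obtain ⟨a, b, g1, g2, g3, g4, g5⟩ := hW
  exact ⟨a, g2, g4⟩

end PLD

end HexObs
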