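import Pool.Agent.PLD.OpDefs
import Pool.Agent.PLD.Alt
import Pool.Agent.SDN.PairCap

/-!
PLD (E1'), [S3]: the closing inequality for cyclic chains of leaves (helper80, zf/E1_h80, section 3).
-/

set_option autoImplicit false

namespace HexObs

namespace PLD

open Finset TS SDN

open scoped ENNReal

/-- the bridges with prescribed height and abscissa -/
lemma gf_end : ∃ C : ℝ, 0 < C ∧ ∀ (j h : ℕ) (x : ℤ), 2 ^ j ≤ h →
    gf {V | V ∈ Brd h ∧ latE V = x} ≤ ENNReal.ofReal (C * (2 : ℝ) ^ (-(5 / 4 : ℝ) * j)) := by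
  obtain ⟨C, hC, hend⟩ := anti_end
  obtain ⟨C', hC', hu⟩ := T2.uu_le_quarter
  refine ⟨C * C', by positivity, fun j h x hj => ?_⟩
  have hh1 : 1 ≤ h := le_trans Nat.one_le_two_pow hj
  have hpos : (0 : ℝ) < h := by exact_mod_cast hh1
  refine (hend h hh1 _).trans (ENNReal.ofReal_le_ofReal ?_)
  rw [mul_assoc]
  refine mul_le_mul_of_nonneg_left ?_ hC.le
  have h2 : uu h / h ≤ C' * (h : ℝ) ^ (-(5 / 4 : ℝ)) := by
    rw [div_le_iff₀ hpos]
    calc uu h ≤ C' * (h : ℝ) ^ (-(1 / 4 : ℝ)) := hu h hh1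
      _ = C' * (h : ℝ) ^ (-(5 / 4 : ℝ)) * h := by
          rw [mul_assoc]
          congr 1
          conv_rhs => rw [← Real.rpow_add_one hpos.ne']
          norm_num
  refine h2.trans (mul_le_mul_of_nonneg_left ?_ hC'.le)
  have h3 : (2 : ℝ) ^ j ≤ h := by exact_mod_cast hj
  calc (h : ℝ) ^ (-(5 / 4 : ℝ)) ≤ ((2 : ℝ) ^ j) ^ (-(5 / 4 : ℝ)) :=
        Real.rpow_le_rpow_of_nonpos (by positivity) h3 (by norm_num)
    _ = (2 : ℝ) ^ (-(5 / 4 : ℝ) * j) := by
        rw [← Real.rpow_natCast, ← Real.rpow_mul (by norm_num), mul_comm]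

lemma mu_le (k n r : ℕ) : mu k n r ≤ min 1 ((r : ℝ≥0∞) / 2 ^ k) := by
  have h0 : (2 : ℝ≥0∞) ^ k ≠ 0 := pow_ne_zero _ (by norm_num)
  have h1 : (2 : ℝ≥0∞) ^ k ≠ ⊤ := ENNReal.pow_ne_top (by norm_num)
  unfold mu
  refine le_min ?_ (ENNReal.div_le_div_right ?_ _)
  · rw [ENNReal.div_le_iff h0 h1, one_mul]
    have h2 : ((Finset.Ico (2 ^ k) (2 ^ (k + 1))).filter fun l => n ≤ l ∧ l < n + r).card ≤ 2 ^ k := by
      refine (Finset.card_filter_le _ _).trans ?_
      rw [Nat.card_Ico, pow_succ]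
      omega
    calc _ ≤ ((2 ^ k : ℕ) : ℝ≥0∞) := Nat.cast_le.2 h2
      _ = 2 ^ k := by push_cast; rfl
  · rw [Nat.cast_le]
    calc _ ≤ (Finset.Ico n (n + r)).card := Finset.card_le_card fun l hl => by
          rw [Finset.mem_filter] at hl
          rw [Finset.mem_Ico]
          exact hl.2
      _ = r := by rw [Nat.card_Ico]; omega

/-! ### 1. The bridge V is determined up to the end point -/

/-- closed lists of leaves with heights in [D, N] -/
structure Cl (D N : ℕ) (gs : List (List Bool)) : Prop where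
  chain : gs.IsChain LFold
  cyc : ∀ x ∈ gs.getLast?, ∀ y ∈ gs.head?, LFold x y
  hgt0 : altH gs = 0
  lat0 : altX gs = 0
  brr : ∀ g ∈ gs, g ∈ BrR D N

/-- product of the weights of the leaves, 0 if the lengths are different -/
noncomputable def wF : List (List Bool → ℝ≥0∞) → List (List Bool) → ℝ≥0∞
  | [], [] => 1
  | F :: Fs, g :: gs => wE g * F g * wF Fs gs
  | [], _ :: _ => 0
  | _ :: _, [] => 0

/-- weight of a closed list with a good first leaf -/
noncomputable def clW (k j1 j3 : ℕ) (Fs : List (List Bool → ℝ≥0∞)) : List (List Bool) → ℝ≥0∞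
  | [] => 0
  | g :: gs => wE g * gam k j1 j3 g * wF Fs gs

lemma tw_cat (s u : List Bool) (hu : u ≠ []) : tw (s ++ u) = tw u := by
  unfold tw
  rw [PC.lst_cat _ _ hu]

lemma ne_IU {P Q : List Bool} (h : P ∈ IU) : P ++ Q ≠ [] := by
  obtain ⟨r, h1, h2, _⟩ := h
  intro h3
  exact h2 (List.append_eq_nil_iff.1 h3).1

lemma V_prescribed {D N : ℕ} {M P1 V P2 Q : List Bool} {gs : List (List Bool)} {h : ℕ} (hM : M ∈ BU) (hP1 : P1 ∈ IU)
    (hV : V ∈ Brd h) (hP2 : P2 ∈ IU) (hQ : Q ∈ BU) (hc : Cl D N ((M ++ (P1 ++ (V ++ (P2 ++ Q)))) :: gs)) :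
    (h : ℤ) = altH gs - hgt M - hgt P1 - hgt P2 - hgt Q ∧
    latE V = altX gs - latE M - latE P1 - latE (P2 ++ Q) - tw (P2 ++ Q) := by
  have bM := BU_hgt hM
  have bP1 := BU_hgt (IU_BU hP1)
  have bP2 := BU_hgt (IU_BU hP2)
  have bQ := BU_hgt hQ
  have bA := Brd_append bM (Brd_append bP1 (Brd_append hV (Brd_append bP2 bQ)))
  have h1 : ht (M ++ (P1 ++ (V ++ (P2 ++ Q)))) - altH gs = 0 := hc.hgt0
  have h2 : latE (M ++ (P1 ++ (V ++ (P2 ++ Q)))) + tw (M ++ (P1 ++ (V ++ (P2 ++ Q)))) - altX gs = 0 := hc.lat0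
  constructor
  · rw [TS.ht_eq bA] at h1
    push_cast at h1
    linarith
  · have h3 : tw (M ++ (P1 ++ (V ++ (P2 ++ Q)))) = tw (P2 ++ Q) := by
      have h4 : M ++ (P1 ++ (V ++ (P2 ++ Q))) = (M ++ (P1 ++ V)) ++ (P2 ++ Q) := by simp only [List.append_assoc]
      rw [h4, tw_cat _ _ (ne_IU hP2)]
    rw [h3, latE_cat (dx_end bM), latE_cat (dx_end bP1), latE_cat (dx_end hV)] at h2
    linarith

open Classical in
lemma sum_V {C : ℝ} (hC : ∀ (j h : ℕ) (x : ℤ), 2 ^ j ≤ h →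
    gf {V | V ∈ Brd h ∧ latE V = x} ≤ ENNReal.ofReal (C * (2 : ℝ) ^ (-(5 / 4 : ℝ) * j)))
    {D N : ℕ} {S : Set (List (List Bool))} (hS : ∀ gs ∈ S, Cl D N gs) (k j3 : ℕ) (gs : List (List Bool))
    {M P1 P2 Q : List Bool} (hM : M ∈ BU) (hP1 : P1 ∈ IU) (hP2 : P2 ∈ IU) (hQ : Q ∈ BU) :
    ∑' h : ℕ, mu k (hgt M + hgt P1 + h) (hgt P2) * sB (Brd h) (fun V =>
      if 2 ^ j3 ≤ h ∧ M ++ (P1 ++ (V ++ (P2 ++ Q))) ∈ {g | g :: gs ∈ S} then wE V * 1 else 0) ≤
    (if ∃ V ∈ BU, hgt M + hgt P1 + hgt V ≤ 2 ^ (k + 1) ∧ (M ++ (P1 ++ (V ++ (P2 ++ Q)))) :: gs ∈ S then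
      min 1 ((hgt P2 : ℝ≥0∞) / 2 ^ k) * ENNReal.ofReal (C * (2 : ℝ) ^ (-(5 / 4 : ℝ) * j3)) else 0) := by
  by_cases hex : ∃ h, ∃ V ∈ Brd h, 2 ^ j3 ≤ h ∧ (M ++ (P1 ++ (V ++ (P2 ++ Q)))) :: gs ∈ S ∧
      mu k (hgt M + hgt P1 + h) (hgt P2) ≠ 0
  · obtain ⟨h0, V0, hV0, hj, hc0, hmu⟩ := hex
    rw [if_pos ⟨V0, ⟨h0, hV0⟩, by rw [hgt_eq hV0]; exact (mu_ne hmu).1.le, hc0⟩]
    have e0 := V_prescribed hM hP1 hV0 hP2 hQ (hS _ hc0)
    rw [tsum_eq_single h0]
    · refine mul_le_mul' (mu_le k _ _) ?_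
      refine le_trans ?_ (hC j3 h0 (latE V0) hj)
      have h1 : sB (Brd h0) (fun V =>
          if 2 ^ j3 ≤ h0 ∧ M ++ (P1 ++ (V ++ (P2 ++ Q))) ∈ {g | g :: gs ∈ S} then wE V * 1 else 0) =
          sB {V | V ∈ Brd h0 ∧ (2 ^ j3 ≤ h0 ∧ M ++ (P1 ++ (V ++ (P2 ++ Q))) ∈ {g | g :: gs ∈ S})}
            (fun V => wE V * 1) := by
        rw [← sB_ite]
      rw [h1]
      refine sB_mono ?_ fun V _ => by rw [mul_one]
      rintro V ⟨hV, _, hc⟩
      exact ⟨hV, (V_prescribed hM hP1 hV hP2 hQ (hS _ hc)).2.trans e0.2.symm⟩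
    · intro h hne
      have h1 : sB (Brd h) (fun V =>
          if 2 ^ j3 ≤ h ∧ M ++ (P1 ++ (V ++ (P2 ++ Q))) ∈ {g | g :: gs ∈ S} then wE V * 1 else 0) = 0 := by
        refine Eq.trans (sB_congr (G := fun _ => 0) fun V hV => ?_) (sB_zero (Brd h))
        rw [if_neg]
        rintro ⟨_, hc⟩
        have e1 := V_prescribed hM hP1 hV hP2 hQ (hS _ hc)
        have e2 : (h : ℤ) = h0 := e1.1.trans e0.1.symm
        exact hne (by exact_mod_cast e2)
      rw [h1, mul_zero]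
  · have h0 : ∀ h : ℕ, mu k (hgt M + hgt P1 + h) (hgt P2) * sB (Brd h) (fun V =>
        if 2 ^ j3 ≤ h ∧ M ++ (P1 ++ (V ++ (P2 ++ Q))) ∈ {g | g :: gs ∈ S} then wE V * 1 else 0) = 0 := by
      intro h
      by_cases hmu : mu k (hgt M + hgt P1 + h) (hgt P2) = 0
      · rw [hmu, zero_mul]
      have h1 : sB (Brd h) (fun V =>
          if 2 ^ j3 ≤ h ∧ M ++ (P1 ++ (V ++ (P2 ++ Q))) ∈ {g | g :: gs ∈ S} then wE V * 1 else 0) = 0 := by
        refine Eq.trans (sB_congr (G := fun _ => 0) fun V hV => ?_) (sB_zero (Brd h))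
        rw [if_neg]
        rintro ⟨hj, hc⟩
        exact hex ⟨h, V, hV, hj, hc, hmu⟩
      rw [h1, mul_zero]
    rw [tsum_congr h0, tsum_zero]
    exact bot_le

/-! ### 2. The open chain -/

/-- the fronts M ++ P1 -/
def FrP (D N : ℕ) (M P1 t : List Bool) : Prop :=
  ∃ Y ∈ BU, M ++ (P1 ++ Y) ∈ BrR D N ∧ RT D LFold t (M ++ (P1 ++ Y))

open Classical in
/-- indicator of the fronts that can follow t -/
noncomputable def Fi (D N : ℕ) (M P1 t : List Bool) : ℝ≥0∞ := if FrP D N M P1 t then 1 else 0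

/-- open chains from the tail t to the front M ++ P1 -/
def OC (D N : ℕ) (M P1 : List Bool) : List Bool → List (List Bool) → Prop
  | t, [] => FrP D N M P1 t
  | t, g :: gs => g ∈ BrR D N ∧ RT D LFold t g ∧ OC D N M P1 g gs

lemma cons_inj : Function.Injective fun p : List Bool × List (List Bool) => p.1 :: p.2 := by
  rintro ⟨a, b⟩ ⟨c, d⟩ h
  simp only [List.cons.injEq] at h
  exact Prod.ext h.1 h.2

open Classical in
lemma sum_OC (D N : ℕ) (M P1 : List Bool) : ∀ (Fs : List (List Bool → ℝ≥0∞)) (t : List Bool),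
    ∑' gs : List (List Bool), (if OC D N M P1 t gs then wF Fs gs else 0) ≤
      Fs.foldr (uF D N LFold) (Fi D N M P1) t := by
  intro Fs
  induction Fs with
  | nil =>
    intro t
    rw [tsum_eq_single []]
    · show (if FrP D N M P1 t then (1 : ℝ≥0∞) else 0) ≤ Fi D N M P1 t
      exact le_rfl
    · intro gs hgs
      rcases gs with _ | ⟨g, gs⟩
      · exact absurd rfl hgs
      · show (if OC D N M P1 t (g :: gs) then (0 : ℝ≥0∞) else 0) = 0
        split_ifs <;> rfl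
  | cons F Fs ih =>
    intro t
    have hs : Function.support (fun gs : List (List Bool) => if OC D N M P1 t gs then wF (F :: Fs) gs else 0) ⊆
        Set.range fun p : List Bool × List (List Bool) => p.1 :: p.2 := by
      intro gs hgs
      rcases gs with _ | ⟨g, gs⟩
      · exfalso
        apply hgs
        show (if OC D N M P1 t [] then (0 : ℝ≥0∞) else 0) = 0
        split_ifs <;> rfl
      · exact ⟨(g, gs), rfl⟩
    rw [← cons_inj.tsum_eq hs, ENNReal.tsum_prod']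
    show _ ≤ uF D N LFold F (Fs.foldr (uF D N LFold) (Fi D N M P1)) t
    have hd : ∀ Φ : List Bool → ℝ≥0∞, uF D N LFold F Φ t = ∑' g : List Bool,
        Set.indicator {g' | g' ∈ BrR D N ∧ RT D LFold t g'} (fun g' => wE g' * (F g' * Φ g')) g := fun Φ =>
      tsum_subtype {g' | g' ∈ BrR D N ∧ RT D LFold t g'} (fun g' => wE g' * (F g' * Φ g'))
    rw [hd]
    refine ENNReal.tsum_le_tsum fun g => ?_
    by_cases hg : g ∈ {g' | g' ∈ BrR D N ∧ RT D LFold t g'}
    · rw [Set.indicator_of_mem hg]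
      calc ∑' gs : List (List Bool), (if OC D N M P1 t (g :: gs) then wF (F :: Fs) (g :: gs) else 0)
          ≤ ∑' gs : List (List Bool), wE g * F g * (if OC D N M P1 g gs then wF Fs gs else 0) := by
            refine ENNReal.tsum_le_tsum fun gs => ?_
            by_cases h1 : OC D N M P1 t (g :: gs)
            · rw [if_pos h1, if_pos h1.2.2]
              exact le_rfl
            · rw [if_neg h1]
              exact bot_le
        _ = wE g * F g * ∑' gs : List (List Bool), (if OC D N M P1 g gs then wF Fs gs else 0) :=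
            ENNReal.tsum_mul_left
        _ ≤ wE g * F g * Fs.foldr (uF D N LFold) (Fi D N M P1) g := mul_le_mul_right (ih g) _
        _ = wE g * (F g * Fs.foldr (uF D N LFold) (Fi D N M P1) g) := mul_assoc _ _ _
    · rw [Set.indicator_of_notMem hg]
      refine le_of_eq (ENNReal.tsum_eq_zero.2 fun gs => ?_)
      rw [if_neg]
      intro h1
      exact hg ⟨h1.1, h1.2.1⟩

/-- the chain of the other leaves is an open chain -/
lemma OC_of {D N : ℕ} {M P1 W g1 : List Bool} (hg1 : g1 = M ++ (P1 ++ W)) (hW : W ∈ BU) (hg1R : g1 ∈ BrR D N) :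
    ∀ (gs : List (List Bool)) (g t : List Bool), List.IsChain LFold (g :: gs) →
    (∀ x ∈ (g :: gs).getLast?, LFold x g1) → (∀ x ∈ g :: gs, x ∈ BrR D N) → (∀ g', LFold g g' → RT D LFold t g') →
    OC D N M P1 t gs := by
  intro gs
  induction gs with
  | nil =>
    intro g t _ hlast _ hR
    refine ⟨W, hW, hg1 ▸ hg1R, ?_⟩
    rw [← hg1]
    exact hR g1 (hlast g (by simp))
  | cons g' gs ih =>
    intro g t hch hlast hx hR
    have h1 := List.isChain_cons_cons.1 hch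
    refine ⟨hx g' (by simp), hR g' h1.1, ih g' g' h1.2 ?_ (fun x hx' => hx x (List.mem_cons_of_mem _ hx')) ?_⟩
    · intro x hx'
      refine hlast x ?_
      rw [List.getLast?_cons_cons]
      exact hx'
    · intro g'' hg''
      exact ⟨[], ⟨0, nil_mem_Brd⟩, BrR_HB (hx g' (by simp)), hg''⟩

lemma OC_of_Cl {D N : ℕ} {M P1 V P2 Q : List Bool} {gs : List (List Bool)} (hM : M ∈ BU) (hP1 : P1 ∈ IU)
    (hV : V ∈ BU) (hP2 : P2 ∈ IU) (hQ : Q ∈ BU) (hc : Cl D N ((M ++ (P1 ++ (V ++ (P2 ++ Q)))) :: gs)) :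
    OC D N M P1 (P2 ++ Q) gs := by
  have hW : V ++ (P2 ++ Q) ∈ BU :=
    ⟨_, Brd_append (BU_hgt hV) (Brd_append (BU_hgt (IU_BU hP2)) (BU_hgt hQ))⟩
  refine OC_of (W := V ++ (P2 ++ Q)) rfl hW (hc.brr _ (by simp)) gs _ _ hc.chain ?_ hc.brr ?_
  · intro x hx
    exact hc.cyc x hx _ (by simp)
  · intro g' hg'
    obtain ⟨h, hV⟩ := hV
    refine ⟨M ++ (P1 ++ V), PC.pre_BU hM hP1 hV, ?_, ?_⟩
    · rw [← PC.cat_eq]
      exact BrR_HB (hc.brr _ (by simp))
    · rw [← PC.cat_eq]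
      exact hg'

/-! ### 3. Linearity in the last functional -/

lemma uF_lin (D N : ℕ) (R : List Bool → List Bool → Prop) (F : List Bool → ℝ≥0∞) (A : Set (List Bool))
    (c : List Bool → ℝ≥0∞) (Ψ : List Bool → List Bool → ℝ≥0∞) (t : List Bool) :
    sB A (fun x => c x * uF D N R F (Ψ x) t) = uF D N R F (fun t => sB A fun x => c x * Ψ x t) t := by
  have hd : ∀ Φ : List Bool → ℝ≥0∞, uF D N R F Φ t = sB {g' | g' ∈ BrR D N ∧ RT D R t g'}
      (fun g' => wE g' * (F g' * Φ g')) := fun Φ => rfl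
  rw [hd]
  have h1 : ∀ x, c x * uF D N R F (Ψ x) t =
      sB {g' | g' ∈ BrR D N ∧ RT D R t g'} (fun g' => c x * (wE g' * (F g' * Ψ x g'))) := fun x => by
    rw [hd, sB_mul]
  rw [sB_congr fun x _ => h1 x, sB_swap]
  refine sB_congr fun g' _ => ?_
  rw [← sB_mul, ← sB_mul]
  refine sB_congr fun x _ => ?_
  ring

lemma foldr_lin (D N : ℕ) (A : Set (List Bool)) (c : List Bool → ℝ≥0∞) (Ψ : List Bool → List Bool → ℝ≥0∞) :
    ∀ (Fs : List (List Bool → ℝ≥0∞)) (t : List Bool),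
    sB A (fun x => c x * Fs.foldr (uF D N LFold) (Ψ x) t) =
      Fs.foldr (uF D N LFold) (fun t => sB A fun x => c x * Ψ x t) t := by
  intro Fs
  induction Fs with
  | nil => exact fun t => rfl
  | cons F Fs ih =>
    intro t
    show sB A (fun x => c x * uF D N LFold F (Fs.foldr (uF D N LFold) (Ψ x)) t) =
      uF D N LFold F (Fs.foldr (uF D N LFold) (fun t => sB A fun x => c x * Ψ x t)) t
    rw [uF_lin]
    congr 1
    funext t
    exact ih t

open Classical in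
/-- weight of the first piece -/
noncomputable def fW (D N k : ℕ) (P2 Q : List Bool) : ℝ≥0∞ :=
  if ∃ Y ∈ BU, hgt Y ≤ 2 ^ (k + 1) ∧ Y ++ (P2 ++ Q) ∈ BrR D N then
    min 1 ((hgt P2 : ℝ≥0∞) / 2 ^ k) * (wE P2 * wE Q) else 0

/-! ### 4. The closing inequality -/

open Classical in
/-- the closing inequality for cyclic chains -/
theorem closeL : ∃ C : ℝ, 0 < C ∧ ∀ (D N k j1 j3 : ℕ) (Fs : List (List Bool → ℝ≥0∞)) (S : Set (List (List Bool))),
    (∀ gs ∈ S, Cl D N gs) → ∑' gs : S, clW k j1 j3 Fs gs.1 ≤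
    ENNReal.ofReal (C * (2 : ℝ) ^ (-(5 / 4 : ℝ) * j3)) * fstP D N k (chn D N LFold j1 Fs) := by
  obtain ⟨C, hC0, hC⟩ := gf_end
  refine ⟨C, hC0, fun D N k j1 j3 Fs S hS => ?_⟩
  obtain ⟨v, hv⟩ : ∃ v : ℝ≥0∞, v = ENNReal.ofReal (C * (2 : ℝ) ^ (-(5 / 4 : ℝ) * j3)) := ⟨_, rfl⟩
  -- first leaf and the other leaves
  have step0 : ∑' gs : S, clW k j1 j3 Fs gs.1 =
      ∑' (gs : List (List Bool)), wF Fs gs * sB {g | g :: gs ∈ S} (fun g => wE g * gam k j1 j3 g) := by
    rw [tsum_subtype S (clW k j1 j3 Fs)]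
    have hs : Function.support (S.indicator (clW k j1 j3 Fs)) ⊆
        Set.range fun p : List Bool × List (List Bool) => p.1 :: p.2 := by
      intro gs hgs
      rcases gs with _ | ⟨g, gs⟩
      · exfalso
        apply hgs
        by_cases h : ([] : List (List Bool)) ∈ S
        · rw [Set.indicator_of_mem h]
          rfl
        · rw [Set.indicator_of_notMem h]
      · exact ⟨(g, gs), rfl⟩
    rw [← cons_inj.tsum_eq hs, ENNReal.tsum_prod', ENNReal.tsum_comm]
    refine tsum_congr fun gs => ?_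
    rw [← sB_mul]
    unfold sB
    rw [tsum_subtype {g | g :: gs ∈ S} (fun g => wF Fs gs * (wE g * gam k j1 j3 g))]
    refine tsum_congr fun g => ?_
    by_cases h : g :: gs ∈ S
    · rw [Set.indicator_of_mem h, Set.indicator_of_mem (show g ∈ {g | g :: gs ∈ S} from h)]
      show wE g * gam k j1 j3 g * wF Fs gs = _
      ring
    · rw [Set.indicator_of_notMem h, Set.indicator_of_notMem (show g ∉ {g | g :: gs ∈ S} from h)]
  rw [step0]
  -- the four-fold sum for fixed gs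
  have step1 : ∀ gs : List (List Bool), sB {g | g :: gs ∈ S} (fun g => wE g * gam k j1 j3 g) ≤
      sB BU fun M => sB IU fun P1 => sB IU fun P2 => sB BU fun Q =>
        mu j1 (hgt M) (hgt P1) * (wE M * wE P1) * (fW D N k P2 Q * v *
          (if OC D N M P1 (P2 ++ Q) gs then 1 else 0)) := by
    intro gs
    have e1 : sB {g | g :: gs ∈ S} (fun g => wE g * gam k j1 j3 g) =
        sB {g | g :: gs ∈ S} (fun g => wE g * (gam k j1 j3 g * (fun _ => (1 : ℝ≥0∞)) g)) :=
      sB_congr fun g _ => by rw [mul_one]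
    rw [e1]
    refine (PC.gam_exp k j1 j3 {g | g :: gs ∈ S} fun _ => 1).trans ?_
    unfold PC.T5
    refine sB_mono le_rfl fun M hM => sB_mono le_rfl fun P1 hP1 => ?_
    have e2 : ∀ h : ℕ, (sB IU fun P2 => sB BU fun Q =>
        mu j1 (hgt M) (hgt P1) * mu k (hgt M + hgt P1 + h) (hgt P2) * (wE M * (wE P1 * (wE P2 * (wE Q *
          sB (Brd h) (fun V => if 2 ^ j3 ≤ h ∧ M ++ (P1 ++ (V ++ (P2 ++ Q))) ∈ {g | g :: gs ∈ S} then
            wE V * (fun _ => (1 : ℝ≥0∞)) (M ++ (P1 ++ (V ++ (P2 ++ Q)))) else 0)))))) =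
        sB IU fun P2 => sB BU fun Q => (mu j1 (hgt M) (hgt P1) * (wE M * wE P1) * (wE P2 * wE Q)) *
          (mu k (hgt M + hgt P1 + h) (hgt P2) * sB (Brd h) (fun V =>
            if 2 ^ j3 ≤ h ∧ M ++ (P1 ++ (V ++ (P2 ++ Q))) ∈ {g | g :: gs ∈ S} then wE V * 1 else 0)) := by
      intro h
      refine sB_congr fun P2 _ => sB_congr fun Q _ => ?_
      ring
    rw [tsum_congr e2, ← sB_tsum_swap]
    refine sB_mono le_rfl fun P2 hP2 => ?_
    rw [← sB_tsum_swap]
    refine sB_mono le_rfl fun Q hQ => ?_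
    rw [ENNReal.tsum_mul_left]
    refine (mul_le_mul_right (sum_V hC hS k j3 gs hM hP1 hP2 hQ) _).trans ?_
    rw [← hv]
    by_cases hex : ∃ V ∈ BU, hgt M + hgt P1 + hgt V ≤ 2 ^ (k + 1) ∧ (M ++ (P1 ++ (V ++ (P2 ++ Q)))) :: gs ∈ S
    · rw [if_pos hex]
      obtain ⟨V, hV, hh, hc⟩ := hex
      have hcl := hS _ hc
      rw [if_pos (OC_of_Cl hM hP1 hV hP2 hQ hcl)]
      have hf : fW D N k P2 Q = min 1 ((hgt P2 : ℝ≥0∞) / 2 ^ k) * (wE P2 * wE Q) := by
        unfold fW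
        rw [if_pos]
        refine ⟨M ++ (P1 ++ V), PC.pre_BU hM hP1 (BU_hgt hV), ?_, ?_⟩
        · rw [hgt_eq (Brd_append (BU_hgt hM) (Brd_append (BU_hgt (IU_BU hP1)) (BU_hgt hV)))]
          omega
        · rw [← PC.cat_eq]
          exact hcl.brr _ (by simp)
      rw [hf]
      refine le_of_eq ?_
      ring
    · rw [if_neg hex, mul_zero]
      exact bot_le
  have step2 : ∑' (gs : List (List Bool)), wF Fs gs * sB {g | g :: gs ∈ S} (fun g => wE g * gam k j1 j3 g) ≤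
      sB BU fun M => sB IU fun P1 => sB IU fun P2 => sB BU fun Q =>
        mu j1 (hgt M) (hgt P1) * (wE M * wE P1) * (fW D N k P2 Q * v *
          Fs.foldr (uF D N LFold) (Fi D N M P1) (P2 ++ Q)) := by
    calc ∑' (gs : List (List Bool)), wF Fs gs * sB {g | g :: gs ∈ S} (fun g => wE g * gam k j1 j3 g)
        ≤ ∑' (gs : List (List Bool)), (sB BU fun M => sB IU fun P1 => sB IU fun P2 => sB BU fun Q =>
          mu j1 (hgt M) (hgt P1) * (wE M * wE P1) * (fW D N k P2 Q * v *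
            (if OC D N M P1 (P2 ++ Q) gs then wF Fs gs else 0))) := by
          refine ENNReal.tsum_le_tsum fun gs => ?_
          refine (mul_le_mul_right (step1 gs) _).trans (le_of_eq ?_)
          rw [← sB_mul]
          refine sB_congr fun M _ => ?_
          rw [← sB_mul]
          refine sB_congr fun P1 _ => ?_
          rw [← sB_mul]
          refine sB_congr fun P2 _ => ?_
          rw [← sB_mul]
          refine sB_congr fun Q _ => ?_
          split_ifs
          · ring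
          · ring
      _ ≤ _ := by
          rw [← sB_tsum_swap]
          refine sB_mono le_rfl fun M _ => ?_
          rw [← sB_tsum_swap]
          refine sB_mono le_rfl fun P1 _ => ?_
          rw [← sB_tsum_swap]
          refine sB_mono le_rfl fun P2 _ => ?_
          rw [← sB_tsum_swap]
          refine sB_mono le_rfl fun Q _ => ?_
          rw [ENNReal.tsum_mul_left, ENNReal.tsum_mul_left]
          exact mul_le_mul_right (mul_le_mul_right (sum_OC D N M P1 Fs (P2 ++ Q)) _) _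
  refine step2.trans (le_of_eq ?_)
  rw [← hv]
  -- linearity
  have e3 : ∀ P2 Q : List Bool, chn D N LFold j1 Fs (P2 ++ Q) =
      sB BU fun M => sB IU fun P1 => mu j1 (hgt M) (hgt P1) * (wE M * wE P1) *
        Fs.foldr (uF D N LFold) (Fi D N M P1) (P2 ++ Q) := by
    intro P2 Q
    have f1 : psiE D N LFold j1 = fun t => sB BU fun M => 1 * (sB IU fun P1 =>
        mu j1 (hgt M) (hgt P1) * (wE M * wE P1) * Fi D N M P1 t) := by
      funext t
      unfold psiE
      refine sB_congr fun M _ => ?_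
      rw [one_mul]
      refine sB_congr fun P1 _ => ?_
      unfold Fi
      by_cases h : FrP D N M P1 t
      · rw [if_pos h, mul_one]
        exact if_pos h
      · rw [if_neg h, mul_zero]
        exact if_neg h
    unfold chn
    rw [f1, ← foldr_lin D N BU (fun _ => 1) (fun M t => sB IU fun P1 =>
        mu j1 (hgt M) (hgt P1) * (wE M * wE P1) * Fi D N M P1 t)]
    refine sB_congr fun M _ => ?_
    rw [one_mul, ← foldr_lin]
  have e4 : fstP D N k (chn D N LFold j1 Fs) =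
      sB IU fun P2 => sB BU fun Q => fW D N k P2 Q * chn D N LFold j1 Fs (P2 ++ Q) := by
    unfold fstP fW
    refine sB_congr fun P2 _ => sB_congr fun Q _ => ?_
    split_ifs
    · ring
    · rw [zero_mul]
  rw [e4, ← sB_mul]
  calc (sB BU fun M => sB IU fun P1 => sB IU fun P2 => sB BU fun Q =>
        mu j1 (hgt M) (hgt P1) * (wE M * wE P1) * (fW D N k P2 Q * v *
          Fs.foldr (uF D N LFold) (Fi D N M P1) (P2 ++ Q)))
      = sB BU fun M => sB IU fun P2 => sB BU fun Q => sB IU fun P1 =>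
        mu j1 (hgt M) (hgt P1) * (wE M * wE P1) * (fW D N k P2 Q * v *
          Fs.foldr (uF D N LFold) (Fi D N M P1) (P2 ++ Q)) := by
        refine sB_congr fun M _ => ?_
        rw [sB_swap]
        refine sB_congr fun P2 _ => ?_
        rw [sB_swap]
    _ = sB IU fun P2 => sB BU fun Q => sB BU fun M => sB IU fun P1 =>
        mu j1 (hgt M) (hgt P1) * (wE M * wE P1) * (fW D N k P2 Q * v *
          Fs.foldr (uF D N LFold) (Fi D N M P1) (P2 ++ Q)) := by
        rw [sB_swap]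
        refine sB_congr fun P2 _ => ?_
        rw [sB_swap]
    _ = _ := by
        refine sB_congr fun P2 _ => ?_
        rw [← sB_mul]
        refine sB_congr fun Q _ => ?_
        rw [e3 P2 Q, ← sB_mul, ← sB_mul]
        refine sB_congr fun M _ => ?_
        rw [← sB_mul, ← sB_mul]
        refine sB_congr fun P1 _ => ?_
        ring

end PLD

end HexObs
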