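import Pool.Agent.PHW.AntiC
import Pool.Agent.T2.LongQ

/-!
PLD (E1'), the closing lemma: polygons from which a bridge with prescribed end points can be removed in many ways.
-/

set_option autoImplicit false

namespace HexObs

namespace PLD

open ENNReal

/-- closed words: polygons rooted at an edge that goes up, oriented -/
def Cw : Set (List Bool) := {z | z ≠ [] ∧ vx oo up z z.length = oo ∧ dx up z z.length = up ∧
  ∀ i k, i < k → k < z.length → vx oo up z i ≠ vx oo up z k}

/-! ### 1. The periodic walk -/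

/-- the turns of a closed word, repeated -/
def per (z : List Bool) (i : ℕ) : Bool := tf z (i % z.length)

/-- the vertices of the periodic walk -/
def pv (z : List Bool) (i : ℕ) : Pt := vs oo up (per z) i

/-- the directions of the periodic walk -/
def pd (z : List Bool) (i : ℕ) : Pt := ds up (per z) i

lemma per_lt {z : List Bool} {i : ℕ} (h : i < z.length) : per z i = tf z i := by
  unfold per
  rw [Nat.mod_eq_of_lt h]

lemma per_add (z : List Bool) (i : ℕ) : per z (z.length + i) = per z i := by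
  unfold per
  rw [Nat.add_mod_left]

lemma vx_eq_pv {z : List Bool} {i : ℕ} (h : i ≤ z.length) : vx oo up z i = pv z i :=
  vs_congr i fun _ hk => (per_lt (by omega)).symm

lemma dx_eq_pd {z : List Bool} {i : ℕ} (h : i ≤ z.length) : dx up z i = pd z i :=
  ds_congr i fun _ hk => (per_lt (by omega)).symm

lemma vs_trans (v d : Pt) (τ : ℕ → Bool) (i : ℕ) : vs v d τ i = v + vs oo d τ i := by
  induction i with
  | zero => exact (add_zero v).symm
  | succ i ih => rw [vs_succ, vs_succ, ih, add_assoc]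

lemma tf_rotate {z : List Bool} {r i : ℕ} (hi : i < z.length) : tf (z.rotate r) i = per z (r + i) := by
  unfold per tf
  rw [List.getD_eq_getElem?_getD, List.getD_eq_getElem?_getD, List.getElem?_rotate hi, Nat.add_comm i r]

lemma per_rotate {z : List Bool} (hz : z ≠ []) (r i : ℕ) : per (z.rotate r) i = per z (r + i) := by
  have h0 : 0 < z.length := List.length_pos_iff.2 hz
  have h1 : per (z.rotate r) i = tf (z.rotate r) (i % z.length) := by
    unfold per
    rw [List.length_rotate]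
  rw [h1, tf_rotate (Nat.mod_lt _ h0)]
  unfold per
  congr 1
  rw [Nat.add_mod_mod]

lemma pd_add_len {z : List Bool} (hz : z ∈ Cw) (i : ℕ) : pd z (z.length + i) = pd z i := by
  unfold pd
  rw [ds_shift]
  have h1 : ds up (per z) z.length = up := by
    have h := dx_eq_pd (z := z) le_rfl
    rw [hz.2.2.1] at h
    exact h.symm
  rw [h1]
  exact ds_congr i fun k _ => per_add z k

lemma pv_len {z : List Bool} (hz : z ∈ Cw) : pv z z.length = oo := by
  rw [← vx_eq_pv le_rfl]
  exact hz.2.1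

lemma pd_len {z : List Bool} (hz : z ∈ Cw) : pd z z.length = up := by
  rw [← dx_eq_pd le_rfl]
  exact hz.2.2.1

lemma pv_add_len {z : List Bool} (hz : z ∈ Cw) (i : ℕ) : pv z (z.length + i) = pv z i := by
  unfold pv
  rw [vs_shift]
  have h1 : ds up (per z) z.length = up := pd_len hz
  have h2 : vs oo up (per z) z.length = oo := pv_len hz
  rw [h1, h2]
  exact vs_congr i fun k _ => per_add z k

lemma pv_mod {z : List Bool} (hz : z ∈ Cw) (i : ℕ) : pv z i = pv z (i % z.length) := by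
  have h : ∀ k j, pv z (z.length * k + j) = pv z j := by
    intro k j
    induction k with
    | zero => rw [Nat.mul_zero, Nat.zero_add]
    | succ k ih => rw [Nat.mul_succ, Nat.add_comm (z.length * k) z.length, Nat.add_assoc, pv_add_len hz, ih]
  conv_lhs => rw [← Nat.div_add_mod i z.length]
  exact h _ _

lemma pv_shift {z : List Bool} (hz : z ≠ []) {r : ℕ} (hr : pd z r = up) (i : ℕ) :
    pv z (r + i) = pv z r + pv (z.rotate r) i := by
  have h1 : pv z (r + i) = vs (pv z r) (pd z r) (fun k => per z (r + k)) i := vs_shift oo up (per z) r i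
  rw [h1, hr, vs_trans]
  congr 1
  exact vs_congr i fun k _ => (per_rotate hz r k).symm

lemma pd_shift {z : List Bool} (hz : z ≠ []) {r : ℕ} (hr : pd z r = up) (i : ℕ) :
    pd z (r + i) = pd (z.rotate r) i := by
  have h1 : pd z (r + i) = ds (pd z r) (fun k => per z (r + k)) i := ds_shift up (per z) r i
  rw [h1, hr]
  exact ds_congr i fun k _ => (per_rotate hz r k).symm

lemma pv_inj {z : List Bool} (hz : z ∈ Cw) {i k : ℕ} (h : i % z.length ≠ k % z.length) : pv z i ≠ pv z k := by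
  have h0 : 0 < z.length := List.length_pos_iff.2 hz.1
  rw [pv_mod hz i, pv_mod hz k]
  have hi := Nat.mod_lt i h0
  have hk := Nat.mod_lt k h0
  rw [← vx_eq_pv hi.le, ← vx_eq_pv hk.le]
  rcases lt_or_gt_of_ne h with h1 | h1
  · exact hz.2.2.2 _ _ h1 hk
  · exact (hz.2.2.2 _ _ h1 hi).symm

/-- the rotation of a closed word at an edge that goes up -/
theorem rotate_mem_Cw {z : List Bool} (hz : z ∈ Cw) {r : ℕ} (hr : r ≤ z.length) (hd : dx up z r = up) :
    z.rotate r ∈ Cw := by
  have h0 : 0 < z.length := List.length_pos_iff.2 hz.1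
  have hl : (z.rotate r).length = z.length := List.length_rotate _ _
  have hd' : pd z r = up := by
    rw [← dx_eq_pd hr]
    exact hd
  have hsh := pv_shift hz.1 hd'
  refine ⟨fun h => hz.1 (List.rotate_eq_nil_iff.1 h), ?_, ?_, ?_⟩
  · rw [vx_eq_pv le_rfl, hl]
    have h1 := hsh z.length
    rw [Nat.add_comm, pv_add_len hz] at h1
    exact (add_eq_left.1 h1.symm)
  · rw [dx_eq_pd le_rfl, hl, ← pd_shift hz.1 hd', Nat.add_comm, pd_add_len hz]
    exact hd'
  · intro i k hik hk h
    rw [hl] at hk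
    rw [vx_eq_pv (by omega), vx_eq_pv (by omega)] at h
    have h1 : pv z (r + i) = pv z (r + k) := by rw [hsh i, hsh k, h]
    refine pv_inj hz ?_ h1
    intro h2
    have h3 : i % z.length = k % z.length := Nat.ModEq.add_left_cancel' r h2
    rw [Nat.mod_eq_of_lt (by omega), Nat.mod_eq_of_lt hk] at h3
    omega

/-- a polygon is not invariant under a translation -/
theorem root_unique {w : List Bool} (hw : w ∈ Cw) {s : ℕ} (h0 : 0 < s) (hs : s < w.length) (hd : dx up w s = up)
    (hr : w.rotate s = w) : False := by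
  have hd' : pd w s = up := by
    rw [← dx_eq_pd hs.le]
    exact hd
  have h1 : ∀ i, pv w (s + i) = pv w s + pv w i := fun i => by
    rw [pv_shift hw.1 hd' i, hr]
  have h2 : ∀ k : ℕ, pv w (k * s) = k • pv w s := by
    intro k
    induction k with
    | zero => rw [Nat.zero_mul, zero_smul]; rfl
    | succ k ih => rw [Nat.succ_mul, Nat.add_comm, h1, ih, add_comm k 1, add_smul, one_smul]
  have h3 : pv w (w.length * s) = oo := by
    rw [pv_mod hw, Nat.mul_mod_right]
    rfl
  rw [h2] at h3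
  have h4 : pv w s = oo := by
    have h5 : w.length ≠ 0 := by omega
    have h6 : w.length • pv w s = (0 : Pt) := h3
    have h7 := smul_eq_zero.1 h6
    rcases h7 with h7 | h7
    · exact absurd h7 h5
    · exact h7
  refine hw.2.2.2 0 s h0 hs ?_
  rw [vx_eq_pv hs.le, h4]
  rfl

/-! ### 2. The closing lemma -/

/-- the places (root, length) at which a bridge of height at least 2 ^ j with complement in O can be removed -/
def Pl (O : Set (List Bool)) (j : ℕ) (z : List Bool) : Set (ℕ × ℕ) :=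
  {q | q.1 < z.length ∧ dx up z q.1 = up ∧ ∃ V t', z.rotate q.1 = V ++ t' ∧ V.length = q.2 ∧
    (∃ h, 2 ^ j ≤ h ∧ V ∈ Brd h) ∧ t' ∈ O}

/-- the bridges that close the word t -/
def Kl (j : ℕ) (t : List Bool) : Set (List Bool) :=
  {V | (∃ h, 2 ^ j ≤ h ∧ V ∈ Brd h) ∧ vx oo up V V.length = -vx oo up t t.length}

lemma gf_Kl : ∃ C : ℝ, 0 < C ∧ ∀ (j : ℕ) (t : List Bool),
    gf (Kl j t) ≤ ENNReal.ofReal (C * (2 : ℝ) ^ (-(5 / 4 : ℝ) * j)) := by
  obtain ⟨C, hC, hend⟩ := anti_end
  obtain ⟨C', hC', hu⟩ := T2.uu_le_quarter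
  refine ⟨C * C', by positivity, fun j t => ?_⟩
  by_cases hne : (Kl j t).Nonempty
  · obtain ⟨V0, ⟨h0, hj, hV0⟩, he0⟩ := hne
    have hsub : Kl j t ⊆ {V | V ∈ Brd h0 ∧ latE V = latE V0} := by
      rintro V ⟨⟨h, _, hV⟩, he⟩
      have he' : vx oo up V V.length = vx oo up V0 V0.length := by rw [he, he0]
      have h1 : lev V V.length = lev V0 V0.length := by
        unfold lev
        rw [he']
      have h2 : lev V V.length = 3 * h := (mem_Brd.1 hV).2.2.2
      have h3 : lev V0 V0.length = 3 * h0 := (mem_Brd.1 hV0).2.2.2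
      have h4 : h = h0 := by
        rw [h2, h3] at h1
        omega
      refine ⟨h4 ▸ hV, ?_⟩
      show lat V V.length = lat V0 V0.length
      unfold lat
      rw [he']
    have hh1 : 1 ≤ h0 := le_trans Nat.one_le_two_pow hj
    have hpos : (0 : ℝ) < h0 := by exact_mod_cast hh1
    refine (gf_mono hsub).trans ((hend h0 hh1 _).trans (ENNReal.ofReal_le_ofReal ?_))
    rw [mul_assoc]
    refine mul_le_mul_of_nonneg_left ?_ hC.le
    have h2 : uu h0 / h0 ≤ C' * (h0 : ℝ) ^ (-(5 / 4 : ℝ)) := by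
      rw [div_le_iff₀ hpos]
      calc uu h0 ≤ C' * (h0 : ℝ) ^ (-(1 / 4 : ℝ)) := hu h0 hh1
        _ = C' * (h0 : ℝ) ^ (-(5 / 4 : ℝ)) * h0 := by
            rw [mul_assoc]
            congr 1
            conv_rhs => rw [← Real.rpow_add_one hpos.ne']
            norm_num
    refine h2.trans (mul_le_mul_of_nonneg_left ?_ hC'.le)
    have h3 : (2 : ℝ) ^ j ≤ h0 := by exact_mod_cast hj
    calc (h0 : ℝ) ^ (-(5 / 4 : ℝ)) ≤ ((2 : ℝ) ^ j) ^ (-(5 / 4 : ℝ)) :=
          Real.rpow_le_rpow_of_nonpos (by positivity) h3 (by norm_num)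
      _ = (2 : ℝ) ^ (-(5 / 4 : ℝ) * j) := by
          rw [← Real.rpow_natCast, ← Real.rpow_mul (by norm_num), mul_comm]
  · rw [Set.not_nonempty_iff_eq_empty.1 hne]
    unfold gf
    rw [tsum_empty]
    exact bot_le

/-- the two words of a place -/
lemma place_spec {O : Set (List Bool)} {j : ℕ} {z : List Bool} (hz : z ∈ Cw) {q : ℕ × ℕ} (hq : q ∈ Pl O j z) :
    z.rotate q.1 = (z.rotate q.1).take q.2 ++ (z.rotate q.1).drop q.2 ∧
    ((z.rotate q.1).take q.2).length = q.2 ∧
    (z.rotate q.1).drop q.2 ∈ O ∧ (z.rotate q.1).take q.2 ∈ Kl j ((z.rotate q.1).drop q.2) ∧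
    wE z = wE ((z.rotate q.1).drop q.2) * wE ((z.rotate q.1).take q.2) := by
  obtain ⟨h1, h2, V, t', h3, h4, h5, h6⟩ := hq
  have hV : (z.rotate q.1).take q.2 = V := by
    rw [h3, ← h4, List.take_left']
    rfl
  have ht : (z.rotate q.1).drop q.2 = t' := by
    rw [h3, ← h4, List.drop_left']
    rfl
  rw [hV, ht]
  have hr := rotate_mem_Cw hz h1.le h2
  refine ⟨h3, h4, h6, ⟨h5, ?_⟩, ?_⟩
  · obtain ⟨h, _, hb⟩ := h5
    have h7 := hr.2.1
    rw [h3, List.length_append, vx_cat (mem_Brd.1 hb).2.2.1] at h7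
    exact eq_neg_of_add_eq_zero_left h7
  · have h7 : z.length = V.length + t'.length := by
      rw [← List.length_append, ← h3, List.length_rotate]
    rw [mul_comm, ← wE_append]
    unfold wE
    rw [h7, List.length_append]

/-- the closing lemma -/
theorem closing : ∃ C : ℝ, 0 < C ∧ ∀ (Z O : Set (List Bool)) (m j : ℕ), Z ⊆ Cw →
    (∀ z ∈ Z, ∀ z' ∈ Z, ∀ r, z' = z.rotate r → z' = z) →
    (∀ z ∈ Z, (m : ℕ∞) ≤ Set.encard {q : ℕ × ℕ | q.1 < z.length ∧ dx up z q.1 = up ∧
      ∃ V t', z.rotate q.1 = V ++ t' ∧ V.length = q.2 ∧ (∃ h, 2 ^ j ≤ h ∧ V ∈ Brd h) ∧ t' ∈ O}) →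
    (m : ℝ≥0∞) * ∑' z : Z, wE z.1 ≤ ENNReal.ofReal (C * (2 : ℝ) ^ (-(5 / 4 : ℝ) * j)) * ∑' t : O, wE t.1 := by
  obtain ⟨C, hC, hK⟩ := gf_Kl
  refine ⟨C, hC, fun Z O m j hZ hrot hm => ?_⟩
  have step1 : (m : ℝ≥0∞) * ∑' z : Z, wE z.1 ≤ ∑' (z : Z) (_ : Pl O j z.1), wE z.1 := by
    rw [← ENNReal.tsum_mul_left]
    refine ENNReal.tsum_le_tsum fun z => ?_
    rw [ENNReal.tsum_set_const]
    refine mul_le_mul_left ?_ _
    have h1 := hm z.1 z.2
    have h2 : ((m : ℕ∞) : ℝ≥0∞) ≤ ((Pl O j z.1).encard : ℝ≥0∞) := ENat.toENNReal_le.2 h1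
    simpa using h2
  refine step1.trans ?_
  rw [← ENNReal.tsum_sigma' (fun x : (Σ z : Z, Pl O j z.1) => wE x.1.1)]
  let ψ : (Σ z : Z, Pl O j z.1) → (Σ t : O, Kl j t.1) := fun x =>
    ⟨⟨(x.1.1.rotate x.2.1.1).drop x.2.1.2, (place_spec (hZ x.1.2) x.2.2).2.2.1⟩,
      ⟨(x.1.1.rotate x.2.1.1).take x.2.1.2, (place_spec (hZ x.1.2) x.2.2).2.2.2.1⟩⟩
  have hψ : Function.Injective ψ := by
    rintro ⟨⟨z, hz⟩, ⟨⟨a, n⟩, hq⟩⟩ ⟨⟨z', hz'⟩, ⟨⟨a', n'⟩, hq'⟩⟩ h
    have e1 : (z.rotate a).drop n = (z'.rotate a').drop n' := congrArg (fun p => (p.1 : List Bool)) h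
    have e2 : (z.rotate a).take n = (z'.rotate a').take n' := congrArg (fun p => (p.2 : List Bool)) h
    have s := place_spec (hZ hz) hq
    have s' := place_spec (hZ hz') hq'
    have e3 : z.rotate a = z'.rotate a' := by
      rw [s.1, s'.1]
      simp only
      rw [e1, e2]
    have e4 : n = n' := by
      have l := s.2.1
      have l' := s'.2.1
      simp only at l l'
      rw [← l, ← l', e2]
    have e5 : z.IsRotated z' := (List.IsRotated.forall z a).symm.trans (e3 ▸ List.IsRotated.forall z' a')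
    obtain ⟨r, hr⟩ := e5
    have e6 : z' = z := hrot z hz z' hz' r hr.symm
    subst e6
    subst e4
    have key : ∀ b b' : ℕ, b < b' → (b, n) ∈ Pl O j z' → (b', n) ∈ Pl O j z' → z'.rotate b = z'.rotate b' → False := by
      intro b b' hbb hb hb' he
      have hb1 : b < z'.length := hb.1
      have hb2 : b' < z'.length := hb'.1
      have hw := rotate_mem_Cw (hZ hz) hb1.le hb.2.1
      have hdb : pd z' b = up := by
        rw [← dx_eq_pd hb1.le]
        exact hb.2.1
      refine root_unique hw (s := b' - b) (by omega) (by rw [List.length_rotate]; omega) ?_ ?_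
      · rw [dx_eq_pd (by rw [List.length_rotate]; omega), ← pd_shift (hZ hz).1 hdb,
          Nat.add_sub_cancel' hbb.le, ← dx_eq_pd hb2.le]
        exact hb'.2.1
      · rw [List.rotate_rotate, Nat.add_sub_cancel' hbb.le]
        exact he.symm
    have e7 : a = a' := by
      rcases lt_trichotomy a a' with h1 | h1 | h1
      · exact (key a a' h1 hq hq' e3).elim
      · exact h1
      · exact (key a' a h1 hq' hq e3.symm).elim
    subst e7
    rfl
  calc ∑' x : (Σ z : Z, Pl O j z.1), wE x.1.1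
      = ∑' x : (Σ z : Z, Pl O j z.1), wE (ψ x).1.1 * wE (ψ x).2.1 :=
        tsum_congr fun x => (place_spec (hZ x.1.2) x.2.2).2.2.2.2
    _ ≤ ∑' y : (Σ t : O, Kl j t.1), wE y.1.1 * wE y.2.1 :=
        ENNReal.tsum_comp_le_tsum_of_injective hψ fun y => wE y.1.1 * wE y.2.1
    _ = ∑' (t : O) (V : Kl j t.1), wE t.1 * wE V.1 := ENNReal.tsum_sigma' _
    _ = ∑' t : O, wE t.1 * gf (Kl j t.1) := tsum_congr fun t => ENNReal.tsum_mul_left
    _ ≤ ∑' t : O, wE t.1 * ENNReal.ofReal (C * (2 : ℝ) ^ (-(5 / 4 : ℝ) * j)) :=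
        ENNReal.tsum_le_tsum fun t => mul_le_mul_right (hK j t.1) _
    _ = ENNReal.ofReal (C * (2 : ℝ) ^ (-(5 / 4 : ℝ) * j)) * ∑' t : O, wE t.1 := by
        rw [ENNReal.tsum_mul_right, mul_comm]

end PLD

end HexObs
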