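import Mathlib
import Pool.Agent.AAP.Den
import Pool.Agent.AAP.Frb
import Pool.Agent.TameArb.Cyc

set_option autoImplicit false

/-!
# Contraction at a prime of bad reduction
-/

namespace Pool.Agent.PLD

open NumberField IsDedekindDomain
open scoped WithZero
open WithZero (exp)
open Pool.Agent.PNH (Tup app mp IsMor Cert)
open Pool.Agent.AAP
open Pool.Agent.TameArb (PosDens Over exists_frob)

namespace Ctr

section Bez

variable {L : Type} [Field L] {V : Valuation L ℤᵐ⁰}

theorem pow_sub_le {a b : L} (ha : V a ≤ 1) (hb : V b ≤ 1) (n : ℕ) :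
    V (a ^ n - b ^ n) ≤ V (a - b) := by
  rw [← geom_sum₂_mul, map_mul]
  refine mul_le_of_le_one_left' ?_
  refine Valuation.map_sum_le _ fun i _ => ?_
  rw [map_mul, map_pow, map_pow]
  exact mul_le_one' (pow_le_one' ha _) (pow_le_one' hb _)

theorem mono_le_aux {y y' : Fin 2 → L} (hy : ∀ i, V (y i) ≤ 1) (hy' : ∀ i, V (y' i) ≤ 1)
    {i j d : ℕ} (hij : i ≤ j) (hj : j ≤ d) :
    V (y 0 ^ i * y 1 ^ (d - i) * (y' 0 ^ j * y' 1 ^ (d - j)) -
      y 0 ^ j * y 1 ^ (d - j) * (y' 0 ^ i * y' 1 ^ (d - i))) ≤ V (wd y y') := by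
  obtain ⟨k, rfl⟩ := Nat.exists_eq_add_of_le hij
  have h1 : d - i = k + (d - (i + k)) := by omega
  have h2 : y 0 ^ i * y 1 ^ (d - i) * (y' 0 ^ (i + k) * y' 1 ^ (d - (i + k))) -
      y 0 ^ (i + k) * y 1 ^ (d - (i + k)) * (y' 0 ^ i * y' 1 ^ (d - i)) =
      (y 0 * y' 0) ^ i * (y 1 * y' 1) ^ (d - (i + k)) * ((y 1 * y' 0) ^ k - (y 0 * y' 1) ^ k) := by
    rw [h1]
    ring
  have h3 : ∀ a b : Fin 2, V (y a * y' b) ≤ 1 := fun a b => by
    rw [map_mul]
    exact mul_le_one' (hy a) (hy' b)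
  rw [h2, map_mul]
  refine (mul_le_of_le_one_left' ?_).trans ?_
  · rw [map_mul, map_pow, map_pow]
    exact mul_le_one' (pow_le_one' (h3 0 0) _) (pow_le_one' (h3 1 1) _)
  · refine (pow_sub_le (h3 1 0) (h3 0 1) k).trans (le_of_eq ?_)
    rw [Valuation.map_sub_swap]
    rfl

theorem mono_le {y y' : Fin 2 → L} (hy : ∀ i, V (y i) ≤ 1) (hy' : ∀ i, V (y' i) ≤ 1)
    {i j d : ℕ} (hi : i ≤ d) (hj : j ≤ d) :
    V (y 0 ^ i * y 1 ^ (d - i) * (y' 0 ^ j * y' 1 ^ (d - j)) -
      y 0 ^ j * y 1 ^ (d - j) * (y' 0 ^ i * y' 1 ^ (d - i))) ≤ V (wd y y') := by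
  rcases le_total i j with h | h
  · exact mono_le_aux hy hy' h hj
  · rw [Valuation.map_sub_swap]
    exact mono_le_aux hy hy' h hi

/-- the Bezoutian is integral -/
theorem bez_le {d : ℕ} {P Q : MvPolynomial (Fin 2) L} (hP : P.IsHomogeneous d)
    (hQ : Q.IsHomogeneous d) {c : ℤᵐ⁰} (hPc : ∀ m, V (P.coeff m) ≤ c)
    (hQc : ∀ m, V (Q.coeff m) ≤ 1) {y y' : Fin 2 → L} (hy : ∀ i, V (y i) ≤ 1)
    (hy' : ∀ i, V (y' i) ≤ 1) :
    V (MvPolynomial.eval y P * MvPolynomial.eval y' Q -
      MvPolynomial.eval y Q * MvPolynomial.eval y' P) ≤ c * V (wd y y') := by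
  have hPd : ∀ m ∈ P.support, m 0 ≤ d ∧ d - m 0 = m 1 := by
    intro m hm
    have h1 := hP (MvPolynomial.mem_support_iff.1 hm)
    rw [Finsupp.weight_apply, Finsupp.sum_fintype _ _ (by simp), Fin.sum_univ_two] at h1
    simp at h1
    omega
  have hQd : ∀ m ∈ Q.support, m 0 ≤ d ∧ d - m 0 = m 1 := by
    intro m hm
    have h1 := hQ (MvPolynomial.mem_support_iff.1 hm)
    rw [Finsupp.weight_apply, Finsupp.sum_fintype _ _ (by simp), Fin.sum_univ_two] at h1
    simp at h1
    omega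
  rw [mul_comm (MvPolynomial.eval y Q)]
  simp only [MvPolynomial.eval_eq', Fin.prod_univ_two]
  rw [Finset.sum_mul_sum, Finset.sum_mul_sum, ← Finset.sum_sub_distrib]
  refine Valuation.map_sum_le _ fun m hm => ?_
  rw [← Finset.sum_sub_distrib]
  refine Valuation.map_sum_le _ fun m' hm' => ?_
  obtain ⟨h1, h2⟩ := hPd m hm
  obtain ⟨h3, h4⟩ := hQd m' hm'
  have h5 := mono_le hy hy' h1 h3
  rw [h2, h4] at h5
  have h6 : P.coeff m * (y 0 ^ m 0 * y 1 ^ m 1) * (Q.coeff m' * (y' 0 ^ m' 0 * y' 1 ^ m' 1)) -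
      P.coeff m * (y' 0 ^ m 0 * y' 1 ^ m 1) * (Q.coeff m' * (y 0 ^ m' 0 * y 1 ^ m' 1)) =
      P.coeff m * Q.coeff m' * (y 0 ^ m 0 * y 1 ^ m 1 * (y' 0 ^ m' 0 * y' 1 ^ m' 1) -
        y 0 ^ m' 0 * y 1 ^ m' 1 * (y' 0 ^ m 0 * y' 1 ^ m 1)) := by ring
  rw [h6, map_mul, map_mul]
  refine mul_le_mul' ?_ h5
  calc V (P.coeff m) * V (Q.coeff m') ≤ c * 1 := mul_le_mul' (hPc m) (hQc m')
    _ = c := mul_one c

/-- contraction -/
theorem wd_app_le {d : ℕ} {F : Tup 1 L} (hF : ∀ i, (F i).IsHomogeneous d) {i j : Fin 2}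
    (hij : i ≠ j) {c : ℤᵐ⁰} (hc : ∀ m, V ((F i).coeff m) ≤ c) (h1 : ∀ m, V ((F j).coeff m) ≤ 1)
    {y y' : Fin 2 → L} (hy : ∀ i, V (y i) ≤ 1) (hy' : ∀ i, V (y' i) ≤ 1) :
    V (wd (app F y) (app F y')) ≤ c * V (wd y y') := by
  have h := bez_le (hF i) (hF j) hc h1 hy hy'
  unfold wd app
  fin_cases i <;> fin_cases j
  · exact absurd rfl hij
  · exact h
  · simp only [Fin.mk_one, Fin.isValue, Fin.zero_eta] at h
    rw [Valuation.map_sub_swap]
    exact h
  · exact absurd rfl hij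

end Bez

theorem exists_mul {L : Type} [Field L] {x y : Fin 2 → L} (hx : x ≠ 0) (hy : y ≠ 0)
    (h : wd x y = 0) : ∃ u : L, u ≠ 0 ∧ y = u • x := by
  obtain ⟨i, hi⟩ : ∃ i, x i ≠ 0 := by
    by_contra hcon
    push Not at hcon
    exact hx (funext hcon)
  have h3 : x 0 * y 1 = x 1 * y 0 := sub_eq_zero.1 h
  have h4 : y = (y i / x i) • x := by
    funext l
    rw [Pi.smul_apply, smul_eq_mul, div_mul_eq_mul_div, eq_div_iff hi]
    fin_cases i <;> fin_cases l
    · rfl
    · simp only [Fin.zero_eta, Fin.isValue, Fin.mk_one]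
      linear_combination h3
    · simp only [Fin.zero_eta, Fin.isValue, Fin.mk_one]
      linear_combination -h3
    · rfl
  refine ⟨y i / x i, ?_, h4⟩
  intro h5
  rw [h5, zero_smul] at h4
  exact hy h4

section Mov

variable {K : Type} [Field K] [NumberField K]

theorem moves {d : ℕ} {F : Tup 1 K} (hF : ∀ i, (F i).IsHomogeneous d)
    (v : HeightOneSpectrum (𝓞 K)) {i j : Fin 2} (hij : i ≠ j)
    (h0 : ∀ m, v.valuation K ((F i).coeff m) < 1) (h1 : ∀ m, v.valuation K ((F j).coeff m) ≤ 1)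
    (h2 : ∀ x : Fin 2 → K, nv (v.valuation K) x = 1 →
      v.valuation K (MvPolynomial.eval x (F j)) = 1) (n : ℕ) :
    ∀ (L : Type) [Field L] [NumberField L] [Algebra K L] [IsGalois K L],
      ∃ h : L ≃ₐ[K] L, ∀ x : Fin 2 → K, nv (v.valuation K) x = 1 →
        exp (-(n : ℤ)) < v.valuation K (wd x (app F x)) →
        ∀ z : Fin 2 → L, z ≠ 0 →
          wd ((app (mp (algebraMap K L) F))^[n] z) (fun i => algebraMap K L (x i)) = 0 →
          wd (fun i => h (z i)) z ≠ 0 := by
  classical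
  intro L _ _ _ _
  obtain ⟨w, e, h, he, hval, hpres, hfrob⟩ := exists_frob K L v
  refine ⟨h, fun x hx hsep z hz hfib hp => ?_⟩
  obtain ⟨V, hV⟩ : ∃ V : Valuation L ℤᵐ⁰, V = w.valuation L := ⟨_, rfl⟩
  rw [← hV] at hval hpres hfrob
  have hov : Over (v.valuation K) V e := ⟨he, hval⟩
  obtain ⟨G, hG⟩ : ∃ G : Tup 1 L, G = mp (algebraMap K L) F := ⟨_, rfl⟩
  rw [← hG] at hfib
  have hGh : ∀ i, (G i).IsHomogeneous d := fun i => hG ▸ (hF i).map _
  have hcoef : ∀ i m, (G i).coeff m = algebraMap K L ((F i).coeff m) := by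
    intro i m
    rw [hG]
    exact MvPolynomial.coeff_map _ _ _
  have hGi : ∀ m, V ((G i).coeff m) ≤ Pool.Agent.TameArb.WW e := fun m => by
    rw [hcoef]
    exact hov.le_WW (h0 m)
  have hGj : ∀ m, V ((G j).coeff m) ≤ 1 := fun m => by
    rw [hcoef]
    exact hov.le_one.2 (h1 m)
  -- the vectors fixed by `h`
  have hstep : ∀ y : Fin 2 → L, (∀ l, h (y l) = y l) → nv V y = 1 →
      (∀ l, h (app G y l) = app G y l) ∧ nv V (app G y) = 1 := by
    intro y hy hy1
    have hyle : ∀ l, V (y l) ≤ 1 := fun l => hy1 ▸ le_nv (v := V) y l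
    have hyq : ∀ l, V (y l - y l ^ Ideal.absNorm v.asIdeal) < 1 := by
      intro l
      have h3 := hfrob (y l) (hyle l)
      rwa [hy l] at h3
    constructor
    · intro l
      have h3 : (fun l => h (y l)) = y := funext hy
      have h4 := iter_aut h F 1 y
      rw [Function.iterate_one, h3, ← hG] at h4
      exact (congrFun h4 l).symm
    · choose b hb using fun l => exists_class v hov (hyle l) (hyq l)
      obtain ⟨y', hy'⟩ : ∃ y' : Fin 2 → K, y' = fun l => (b l : K) := ⟨_, rfl⟩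
      have hbl : ∀ l, V (y l - algebraMap K L (y' l)) < 1 := fun l => by
        rw [hy']
        exact hb l
      have hy'le : ∀ l, v.valuation K (y' l) ≤ 1 := fun l => by
        rw [hy']
        exact v.valuation_le_one (b l)
      have hy'1 : nv (v.valuation K) y' = 1 := by
        refine le_antisymm (max_le (hy'le 0) (hy'le 1)) ?_
        obtain ⟨l, hl⟩ := exists_nv V y
        rw [hy1] at hl
        have h3 : ¬ v.valuation K (y' l) < 1 := by
          intro h4
          have h5 : V (algebraMap K L (y' l)) < 1 := hov.lt_one.2 h4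
          have h6 : V (y l - algebraMap K L (y' l) + algebraMap K L (y' l)) < 1 :=
            Valuation.map_add_lt _ (hbl l) h5
          rw [sub_add_cancel, hl] at h6
          exact lt_irrefl _ h6
        exact (not_lt.1 h3).trans (le_nv (v := v.valuation K) y' l)
      have h3 : V (MvPolynomial.eval (fun l => algebraMap K L (y' l)) (G j)) = 1 := by
        have h4 : MvPolynomial.eval (fun l => algebraMap K L (y' l)) (G j) =
            algebraMap K L (MvPolynomial.eval y' (F j)) := by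
          have h5 := congrFun (iter_map (L := L) F 1 y') j
          rw [Function.iterate_one, Function.iterate_one, ← hG] at h5
          exact h5
        rw [h4, ← hval, h2 y' hy'1, one_pow]
      have h4 : V (app G y j) = 1 := by
        have h5 : V (MvPolynomial.eval (fun l => algebraMap K L (y' l)) (G j) -
            MvPolynomial.eval y (G j)) < 1 := by
          refine eval_sub_lt hGj (fun l => hov.le_one.2 (hy'le l)) hyle fun l => ?_
          rw [Valuation.map_sub_swap]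
          exact hbl l
        refine le_antisymm (le_trans ?_ (le_refl _)) ?_
        · exact eval_le_one hGj hyle
        · by_contra h6
          push Not at h6
          have h7 : V (MvPolynomial.eval (fun l => algebraMap K L (y' l)) (G j) -
            MvPolynomial.eval y (G j) + MvPolynomial.eval y (G j)) < 1 :=
            Valuation.map_add_lt _ h5 h6
          rw [sub_add_cancel, h3] at h7
          exact lt_irrefl _ h7
      refine le_antisymm (max_le ?_ ?_) (h4 ▸ le_nv (v := V) (app G y) j)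
      · refine eval_le_one (fun m => ?_) hyle
        by_cases h5 : (0 : Fin 2) = i
        · rw [h5]
          exact (hGi m).trans (pow_le_one' (by decide) _)
        · have h6 : (0 : Fin 2) = j := by omega
          rw [h6]
          exact hGj m
      · refine eval_le_one (fun m => ?_) hyle
        by_cases h5 : (1 : Fin 2) = i
        · rw [h5]
          exact (hGi m).trans (pow_le_one' (by decide) _)
        · have h6 : (1 : Fin 2) = j := by omega
          rw [h6]
          exact hGj m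
  obtain ⟨c, hc, hc1, -, hfix⟩ := FrbA.exists_fixed (V := V) (h : L →+* L) hz hp
  obtain ⟨y, hy⟩ : ∃ y : Fin 2 → L, y = c • z := ⟨_, rfl⟩
  rw [← hy] at hc1 hfix
  have hall : ∀ k : ℕ, (∀ l, h ((app G)^[k] y l) = (app G)^[k] y l) ∧
      nv V ((app G)^[k] y) = 1 := by
    intro k
    induction k with
    | zero => exact ⟨hfix, hc1⟩
    | succ k ih =>
      rw [Function.iterate_succ_apply']
      exact hstep _ ih.1 ih.2
  have hdist : ∀ k : ℕ, V (wd ((app G)^[k] y) ((app G)^[k + 1] y)) ≤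
      Pool.Agent.TameArb.WW e ^ k := by
    intro k
    induction k with
    | zero =>
      rw [pow_zero]
      refine (wd_le _ _).trans ?_
      rw [(hall 0).2, (hall 1).2, mul_one]
    | succ k ih =>
      have h3 : (app G)^[k + 1] y = app G ((app G)^[k] y) := Function.iterate_succ_apply' _ _ _
      have h4 : (app G)^[k + 1 + 1] y = app G ((app G)^[k + 1] y) :=
        Function.iterate_succ_apply' _ _ _
      rw [h4]
      nth_rewrite 1 [h3]
      refine (wd_app_le hGh hij hGi hGj (fun l => (hall k).2 ▸ le_nv (v := V) _ l)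
        (fun l => (hall (k + 1)).2 ▸ le_nv (v := V) _ l)).trans ?_
      rw [pow_succ']
      exact mul_le_mul' le_rfl ih
  -- the point `x`
  obtain ⟨xL, hxL⟩ : ∃ xL : Fin 2 → L, xL = fun l => algebraMap K L (x l) := ⟨_, rfl⟩
  have hxL1 : nv V xL = 1 := by
    have h3 : ∀ l, V (xL l) = v.valuation K (x l) ^ e := fun l => by
      rw [hxL, hval]
    refine le_antisymm (max_le ?_ ?_) ?_
    · rw [h3]
      exact pow_le_one' (hx ▸ le_nv (v := v.valuation K) x 0) _
    · rw [h3]
      exact pow_le_one' (hx ▸ le_nv (v := v.valuation K) x 1) _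
    · obtain ⟨l, hl⟩ := exists_nv (v.valuation K) x
      rw [hx] at hl
      have h4 : V (xL l) = 1 := by rw [h3, hl, one_pow]
      exact h4 ▸ le_nv (v := V) xL l
  have hxne : xL ≠ 0 := by
    intro h3
    rw [nv_eq_zero.mpr h3] at hxL1
    exact zero_ne_one hxL1
  have hYne : (app G)^[n] y ≠ 0 := by
    intro h3
    have h4 := (hall n).2
    rw [nv_eq_zero.mpr h3] at h4
    exact zero_ne_one h4
  have hfib' : wd xL ((app G)^[n] y) = 0 := by
    have h3 : wd ((app G)^[n] y) xL = 0 := by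
      rw [hy, iter_smul hGh, wd_smul_left, hxL, hfib, mul_zero]
    rw [wd_swap, h3, neg_zero]
  obtain ⟨u, hu, hYu⟩ : ∃ u : L, u ≠ 0 ∧ (app G)^[n] y = u • xL :=
    exists_mul hxne hYne hfib'
  have hVu : V u = 1 := by
    have h3 := (hall n).2
    rw [hYu, nv_smul, hxL1, mul_one] at h3
    exact h3
  have hfin := hdist n
  rw [Function.iterate_succ_apply', hYu, app_smul hGh, wd_smul_left, wd_smul_right, map_mul,
    map_mul, map_pow, hVu, one_pow, one_mul, one_mul] at hfin
  have h3 : wd xL (app G xL) = algebraMap K L (wd x (app F x)) := by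
    have h4 : app G xL = fun l => algebraMap K L (app F x l) := by
      have h5 := iter_map (L := L) F 1 x
      rw [Function.iterate_one, Function.iterate_one, ← hG, ← hxL] at h5
      exact h5
    rw [h4, hxL, wd_map]
  rw [h3, ← hval] at hfin
  have h4 : exp (-(n : ℤ)) = (exp (-1) : ℤᵐ⁰) ^ n := by
    rw [← WithZero.exp_nsmul]
    congr 1
    simp
  rw [h4] at hsep
  have h5 : (exp (-1) ^ n : ℤᵐ⁰) ^ e < v.valuation K (wd x (app F x)) ^ e :=
    pow_lt_pow_left₀ hsep zero_le he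
  have h6 : Pool.Agent.TameArb.WW e ^ n = (exp (-1) ^ n : ℤᵐ⁰) ^ e := by
    unfold Pool.Agent.TameArb.WW
    rw [← pow_mul, ← pow_mul, mul_comm]
  rw [h6] at hfin
  exact absurd hfin (not_le.2 h5)

end Mov

end Ctr

/-- the criterion -/
theorem contr {K : Type} [Field K] [NumberField K] {d : ℕ} (hd : 2 ≤ d) {F : Tup 1 K}
    (hF : IsMor d K F) (v : HeightOneSpectrum (𝓞 K)) (i j : Fin 2) (hij : i ≠ j)
    (h0 : ∀ m, v.valuation K ((F i).coeff m) < 1) (h1 : ∀ m, v.valuation K ((F j).coeff m) ≤ 1)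
    (h2 : ∀ x : Fin 2 → K, nv (v.valuation K) x = 1 →
      v.valuation K (MvPolynomial.eval x (F j)) = 1)
    (Γ : Finset (Fin 2 → K)) (hΓ : ∀ x ∈ Γ, x ≠ 0 ∧ ¬ Periodic F x) : PosDens (SP F Γ) := by
  classical
  -- normalised representatives
  have hnorm : ∀ x : Fin 2 → K, ∃ (a : K) (n : ℕ), x ∈ Γ → a ≠ 0 ∧
      nv (v.valuation K) (a • x) = 1 ∧
      exp (-(n : ℤ)) < v.valuation K (wd (a • x) (app F (a • x))) := by
    intro x
    by_cases hx : x ∈ Γ
    · obtain ⟨a, ha, ha1, -⟩ := exists_unitv (v := v.valuation K) (hΓ x hx).1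
      have h3 : wd (a • x) (app F (a • x)) ≠ 0 := by
        intro h4
        refine (hΓ x hx).2 ⟨1, one_pos, ?_⟩
        rw [app_smul hF.1, wd_smul_left, wd_smul_right, mul_eq_zero, mul_eq_zero] at h4
        rw [Function.iterate_one, wd_swap]
        rcases h4 with h4 | h4 | h4
        · exact absurd h4 ha
        · exact absurd h4 (pow_ne_zero _ ha)
        · rw [h4, neg_zero]
      obtain ⟨n, hn⟩ := WithZero.exists_exp_neg_natCast_lt
        ((Valuation.ne_zero_iff (v.valuation K)).2 h3)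
      exact ⟨a, n, fun _ => ⟨ha, ha1, hn⟩⟩
    · exact ⟨0, 0, fun h => absurd h hx⟩
  choose a N hN using hnorm
  refine dens_of_moves hd hF Γ (fun x hx => (hΓ x hx).1) (∑ x ∈ Γ, N x) fun L _ _ _ _ => ?_
  obtain ⟨g, hg⟩ := Ctr.moves hF.1 v hij h0 h1 h2 (∑ x ∈ Γ, N x) L
  refine ⟨g, fun x hx z hz hfib => ?_⟩
  obtain ⟨ha, ha1, hn⟩ := hN x hx
  refine hg (a x • x) ha1 (lt_of_le_of_lt ?_ hn) z hz ?_
  · have h3 : N x ≤ ∑ x ∈ Γ, N x := Finset.single_le_sum (fun _ _ => Nat.zero_le _) hx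
    rw [WithZero.exp_le_exp]
    omega
  · have h4 : (fun i => algebraMap K L ((a x • x) i)) =
        algebraMap K L (a x) • fun i => algebraMap K L (x i) := by
      funext l
      simp
    rw [h4, wd_smul_right, hfib, mul_zero]

end Pool.Agent.PLD
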