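import Pool.Agent.PLD.CycA
import Pool.Agent.PLD.CloseL

/-!
PLD: the hypotheses of the closing inequality hold for cyclic chains.
-/

set_option autoImplicit false

namespace HexObs

namespace PLD

open Finset TS SDN

theorem Cyc.cl {gs : List (List Bool)} (hc : Cyc gs) {D N : ℕ} (h : ∀ g ∈ gs, g ∈ BrR D N) : Cl D N gs where
  chain := hc.chain
  cyc := by
    intro x hx y hy
    have h1 := hc.close
    rw [List.getLast?_eq_some_getLast hc.ne] at hx
    rw [List.head?_eq_some_head hc.ne] at hy
    rw [Option.mem_some] at hx hy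
    rw [← hx, ← hy]
    exact h1
  hgt0 := hc.altH_eq
  lat0 := hc.altX_eq
  brr := h

end PLD

end HexObs
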