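import Pool.Agent.SDN.DimDefs
import Pool.Agent.SDN.Dim1Defs
import Pool.Agent.PLD.Closing

/-!
PLD: critical polygons, cyclic chains of leaves (docs zf/E1_h80, zf/GEOM). Common definitions.
-/

set_option autoImplicit false

namespace HexObs

namespace PLD

open Finset TS SDN

open scoped ENNReal

/-- the closed word of a cyclic chain of leaves -/
def cuf (gs : List (List Bool)) : List Bool := unf (gs ++ [[]])

/-- cyclic chains of leaves (up, down, ..., up, down) of a polygon -/
structure Cyc (gs : List (List Bool)) : Prop where
  even : Even gs.length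
  two : 2 ≤ gs.length
  brd : ∀ g ∈ gs, ∃ h, 1 ≤ h ∧ g ∈ Brd h
  cw : cuf gs ∈ Cw

/-- alternating sum of the heights -/
noncomputable def altH : List (List Bool) → ℤ
  | [] => 0
  | g :: gs => ht g - altH gs

/-- alternating sum of the horizontal displacements -/
noncomputable def altX : List (List Bool) → ℤ
  | [] => 0
  | g :: gs => latE g + tw g - altX gs

/-- the drawdown of g is at most d rows -/
def Drw (d : ℕ) (g : List Bool) : Prop := ∀ i i', i ≤ i' → i' ≤ g.length → lev g i - lev g i' ≤ 3 * d + 1

end PLD

end HexObs
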