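import Pool.Agent.SDN.XFill
import Pool.Agent.SDN.DimFin

/-!
PLD (doc zf/E1_h80, message of helper70): the dense leaves, volume part: the free middle bridge of a dense leaf is dense.
-/

set_option autoImplicit false

namespace HexObs

namespace PLD

open Finset TS SDN

open scoped ENNReal

/-- words of the box 2 ^ L that visit at least X cells of side 2 ^ b1 -/
def Dn (L b1 : ℕ) (X : ℝ) : Set (List Bool) := {g | g ∈ WL L ∧ X ≤ (nb b1 g : ℝ)}

private lemma row_false_lev (t : List Bool) (i : ℕ) : row false (vx oo up t i) = lev t i / 3 := rfl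

/-- translation by an even vertex of the level 3 n -/
private lemma row_add {p v : Pt} {n : ℤ} (hp : ip p up = 3 * n) :
    row false (p + v) = n + row false v ∧ row true (p + v) = (p.2 - 2 * n) + row true v := by
  have h1 : p.1 + 2 * p.2 = 3 * n := by
    rw [← hp]
    unfold ip up
    ring
  rw [row_false, row_false, row_true, row_true]
  simp only [Prod.fst_add, Prod.snd_add]
  constructor <;> omega

private lemma cell_shift {S r a c : ℤ} (hS : 0 < S) (h1 : S * a ≤ r) (h2 : r < S * a + S) :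
    (c + r) / S = (S * a + c) / S ∨ (c + r) / S = (S * a + c) / S + 1 := by
  have h3 : (S * a + c) / S ≤ (c + r) / S := Int.ediv_le_ediv hS (by omega)
  have h4 : (c + r) / S ≤ (S * a + c + S) / S := Int.ediv_le_ediv hS (by omega)
  rw [Int.add_ediv_of_dvd_right (dvd_refl S), Int.ediv_self hS.ne'] at h4
  omega

/-- cells between two rows of the box 2 ^ L -/
private noncomputable def rect (s L : ℕ) (α β : ℤ) : Finset (ℤ × ℤ) :=
  (Icc (α / 2 ^ s) (β / 2 ^ s)) ×ˢ (Icc ((-2 ^ L) / 2 ^ s) (2 ^ L / 2 ^ s))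

private lemma rect_card {s f L : ℕ} (hsf : s ≤ f) (hsL : s ≤ L) {α β : ℤ} (hq : β ≤ α + 2 ^ f) :
    (rect s L α β).card ≤ 9 * (2 ^ (f - s) * 2 ^ (L - s)) := by
  have hS : (0 : ℤ) < 2 ^ s := by positivity
  unfold rect
  rw [card_product, Int.card_Icc, Int.card_Icc]
  have ef : (2 : ℤ) ^ f = 2 ^ s * 2 ^ (f - s) := by
    rw [← pow_add]
    congr 1
    omega
  have eL : (2 : ℤ) ^ L = 2 ^ s * 2 ^ (L - s) := by
    rw [← pow_add]
    congr 1
    omega
  have h1 : (β / 2 ^ s + 1 - α / 2 ^ s).toNat ≤ 3 * 2 ^ (f - s) := by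
    have h2 : β / 2 ^ s ≤ α / 2 ^ s + 2 ^ (f - s) := by
      have h3 : β / 2 ^ s ≤ (α + 2 ^ s * 2 ^ (f - s)) / 2 ^ s := Int.ediv_le_ediv hS (by rw [← ef]; exact hq)
      rwa [Int.add_mul_ediv_left _ _ hS.ne'] at h3
    have h4 : (1 : ℤ) ≤ 2 ^ (f - s) := one_le_pow₀ (by norm_num)
    have h5 : ((3 * 2 ^ (f - s) : ℕ) : ℤ) = 3 * 2 ^ (f - s) := by push_cast; rfl
    omega
  have h2 : ((2 : ℤ) ^ L / 2 ^ s + 1 - (-2 ^ L) / 2 ^ s).toNat ≤ 3 * 2 ^ (L - s) := by
    have h3 : (2 : ℤ) ^ L / 2 ^ s = 2 ^ (L - s) := by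
      rw [eL, Int.mul_ediv_cancel_left _ hS.ne']
    have h4 : (-2 ^ L : ℤ) / 2 ^ s = -2 ^ (L - s) := by
      rw [eL, ← mul_neg, Int.mul_ediv_cancel_left _ hS.ne']
    rw [h3, h4]
    have h5 : (1 : ℤ) ≤ 2 ^ (L - s) := one_le_pow₀ (by norm_num)
    have h6 : ((3 * 2 ^ (L - s) : ℕ) : ℤ) = 3 * 2 ^ (L - s) := by push_cast; rfl
    omega
  calc _ ≤ (3 * 2 ^ (f - s)) * (3 * 2 ^ (L - s)) := Nat.mul_le_mul h1 h2
    _ = _ := by ring

/-- the middle bridge of a bridge of the box 2 ^ L is in the box 2 ^ (L + 1) -/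
lemma mid_WL {n1 h L : ℕ} {A Z B : List Bool} (hA : A ∈ Brd n1) (hZ : Z ∈ Brd h)
    (hW : A ++ (Z ++ B) ∈ WL L) : Z ∈ WL (L + 1) := by
  obtain ⟨a1, a2, a3, a4⟩ := mem_Brd.1 hA
  obtain ⟨-, hbox⟩ := hW
  obtain ⟨p, hp⟩ : ∃ p, p = vx oo up A A.length := ⟨_, rfl⟩
  have hpl : ip p up = 3 * (n1 : ℤ) := by rw [hp]; exact a4
  have e2L : (2 : ℤ) ^ (L + 1) = 2 * 2 ^ L := by ring
  have hz0 : vx oo up Z 0 = oo := rfl
  have key : ∀ j, j ≤ Z.length → ∀ dir, |row dir (vx oo up Z j)| ≤ 2 ^ (L + 1) := by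
    intro j hj dir
    have evx : ∀ j, j ≤ Z.length → vx oo up (A ++ (Z ++ B)) (A.length + j) = p + vx oo up Z j := by
      intro j hj
      rw [vx_cat a3, vx_append (by omega), hp]
    have h1 := hbox (A.length + j) (by rw [List.length_append, List.length_append]; omega)
    have h2 := hbox (A.length + 0) (by rw [List.length_append, List.length_append]; omega)
    rw [evx j hj] at h1
    rw [evx 0 (by omega), hz0] at h2
    obtain ⟨e1, e3⟩ := row_add (v := vx oo up Z j) hpl
    obtain ⟨e4, e5⟩ := row_add (v := oo) hpl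
    have o1 : row false oo = 0 := by decide
    have o2 : row true oo = 0 := by decide
    rw [o1] at e4
    rw [o2] at e5
    cases dir
    · have g1 := h1 false
      have g2 := h2 false
      rw [e1] at g1
      rw [e4] at g2
      rw [abs_le] at g1 g2 ⊢
      omega
    · have g1 := h1 true
      have g2 := h2 true
      rw [e3] at g1
      rw [e5] at g2
      rw [abs_le] at g1 g2 ⊢
      omega
  refine ⟨?_, key⟩
  exact ⟨fun _ _ _ => Set.mem_univ _, (mem_Brd.1 hZ).2.1⟩

open Classical in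
/-- the cells of a bridge with low ends -/
lemma cells_mid {s f L n1 h n2 : ℕ} {A Z B : List Bool} (hA : A ∈ Brd n1) (hZ : Z ∈ Brd h) (hB : B ∈ Brd n2)
    (hsf : s ≤ f) (hsL : s ≤ L) (h1 : n1 ≤ 2 ^ f) (h2 : n2 ≤ 2 ^ f) (hW : A ++ (Z ++ B) ∈ WL L) :
    nb s (A ++ (Z ++ B)) ≤ 18 * (2 ^ (f - s) * 2 ^ (L - s)) + 4 * nb s Z := by
  have hS : (0 : ℤ) < 2 ^ s := by positivity
  obtain ⟨a1, a2, a3, a4⟩ := mem_Brd.1 hA
  obtain ⟨z1, z2, z3, z4⟩ := mem_Brd.1 hZ
  obtain ⟨b1, b2, b3, b4⟩ := mem_Brd.1 hB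
  have h1' : (n1 : ℤ) ≤ 2 ^ f := by exact_mod_cast h1
  have h2' : (n2 : ℤ) ≤ 2 ^ f := by exact_mod_cast h2
  obtain ⟨p, hp⟩ : ∃ p, p = vx oo up A A.length := ⟨_, rfl⟩
  have hpl : ip p up = 3 * (n1 : ℤ) := by rw [hp]; exact a4
  obtain ⟨r0, hr0⟩ : ∃ r0 : ℤ, r0 = p.2 - 2 * n1 := ⟨_, rfl⟩
  obtain ⟨Im, hIm⟩ : ∃ Im : Finset (ℤ × ℤ), Im = ((cells s Z) ×ˢ ((univ : Finset Bool) ×ˢ (univ : Finset Bool))).image
      (fun x => ((2 ^ s * x.1.1 + (n1 : ℤ)) / 2 ^ s + (if x.2.1 then 1 else 0),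
        (2 ^ s * x.1.2 + r0) / 2 ^ s + (if x.2.2 then 1 else 0))) := ⟨_, rfl⟩
  have hIc : Im.card ≤ 4 * nb s Z := by
    rw [hIm]
    refine card_image_le.trans ?_
    rw [card_product, card_product]
    unfold nb
    simp only [card_univ, Fintype.card_bool]
    omega
  have hR1 := rect_card (α := 0) (β := 2 ^ f) hsf hsL (by omega)
  have hR2 := rect_card (α := (n1 : ℤ) + h) (β := (n1 : ℤ) + h + 2 ^ f) hsf hsL (by omega)
  have hsub : cells s (A ++ (Z ++ B)) ⊆ rect s L 0 (2 ^ f) ∪ (rect s L ((n1 : ℤ) + h) ((n1 : ℤ) + h + 2 ^ f) ∪ Im) := by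
    intro q hq
    unfold cells at hq
    rw [mem_image] at hq
    obtain ⟨i, hi, rfl⟩ := hq
    rw [mem_range, List.length_append, List.length_append] at hi
    have hbox := hW.2 i (by rw [List.length_append, List.length_append]; omega) true
    rw [abs_le] at hbox
    have hrect : ∀ α β : ℤ, α ≤ row false (vx oo up (A ++ (Z ++ B)) i) → row false (vx oo up (A ++ (Z ++ B)) i) ≤ β →
        cell s (vx oo up (A ++ (Z ++ B)) i) ∈ rect s L α β := by
      intro α β g1 g2
      unfold rect cell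
      rw [mem_product, mem_Icc, mem_Icc]
      exact ⟨⟨Int.ediv_le_ediv hS g1, Int.ediv_le_ediv hS g2⟩, Int.ediv_le_ediv hS hbox.1, Int.ediv_le_ediv hS hbox.2⟩
    have hf0 : (0 : ℤ) ≤ 2 ^ f := by positivity
    rcases Nat.lt_or_ge A.length i with hA' | hA'
    · obtain ⟨j, rfl⟩ : ∃ j, i = A.length + j := ⟨i - A.length, by omega⟩
      have hj : 1 ≤ j := by omega
      rcases Nat.lt_or_ge Z.length j with hZ' | hZ'
      · -- in B
        obtain ⟨l, rfl⟩ : ∃ l, j = Z.length + l := ⟨j - Z.length, by omega⟩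
        have hl := b1 l (by omega) (by omega)
        have e : lev (A ++ (Z ++ B)) (A.length + (Z.length + l)) = 3 * n1 + (3 * h + lev B l) := by
          rw [lev_cat a3, a4, lev_cat z3, z4]
        refine mem_union_right _ (mem_union_left _ (hrect _ _ ?_ ?_))
        · rw [row_false_lev, e]
          omega
        · rw [row_false_lev, e]
          omega
      · -- in Z
        have evx : vx oo up (A ++ (Z ++ B)) (A.length + j) = p + vx oo up Z j := by
          rw [vx_cat a3, vx_append (by omega), hp]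
        obtain ⟨e1, e2⟩ := row_add (v := vx oo up Z j) hpl
        rw [← hr0] at e2
        obtain ⟨w, hw⟩ : ∃ w, cell s (vx oo up Z j) = w := ⟨_, rfl⟩
        obtain ⟨c1, c2, c3, c4⟩ := cell_bd hw
        have hwc : w ∈ cells s Z := by
          unfold cells
          rw [mem_image]
          exact ⟨j, by rw [mem_range]; omega, hw⟩
        refine mem_union_right _ (mem_union_right _ ?_)
        rw [hIm, mem_image]
        have d1 := cell_shift (c := (n1 : ℤ)) hS c1 c2
        have d2 := cell_shift (c := r0) hS c3 c4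
        refine ⟨(w, decide ((n1 + row false (vx oo up Z j)) / 2 ^ s = (2 ^ s * w.1 + n1) / 2 ^ s + 1),
          decide ((r0 + row true (vx oo up Z j)) / 2 ^ s = (2 ^ s * w.2 + r0) / 2 ^ s + 1)), ?_, ?_⟩
        · rw [mem_product]
          exact ⟨hwc, mem_univ _⟩
        · rw [evx]
          unfold cell
          rw [e1, e2]
          simp only [decide_eq_true_eq]
          apply Prod.ext
          · show _ + _ = _
            rcases d1 with d1 | d1
            · rw [if_neg (by omega), add_zero, d1]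
            · rw [if_pos d1, d1]
          · show _ + _ = _
            rcases d2 with d2 | d2
            · rw [if_neg (by omega), add_zero, d2]
            · rw [if_pos d2, d2]
    · -- in A
      refine mem_union_left _ (hrect _ _ ?_ ?_)
      · rw [row_false_lev, lev_append (by omega)]
        rcases Nat.eq_zero_or_pos i with h0 | h0
        · rw [h0, lev_zero]
          omega
        · have := a1 i h0 hA'
          omega
      · rw [row_false_lev, lev_append (by omega)]
        rcases Nat.eq_zero_or_pos i with h0 | h0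
        · rw [h0, lev_zero]
          omega
        · have := a1 i h0 hA'
          omega
  refine (card_le_card hsub).trans ((card_union_le _ _).trans ?_)
  have h3 := card_union_le (rect s L ((n1 : ℤ) + h) ((n1 : ℤ) + h + 2 ^ f)) Im
  omega

/-- sums over disjoint sets -/
lemma tsum_gf_le {A : ℕ → Set (List Bool)} {S : Set (List Bool)} (hA : ∀ h, A h ⊆ S)
    (hd : ∀ h h' t, t ∈ A h → t ∈ A h' → h = h') : ∑' h : ℕ, gf (A h) ≤ gf S := by
  unfold gf
  rw [← ENNReal.tsum_sigma' (fun x : (Σ h : ℕ, A h) => wE x.2.1)]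
  refine ENNReal.tsum_comp_le_tsum_of_injective (f := fun x : (Σ h : ℕ, A h) => (⟨x.2.1, hA _ x.2.2⟩ : S)) ?_
    (fun t : S => wE t.1)
  rintro ⟨h, t, ht⟩ ⟨h', t', ht'⟩ he
  simp only [Subtype.mk.injEq] at he
  subst he
  obtain rfl := hd h h' t ht ht'
  rfl

end PLD

end HexObs
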