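import Pool.Agent.PLD.DenseA
import Mathlib.Analysis.SpecificLimits.Normed

/-!
PLD: the norm of the sum over the next leaf, restricted to the dense leaves.
-/

set_option autoImplicit false

namespace HexObs

namespace PLD

open Finset TS SDN

open scoped ENNReal

/-- the dimension bound for bridges -/
theorem dim_brd : ∃ (e0 c : ℝ) (b0 l0 : ℕ), 0 < e0 ∧ e0 < 1 ∧ 0 < c ∧ ∀ L b1 : ℕ, b0 ≤ b1 → b1 + l0 ≤ L →
    gf {t | t ∈ BL L ∧ (2 : ℝ) ^ ((2 - e0) * ((L : ℝ) - b1)) ≤ nb b1 t} ≤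
      ENNReal.ofReal (Ub L * Real.exp (-(2 : ℝ) ^ (c * ((L : ℝ) - b1)))) :=
  dim_main_of (crowd_bound_brd_of crowd_brd) fill_brd

/-- the free middle bridge of a dense leaf with low ends is dense -/
lemma dense_EZ {e0 ε : ℝ} {L b1 f D N : ℕ} {X : ℝ} (hbf : b1 ≤ f) (hbL : b1 ≤ L)
    (hdim : gf {t | t ∈ BL (L + 1) ∧ (2 : ℝ) ^ ((2 - e0) * (((L + 1 : ℕ) : ℝ) - b1)) ≤ nb b1 t} ≤ ENNReal.ofReal ε)
    (hX : 18 * ((2 : ℝ) ^ (f - b1) * 2 ^ (L - b1)) + 4 * (2 : ℝ) ^ ((2 - e0) * (((L + 1 : ℕ) : ℝ) - b1)) ≤ X) :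
    EZ D N f (Dn L b1 X) ε := by
  intro M hM P1 hP1 P2 hP2 Q hQ h1 h2
  obtain ⟨m, hM⟩ := hM
  obtain ⟨r1, hP1⟩ := hP1
  obtain ⟨r2, hP2⟩ := hP2
  obtain ⟨q, hQ⟩ := hQ
  rw [hgt_eq hM, hgt_eq hP1.1] at h1
  rw [hgt_eq hP2.1, hgt_eq hQ] at h2
  have hA : M ++ P1 ∈ Brd (m + r1) := Brd_append hM hP1.1
  have hB : P2 ++ Q ∈ Brd (r2 + q) := Brd_append hP2.1 hQ
  refine (tsum_gf_le (S := {t | t ∈ BL (L + 1) ∧ (2 : ℝ) ^ ((2 - e0) * (((L + 1 : ℕ) : ℝ) - b1)) ≤ nb b1 t})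
    ?_ ?_).trans hdim
  · rintro h Z ⟨hZ, ⟨hW, hd⟩, -⟩
    rw [← List.append_assoc M] at hW hd
    have h3 := mid_WL hA hZ hW
    have h4 := cells_mid hA hZ hB hbf hbL h1 h2 hW
    have h5 : (nb b1 ((M ++ P1) ++ (Z ++ (P2 ++ Q))) : ℝ) ≤ 18 * ((2 : ℝ) ^ (f - b1) * 2 ^ (L - b1)) + 4 * nb b1 Z := by
      exact_mod_cast h4
    exact ⟨⟨⟨h, hZ⟩, h3⟩, by linarith⟩
  · rintro h h' Z ⟨hZ, -⟩ ⟨hZ', -⟩
    exact Brd_height hZ hZ'

/-- numbers -/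
lemma exp_beats {c : ℝ} (hc : 0 < c) : ∃ l2 : ℕ, ∀ l : ℕ, l2 ≤ l →
    32 * (16 : ℝ) ^ l * Real.exp (-(2 : ℝ) ^ (c * l)) ≤ 1 := by
  have h1 : (1 : ℝ) < 2 ^ c := Real.one_lt_rpow (by norm_num) hc
  have ht := tendsto_pow_const_div_const_pow_of_one_lt 1 h1
  have hev := (ht.eventually (gt_mem_nhds (show (0 : ℝ) < 1 / 7 by norm_num))).and (Filter.eventually_ge_atTop 1)
  obtain ⟨l2, hl2⟩ := Filter.eventually_atTop.1 hev
  refine ⟨l2, fun l hl => ?_⟩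
  obtain ⟨h2, h3⟩ := hl2 l hl
  have h4 : (0 : ℝ) < (2 ^ c) ^ l := by positivity
  rw [div_lt_iff₀ h4, pow_one] at h2
  have h3' : (1 : ℝ) ≤ l := by exact_mod_cast h3
  have h5 : (2 : ℝ) ^ (c * l) = (2 ^ c) ^ l := by
    rw [Real.rpow_mul (by norm_num), Real.rpow_natCast]
  have h6 : 3 * (l : ℝ) + 4 ≤ (2 : ℝ) ^ (c * l) := by
    rw [h5]
    linarith
  have e1 : (2.7 : ℝ) ≤ Real.exp 1 := by
    have := Real.exp_one_gt_d9
    linarith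
  have e3 : (16 : ℝ) ≤ Real.exp 3 := by
    have : Real.exp 3 = Real.exp 1 ^ 3 := by
      rw [← Real.exp_nat_mul]
      norm_num
    rw [this]
    calc (16 : ℝ) ≤ 2.7 ^ 3 := by norm_num
      _ ≤ _ := by gcongr
  have e4 : (32 : ℝ) ≤ Real.exp 4 := by
    have : Real.exp 4 = Real.exp 1 ^ 4 := by
      rw [← Real.exp_nat_mul]
      norm_num
    rw [this]
    calc (32 : ℝ) ≤ 2.7 ^ 4 := by norm_num
      _ ≤ _ := by gcongr
  have h7 : 32 * (16 : ℝ) ^ l ≤ Real.exp (3 * l + 4) := by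
    rw [Real.exp_add, mul_comm 3 (l : ℝ), Real.exp_nat_mul, mul_comm]
    gcongr
  calc 32 * (16 : ℝ) ^ l * Real.exp (-(2 : ℝ) ^ (c * l)) ≤ Real.exp (3 * l + 4) * Real.exp (-(2 : ℝ) ^ (c * l)) := by
        gcongr
    _ = Real.exp (3 * l + 4 - (2 : ℝ) ^ (c * l)) := by
        rw [← Real.exp_add]
        ring_nf
    _ ≤ 1 := Real.exp_le_one_iff.2 (by linarith)

/-- **the dense next leaf** -/
theorem dense_norm : ∃ (e C : ℝ) (b0 l0 : ℕ), 0 < e ∧ e < 1 ∧ 1 ≤ C ∧ ∀ (k L b1 N : ℕ) (ρ : ℝ)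
    (Φ : List Bool → ℝ≥0∞), Hered Φ → b0 ≤ b1 → b1 + l0 ≤ L → k ≤ L → (L : ℝ) - k ≤ e * ((L : ℝ) - b1) → 1 ≤ ρ →
    UU N ≤ ρ * Ub k →
    xT (2 ^ (k + 4)) k (tF (2 ^ (k + 4)) N (Dn L b1 ((2 : ℝ) ^ ((2 - e) * ((L : ℝ) - b1)))) LFold Φ) ≤
      ENNReal.ofReal (C * ρ * (2 : ℝ) ^ (-(e * ((L : ℝ) - b1)))) * xT (2 ^ (k + 4)) k Φ := by
  obtain ⟨e0, c, b0, l0, he0, he1, hc, hdim⟩ := dim_brd
  obtain ⟨Ci, δ, h⟩ := inp_exists
  obtain ⟨K, c1, hK, hc1, hx⟩ := x_fillE h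
  obtain ⟨l2, hl2⟩ := exp_beats hc
  obtain ⟨e, hed⟩ : ∃ e, e = min (e0 / 2) (min (1 / 12) (c1 / 16)) := ⟨_, rfl⟩
  have hepos : 0 < e := by
    rw [hed]
    exact lt_min (by linarith) (lt_min (by norm_num) (by linarith))
  have h_e0 : e ≤ e0 / 2 := by rw [hed]; exact min_le_left _ _
  have h_e12 : e ≤ 1 / 12 := by rw [hed]; exact (min_le_right _ _).trans (min_le_left _ _)
  have h_ec : e ≤ c1 / 16 := by rw [hed]; exact (min_le_right _ _).trans (min_le_right _ _)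
  obtain ⟨l3, hl3⟩ := exists_nat_ge (6 / e)
  obtain ⟨l4, hl4⟩ := exists_nat_ge (3 * c1 / (4 * e))
  refine ⟨e, 3 * K, b0, l0 + l2 + l3 + l4 + 4, hepos, by linarith, by linarith, ?_⟩
  intro k L b1 N ρ Φ hΦ hb hL hkL hke hρ hN
  obtain ⟨l, rfl⟩ : ∃ l, L = b1 + l := ⟨L - b1, by omega⟩
  have hl : l0 + l2 + l3 + l4 + 4 ≤ l := by omega
  have ecast : (((b1 + l : ℕ) : ℝ) - b1) = l := by push_cast; ring
  rw [ecast] at hke ⊢
  have hlr : (4 : ℝ) ≤ l := by exact_mod_cast (by omega : 4 ≤ l)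
  have hel : 6 ≤ e * l := by
    have h1 : (6 / e : ℝ) ≤ l := hl3.trans (by exact_mod_cast (by omega : l3 ≤ l))
    rw [div_le_iff₀ hepos] at h1
    linarith
  have hcl : 3 ≤ 4 * e * l / c1 := by
    have h1 : (3 * c1 / (4 * e) : ℝ) ≤ l := hl4.trans (by exact_mod_cast (by omega : l4 ≤ l))
    rw [div_le_iff₀ (by positivity)] at h1
    rw [le_div_iff₀ hc1]
    linarith
  have hcl4 : 4 * e * l / c1 ≤ l / 4 := by
    rw [div_le_iff₀ hc1]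
    nlinarith
  have hel12 : e * l ≤ l / 12 := by nlinarith
  -- the windows
  obtain ⟨a, ha⟩ : ∃ a, a = ⌈2 * e * l⌉₊ := ⟨_, rfl⟩
  have ha1 : 2 * e * l ≤ a := by rw [ha]; exact Nat.le_ceil _
  have ha2 : (a : ℝ) < 2 * e * l + 1 := by rw [ha]; exact Nat.ceil_lt_add_one (by positivity)
  obtain ⟨J, hJ⟩ : ∃ J, J = ⌈4 * e * l / c1⌉₊ := ⟨_, rfl⟩
  have hJ1 : 4 * e * l / c1 ≤ J := by rw [hJ]; exact Nat.le_ceil _
  have hJ2 : (J : ℝ) < 4 * e * l / c1 + 1 := by rw [hJ]; exact Nat.ceil_lt_add_one (by positivity)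
  have hJ3 : 3 ≤ J := by
    have : (3 : ℝ) ≤ J := hcl.trans hJ1
    exact_mod_cast this
  have hkr : ((b1 + l : ℕ) : ℝ) - e * l ≤ k := by linarith
  push_cast at hkr
  have hkr2 : (k : ℝ) ≤ b1 + l := by exact_mod_cast hkL
  have hb1r : (0 : ℝ) ≤ b1 := Nat.cast_nonneg _
  have hak : b1 + a ≤ k := by
    have : (b1 : ℝ) + a ≤ k := by linarith
    exact_mod_cast this
  obtain ⟨f, hf⟩ : ∃ f, f = k - a := ⟨_, rfl⟩
  have hfa : f + a = k := by omega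
  have hfar : (f : ℝ) + a = k := by exact_mod_cast hfa
  have hbf : b1 ≤ f := by omega
  have hJf : J ≤ f := by
    have : (J : ℝ) ≤ f := by linarith
    exact_mod_cast this
  obtain ⟨j1, hj1⟩ : ∃ j1, j1 = f - J := ⟨_, rfl⟩
  have hj1J : j1 + J = f := by omega
  have hj1r : (f : ℝ) - j1 = J := by
    have : (j1 : ℝ) + J = f := by exact_mod_cast hj1J
    linarith
  -- the strip
  have e2 : ∀ n : ℕ, (2 : ℝ) ^ n = (2 : ℝ) ^ (n : ℝ) := fun n => (Real.rpow_natCast 2 n).symm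
  have hX : 18 * ((2 : ℝ) ^ (f - b1) * 2 ^ (b1 + l - b1)) +
      4 * (2 : ℝ) ^ ((2 - e0) * (((b1 + l + 1 : ℕ) : ℝ) - b1)) ≤ (2 : ℝ) ^ ((2 - e) * l) := by
    have hfb : ((f - b1 : ℕ) : ℝ) ≤ l - 2 * e * l := by
      rw [Nat.cast_sub hbf]
      linarith
    have g1 : 18 * ((2 : ℝ) ^ (f - b1) * 2 ^ (b1 + l - b1)) ≤ (2 : ℝ) ^ ((2 - e) * l - 1) := by
      have h18 : (18 : ℝ) ≤ 2 ^ (5 : ℝ) := by norm_num
      rw [Nat.add_sub_cancel_left, e2, e2, ← Real.rpow_add (by norm_num)]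
      calc 18 * (2 : ℝ) ^ (((f - b1 : ℕ) : ℝ) + l) ≤ 2 ^ (5 : ℝ) * (2 : ℝ) ^ (((f - b1 : ℕ) : ℝ) + l) := by gcongr
        _ = (2 : ℝ) ^ (5 + (((f - b1 : ℕ) : ℝ) + l)) := by rw [← Real.rpow_add (by norm_num)]
        _ ≤ _ := Real.rpow_le_rpow_of_exponent_le (by norm_num) (by linarith)
    have g2 : 4 * (2 : ℝ) ^ ((2 - e0) * (((b1 + l + 1 : ℕ) : ℝ) - b1)) ≤ (2 : ℝ) ^ ((2 - e) * l - 1) := by
      have h4 : (4 : ℝ) = 2 ^ (2 : ℝ) := by norm_num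
      rw [h4, ← Real.rpow_add (by norm_num)]
      refine Real.rpow_le_rpow_of_exponent_le (by norm_num) ?_
      push_cast
      nlinarith
    have g3 : (2 : ℝ) ^ ((2 - e) * l - 1) + (2 : ℝ) ^ ((2 - e) * l - 1) = (2 : ℝ) ^ ((2 - e) * l) := by
      rw [Real.rpow_sub (by norm_num), Real.rpow_one]
      ring
    linarith
  have hUk := Ub_pos k
  have hUL := Ub_pos (b1 + l + 1)
  obtain ⟨ε, hε⟩ : ∃ ε : ℝ, ε = Ub (b1 + l + 1) / Ub k *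
      Real.exp (-(2 : ℝ) ^ (c * (((b1 + l + 1 : ℕ) : ℝ) - b1))) := ⟨_, rfl⟩
  have hε0 : 0 ≤ ε := by rw [hε]; positivity
  have hEZ : EZ (2 ^ (k + 4)) N f (Dn (b1 + l) b1 ((2 : ℝ) ^ ((2 - e) * l))) (ε * Ub k) := by
    have h1 := hdim (b1 + l + 1) b1 hb (by omega)
    have h2 : ε * Ub k = Ub (b1 + l + 1) * Real.exp (-(2 : ℝ) ^ (c * (((b1 + l + 1 : ℕ) : ℝ) - b1))) := by
      rw [hε]
      field_simp
    rw [h2]
    exact dense_EZ hbf (by omega) h1 hX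
  have hmain := hx (2 ^ (k + 4)) N k f j1 (Dn (b1 + l) b1 ((2 : ℝ) ^ ((2 - e) * l))) LFold ρ ε Φ hΦ RNb_LFold le_rfl
    (by omega) (by omega) hρ hN hε0 hEZ
  refine hmain.trans (mul_le_mul_left (ENNReal.ofReal_le_ofReal ?_) _)
  rw [hj1r]
  have hka : k - f = a := by omega
  have hkj : k - j1 = a + J := by omega
  rw [hka, hkj]
  obtain ⟨y, hy⟩ : ∃ y : ℝ, y = (2 : ℝ) ^ (-(e * (l : ℝ))) := ⟨_, rfl⟩
  rw [← hy]
  have hy0 : 0 < y := by rw [hy]; positivity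
  have g1 : (2 : ℝ) ^ a * (2 : ℝ) ^ (-(c1 * (J : ℝ))) ≤ 2 * y := by
    rw [e2, ← Real.rpow_add (by norm_num), hy]
    have h1 : (2 : ℝ) * 2 ^ (-(e * (l : ℝ))) = 2 ^ (1 + -(e * (l : ℝ))) := by
      rw [Real.rpow_add (by norm_num), Real.rpow_one]
    rw [h1]
    refine Real.rpow_le_rpow_of_exponent_le (by norm_num) ?_
    have h2 : 4 * e * l ≤ c1 * J := by
      rw [div_le_iff₀ hc1] at hJ1
      linarith
    linarith
  have g2 : (4 : ℝ) ^ (a + J) * ε ≤ y := by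
    have h1 : (a + J : ℕ) ≤ l + 2 := by
      have : ((a : ℝ) + J) ≤ l + 2 := by linarith
      exact_mod_cast this
    have h2 : (4 : ℝ) ^ (a + J) ≤ 4 ^ (l + 2) := pow_le_pow_right₀ (by norm_num) h1
    have h3 : Ub (b1 + l + 1) / Ub k ≤ 2 ^ (l + 1) := by
      rw [div_le_iff₀ hUk]
      have h4 := Ub_add k (b1 + l + 1 - k)
      rw [Nat.add_sub_cancel' (by omega)] at h4
      refine h4.trans ?_
      gcongr
      · norm_num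
      · omega
    have h5 : Real.exp (-(2 : ℝ) ^ (c * (((b1 + l + 1 : ℕ) : ℝ) - b1))) ≤ Real.exp (-(2 : ℝ) ^ (c * l)) := by
      refine Real.exp_le_exp.2 (neg_le_neg (Real.rpow_le_rpow_of_exponent_le (by norm_num) ?_))
      push_cast
      nlinarith
    have h6 := hl2 l (by omega)
    have h7 : ε ≤ 2 ^ (l + 1) * Real.exp (-(2 : ℝ) ^ (c * l)) := by
      rw [hε]
      exact mul_le_mul h3 h5 (Real.exp_pos _).le (by positivity)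
    have h8 : (1 / 2 : ℝ) ^ l ≤ y := by
      rw [hy]
      have : (1 / 2 : ℝ) ^ l = (2 : ℝ) ^ (-(l : ℝ)) := by
        rw [Real.rpow_neg (by norm_num), Real.rpow_natCast, one_div, inv_pow]
      rw [this]
      exact Real.rpow_le_rpow_of_exponent_le (by norm_num) (by linarith)
    calc (4 : ℝ) ^ (a + J) * ε ≤ 4 ^ (l + 2) * (2 ^ (l + 1) * Real.exp (-(2 : ℝ) ^ (c * l))) :=
          mul_le_mul h2 h7 hε0 (by positivity)
      _ = (1 / 2 : ℝ) ^ l * (32 * 16 ^ l * Real.exp (-(2 : ℝ) ^ (c * l))) := by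
          have h9 : (16 : ℝ) ^ l = 4 ^ l * (2 ^ l * 2 ^ l) := by
            rw [← mul_pow, ← mul_pow]
            norm_num
          have h10 : (1 / 2 : ℝ) ^ l * 2 ^ l = 1 := by
            rw [← mul_pow]
            norm_num
          rw [h9, pow_add, pow_add]
          calc (4 : ℝ) ^ l * 4 ^ 2 * (2 ^ l * 2 ^ 1 * Real.exp (-(2 : ℝ) ^ (c * l))) =
                1 * (32 * (4 ^ l * 2 ^ l) * Real.exp (-(2 : ℝ) ^ (c * l))) := by ring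
            _ = ((1 / 2 : ℝ) ^ l * 2 ^ l) * (32 * (4 ^ l * 2 ^ l) * Real.exp (-(2 : ℝ) ^ (c * l))) := by rw [h10]
            _ = _ := by ring
      _ ≤ (1 / 2 : ℝ) ^ l * 1 := mul_le_mul_of_nonneg_left h6 (by positivity)
      _ ≤ y := by rw [mul_one]; exact h8
  calc K * ρ * ((2 : ℝ) ^ a * (2 : ℝ) ^ (-(c1 * (J : ℝ))) + 4 ^ (a + J) * ε) ≤ K * ρ * (2 * y + y) := by
        gcongr
    _ = 3 * K * ρ * y := by ring

end PLD

end HexObs
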