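import Pool.Agent.PLD.FinDefs

/-!
PLD, final part (E1'): numbers.
-/

set_option autoImplicit false

namespace HexObs

namespace PLD

open Finset TS SDN

open scoped ENNReal

/-- powers against the exponential of the exponential -/
lemma tall_num (A B : ℕ) (hB : 1 ≤ B) : ∃ C : ℝ, 1 ≤ C ∧ ∀ i : ℕ, (2 : ℝ) ^ (A * i) ≤ C * 4 ^ (2 ^ i / B) := by
  have ht := tendsto_pow_const_div_const_pow_of_one_lt A (show (1 : ℝ) < 2 by norm_num)
  have hev := ht.eventually (gt_mem_nhds (show (0 : ℝ) < 1 by norm_num))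
  obtain ⟨n0, hn0⟩ := Filter.eventually_atTop.1 hev
  obtain ⟨C, hC⟩ : ∃ C : ℝ, C = (B : ℝ) ^ A * ((n0 + 1 : ℕ) : ℝ) ^ A * 2 := ⟨_, rfl⟩
  have hB1 : (1 : ℝ) ≤ B := by exact_mod_cast hB
  have h1 : (1 : ℝ) ≤ (B : ℝ) ^ A := one_le_pow₀ hB1
  have h2 : (1 : ℝ) ≤ ((n0 + 1 : ℕ) : ℝ) ^ A := one_le_pow₀ (by exact_mod_cast (by omega : 1 ≤ n0 + 1))
  refine ⟨C, by rw [hC]; nlinarith, fun i => ?_⟩
  obtain ⟨q, hq⟩ : ∃ q, q = 2 ^ i / B := ⟨_, rfl⟩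
  have h3 : (2 : ℕ) ^ i ≤ B * (q + 1) := by
    rw [hq]
    have h4 := Nat.div_add_mod (2 ^ i) B
    have h5 := Nat.mod_lt (2 ^ i) (show B > 0 by omega)
    have h6 : B * (2 ^ i / B + 1) = B * (2 ^ i / B) + B := by ring
    omega
  have h4 : (2 : ℝ) ^ i ≤ B * (q + 1) := by exact_mod_cast h3
  rw [← hq]
  have h5 : (2 : ℝ) ^ (A * i) ≤ (B : ℝ) ^ A * ((q : ℝ) + 1) ^ A := by
    rw [mul_comm A i, pow_mul, ← mul_pow]
    exact pow_le_pow_left₀ (by positivity) h4 A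
  have h6 : ((q : ℝ) + 1) ^ A ≤ ((n0 + 1 : ℕ) : ℝ) ^ A * 2 * 4 ^ q := by
    rcases Nat.lt_or_ge q n0 with h | h
    · have h7 : ((q : ℝ) + 1) ^ A ≤ ((n0 + 1 : ℕ) : ℝ) ^ A := by
        refine pow_le_pow_left₀ (by positivity) ?_ A
        have : ((q + 1 : ℕ) : ℝ) ≤ ((n0 + 1 : ℕ) : ℝ) := by exact_mod_cast (by omega : q + 1 ≤ n0 + 1)
        push_cast at this ⊢
        exact this
      have h8 : (1 : ℝ) ≤ 4 ^ q := one_le_pow₀ (by norm_num)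
      nlinarith
    · have h7 := hn0 (q + 1) (by omega)
      rw [div_lt_one (by positivity)] at h7
      push_cast at h7
      have h8 : (2 : ℝ) ^ (q + 1) ≤ 2 * 4 ^ q := by
        rw [pow_succ, mul_comm]
        have : (2 : ℝ) ^ q ≤ 4 ^ q := pow_le_pow_left₀ (by norm_num) (by norm_num) q
        linarith
      have h9 : (0 : ℝ) < 4 ^ q := by positivity
      nlinarith
  calc (2 : ℝ) ^ (A * i) ≤ (B : ℝ) ^ A * ((q : ℝ) + 1) ^ A := h5
    _ ≤ (B : ℝ) ^ A * (((n0 + 1 : ℕ) : ℝ) ^ A * 2 * 4 ^ q) := by gcongr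
    _ = C * 4 ^ q := by rw [hC]; ring

/-- the sum over n converges -/
lemma win_num {c : ℝ} {m n : ℕ} (hm : 4 ≤ m) (hc : 10 ≤ c * ((m : ℝ) - 4)) (hn : 3 ≤ n) :
    (2 : ℝ) ^ (13 / 4 * (n : ℝ)) * (if n = 3 then 1 else (2 : ℝ) ^ (-(c * ((n : ℝ) - 1)))) ^ (m - 4) ≤
      2 ^ 13 * (1 / 2) ^ n := by
  have e1 : (2 : ℝ) ^ 13 * (1 / 2) ^ n = (2 : ℝ) ^ ((13 : ℝ) - n) := by
    rw [Real.rpow_sub (by norm_num), Real.rpow_natCast, one_div, inv_pow, div_eq_mul_inv]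
    norm_num
  rw [e1]
  have hnr : (3 : ℝ) ≤ n := by exact_mod_cast hn
  by_cases h3 : n = 3
  · rw [if_pos h3, one_pow, mul_one, h3]
    refine Real.rpow_le_rpow_of_exponent_le (by norm_num) ?_
    push_cast
    norm_num
  · rw [if_neg h3, ← Real.rpow_natCast, ← Real.rpow_mul (by norm_num), ← Real.rpow_add (by norm_num)]
    refine Real.rpow_le_rpow_of_exponent_le (by norm_num) ?_
    rw [Nat.cast_sub hm]
    push_cast
    nlinarith

lemma Ub_le (L : ℕ) : Ub L ≤ Ub 0 * 2 ^ L := by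
  have h := Ub_add 0 L
  rw [Nat.zero_add, mul_comm] at h
  exact h

/-- subadditivity -/
lemma WS_mono {S T : Set (List (List Bool))} (h : S ⊆ T) : WS S ≤ WS T := by
  unfold WS
  exact ENNReal.tsum_mono_subtype _ h

lemma WS_union (S T : Set (List (List Bool))) : WS (S ∪ T) ≤ WS S + WS T := by
  unfold WS
  exact ENNReal.tsum_union_le _ S T

lemma WS_bU {ι : Type} (I : Finset ι) (P : ι → Set (List (List Bool))) : WS (⋃ i ∈ I, P i) ≤ ∑ i ∈ I, WS (P i) := by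
  unfold WS
  exact ENNReal.tsum_biUnion_le _ I P

end PLD

end HexObs
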