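import Pool.Agent.PLD.FinNum

/-!
PLD, final part (E1'): the sum over the lists of the scale k, tall leaves.
-/

set_option autoImplicit false

namespace HexObs

namespace PLD

open Finset TS SDN

open scoped ENNReal

variable {K c : ℝ}

lemma two_neg (k : ℕ) : (2 : ℝ) ^ (-(2 * (k : ℝ))) = (1 / 4) ^ k := by
  rw [Real.rpow_neg (by norm_num), Real.rpow_mul (by norm_num), Real.rpow_natCast, one_div, inv_pow]
  norm_num

lemma geo_tail (N : ℕ) : ∀ M, ∑ n ∈ Ico N M, ((1 : ℝ) / 2) ^ n ≤ 2 * (1 / 2) ^ N := by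
  intro M
  have h1 : Summable fun n : ℕ => ((1 : ℝ) / 2) ^ n := summable_geometric_two
  rcases Nat.lt_or_ge M N with h | h
  · rw [Finset.Ico_eq_empty (by omega), Finset.sum_empty]
    positivity
  · rw [Finset.sum_Ico_eq_sum_range]
    calc ∑ k ∈ range (M - N), ((1 : ℝ) / 2) ^ (N + k) = (1 / 2) ^ N * ∑ k ∈ range (M - N), ((1 : ℝ) / 2) ^ k := by
          rw [Finset.mul_sum]
          exact Finset.sum_congr rfl fun k _ => pow_add _ _ _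
      _ ≤ (1 / 2) ^ N * 2 := by
          refine mul_le_mul_of_nonneg_left ?_ (by positivity)
          calc ∑ k ∈ range (M - N), ((1 : ℝ) / 2) ^ k ≤ ∑' k : ℕ, ((1 : ℝ) / 2) ^ k :=
                h1.sum_le_tsum _ fun _ _ => by positivity
            _ = 2 := tsum_geometric_two
      _ = _ := mul_comm _ _

/-- the sets of the selection -/
lemma cover {m L k n1 : ℕ} {W : Set (List Bool)} {T : Set (List (List Bool))}
    (hT : ∀ gs ∈ T, ∀ n, Gd k n gs → GW k n W gs) (hT1 : ∀ gs ∈ T, W1 W gs) (hn1 : 3 ≤ n1) (hk6 : 6 ≤ k) :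
    {gs | gs ∈ CC m L k ∧ gs ∈ T ∧ ∀ n, 3 ≤ n → n < n1 → 2 * n ≤ k → ¬ Gd k n gs} ⊆
      (⋃ n ∈ Ico n1 (k / 2 + 1), {gs | gs ∈ CC m L k ∧ Gd k n gs ∧ (n = 3 ∨ ¬ Gd k (n - 1) gs) ∧ GW k n W gs}) ∪
        {gs | gs ∈ CC m L k ∧ ¬ Gd k (k / 2) gs ∧ W1 W gs} := by
  classical
  rintro gs ⟨h1, h2, h3⟩
  by_cases hg : Gd k (k / 2) gs
  · left
    have hk : 3 ≤ k / 2 := by omega
    · have hex : ∃ n, 3 ≤ n ∧ Gd k n gs := ⟨k / 2, hk, hg⟩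
      have hf := Nat.find_spec hex
      have hm : ∀ n, n < Nat.find hex → ¬ (3 ≤ n ∧ Gd k n gs) := fun n hn => Nat.find_min hex hn
      obtain ⟨n, hn⟩ : ∃ n, n = Nat.find hex := ⟨_, rfl⟩
      rw [← hn] at hf hm
      have hnk : n ≤ k / 2 := by
        by_contra hc
        exact hm (k / 2) (by omega) ⟨hk, hg⟩
      have hn1' : n1 ≤ n := by
        by_contra hc
        exact h3 n hf.1 (by omega) (by omega) hf.2
      simp only [Set.mem_iUnion]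
      refine ⟨n, mem_Ico.2 ⟨hn1', by omega⟩, h1, hf.2, ?_, hT gs h2 n hf.2⟩
      by_cases h33 : n = 3
      · exact Or.inl h33
      · right
        intro hc
        exact hm (n - 1) (by omega) ⟨by omega, hc⟩
  · right
    exact ⟨h1, hg, hT1 gs h2⟩

lemma of_mul {x C : ℝ} {a i n : ℕ} (h : x * (4 ^ a * 2 ^ (2 * i) * 2 ^ n) ≤ C) :
    x ≤ C * (1 / 4) ^ a * (1 / 4) ^ i * (1 / 2) ^ n := by
  have h1 : ((4 : ℝ) ^ a * 2 ^ (2 * i) * 2 ^ n) * ((1 / 4) ^ a * (1 / 4) ^ i * (1 / 2) ^ n) = 1 := by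
    have e1 : ∀ a : ℕ, (4 : ℝ) ^ a * (1 / 4) ^ a = 1 := fun a => by rw [← mul_pow]; norm_num
    have e2 : ∀ j : ℕ, (2 : ℝ) ^ j * (1 / 2) ^ j = 1 := fun j => by rw [← mul_pow]; norm_num
    have e3 : (2 : ℝ) ^ (2 * i) = 4 ^ i := by rw [pow_mul]; norm_num
    rw [e3]
    calc ((4 : ℝ) ^ a * 4 ^ i * 2 ^ n) * ((1 / 4) ^ a * (1 / 4) ^ i * (1 / 2) ^ n) =
          ((4 : ℝ) ^ a * (1 / 4) ^ a) * (4 ^ i * (1 / 4) ^ i) * (2 ^ n * (1 / 2) ^ n) := by ring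
      _ = 1 := by rw [e1, e1, e2]; norm_num
  have h2 : (0 : ℝ) < (1 / 4) ^ a * (1 / 4) ^ i * (1 / 2) ^ n := by positivity
  calc x = x * (4 ^ a * 2 ^ (2 * i) * 2 ^ n) * ((1 / 4) ^ a * (1 / 4) ^ i * (1 / 2) ^ n) := by
        rw [mul_assoc, h1, mul_one]
    _ ≤ C * ((1 / 4) ^ a * (1 / 4) ^ i * (1 / 2) ^ n) := mul_le_mul_of_nonneg_right h h2.le
    _ = _ := by ring

/-- **Lemma P**: the sum over the lists of the scale k without good pair up to n1 -/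
theorem lemP (hS : Sel K c) (hT : TallN) {m : ℕ} (hm2 : Even m) (hm6 : 6 ≤ m) (hmc : 10 ≤ c * ((m : ℝ) - 4)) :
    ∃ C : ℝ, 1 ≤ C ∧ ∀ L k n1 : ℕ, k ≤ L → 3 ≤ n1 → n1 ≤ L + 3 →
      WS {gs | gs ∈ CC m L k ∧ W2 (Tl m L k) gs ∧ ∀ n, 3 ≤ n → n < n1 → 2 * n ≤ k → ¬ Gd k n gs} ≤
        ENNReal.ofReal (C * (1 / 4) ^ L * (1 / 4) ^ (L - k) * (1 / 2) ^ n1) := by
  obtain ⟨Kt, A, B, hKt, hB, hTn⟩ := hT m (by omega)
  obtain ⟨C0, hC0, hnum⟩ := tall_num (A + m + 7) B hB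
  have hK := hS.oneK
  have hc := hS.posc
  have hU0 := Ub_pos 0
  obtain ⟨V, hV⟩ : ∃ V : ℝ, V = K * (m : ℝ) ^ 3 * Kt * (4 * K) ^ m * C0 := ⟨_, rfl⟩
  have hm1 : (1 : ℝ) ≤ m := by exact_mod_cast (by omega : 1 ≤ m)
  have hV0 : 0 ≤ V := by rw [hV]; positivity
  refine ⟨V * 2 ^ 15 * (1 + Ub 0) * 2 ^ 25 + 1, ?_, ?_⟩
  · have : 0 ≤ V * 2 ^ 15 * (1 + Ub 0) * 2 ^ 25 := by positivity
    linarith
  intro L k n1 hkL hn1 hn1L
  obtain ⟨i, rfl⟩ : ∃ i, L = k + i := ⟨L - k, by omega⟩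
  have e1 : k + i - k = i := by omega
  have e2 : k + i + 2 - k = i + 2 := by omega
  obtain ⟨q, hq⟩ : ∃ q, q = 2 ^ i / B := ⟨_, rfl⟩
  have hNW := hTn (k + i) k (by omega)
  rw [e1, ← hq] at hNW
  have hw0 : 0 ≤ Kt * 2 ^ (A * i) / 4 ^ q := by positivity
  have hnum' := hnum i
  rw [← hq] at hnum'
  have h4q : (0 : ℝ) < 4 ^ q := by positivity
  have key : ∀ a : ℕ, a ≤ A + m + 7 → (2 : ℝ) ^ (a * i) / 4 ^ q ≤ C0 := by
    intro a ha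
    rw [div_le_iff₀ h4q]
    refine le_trans ?_ hnum'
    exact pow_le_pow_right₀ (by norm_num) (Nat.mul_le_mul_right _ ha)
  rw [e1]
  obtain ⟨w, hw⟩ : ∃ w : ℝ, w = Kt * 2 ^ (A * i) / 4 ^ q := ⟨_, rfl⟩
  rw [← hw] at hNW hw0
  have hpow : (K * 2 ^ (i + 2)) ^ m * w = (4 * K) ^ m * Kt * ((2 : ℝ) ^ ((A + m) * i) / 4 ^ q) := by
    rw [hw, mul_pow, mul_pow, ← pow_mul]
    have e3 : (2 : ℝ) ^ ((i + 2) * m) = 4 ^ m * 2 ^ (m * i) := by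
      rw [show (i + 2) * m = 2 * m + m * i by ring, pow_add, pow_mul]
      norm_num
    rw [e3, add_mul, pow_add]
    ring
  have hP0 : 0 ≤ (K * 2 ^ (i + 2)) ^ m * w := by positivity
  have hUL : Ub (k + i) ≤ Ub 0 * (2 ^ k * 2 ^ i) := by
    rw [← pow_add]
    exact Ub_le _
  have hUL0 := (Ub_pos (k + i)).le
  have hn12 : (2 : ℝ) ^ n1 ≤ 2 ^ k * 2 ^ i * 8 := by
    calc (2 : ℝ) ^ n1 ≤ 2 ^ (k + i + 3) := pow_le_pow_right₀ (by norm_num) hn1L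
      _ = _ := by rw [pow_add, pow_add]; norm_num
  have hm3 : (m : ℝ) ≤ (m : ℝ) ^ 3 := by
    calc (m : ℝ) = (m : ℝ) ^ 1 := (pow_one _).symm
      _ ≤ _ := pow_le_pow_right₀ hm1 (by norm_num)
  have e4 : (4 : ℝ) ^ (k + i) = 2 ^ (2 * k) * 2 ^ (2 * i) := by
    rw [pow_add, pow_mul, pow_mul]
    norm_num
  rcases Nat.lt_or_ge k 6 with hk | hk
  · -- small k
    have h1 := hS.triv m (k + i) k (Tl m (k + i) k) w hm2 (by omega) (by omega) hw0 hNW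
    rw [e2] at h1
    refine (WS_mono ?_).trans (h1.trans (ENNReal.ofReal_le_ofReal (of_mul ?_)))
    · rintro gs ⟨g1, g2, -⟩
      exact ⟨g1, W1_of_W2 g2⟩
    · have h2 : K * m * Ub (k + i) * w * (K * 2 ^ (i + 2)) ^ m * (4 ^ (k + i) * 2 ^ (2 * i) * 2 ^ n1) ≤
          K * (m : ℝ) ^ 3 * (Ub 0 * (2 ^ k * 2 ^ i)) * ((K * 2 ^ (i + 2)) ^ m * w) *
            (4 ^ (k + i) * 2 ^ (2 * i) * (2 ^ k * 2 ^ i * 8)) := by
        calc K * m * Ub (k + i) * w * (K * 2 ^ (i + 2)) ^ m * (4 ^ (k + i) * 2 ^ (2 * i) * 2 ^ n1) =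
            K * m * Ub (k + i) * ((K * 2 ^ (i + 2)) ^ m * w) * (4 ^ (k + i) * 2 ^ (2 * i) * 2 ^ n1) := by ring
          _ ≤ _ := by gcongr
      refine h2.trans ?_
      have h3 := key (A + m + 6) (by omega)
      have h4 : (2 : ℝ) ^ ((A + m + 6) * i) = 2 ^ ((A + m) * i) * 2 ^ (6 * i) := by
        rw [add_mul, pow_add]
      have h5 : (2 : ℝ) ^ (4 * k + 3) ≤ 2 ^ 23 := pow_le_pow_right₀ (by norm_num) (by omega)
      rw [hpow, e4]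
      calc K * (m : ℝ) ^ 3 * (Ub 0 * (2 ^ k * 2 ^ i)) * ((4 * K) ^ m * Kt * ((2 : ℝ) ^ ((A + m) * i) / 4 ^ q)) *
            (2 ^ (2 * k) * 2 ^ (2 * i) * 2 ^ (2 * i) * (2 ^ k * 2 ^ i * 8)) =
            K * (m : ℝ) ^ 3 * Ub 0 * (4 * K) ^ m * Kt * (2 ^ (4 * k + 3)) * (2 ^ ((A + m + 6) * i) / 4 ^ q) := by
            rw [h4]
            ring
        _ ≤ K * (m : ℝ) ^ 3 * Ub 0 * (4 * K) ^ m * Kt * (2 ^ 23) * C0 := by gcongr
        _ = V * Ub 0 * 2 ^ 23 := by rw [hV]; ring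
        _ ≤ _ := by nlinarith [mul_nonneg hV0 hU0.le]
  · -- large k
    have hcov := cover (m := m) (L := k + i) (k := k) (n1 := n1) (W := Tl m (k + i) k)
      (T := {gs | W2 (Tl m (k + i) k) gs}) (fun gs h n h' => GW_of_W2 h' h) (fun gs h => W1_of_W2 h) hn1 hk
    refine (WS_mono hcov).trans ((WS_union _ _).trans ((add_le_add (WS_bU _ _) le_rfl).trans ?_))
    obtain ⟨G, hG⟩ : ∃ G : ℝ, G = K * (m : ℝ) ^ 3 * (1 / 4) ^ k * ((K * 2 ^ (i + 2)) ^ m * w) * 2 ^ 13 := ⟨_, rfl⟩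
    have hG0 : 0 ≤ G := by rw [hG]; positivity
    have hterm : ∀ n ∈ Ico n1 (k / 2 + 1),
        WS {gs | gs ∈ CC m (k + i) k ∧ Gd k n gs ∧ (n = 3 ∨ ¬ Gd k (n - 1) gs) ∧ GW k n (Tl m (k + i) k) gs} ≤
          ENNReal.ofReal (G * (1 / 2) ^ n) := by
      intro n hn
      rw [mem_Ico] at hn
      have h1 := hS.sel m (k + i) k n (Tl m (k + i) k) w hm2 hm6 (by omega) (by omega) (by omega) hw0 hNW
      rw [e2] at h1
      refine h1.trans (ENNReal.ofReal_le_ofReal ?_)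
      have h2 := win_num (c := c) (m := m) (n := n) (by omega) hmc (by omega)
      have h3 : (K * 2 ^ (i + 2)) ^ 4 * (K * 2 ^ (i + 2)) ^ (m - 4) = (K * 2 ^ (i + 2)) ^ m := by
        rw [← pow_add]
        congr 1
        omega
      rw [two_neg, mul_pow (K * 2 ^ (i + 2))]
      calc K * (m : ℝ) ^ 3 * (1 / 4) ^ k * 2 ^ (13 / 4 * (n : ℝ)) * (K * 2 ^ (i + 2)) ^ 4 * w *
            ((K * 2 ^ (i + 2)) ^ (m - 4) * (if n = 3 then 1 else (2 : ℝ) ^ (-(c * ((n : ℝ) - 1)))) ^ (m - 4)) =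
            K * (m : ℝ) ^ 3 * (1 / 4) ^ k * (((K * 2 ^ (i + 2)) ^ 4 * (K * 2 ^ (i + 2)) ^ (m - 4)) * w) *
              (2 ^ (13 / 4 * (n : ℝ)) * (if n = 3 then 1 else (2 : ℝ) ^ (-(c * ((n : ℝ) - 1)))) ^ (m - 4)) := by ring
        _ ≤ K * (m : ℝ) ^ 3 * (1 / 4) ^ k * (((K * 2 ^ (i + 2)) ^ 4 * (K * 2 ^ (i + 2)) ^ (m - 4)) * w) *
              (2 ^ 13 * (1 / 2) ^ n) := by gcongr
        _ = G * (1 / 2) ^ n := by rw [h3, hG]; ring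
    have hnone := hS.none m (k + i) k (k / 2) (Tl m (k + i) k) w hm2 hm6 (by omega) (by omega) (by omega) hw0 hNW
    rw [e2] at hnone
    refine (add_le_add (Finset.sum_le_sum hterm) hnone).trans ?_
    rw [← ENNReal.ofReal_sum_of_nonneg (fun n _ => by positivity), ← Finset.mul_sum,
      ← ENNReal.ofReal_add (by
        have : ∀ n ∈ Ico n1 (k / 2 + 1), (0 : ℝ) ≤ (1 / 2) ^ n := fun n _ => by positivity
        exact mul_nonneg hG0 (Finset.sum_nonneg this)) (by positivity)]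
    refine ENNReal.ofReal_le_ofReal (of_mul ?_)
    rw [add_mul]
    have hA1 : G * (∑ n ∈ Ico n1 (k / 2 + 1), (1 / 2 : ℝ) ^ n) * (4 ^ (k + i) * 2 ^ (2 * i) * 2 ^ n1) ≤ V * 2 ^ 14 := by
      have h1 := geo_tail n1 (k / 2 + 1)
      have h2 : (1 / 2 : ℝ) ^ n1 * 2 ^ n1 = 1 := by rw [← mul_pow]; norm_num
      have h3 := key (A + m + 4) (by omega)
      have h4 : (2 : ℝ) ^ ((A + m + 4) * i) = 2 ^ ((A + m) * i) * 2 ^ (4 * i) := by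
        rw [add_mul, pow_add]
      have h5 : (1 / 4 : ℝ) ^ k * 2 ^ (2 * k) = 1 := by
        rw [pow_mul, ← mul_pow]
        norm_num
      calc G * (∑ n ∈ Ico n1 (k / 2 + 1), (1 / 2 : ℝ) ^ n) * (4 ^ (k + i) * 2 ^ (2 * i) * 2 ^ n1) ≤
            G * (2 * (1 / 2) ^ n1) * (4 ^ (k + i) * 2 ^ (2 * i) * 2 ^ n1) := by gcongr
        _ = K * (m : ℝ) ^ 3 * (4 * K) ^ m * Kt * 2 ^ 14 * (2 ^ ((A + m + 4) * i) / 4 ^ q) *
              ((1 / 4 : ℝ) ^ k * 2 ^ (2 * k)) * ((1 / 2 : ℝ) ^ n1 * 2 ^ n1) := by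
            rw [hG, hpow, e4, h4]
            ring
        _ = K * (m : ℝ) ^ 3 * (4 * K) ^ m * Kt * 2 ^ 14 * (2 ^ ((A + m + 4) * i) / 4 ^ q) := by
            rw [h2, h5, mul_one, mul_one]
        _ ≤ K * (m : ℝ) ^ 3 * (4 * K) ^ m * Kt * 2 ^ 14 * C0 := by gcongr
        _ = V * 2 ^ 14 := by rw [hV]; ring
    have hA2 : K * (m : ℝ) ^ 3 * Ub (k + i) * (K * 2 ^ (i + 2)) ^ 3 * w *
        (K * 2 ^ (i + 2) * (2 : ℝ) ^ (-(c * ((k / 2 : ℕ) : ℝ)))) ^ (m - 3) * (4 ^ (k + i) * 2 ^ (2 * i) * 2 ^ n1) ≤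
        V * Ub 0 * 2 ^ 8 := by
      have h1 : ((2 : ℝ) ^ (-(c * ((k / 2 : ℕ) : ℝ)))) ^ (m - 3) ≤ 2 ^ 5 * (1 / 2) ^ (5 * k) := by
        have h2 : (2 : ℝ) ^ 5 * (1 / 2) ^ (5 * k) = (2 : ℝ) ^ ((5 : ℝ) - 5 * k) := by
          rw [Real.rpow_sub (by norm_num), one_div, inv_pow, div_eq_mul_inv]
          congr 1
          · norm_num
          · rw [show (5 : ℝ) * k = ((5 * k : ℕ) : ℝ) by push_cast; ring, Real.rpow_natCast]
        rw [h2, ← Real.rpow_natCast, ← Real.rpow_mul (by norm_num)]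
        refine Real.rpow_le_rpow_of_exponent_le (by norm_num) ?_
        rw [Nat.cast_sub (by omega)]
        have h3 : ((k : ℝ) - 1) / 2 ≤ ((k / 2 : ℕ) : ℝ) := by
          have : k ≤ 2 * (k / 2) + 1 := by omega
          have : (k : ℝ) ≤ 2 * ((k / 2 : ℕ) : ℝ) + 1 := by exact_mod_cast this
          linarith
        have h4 : (6 : ℝ) ≤ k := by exact_mod_cast hk
        have h5 : 10 ≤ c * ((m : ℝ) - 3) := by nlinarith
        push_cast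
        nlinarith
      have h3 : (K * 2 ^ (i + 2)) ^ 3 * (K * 2 ^ (i + 2)) ^ (m - 3) = (K * 2 ^ (i + 2)) ^ m := by
        rw [← pow_add]
        congr 1
        omega
      have h4 : (2 : ℝ) ^ ((A + m + 6) * i) = 2 ^ ((A + m) * i) * 2 ^ (6 * i) := by
        rw [add_mul, pow_add]
      have h5 := key (A + m + 6) (by omega)
      have h6 : (1 / 2 : ℝ) ^ (5 * k) * 2 ^ (4 * k) ≤ 1 := by
        have : (1 / 2 : ℝ) ^ (5 * k) * 2 ^ (4 * k) = (1 / 2) ^ k * ((1 / 2) ^ (4 * k) * 2 ^ (4 * k)) := by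
          rw [show 5 * k = k + 4 * k by ring, pow_add]
          ring
        rw [this, ← mul_pow (1 / 2 : ℝ) 2 (4 * k)]
        norm_num
        exact pow_le_one₀ (by norm_num) (by norm_num)
      calc K * (m : ℝ) ^ 3 * Ub (k + i) * (K * 2 ^ (i + 2)) ^ 3 * w *
            (K * 2 ^ (i + 2) * (2 : ℝ) ^ (-(c * ((k / 2 : ℕ) : ℝ)))) ^ (m - 3) * (4 ^ (k + i) * 2 ^ (2 * i) * 2 ^ n1) =
            K * (m : ℝ) ^ 3 * Ub (k + i) * (((K * 2 ^ (i + 2)) ^ 3 * (K * 2 ^ (i + 2)) ^ (m - 3)) * w) *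
              ((2 : ℝ) ^ (-(c * ((k / 2 : ℕ) : ℝ)))) ^ (m - 3) * (4 ^ (k + i) * 2 ^ (2 * i) * 2 ^ n1) := by
            rw [mul_pow (K * 2 ^ (i + 2))]
            ring
        _ = K * (m : ℝ) ^ 3 * Ub (k + i) * ((K * 2 ^ (i + 2)) ^ m * w) *
              ((2 : ℝ) ^ (-(c * ((k / 2 : ℕ) : ℝ)))) ^ (m - 3) * (4 ^ (k + i) * 2 ^ (2 * i) * 2 ^ n1) := by rw [h3]
        _ ≤ K * (m : ℝ) ^ 3 * (Ub 0 * (2 ^ k * 2 ^ i)) * ((K * 2 ^ (i + 2)) ^ m * w) *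
              (2 ^ 5 * (1 / 2) ^ (5 * k)) * (4 ^ (k + i) * 2 ^ (2 * i) * (2 ^ k * 2 ^ i * 8)) := by gcongr
        _ = K * (m : ℝ) ^ 3 * Ub 0 * (4 * K) ^ m * Kt * 2 ^ 8 * (2 ^ ((A + m + 6) * i) / 4 ^ q) *
              ((1 / 2 : ℝ) ^ (5 * k) * 2 ^ (4 * k)) := by
            rw [hpow, e4, h4]
            ring
        _ ≤ K * (m : ℝ) ^ 3 * Ub 0 * (4 * K) ^ m * Kt * 2 ^ 8 * C0 * 1 := by gcongr
        _ = V * Ub 0 * 2 ^ 8 := by rw [hV]; ring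
    refine (add_le_add hA1 hA2).trans ?_
    nlinarith [mul_nonneg hV0 hU0.le]

end PLD

end HexObs
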