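import Pool.Agent.PLD.FinP

/-!
PLD, final part (E1'): the sum over the lists with a dense leaf.
-/

set_option autoImplicit false

namespace HexObs

namespace PLD

open Finset TS SDN

open scoped ENNReal

variable {K c : ℝ}

/-- the first good number below n1, or none -/
lemma cover2 {m L k n1 : ℕ} {W W' : Set (List Bool)} :
    {gs | gs ∈ CC m L k ∧ W2 W gs ∧ W1 W' gs} ⊆
      (⋃ n ∈ (Ico 3 n1).filter (fun n => 2 * n ≤ k),
        {gs | gs ∈ CC m L k ∧ Gd k n gs ∧ (n = 3 ∨ ¬ Gd k (n - 1) gs) ∧ GW k n W' gs}) ∪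
        {gs | gs ∈ CC m L k ∧ W2 W gs ∧ ∀ n, 3 ≤ n → n < n1 → 2 * n ≤ k → ¬ Gd k n gs} := by
  classical
  rintro gs ⟨h1, h2, h3⟩
  by_cases hg : ∃ n, 3 ≤ n ∧ n < n1 ∧ 2 * n ≤ k ∧ Gd k n gs
  · left
    have hf := Nat.find_spec hg
    have hm : ∀ n, n < Nat.find hg → ¬ (3 ≤ n ∧ n < n1 ∧ 2 * n ≤ k ∧ Gd k n gs) := fun n hn => Nat.find_min hg hn
    obtain ⟨n, hn⟩ : ∃ n, n = Nat.find hg := ⟨_, rfl⟩
    rw [← hn] at hf hm
    simp only [Set.mem_iUnion]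
    refine ⟨n, mem_filter.2 ⟨mem_Ico.2 ⟨hf.1, hf.2.1⟩, hf.2.2.1⟩, h1, hf.2.2.2, ?_, GW_of_W1 hf.2.2.2 h3⟩
    by_cases h33 : n = 3
    · exact Or.inl h33
    · right
      intro hc
      have := hf.1
      have := hf.2.1
      have := hf.2.2.1
      exact hm (n - 1) (by omega) ⟨by omega, by omega, by omega, hc⟩
  · right
    refine ⟨h1, h2, fun n g1 g2 g3 g4 => hg ⟨n, g1, g2, g3, g4⟩⟩

/-- **Lemma Q**: the sum over the lists of the scale k with a dense leaf -/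
theorem lemQ (hS : Sel K c) (hT : TallN) {m : ℕ} (hm2 : Even m) (hm6 : 6 ≤ m) (hmc : 10 ≤ c * ((m : ℝ) - 4)) :
    ∃ (e κ C : ℝ) (b0 l0 : ℕ), 0 < e ∧ e < 1 ∧ 0 < κ ∧ 1 ≤ C ∧ ∀ L k b1 : ℕ, k ≤ L → b0 ≤ b1 → b1 + l0 ≤ L →
      WS {gs | gs ∈ CC m L k ∧ W2 (Tl m L k) gs ∧
        W1 (Dn (L + 2) b1 ((2 : ℝ) ^ ((2 - e) * (((L + 2 : ℕ) : ℝ) - b1)))) gs} ≤
        ENNReal.ofReal (C * (1 / 4) ^ L * (1 / 2) ^ (L - k) * (2 : ℝ) ^ (-(κ * ((L : ℝ) - b1)))) := by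
  obtain ⟨CP, hCP, hP⟩ := lemP hS hT hm2 hm6 hmc
  obtain ⟨e, Cd, b0, l0, he0, he1, hCd, hd⟩ := dense_norm
  have hK := hS.oneK
  have hc := hS.posc
  have hm1 : (1 : ℝ) ≤ m := by exact_mod_cast (by omega : 1 ≤ m)
  obtain ⟨ε, hε⟩ : ∃ ε : ℝ, ε = e / (4 * ((m : ℝ) + 8)) := ⟨_, rfl⟩
  have hε0 : 0 < ε := by rw [hε]; positivity
  have hεm : ε * ((m : ℝ) + 8) = e / 4 := by
    rw [hε]
    field_simp
  have hεe : ε ≤ e / 36 := by nlinarith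
  obtain ⟨l3, hl3⟩ := exists_nat_ge (8 / e)
  refine ⟨e, ε, K * (m : ℝ) ^ 3 * (4 * K) ^ m * Cd * 2 ^ 18 + CP, b0, l0 + l3 + 8, he0, he1, hε0, ?_, ?_⟩
  · have : 0 ≤ K * (m : ℝ) ^ 3 * (4 * K) ^ m * Cd * 2 ^ 18 := by positivity
    linarith
  intro L k b1 hkL hb hL
  obtain ⟨i, rfl⟩ : ∃ i, L = k + i := ⟨L - k, by omega⟩
  have e1 : k + i - k = i := by omega
  have e2 : k + i + 2 - k = i + 2 := by omega
  obtain ⟨l, hl⟩ : ∃ l, k + i = b1 + l := ⟨k + i - b1, by omega⟩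
  have hlr : ((k + i : ℕ) : ℝ) - b1 = l := by rw [hl]; push_cast; ring
  have hlr2 : ((k + i + 2 : ℕ) : ℝ) - b1 = l + 2 := by
    have := hlr
    push_cast at this ⊢
    linarith
  have hl8 : (8 : ℝ) ≤ l := by exact_mod_cast (by omega : 8 ≤ l)
  have hel : 8 ≤ e * l := by
    have h1 : (8 / e : ℝ) ≤ l := hl3.trans (by exact_mod_cast (by omega : l3 ≤ l))
    rw [div_le_iff₀ he0] at h1
    linarith
  rw [e1, hlr, hlr2]
  obtain ⟨y, hy⟩ : ∃ y : ℝ, y = (2 : ℝ) ^ (-(ε * (l : ℝ))) := ⟨_, rfl⟩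
  have hy0 : 0 < y := by rw [hy]; positivity
  rw [← hy]
  have hMain0 : 0 ≤ K * (m : ℝ) ^ 3 * (4 * K) ^ m * Cd * 2 ^ 18 := by positivity
  by_cases hi : (i : ℝ) ≤ ε * l
  · -- i small
    obtain ⟨n1, hn1⟩ : ∃ n1, n1 = ⌊ε * l⌋₊ + 3 := ⟨_, rfl⟩
    have hf1 : (⌊ε * l⌋₊ : ℝ) ≤ ε * l := Nat.floor_le (by positivity)
    have hf2 : ε * l < (⌊ε * l⌋₊ : ℝ) + 1 := Nat.lt_floor_add_one _
    have hn1r : (n1 : ℝ) ≤ ε * l + 3 := by rw [hn1]; push_cast; linarith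
    have hn1r' : ε * l ≤ n1 := by rw [hn1]; push_cast; linarith
    have hn1L : n1 ≤ k + i + 3 := by
      have h1 : (n1 : ℝ) ≤ ((k + i + 3 : ℕ) : ℝ) := by
        have h2 : (l : ℝ) ≤ ((k + i : ℕ) : ℝ) := by exact_mod_cast (by omega : l ≤ k + i)
        push_cast at h2 ⊢
        nlinarith
      exact_mod_cast h1
    have hNW : NW (k + i) k (Dn (k + i + 2) b1 ((2 : ℝ) ^ ((2 - e) * ((l : ℝ) + 2))))
        (Cd * 2 ^ (i + 2) * (2 : ℝ) ^ (-(e * ((l : ℝ) + 2)))) := by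
      intro Φ hΦ
      rw [show uF (2 ^ (k + 4)) (2 ^ (k + i + 2)) LFold _ Φ = _ from uF_ind _ _ _ _ _]
      have h1 := hd k (k + i + 2) b1 (2 ^ (k + i + 2)) (2 ^ (i + 2)) Φ hΦ.her hb (by omega) (by omega)
        (by
          rw [hlr2]
          push_cast
          nlinarith) (one_le_pow₀ (by norm_num)) (by
          have h2 := Ub_add k (i + 2)
          rw [← add_assoc] at h2
          exact h2)
      rw [hlr2] at h1
      exact h1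
    obtain ⟨w, hw⟩ : ∃ w : ℝ, w = Cd * 2 ^ (i + 2) * (2 : ℝ) ^ (-(e * ((l : ℝ) + 2))) := ⟨_, rfl⟩
    have hw0 : 0 ≤ w := by rw [hw]; positivity
    rw [← hw] at hNW
    refine (WS_mono (cover2 (n1 := n1))).trans ((WS_union _ _).trans ((add_le_add (WS_bU _ _) (hP (k + i) k n1
      (by omega) (by omega) hn1L)).trans ?_))
    rw [e1]
    obtain ⟨G, hG⟩ : ∃ G : ℝ, G = K * (m : ℝ) ^ 3 * (1 / 4) ^ k * (2 : ℝ) ^ (13 / 4 * (n1 : ℝ)) *
      ((K * 2 ^ (i + 2)) ^ m * w) := ⟨_, rfl⟩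
    have hG0 : 0 ≤ G := by rw [hG]; positivity
    have hterm : ∀ n ∈ (Ico 3 n1).filter (fun n => 2 * n ≤ k),
        WS {gs | gs ∈ CC m (k + i) k ∧ Gd k n gs ∧ (n = 3 ∨ ¬ Gd k (n - 1) gs) ∧
          GW k n (Dn (k + i + 2) b1 ((2 : ℝ) ^ ((2 - e) * ((l : ℝ) + 2)))) gs} ≤ ENNReal.ofReal G := by
      intro n hn
      rw [mem_filter, mem_Ico] at hn
      have h1 := hS.sel m (k + i) k n _ w hm2 hm6 (by omega) (by omega) (by omega) hw0 hNW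
      rw [e2] at h1
      refine h1.trans (ENNReal.ofReal_le_ofReal ?_)
      have h3 : (K * 2 ^ (i + 2)) ^ 4 * (K * 2 ^ (i + 2)) ^ (m - 4) = (K * 2 ^ (i + 2)) ^ m := by
        rw [← pow_add]
        congr 1
        omega
      have hnr : (3 : ℝ) ≤ n := by exact_mod_cast hn.1.1
      have h4 : (if n = 3 then (1 : ℝ) else (2 : ℝ) ^ (-(c * ((n : ℝ) - 1)))) ≤ 1 := by
        split_ifs
        · exact le_rfl
        · refine Real.rpow_le_one_of_one_le_of_nonpos (by norm_num) ?_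
          nlinarith
      have h5 : 0 ≤ (if n = 3 then (1 : ℝ) else (2 : ℝ) ^ (-(c * ((n : ℝ) - 1)))) := by
        split_ifs
        · exact zero_le_one
        · positivity
      have h6 : (2 : ℝ) ^ (13 / 4 * (n : ℝ)) ≤ (2 : ℝ) ^ (13 / 4 * (n1 : ℝ)) := by
        refine Real.rpow_le_rpow_of_exponent_le (by norm_num) ?_
        have : (n : ℝ) ≤ n1 := by exact_mod_cast hn.1.2.le
        linarith
      rw [two_neg]
      calc K * (m : ℝ) ^ 3 * (1 / 4) ^ k * 2 ^ (13 / 4 * (n : ℝ)) * (K * 2 ^ (i + 2)) ^ 4 * w *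
            (K * 2 ^ (i + 2) * (if n = 3 then 1 else (2 : ℝ) ^ (-(c * ((n : ℝ) - 1))))) ^ (m - 4) ≤
            K * (m : ℝ) ^ 3 * (1 / 4) ^ k * 2 ^ (13 / 4 * (n1 : ℝ)) * (K * 2 ^ (i + 2)) ^ 4 * w *
            (K * 2 ^ (i + 2) * 1) ^ (m - 4) := by gcongr
        _ = K * (m : ℝ) ^ 3 * (1 / 4) ^ k * 2 ^ (13 / 4 * (n1 : ℝ)) *
              (((K * 2 ^ (i + 2)) ^ 4 * (K * 2 ^ (i + 2)) ^ (m - 4)) * w) := by ring
        _ = G := by rw [h3, hG]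
    refine (add_le_add (Finset.sum_le_card_nsmul _ _ _ hterm) le_rfl).trans ?_
    have hcard : ((Ico 3 n1).filter (fun n => 2 * n ≤ k)).card ≤ 2 ^ n1 := by
      refine (card_filter_le _ _).trans ?_
      rw [Nat.card_Ico]
      have := Nat.lt_two_pow_self (n := n1)
      omega
    have hsum : ((Ico 3 n1).filter (fun n => 2 * n ≤ k)).card • ENNReal.ofReal G ≤ ENNReal.ofReal (2 ^ n1 * G) := by
      rw [nsmul_eq_mul, ENNReal.ofReal_mul (by positivity)]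
      refine mul_le_mul_left ?_ _
      rw [← ENNReal.ofReal_natCast]
      refine ENNReal.ofReal_le_ofReal ?_
      exact_mod_cast hcard
    refine (add_le_add hsum le_rfl).trans ?_
    rw [← ENNReal.ofReal_add (by positivity) (by positivity)]
    refine ENNReal.ofReal_le_ofReal ?_
    -- first part
    have hA1 : 2 ^ n1 * G ≤ K * (m : ℝ) ^ 3 * (4 * K) ^ m * Cd * 2 ^ 18 * (1 / 4) ^ (k + i) * (1 / 2) ^ i * y := by
      have g1 : (K * 2 ^ (i + 2)) ^ m = (4 * K) ^ m * (2 : ℝ) ^ ((m : ℝ) * i) := by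
        rw [mul_pow, mul_pow, ← pow_mul]
        have e3 : (2 : ℝ) ^ ((i + 2) * m) = 4 ^ m * 2 ^ (m * i) := by
          rw [show (i + 2) * m = 2 * m + m * i by ring, pow_add, pow_mul]
          norm_num
        rw [e3, ← Nat.cast_mul, Real.rpow_natCast]
        ring
      have g2 : (1 / 4 : ℝ) ^ k = (1 / 4) ^ (k + i) * (2 : ℝ) ^ ((2 : ℝ) * i) := by
        have e3 : (2 : ℝ) ^ ((2 : ℝ) * i) = 4 ^ i := by
          rw [Real.rpow_mul (by norm_num), Real.rpow_natCast]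
          norm_num
        rw [e3, pow_add, mul_assoc, ← mul_pow]
        norm_num
      have g3 : (2 : ℝ) ^ (i + 2) = (2 : ℝ) ^ ((i : ℝ) + 2) := by
        rw [← Real.rpow_natCast]
        push_cast
        rfl
      have g4 : (1 / 2 : ℝ) ^ i = (2 : ℝ) ^ (-(i : ℝ)) := by
        rw [Real.rpow_neg (by norm_num), Real.rpow_natCast, one_div, inv_pow]
      have g5 : (2 : ℝ) ^ n1 = (2 : ℝ) ^ (n1 : ℝ) := (Real.rpow_natCast 2 n1).symm
      have g6 : (2 : ℝ) ^ 18 = (2 : ℝ) ^ (18 : ℝ) := by norm_num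
      rw [hG, hw, g1, g2, g3, g4, g5, g6, hy]
      have g7 : (2 : ℝ) ^ (n1 : ℝ) * ((2 : ℝ) ^ ((2 : ℝ) * i) * ((2 : ℝ) ^ (13 / 4 * (n1 : ℝ)) *
          ((2 : ℝ) ^ ((m : ℝ) * i) * ((2 : ℝ) ^ ((i : ℝ) + 2) * (2 : ℝ) ^ (-(e * ((l : ℝ) + 2))))))) ≤
          (2 : ℝ) ^ (18 : ℝ) * ((2 : ℝ) ^ (-(i : ℝ)) * (2 : ℝ) ^ (-(ε * (l : ℝ)))) := by
        rw [← Real.rpow_add (by norm_num), ← Real.rpow_add (by norm_num), ← Real.rpow_add (by norm_num),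
          ← Real.rpow_add (by norm_num), ← Real.rpow_add (by norm_num), ← Real.rpow_add (by norm_num),
          ← Real.rpow_add (by norm_num)]
        refine Real.rpow_le_rpow_of_exponent_le (by norm_num) ?_
        have hi0 : (0 : ℝ) ≤ i := Nat.cast_nonneg _
        have h1 : ((m : ℝ) + 4) * i ≤ ((m : ℝ) + 4) * (ε * l) := mul_le_mul_of_nonneg_left hi (by linarith)
        have h2 : ε * l * ((m : ℝ) + 8) = e * l / 4 := by
          calc ε * l * ((m : ℝ) + 8) = (ε * ((m : ℝ) + 8)) * l := by ring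
            _ = _ := by rw [hεm]; ring
        have h3 : ε * l ≤ e * l / 36 := by
          have : ε * l ≤ e / 36 * l := mul_le_mul_of_nonneg_right hεe (by linarith)
          linarith
        have h4 : 0 ≤ ε * l := by positivity
        nlinarith
      calc (2 : ℝ) ^ (n1 : ℝ) * (K * (m : ℝ) ^ 3 * ((1 / 4) ^ (k + i) * (2 : ℝ) ^ ((2 : ℝ) * i)) *
            (2 : ℝ) ^ (13 / 4 * (n1 : ℝ)) * ((4 * K) ^ m * (2 : ℝ) ^ ((m : ℝ) * i) *
            (Cd * (2 : ℝ) ^ ((i : ℝ) + 2) * (2 : ℝ) ^ (-(e * ((l : ℝ) + 2)))))) =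
            K * (m : ℝ) ^ 3 * (4 * K) ^ m * Cd * (1 / 4) ^ (k + i) *
            ((2 : ℝ) ^ (n1 : ℝ) * ((2 : ℝ) ^ ((2 : ℝ) * i) * ((2 : ℝ) ^ (13 / 4 * (n1 : ℝ)) *
          ((2 : ℝ) ^ ((m : ℝ) * i) * ((2 : ℝ) ^ ((i : ℝ) + 2) * (2 : ℝ) ^ (-(e * ((l : ℝ) + 2)))))))) := by ring
        _ ≤ K * (m : ℝ) ^ 3 * (4 * K) ^ m * Cd * (1 / 4) ^ (k + i) *
            ((2 : ℝ) ^ (18 : ℝ) * ((2 : ℝ) ^ (-(i : ℝ)) * (2 : ℝ) ^ (-(ε * (l : ℝ))))) := by gcongr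
        _ = _ := by ring
    have hA2 : CP * (1 / 4) ^ (k + i) * (1 / 4) ^ i * (1 / 2) ^ n1 ≤ CP * (1 / 4) ^ (k + i) * (1 / 2) ^ i * y := by
      have h1 : (1 / 4 : ℝ) ^ i ≤ (1 / 2) ^ i := pow_le_pow_left₀ (by norm_num) (by norm_num) i
      have h2 : (1 / 2 : ℝ) ^ n1 ≤ y := by
        have : (1 / 2 : ℝ) ^ n1 = (2 : ℝ) ^ (-(n1 : ℝ)) := by
          rw [Real.rpow_neg (by norm_num), Real.rpow_natCast, one_div, inv_pow]
        rw [this, hy]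
        exact Real.rpow_le_rpow_of_exponent_le (by norm_num) (by linarith)
      gcongr
    linarith
  · -- i large
    push Not at hi
    have h1 := hP (k + i) k 3 (by omega) le_rfl (by omega)
    rw [e1] at h1
    refine (WS_mono ?_).trans (h1.trans (ENNReal.ofReal_le_ofReal ?_))
    · rintro gs ⟨g1, g2, -⟩
      exact ⟨g1, g2, fun n h3 h4 => by omega⟩
    · have h2 : (1 / 2 : ℝ) ^ i ≤ y := by
        have : (1 / 2 : ℝ) ^ i = (2 : ℝ) ^ (-(i : ℝ)) := by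
          rw [Real.rpow_neg (by norm_num), Real.rpow_natCast, one_div, inv_pow]
        rw [this, hy]
        exact Real.rpow_le_rpow_of_exponent_le (by norm_num) (by linarith)
      have h3 : (1 / 4 : ℝ) ^ i = (1 / 2) ^ i * (1 / 2) ^ i := by
        rw [← mul_pow]
        norm_num
      have h4 : (0 : ℝ) ≤ (1 / 4) ^ (k + i) := by positivity
      have h5 : (0 : ℝ) ≤ (1 / 2) ^ i := by positivity
      have h6 : (1 / 2 : ℝ) ^ 3 ≤ 1 := by norm_num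
      calc CP * (1 / 4) ^ (k + i) * (1 / 4) ^ i * (1 / 2) ^ 3 ≤ CP * (1 / 4) ^ (k + i) * (1 / 4) ^ i * 1 := by gcongr
        _ = CP * (1 / 4) ^ (k + i) * (1 / 2) ^ i * (1 / 2) ^ i := by rw [h3]; ring
        _ ≤ CP * (1 / 4) ^ (k + i) * (1 / 2) ^ i * y := by gcongr
        _ ≤ _ := by
            have h7 : 0 ≤ K * (m : ℝ) ^ 3 * (4 * K) ^ m * Cd * 2 ^ 18 * ((1 / 4) ^ (k + i) * (1 / 2) ^ i * y) := by
              positivity
            nlinarith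

end PLD

end HexObs
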