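import Pool.Agent.PLD.Alt

/-!
PLD, (E1'): the leaves of a cyclic chain in a box are in the box (twice as large).
-/

set_option autoImplicit false

namespace HexObs

namespace PLD

open Finset TS SDN

/-- every leaf is, up to a translation and a half turn, a part of the closed word -/
lemma leaf_in {gs : List (List Bool)} (h : ∀ g ∈ gs, ∃ h, 1 ≤ h ∧ g ∈ Brd h) : ∀ g ∈ gs,
    ∃ (e : ℕ) (P : Pt) (s : Bool), ∀ i, i ≤ g.length → e + i ≤ (cuf gs).length ∧
      vx oo up (cuf gs) (e + i) = P + (if s then vx oo up g i else - vx oo up g i) := by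
  induction gs with
  | nil => intro g hg; simp at hg
  | cons g0 gs ih =>
    intro g hg
    obtain ⟨n, hn, hg0⟩ := h g0 (by simp)
    have ih' := ih fun g' hg' => h g' (List.mem_cons_of_mem _ hg')
    obtain ⟨e1, e2, e3⟩ := unf_step (r := cuf gs) hg0 hn
    rw [cuf_cons, e1]
    rcases List.mem_cons.1 hg with rfl | hg
    · refine ⟨0, 0, true, fun i hi => ⟨by omega, ?_⟩⟩
      rw [Nat.zero_add, e2 i hi]
      simp
    · obtain ⟨e, P, s, he⟩ := ih' g hg
      refine ⟨g0.length + 1 + e, vx oo up g0 g0.length + turn (!lst g0) (turn (!lst g0) up) - P, !s, fun i hi => ?_⟩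
      obtain ⟨h1, h2⟩ := he i hi
      refine ⟨by omega, ?_⟩
      rw [show g0.length + 1 + e + i = g0.length + 1 + (e + i) by ring, e3 (e + i), h2]
      cases s
      · simp only [Bool.not_false, Bool.false_eq_true, if_true, if_false]
        abel
      · simp only [Bool.not_true, Bool.false_eq_true, if_true, if_false]
        abel

lemma lvl_add (dir : Bool) (p q : Pt) : lvl dir (p + q) = lvl dir p + lvl dir q := by
  unfold lvl
  exact ip_add_left _ _ _

lemma lvl_neg (dir : Bool) (p : Pt) : lvl dir (-p) = - lvl dir p := by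
  unfold lvl ip
  rw [Prod.fst_neg, Prod.snd_neg]
  ring

lemma hgt_brd {g : List Bool} {h : ℕ} (hg : g ∈ Brd h) : hgt g = h := by
  unfold hgt
  rw [(mem_Brd.1 hg).2.2.2]
  omega

/-- BoxT of helper35 (PLD/Sum) -/
theorem box_t {L : ℕ} {gs : List (List Bool)} (hc : Cyc gs)
    (hb : ∀ (dir : Bool) (i i' : ℕ), i ≤ (cuf gs).length → i' ≤ (cuf gs).length →
      |row dir (vx oo up (cuf gs) i) - row dir (vx oo up (cuf gs) i')| ≤ 2 ^ (L + 1)) :
    ∀ g ∈ gs, g ∈ WL (L + 2) ∧ hgt g ≤ 2 ^ (L + 1) := by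
  intro g hg
  obtain ⟨n, hn, hgn⟩ := hc.brd g hg
  obtain ⟨e, P, s, he⟩ := leaf_in hc.brd g hg
  obtain ⟨h1, h2, h3, h4⟩ := mem_Brd.1 hgn
  have hp : (1 : ℤ) ≤ 2 ^ L := one_le_pow₀ (by norm_num)
  have hpow1 : (2 : ℤ) ^ (L + 1) = 2 * 2 ^ L := by ring
  have hpow2 : (2 : ℤ) ^ (L + 2) = 4 * 2 ^ L := by ring
  obtain ⟨k0, v0⟩ := he 0 (Nat.zero_le _)
  have z0 : vx oo up g 0 = 0 := rfl
  rw [z0] at v0
  refine ⟨⟨⟨fun _ _ _ => Set.mem_univ _, h2⟩, fun i hi dir => ?_⟩, ?_⟩
  · obtain ⟨ki, vi⟩ := he i hi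
    have hbb := hb dir (e + i) (e + 0) ki k0
    rw [vi, v0] at hbb
    rw [hpow2]
    rw [hpow1] at hbb
    cases s
    · simp only [Bool.false_eq_true, if_false, neg_zero, add_zero] at hbb
      unfold row at hbb ⊢
      rw [lvl_add, lvl_neg] at hbb
      rw [abs_le] at hbb ⊢
      omega
    · simp only [if_true, add_zero] at hbb
      unfold row at hbb ⊢
      rw [lvl_add] at hbb
      rw [abs_le] at hbb ⊢
      omega
  · rw [hgt_brd hgn]
    obtain ⟨ki, vi⟩ := he g.length le_rfl
    have hbb := hb false (e + g.length) (e + 0) ki k0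
    rw [vi, v0] at hbb
    have h5 : lvl false (vx oo up g g.length) = 3 * n := h4
    have h6 : (n : ℤ) ≤ 2 ^ (L + 1) := by
      cases s
      · simp only [Bool.false_eq_true, if_false, neg_zero, add_zero] at hbb
        unfold row at hbb
        rw [lvl_add, lvl_neg, h5, abs_le] at hbb
        omega
      · simp only [if_true, add_zero] at hbb
        unfold row at hbb
        rw [lvl_add, h5, abs_le] at hbb
        omega
    exact_mod_cast h6

end PLD

end HexObs
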