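import Pool.Agent.PLD.Place

/-!
PLD, (E1') for polygons in the plane: the sum over the polygons around a face between two boxes, from Star.
-/

set_option autoImplicit false

namespace HexObs

namespace PLD

open Finset TS SDN

open scoped ENNReal

/-- the polygon E has a word in Z -/
def HasW (Z : Set (List Bool)) (E : Finset (Pt × Pt)) : Prop :=
  ∃ (v d : Pt) (z : List Bool), z ∈ Z ∧ d ∈ dirs ∧ LP.Poly v d (per z) z.length ∧ E = LP.pe v d (per z) z.length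

lemma HasW.near {L : ℕ} {Z : Set (List Bool)} (hZ : ZOK L Z) {E : Finset (Pt × Pt)} (h : HasW Z E) {f : Pt}
    (hE : LP.IsPoly E) (hN : LP.Nw E f ≠ 0) : ∀ w ∈ LP.VE E, LP.Bx f (2 ^ (L + 6)) w := by
  obtain ⟨v, d, z, hz, hd, hP, rfl⟩ := h
  have hR : (1 : ℤ) ≤ 2 ^ (L + 1) := one_le_pow₀ (by norm_num)
  have h1 := near_f hE hN (M := 10 * 2 ^ (L + 1)) fun w hw w' hw' => ext_pe hd hR (hZ.box z hz) hw hw'
  intro w hw
  have h2 := h1 w hw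
  have h3 : (3 * (10 * 2 ^ (L + 1)) : ℤ) ≤ ((2 ^ (L + 6) : ℕ) : ℤ) := by
    push_cast
    have : (0 : ℤ) < 2 ^ L := by positivity
    rw [pow_succ, pow_add]
    norm_num
    linarith
  exact ⟨h2.1.trans h3, h2.2.trans h3⟩

lemma pow_id (b ℓ : ℕ) (κ : ℝ) : (4 : ℝ) ^ b * ((1 / 4) ^ ℓ * (2 : ℝ) ^ ((2 - κ) * ((ℓ : ℝ) - b))) =
    (2 : ℝ) ^ (-κ * ((ℓ : ℝ) - b)) := by
  have h1 : (4 : ℝ) ^ b = (2 : ℝ) ^ (2 * (b : ℝ)) := by
    rw [Real.rpow_mul (by norm_num), Real.rpow_natCast]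
    norm_num
  have h2 : (1 / 4 : ℝ) ^ ℓ = (2 : ℝ) ^ (-2 * (ℓ : ℝ)) := by
    rw [Real.rpow_mul (by norm_num), Real.rpow_natCast]
    congr 1
    rw [show (-2 : ℝ) = ((-2 : ℤ) : ℝ) by norm_num, Real.rpow_intCast]
    norm_num
  rw [h1, h2, ← Real.rpow_add (by norm_num), ← Real.rpow_add (by norm_num)]
  congr 1
  ring

/-- the polygons of one scale -/
theorem scale_sum {C κ : ℝ} (hC : 0 < C)
    (hstar : ∀ (L b1 : ℕ) (Z : Set (List Bool)), b1 ≤ L → ZOK L Z →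
      ∑' z : Z, wE z.1 * (nb b1 z.1 : ℝ≥0∞) ≤ ENNReal.ofReal (C * (1 / 4) ^ L * (2 : ℝ) ^ ((2 - κ) * ((L : ℝ) - b1))))
    {ℓ : ℕ} {Z : Set (List Bool)} (hZ : ZOK ℓ Z) (f : Pt) (J : ℕ) (S : Finset (Finset (Pt × Pt)))
    (hS : ∀ E ∈ S, LP.IsPoly E ∧ LP.Nw E f ≠ 0 ∧ (∃ w ∈ LP.VE E, LP.Bx f (2 ^ J) w) ∧ HasW Z E) :
    ∑ E ∈ S, xc ^ E.card ≤ 135000 * C * (2 : ℝ) ^ (-κ * ((ℓ : ℝ) - (min J ℓ : ℕ))) := by
  set b : ℕ := min J ℓ with hb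
  have h1 := place_sum b (2 ^ (b + 6)) f Z S (by
    intro E hE
    obtain ⟨hP, hN, ⟨w, hw, hs⟩, hW⟩ := hS E hE
    have hn := hW.near hZ hP hN
    obtain ⟨v, d, z, hz, hd, hP', hE'⟩ := hW
    refine ⟨v, d, z, hz, hd, hP', hE', w, hw, ?_⟩
    rcases le_total J ℓ with h2 | h2
    · have h3 : b = J := min_eq_left h2
      rw [h3]
      have h4 : ((2 ^ J : ℕ) : ℤ) ≤ ((2 ^ (J + 6) : ℕ) : ℤ) := by
        exact_mod_cast Nat.pow_le_pow_right (by norm_num) (by omega)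
      exact ⟨hs.1.trans h4, hs.2.trans h4⟩
    · have h3 : b = ℓ := min_eq_right h2
      rw [h3]
      exact hn w hw)
  have h2 := hstar ℓ b Z (min_le_right _ _) hZ
  have h3 : ENNReal.ofReal (∑ E ∈ S, xc ^ E.card) ≤
      ENNReal.ofReal (135000 * C * (2 : ℝ) ^ (-κ * ((ℓ : ℝ) - b))) := by
    rw [ENNReal.ofReal_sum_of_nonneg fun E _ => pow_nonneg xc_pos.le _]
    refine h1.trans ((mul_le_mul_right h2 _).trans ?_)
    rw [← ENNReal.ofReal_natCast, ← ENNReal.ofReal_mul (by positivity)]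
    refine ENNReal.ofReal_le_ofReal ?_
    have h5 : ((6 * (2 * (2 ^ (b + 6) + 10 * 2 ^ b) + 1) ^ 2 : ℕ) : ℝ) ≤ 135000 * 4 ^ b := by
      push_cast
      have h6 : (1 : ℝ) ≤ 2 ^ b := one_le_pow₀ (by norm_num)
      have h7 : (4 : ℝ) ^ b = 2 ^ b * 2 ^ b := by
        rw [← mul_pow]
        norm_num
      rw [h7, pow_add]
      norm_num
      nlinarith
    calc ((6 * (2 * (2 ^ (b + 6) + 10 * 2 ^ b) + 1) ^ 2 : ℕ) : ℝ) *
          (C * (1 / 4) ^ ℓ * (2 : ℝ) ^ ((2 - κ) * ((ℓ : ℝ) - b)))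
        ≤ 135000 * 4 ^ b * (C * (1 / 4) ^ ℓ * (2 : ℝ) ^ ((2 - κ) * ((ℓ : ℝ) - b))) :=
          mul_le_mul_of_nonneg_right h5 (by positivity)
      _ = 135000 * C * (4 ^ b * ((1 / 4) ^ ℓ * (2 : ℝ) ^ ((2 - κ) * ((ℓ : ℝ) - b)))) := by ring
      _ = _ := by rw [pow_id]
  exact (ENNReal.ofReal_le_ofReal_iff (by positivity)).1 h3

lemma geom_tail {q : ℝ} (h0 : 0 < q) (h1 : q < 1) {L : ℕ} (I : Finset ℕ) (hI : ∀ ℓ ∈ I, L ≤ ℓ + 5) :
    ∑ ℓ ∈ I, q ^ ℓ ≤ (q ^ 5 * (1 - q))⁻¹ * q ^ L := by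
  have e : ∀ ℓ ∈ I, q ^ ℓ = (q ^ 5)⁻¹ * q ^ L * q ^ (ℓ + 5 - L) := by
    intro ℓ hℓ
    have h2 : ℓ + 5 = L + (ℓ + 5 - L) := by have := hI ℓ hℓ; omega
    have h3 : q ^ ℓ * q ^ 5 = q ^ L * q ^ (ℓ + 5 - L) := by rw [← pow_add, ← pow_add, ← h2]
    have h5 : q ^ 5 ≠ 0 := by positivity
    rw [mul_assoc, ← h3]
    field_simp
  rw [Finset.sum_congr rfl e, ← Finset.mul_sum]
  have h2 : ∑ ℓ ∈ I, q ^ (ℓ + 5 - L) ≤ (1 - q)⁻¹ := by
    have hinj : Set.InjOn (fun ℓ => ℓ + 5 - L) (I : Set ℕ) := by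
      intro a ha b hb hab
      have h3 := hI a ha
      have h4 := hI b hb
      simp only at hab
      omega
    rw [← Finset.sum_image (f := fun n => q ^ n) hinj, ← tsum_geometric_of_lt_one h0.le h1]
    exact (summable_geometric_of_lt_one h0.le h1).sum_le_tsum _ fun n _ => by positivity
  calc (q ^ 5)⁻¹ * q ^ L * ∑ ℓ ∈ I, q ^ (ℓ + 5 - L) ≤ (q ^ 5)⁻¹ * q ^ L * (1 - q)⁻¹ :=
        mul_le_mul_of_nonneg_left h2 (by positivity)
    _ = _ := by rw [mul_inv]; ring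

/-- (E1'): the polygons around f that hit the box of the radius 2 ^ J and are not contained in the box of the radius
2 ^ L -/
theorem loop_sum_of (hstar : Star) (ZR : ℕ → Set (List Bool)) (hZ : ∀ L, ZOK L (ZR L))
    (hW : ∀ E, LP.IsPoly E → ∃ L, HasW (ZR L) E) :
    ∃ C κ : ℝ, 0 < C ∧ 0 < κ ∧ ∀ (f : Pt) (J L : ℕ) (S : Finset (Finset (Pt × Pt))),
      (∀ E ∈ S, LP.IsPoly E ∧ LP.Nw E f ≠ 0 ∧ (∃ w ∈ LP.VE E, LP.Bx f (2 ^ J) w) ∧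
        ∃ w ∈ LP.VE E, ¬ LP.Bx f (2 ^ L) w) →
      ∑ E ∈ S, xc ^ E.card ≤ C * (2 : ℝ) ^ (-κ * ((L : ℝ) - J)) := by
  classical
  obtain ⟨C, κ, hC, hκ, _, hst⟩ := hstar
  set q : ℝ := (2 : ℝ) ^ (-κ) with hq
  have hq0 : 0 < q := by positivity
  have hq1 : q < 1 := Real.rpow_lt_one_of_one_lt_of_neg (by norm_num) (by linarith)
  refine ⟨135000 * C * (q ^ 5 * (1 - q))⁻¹, κ, ?_, hκ, ?_⟩
  · have : 0 < 1 - q := by linarith
    positivity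
  intro f J L S hS
  choose! sc hsc using hW
  have hfar : ∀ E ∈ S, L ≤ sc E + 5 := by
    intro E hE
    obtain ⟨hP, hN, _, w, hw, hout⟩ := hS E hE
    by_contra hc
    have h1 := (hsc E hP).near (hZ _) hP hN w hw
    apply hout
    have h2 : ((2 ^ (sc E + 6) : ℕ) : ℤ) ≤ ((2 ^ L : ℕ) : ℤ) := by
      exact_mod_cast Nat.pow_le_pow_right (by norm_num) (by omega)
    exact ⟨h1.1.trans h2, h1.2.trans h2⟩
  have h1 : ∑ E ∈ S, xc ^ E.card = ∑ ℓ ∈ S.image sc, ∑ E ∈ S.filter (fun E => sc E = ℓ), xc ^ E.card :=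
    (Finset.sum_fiberwise_of_maps_to (fun E hE => Finset.mem_image_of_mem _ hE) _).symm
  rw [h1]
  have h2 : ∀ ℓ ∈ S.image sc, ∑ E ∈ S.filter (fun E => sc E = ℓ), xc ^ E.card ≤
      135000 * C * (2 : ℝ) ^ (κ * J) * q ^ ℓ := by
    intro ℓ _
    refine (scale_sum hC hst (hZ ℓ) f J _ ?_).trans ?_
    · intro E hE
      obtain ⟨hE1, hE2⟩ := Finset.mem_filter.1 hE
      obtain ⟨hP, hN, hin, _⟩ := hS E hE1
      exact ⟨hP, hN, hin, hE2 ▸ hsc E hP⟩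
    · rw [mul_assoc (135000 * C)]
      refine mul_le_mul_of_nonneg_left ?_ (by positivity)
      have h3 : (2 : ℝ) ^ (κ * J) * q ^ ℓ = (2 : ℝ) ^ (-κ * ((ℓ : ℝ) - J)) := by
        rw [hq, ← Real.rpow_natCast, ← Real.rpow_mul (by norm_num), ← Real.rpow_add (by norm_num)]
        congr 1
        ring
      rw [h3]
      refine Real.rpow_le_rpow_of_exponent_le (by norm_num) ?_
      have h4 : ((min J ℓ : ℕ) : ℝ) ≤ J := by exact_mod_cast min_le_left _ _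
      nlinarith
  refine (Finset.sum_le_sum h2).trans ?_
  rw [← Finset.mul_sum]
  have h3 := geom_tail hq0 hq1 (S.image sc) (L := L) (by
    intro ℓ hℓ
    obtain ⟨E, hE, rfl⟩ := Finset.mem_image.1 hℓ
    exact hfar E hE)
  calc 135000 * C * (2 : ℝ) ^ (κ * J) * ∑ ℓ ∈ S.image sc, q ^ ℓ
      ≤ 135000 * C * (2 : ℝ) ^ (κ * J) * ((q ^ 5 * (1 - q))⁻¹ * q ^ L) :=
        mul_le_mul_of_nonneg_left h3 (by positivity)
    _ = 135000 * C * (q ^ 5 * (1 - q))⁻¹ * ((2 : ℝ) ^ (κ * J) * q ^ L) := by ring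
    _ = _ := by
        congr 1
        rw [hq, ← Real.rpow_natCast, ← Real.rpow_mul (by norm_num), ← Real.rpow_add (by norm_num)]
        congr 1
        ring

end PLD

end HexObs
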