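import Pool.Agent.PLD.CycA
import Pool.Agent.PHW.Order

/-!
PLD: planarity: a polygon does not touch bottom, top, bottom, top of its strip in this order.
-/

set_option autoImplicit false

namespace HexObs

namespace PLD

open Finset TS SDN

/-- shift of the coordinates by one row -/
def fi (p : ℤ × ℤ) : ℤ × ℤ := (p.1 + 1, p.2 + 3)

lemma fi_adj {p q : ℤ × ℤ} (h : Planar.Adj p q) : Planar.Adj (fi p) (fi q) := by
  unfold Planar.Adj Planar.EE fi at *
  simp only
  rcases h with ⟨h1, h2, h3⟩ | ⟨h1, h2, h3⟩
  · left
    refine ⟨by omega, by omega, ?_⟩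
    rcases h3 with h3 | h3 | h3
    · exact Or.inl ⟨by omega, by omega⟩
    · exact Or.inr (Or.inl ⟨by omega, by omega⟩)
    · exact Or.inr (Or.inr ⟨by omega, by omega⟩)
  · right
    refine ⟨by omega, by omega, ?_⟩
    rcases h3 with h3 | h3 | h3
    · exact Or.inl ⟨by omega, by omega⟩
    · exact Or.inr (Or.inl ⟨by omega, by omega⟩)
    · exact Or.inr (Or.inr ⟨by omega, by omega⟩)

lemma xyo (p : Pt) : (xy oo up p).2 = ip p up := by
  show ip (p - oo) up = ip p up
  congr 1
  exact sub_zero _

/-- two disjoint crossings of the strip from bottom to top have the same order at both ends -/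
lemma ord {u w : ℕ → Pt} {n m : ℕ} {H : ℤ} (hH : 0 < H) (hH3 : H % 3 = 0)
    (au : ∀ k, k < n → Planar.Adj (xy oo up (u k)) (xy oo up (u (k + 1))))
    (aw : ∀ k, k < m → Planar.Adj (xy oo up (w k)) (xy oo up (w (k + 1))))
    (u0 : ip (u 0) up = -1) (w0 : ip (w 0) up = -1) (un : ip (u n) up = H) (wm : ip (w m) up = H)
    (lu : ∀ k, k ≤ n → -1 ≤ ip (u k) up ∧ ip (u k) up ≤ H)
    (lw : ∀ k, k ≤ m → -1 ≤ ip (w k) up ∧ ip (w k) up ≤ H)
    (dis : ∀ k, k ≤ n → ∀ j, j ≤ m → u k ≠ w j) :
    (xy oo up (u 0)).1 < (xy oo up (w 0)).1 ↔ (xy oo up (u n)).1 < (xy oo up (w m)).1 := by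
  have hxy : ∀ p q : Pt, xy oo up p = xy oo up q → p = q := fun p q h => xy_inj upd h
  have key := Planar.order_abs
    (a := fun k => if k = 0 then ((xy oo up (u 0)).1 + 1, 0) else fi (xy oo up (u (k - 1))))
    (g := fun k => if k = 0 then ((xy oo up (w 0)).1 + 1, 0) else fi (xy oo up (w (k - 1))))
    (n := n + 1) (m := m + 1) (H := H + 3) (by omega) (by omega) ?_ ?_ ?_ ?_ ?_ ?_ ?_ ?_ ?_
  · simp only [Nat.add_eq_zero_iff, one_ne_zero, and_false, if_true, if_false, Nat.add_sub_cancel] at key
    unfold fi at key
    simp only at key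
    constructor
    · intro h
      have := key.1 (by omega)
      omega
    · intro h
      have := key.2 (by omega)
      omega
  · intro i hi
    rcases Nat.eq_zero_or_pos i with h | h
    · subst h
      simp only [if_true, Nat.zero_add, one_ne_zero, if_false, Nat.sub_self]
      have hp := xy_parity oo up (u 0)
      rw [xyo, u0] at hp
      left
      unfold Planar.EE fi
      rw [xyo, u0]
      refine ⟨by norm_num, ?_, Or.inl ⟨rfl, by norm_num⟩⟩
      simp only
      omega
    · rw [if_neg (by omega), if_neg (by omega)]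
      have e : i + 1 - 1 = i - 1 + 1 := by omega
      rw [e]
      exact fi_adj (au (i - 1) (by omega))
  · simp
  · simp only [Nat.add_eq_zero_iff, one_ne_zero, and_false, if_false, Nat.add_sub_cancel]
    unfold fi
    simp only
    rw [xyo, un]
  · intro i h1 h2
    rw [if_neg (by omega)]
    unfold fi
    simp only
    rw [xyo]
    have := lu (i - 1) (by omega)
    omega
  · intro i hi
    rcases Nat.eq_zero_or_pos i with h | h
    · subst h
      simp only [if_true, Nat.zero_add, one_ne_zero, if_false, Nat.sub_self]
      have hp := xy_parity oo up (w 0)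
      rw [xyo, w0] at hp
      left
      unfold Planar.EE fi
      rw [xyo, w0]
      refine ⟨by norm_num, ?_, Or.inl ⟨rfl, by norm_num⟩⟩
      simp only
      omega
    · rw [if_neg (by omega), if_neg (by omega)]
      have e : i + 1 - 1 = i - 1 + 1 := by omega
      rw [e]
      exact fi_adj (aw (i - 1) (by omega))
  · simp
  · simp only [Nat.add_eq_zero_iff, one_ne_zero, and_false, if_false, Nat.add_sub_cancel]
    unfold fi
    simp only
    rw [xyo, wm]
  · intro i h1 h2
    rw [if_neg (by omega)]
    unfold fi
    simp only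
    rw [xyo]
    have := lw (i - 1) (by omega)
    omega
  · intro i hi j hj h
    rcases Nat.eq_zero_or_pos i with h1 | h1
    · rcases Nat.eq_zero_or_pos j with h2 | h2
      · subst h1 h2
        simp only [if_true] at h
        have h3 := congrArg Prod.fst h
        simp only at h3
        refine dis 0 (by omega) 0 (by omega) (hxy _ _ (Prod.ext (by omega) ?_))
        rw [xyo, xyo, u0, w0]
      · subst h1
        rw [if_pos rfl, if_neg (by omega)] at h
        have h3 := congrArg Prod.snd h
        unfold fi at h3
        simp only at h3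
        rw [xyo] at h3
        have := lw (j - 1) (by omega)
        omega
    · rcases Nat.eq_zero_or_pos j with h2 | h2
      · subst h2
        rw [if_neg (by omega), if_pos rfl] at h
        have h3 := congrArg Prod.snd h
        unfold fi at h3
        simp only at h3
        rw [xyo] at h3
        have := lu (i - 1) (by omega)
        omega
      · rw [if_neg (by omega), if_neg (by omega)] at h
        have h3 := congrArg Prod.fst h
        have h4 := congrArg Prod.snd h
        unfold fi at h3 h4
        simp only at h3 h4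
        exact dis (i - 1) (by omega) (j - 1) (by omega) (hxy _ _ (Prod.ext (by omega) (by omega)))

/-- a polygon does not touch bottom, top, bottom, top of its strip in this order -/
theorem no_alt {z : List Bool} (hz : z ∈ Cw) {H : ℤ} (hH : 0 < H) (hH3 : H % 3 = 0)
    (hm : ∀ i, i ≤ z.length → -1 ≤ lev z i ∧ lev z i ≤ H) (hl : lev z (z.length - 1) = -1) {i1 i2 i3 : ℕ}
    (h12 : i1 < i2) (h23 : i2 < i3) (h3 : i3 < z.length - 1) (e1 : lev z i1 = H) (e2 : lev z i2 = -1)
    (e3 : lev z i3 = H) : False := by
  have hN : 0 < z.length := List.length_pos_iff.2 hz.1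
  have hadj : ∀ i, Planar.Adj (xy oo up (vx oo up z i)) (xy oo up (vx oo up z (i + 1))) := fun i => xy_adj upd rfl z i
  have hinj : ∀ i k, i < z.length → k < z.length → i ≠ k → vx oo up z i ≠ vx oo up z k := by
    intro i k hi hk hik
    rcases lt_or_gt_of_ne hik with h | h
    · exact hz.2.2.2 i k h hk
    · exact (hz.2.2.2 k i h hi).symm
  have A := ord (u := fun k => if k = 0 then vx oo up z (z.length - 1) else vx oo up z (k - 1))
    (w := fun k => vx oo up z (i2 + k)) (n := i1 + 1) (m := i3 - i2) hH hH3 ?_ ?_ ?_ ?_ ?_ ?_ ?_ ?_ ?_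
  rotate_left
  · intro k hk
    rcases Nat.eq_zero_or_pos k with h | h
    · subst h
      simp only [if_true, Nat.zero_add, one_ne_zero, if_false, Nat.sub_self]
      have h1 := hadj (z.length - 1)
      rw [Nat.sub_add_cancel hN, hz.2.1] at h1
      exact h1
    · rw [if_neg (by omega), if_neg (by omega)]
      have h1 := hadj (k - 1)
      rw [Nat.sub_add_cancel h] at h1
      exact h1
  · intro k hk
    exact hadj (i2 + k)
  · exact hl
  · exact e2
  · simp only [Nat.add_eq_zero_iff, one_ne_zero, and_false, if_false, Nat.add_sub_cancel]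
    exact e1
  · rw [show i2 + (i3 - i2) = i3 by omega]
    exact e3
  · intro k hk
    split_ifs
    · exact hm _ (by omega)
    · exact hm _ (by omega)
  · intro k hk
    exact hm _ (by omega)
  · intro k hk j hj
    split_ifs
    · exact hinj _ _ (by omega) (by omega) (by omega)
    · exact hinj _ _ (by omega) (by omega) (by omega)
  have B := ord (u := fun k => vx oo up z (i2 - k)) (w := fun k => vx oo up z (z.length - 1 - k)) (n := i2 - i1)
    (m := z.length - 1 - i3) hH hH3 ?_ ?_ ?_ ?_ ?_ ?_ ?_ ?_ ?_
  rotate_left
  · intro k hk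
    have h1 := hadj (i2 - k - 1)
    rw [Nat.sub_add_cancel (by omega)] at h1
    exact h1.symm
  · intro k hk
    have h1 := hadj (z.length - 1 - k - 1)
    rw [Nat.sub_add_cancel (by omega)] at h1
    exact h1.symm
  · exact e2
  · exact hl
  · rw [show i2 - (i2 - i1) = i1 by omega]
    exact e1
  · rw [show z.length - 1 - (z.length - 1 - i3) = i3 by omega]
    exact e3
  · intro k hk
    exact hm _ (by omega)
  · intro k hk
    exact hm _ (by omega)
  · intro k hk j hj
    exact hinj _ _ (by omega) (by omega) (by omega)
  simp only [Nat.add_eq_zero_iff, one_ne_zero, and_false, if_true, if_false, Nat.add_sub_cancel, Nat.add_zero,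
    Nat.sub_zero] at A B
  rw [show i2 + (i3 - i2) = i3 by omega] at A
  rw [show i2 - (i2 - i1) = i1 by omega, show z.length - 1 - (z.length - 1 - i3) = i3 by omega] at B
  have hne : (xy oo up (vx oo up z (z.length - 1))).1 ≠ (xy oo up (vx oo up z i2)).1 := by
    intro h
    refine hinj (z.length - 1) i2 (by omega) (by omega) (by omega) (xy_inj upd (Prod.ext h ?_))
    rw [xyo, xyo]
    exact hl.trans e2.symm
  rcases lt_or_gt_of_ne hne with h | h
  · have h1 := A.1 h
    have h2 := B.2 h1
    omega
  · have h1 := B.1 h
    have h2 := A.2 h1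
    omega

end PLD

end HexObs
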