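import Pool.Agent.PLD.Defs
import Pool.Agent.SDN.NormO
import Pool.Agent.SDN.CleanChain

/-!
PLD (E1'), open chains of leaves with weights: the operators (docs zf/E1_h80, section 2).
-/

set_option autoImplicit false

namespace HexObs

namespace PLD

open Finset TS SDN

open scoped ENNReal

open Rec8 (mb)

/-- sum over the next leaf with the weight F -/
noncomputable def uF (D N : ℕ) (R : List Bool → List Bool → Prop) (F Φ : List Bool → ℝ≥0∞) (t : List Bool) : ℝ≥0∞ :=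
  Rec8.sw {g' | g' ∈ BrR D N ∧ RT D R t g'} (fun g' => F g' * Φ g')

open Classical in
/-- the last piece: sum over the beginning M ++ P1 of a leaf behind a leaf that ends with t, P1 over a level of the
window j1 -/
noncomputable def psiE (D N : ℕ) (R : List Bool → List Bool → Prop) (j1 : ℕ) (t : List Bool) : ℝ≥0∞ :=
  sB BU fun M => sB IU fun P1 => if ∃ Y ∈ BU, M ++ (P1 ++ Y) ∈ BrR D N ∧ RT D R t (M ++ (P1 ++ Y)) then
    mu j1 (hgt M) (hgt P1) * (wE M * wE P1) else 0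

open Classical in
/-- the first piece: sum over the end P2 ++ Q of a leaf, P2 over a level of the window k -/
noncomputable def fstP (D N k : ℕ) (Φ : List Bool → ℝ≥0∞) : ℝ≥0∞ :=
  sB IU fun P2 => sB BU fun Q => if ∃ Y ∈ BU, hgt Y ≤ 2 ^ (k + 1) ∧ Y ++ (P2 ++ Q) ∈ BrR D N then
    min 1 ((hgt P2 : ℝ≥0∞) / 2 ^ k) * (wE P2 * (wE Q * Φ (P2 ++ Q))) else 0

/-- the weight F has the norm at most c -/
def Nrm (D N k : ℕ) (F : List Bool → ℝ≥0∞) (c : ℝ≥0∞) : Prop :=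
  ∀ Φ : List Bool → ℝ≥0∞, HerD D Φ → xT D k (uF D N LFold F Φ) ≤ c * xT D k Φ

theorem uF_one (D N : ℕ) (R : List Bool → List Bool → Prop) (Φ : List Bool → ℝ≥0∞) :
    uF D N R (fun _ => 1) Φ = uA D N R Φ := by
  funext t
  unfold uF uA
  simp only [one_mul]

theorem uF_bet (D N k j1 j3 : ℕ) (R : List Bool → List Bool → Prop) (Φ : List Bool → ℝ≥0∞) :
    uF D N R (bet k j1 j3) Φ = uB D N k j1 j3 R Φ := rfl

open Classical in
theorem uF_ind (D N : ℕ) (R : List Bool → List Bool → Prop) (W : Set (List Bool)) (Φ : List Bool → ℝ≥0∞) :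
    uF D N R (fun g => if g ∈ W then 1 else 0) Φ = tF D N W R Φ := by
  funext t
  have h1 : {g' | g' ∈ BrR D N ∧ g' ∈ W ∧ RT D R t g'} = {g' | g' ∈ {g' | g' ∈ BrR D N ∧ RT D R t g'} ∧ g' ∈ W} := by
    ext g
    simp only [Set.mem_setOf_eq]
    tauto
  have h2 : tF D N W R Φ t = Rec8.sw {g' | g' ∈ BrR D N ∧ g' ∈ W ∧ RT D R t g'} Φ := rfl
  rw [h2, h1, Rec8.sw_and]
  refine Rec8.sw_congr fun g _ => ?_
  simp only
  split_ifs
  · rw [one_mul]
  · rw [zero_mul]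

theorem uF_mono {D N : ℕ} {R : List Bool → List Bool → Prop} {F G Φ Ψ : List Bool → ℝ≥0∞} (h1 : ∀ g, F g ≤ G g)
    (h2 : ∀ g, Φ g ≤ Ψ g) (t : List Bool) : uF D N R F Φ t ≤ uF D N R G Ψ t :=
  Rec8.sw_mono' fun g _ => mul_le_mul' (h1 g) (h2 g)

theorem uF_smul (D N : ℕ) (R : List Bool → List Bool → Prop) (c : ℝ≥0∞) (F Φ : List Bool → ℝ≥0∞) (t : List Bool) :
    uF D N R (fun g => c * F g) Φ t = c * uF D N R F Φ t := by
  unfold uF
  rw [← Rec8.sw_mul_left]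
  exact Rec8.sw_congr fun g _ => mul_assoc _ _ _

theorem Nrm.mono {D N k : ℕ} {F G : List Bool → ℝ≥0∞} {c d : ℝ≥0∞}
    (h : Nrm D N k G c) (h1 : ∀ g, F g ≤ G g) (h2 : c ≤ d) : Nrm D N k F d := fun Φ hΦ =>
  (xT_mono fun t => uF_mono h1 (fun _ => le_rfl) t).trans ((h Φ hΦ).trans (mul_le_mul_left h2 _))

theorem Nrm.smul {D N k : ℕ} {F : List Bool → ℝ≥0∞} {c : ℝ≥0∞}
    (h : Nrm D N k F c) (a : ℝ≥0∞) : Nrm D N k (fun g => a * F g) (a * c) := by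
  intro Φ hΦ
  refine (xT_mono (Ψ := fun t => a * uF D N LFold F Φ t) fun t => (uF_smul D N LFold a F Φ t).le).trans ?_
  refine (xT_smul _ _ _ _).trans ?_
  rw [mul_assoc]
  exact mul_le_mul_right (h Φ hΦ) _

theorem Nrm.add {D N k : ℕ} {F G : List Bool → ℝ≥0∞} {c d : ℝ≥0∞}
    (h : Nrm D N k F c) (h' : Nrm D N k G d) : Nrm D N k (fun g => F g + G g) (c + d) := by
  intro Φ hΦ
  refine (xT_mono (Ψ := fun t => uF D N LFold F Φ t + uF D N LFold G Φ t) fun t => le_of_eq ?_).trans ?_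
  · unfold uF
    rw [← Rec8.sw_add]
    exact Rec8.sw_congr fun g _ => add_mul _ _ _
  · refine (xT_add _ _ _ _).trans ?_
    rw [add_mul]
    exact add_le_add (h Φ hΦ) (h' Φ hΦ)

theorem uF_hered (D N : ℕ) (R : List Bool → List Bool → Prop) (F Φ : List Bool → ℝ≥0∞) : Hered (uF D N R F Φ) := by
  intro s hs t
  unfold uF
  exact Rec8.sw_mono (fun g' hg' => ⟨hg'.1, RT_her hs hg'.2⟩) fun _ _ => le_rfl

theorem psiE_hered (D N : ℕ) (R : List Bool → List Bool → Prop) (j1 : ℕ) : Hered (psiE D N R j1) := by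
  intro s hs t
  unfold psiE
  refine sB_mono le_rfl fun M _ => sB_mono le_rfl fun P1 _ => ?_
  by_cases h1 : ∃ Y ∈ BU, M ++ (P1 ++ Y) ∈ BrR D N ∧ RT D R (s ++ t) (M ++ (P1 ++ Y))
  · have h2 : ∃ Y ∈ BU, M ++ (P1 ++ Y) ∈ BrR D N ∧ RT D R t (M ++ (P1 ++ Y)) := by
      obtain ⟨Y, hY, h3, h4⟩ := h1
      exact ⟨Y, hY, h3, RT_her hs h4⟩
    rw [if_pos h1, if_pos h2]
  · rw [if_neg h1]
    exact zero_le

theorem uF_herD {D : ℕ} (hD : 1 ≤ D) (N : ℕ) (F Φ : List Bool → ℝ≥0∞) : HerD D (uF D N LFold F Φ) := by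
  refine ⟨uF_hered D N LFold F Φ, fun s t ht _ => ?_⟩
  unfold uF
  refine Rec8.sw_mono ?_ fun _ _ => le_rfl
  rintro g' ⟨h0, Z, hZ, h1, h2⟩
  refine ⟨h0, RT_of ht ?_⟩
  rw [← List.append_assoc] at h1 h2
  exact LFold_suf ht h1 hD h2

theorem psiE_herD {D : ℕ} (hD : 1 ≤ D) (N j1 : ℕ) : HerD D (psiE D N LFold j1) := by
  refine ⟨psiE_hered D N LFold j1, fun s t ht _ => ?_⟩
  unfold psiE
  refine sB_mono le_rfl fun M _ => sB_mono le_rfl fun P1 _ => ?_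
  by_cases h1 : ∃ Y ∈ BU, M ++ (P1 ++ Y) ∈ BrR D N ∧ RT D LFold (s ++ t) (M ++ (P1 ++ Y))
  · have h2 : ∃ Y ∈ BU, M ++ (P1 ++ Y) ∈ BrR D N ∧ RT D LFold t (M ++ (P1 ++ Y)) := by
      obtain ⟨Y, hY, h3, Z, hZ, h4, h5⟩ := h1
      refine ⟨Y, hY, h3, RT_of ht ?_⟩
      rw [← List.append_assoc] at h4 h5
      exact LFold_suf ht h4 hD h5
    rw [if_pos h1, if_pos h2]
  · rw [if_neg h1]
    exact zero_le

/-- the open chain -/
noncomputable def chn (D N : ℕ) (R : List Bool → List Bool → Prop) (j1 : ℕ) (Fs : List (List Bool → ℝ≥0∞)) :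
    List Bool → ℝ≥0∞ := Fs.foldr (uF D N R) (psiE D N R j1)

theorem foldr_herD {D : ℕ} (hD : 1 ≤ D) (N : ℕ) (Fs : List (List Bool → ℝ≥0∞)) {Φ : List Bool → ℝ≥0∞}
    (hΦ : HerD D Φ) : HerD D (Fs.foldr (uF D N LFold) Φ) := by
  cases Fs with
  | nil => exact hΦ
  | cons F Fs => exact uF_herD hD N F _

theorem foldr_norm {D N k : ℕ} (hD : 1 ≤ D) {Fs : List (List Bool → ℝ≥0∞)} {cs : List ℝ≥0∞}
    (h : List.Forall₂ (fun F c => Nrm D N k F c) Fs cs) {Φ : List Bool → ℝ≥0∞} (hΦ : HerD D Φ) :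
    xT D k (Fs.foldr (uF D N LFold) Φ) ≤ cs.prod * xT D k Φ := by
  induction h with
  | nil =>
    rw [List.prod_nil, one_mul]
    exact le_rfl
  | @cons F c Fs cs h1 h2 ih =>
    rw [List.prod_cons, mul_assoc]
    exact (h1 _ (foldr_herD hD N Fs hΦ)).trans (mul_le_mul_right ih _)

end PLD

end HexObs
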