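import Pool.Agent.PLD.StarDefs
import Pool.Agent.PLD.Frame
import Pool.Agent.HexLoop.Wind
import Pool.Agent.HexLoop.DefsC

/-!
PLD, (E1') for polygons in the plane: the number of the placements of a word near a face.
-/

set_option autoImplicit false

namespace HexObs

namespace PLD

open Finset TS SDN

open scoped ENNReal

/-! ### 1. Rows and coordinates -/

lemma coord_row {a b : Pt} {R : ℤ} (h : ∀ dir, |row dir a - row dir b| ≤ R) :
    |(a - b).1| ≤ 3 * R + 2 ∧ |(a - b).2| ≤ 3 * R + 2 := by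
  have h1 := h false
  have h2 := h true
  obtain ⟨a1, a2⟩ := a
  obtain ⟨b1, b2⟩ := b
  simp only [row, lvl, hd, Bool.false_eq_true, if_false, if_true, ip, up, Prod.mk_sub_mk, abs_le] at h1 h2 ⊢
  omega

lemma coord_cell {a b : Pt} {k : ℕ} (h : cell k a = cell k b) :
    |(a - b).1| ≤ 5 * 2 ^ k ∧ |(a - b).2| ≤ 5 * 2 ^ k := by
  have hp : (1 : ℤ) ≤ 2 ^ k := one_le_pow₀ (by norm_num)
  have h1 : ∀ dir, |row dir a - row dir b| ≤ 2 ^ k := by
    intro dir
    have h3 : row dir a / 2 ^ k = row dir b / 2 ^ k := by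
      cases dir
      · exact congrArg Prod.fst h
      · exact congrArg Prod.snd h
    have e1 := Int.mul_ediv_add_emod (row dir a) (2 ^ k)
    have e2 := Int.mul_ediv_add_emod (row dir b) (2 ^ k)
    have m1 := Int.emod_nonneg (row dir a) (show (2 : ℤ) ^ k ≠ 0 by positivity)
    have m2 := Int.emod_nonneg (row dir b) (show (2 : ℤ) ^ k ≠ 0 by positivity)
    have m3 := Int.emod_lt_of_pos (row dir a) (show (0 : ℤ) < 2 ^ k by positivity)
    have m4 := Int.emod_lt_of_pos (row dir b) (show (0 : ℤ) < 2 ^ k by positivity)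
    rw [h3] at e1
    rw [abs_le]
    constructor <;> linarith
  have h2 := coord_row h1
  constructor
  · exact h2.1.trans (by linarith)
  · exact h2.2.trans (by linarith)

lemma coord_mulE {u p : Pt} (hu : u ∈ dirs) {M : ℤ} (h : |p.1| ≤ M ∧ |p.2| ≤ M) :
    |(mulE u p).1| ≤ 2 * M ∧ |(mulE u p).2| ≤ 2 * M := by
  obtain ⟨p1, p2⟩ := p
  simp only [dirs, Finset.mem_insert, Finset.mem_singleton] at hu
  simp only [abs_le] at h
  rcases hu with rfl | rfl | rfl | rfl | rfl | rfl <;> simp only [mulE, abs_le] <;> omega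

/-! ### 2. Polygons and words -/

/-- the rotation that maps up to d -/
def Ud (d : Pt) : Pt := rotTo up d

lemma Ud_up (d : Pt) : mulE (Ud d) up = d := rotTo_apply d (by decide)

lemma Ud_mem {d : Pt} (hd : d ∈ dirs) : Ud d ∈ dirs := mem_dirs.2 (nrm_rotTo (by decide) hd)

lemma vs_Ud (v d : Pt) (z : List Bool) (i : ℕ) : vs v d (per z) i = v + mulE (Ud d) (pv z i) := by
  conv_lhs => rw [← Ud_up d]
  exact vs_mulE v (Ud d) up (per z) i

lemma mem_VE_pe {v d w : Pt} {τ : ℕ → Bool} {m : ℕ} (hw : w ∈ LP.VE (LP.pe v d τ m)) : ∃ i, i < m ∧ vs v d τ i = w := by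
  obtain ⟨p, hp, rfl⟩ := Finset.mem_image.1 hw
  obtain ⟨i, hi, rfl⟩ := Finset.mem_image.1 hp
  exact ⟨i, Finset.mem_range.1 hi, rfl⟩

/-- the extents of the polygon -/
lemma ext_pe {v d : Pt} (hd : d ∈ dirs) {z : List Bool} {R : ℤ} (hR : 1 ≤ R)
    (hbox : ∀ (dir : Bool) (i i' : ℕ), i ≤ z.length → i' ≤ z.length →
      |row dir (vx oo up z i) - row dir (vx oo up z i')| ≤ R)
    {w w' : Pt} (hw : w ∈ LP.VE (LP.pe v d (per z) z.length)) (hw' : w' ∈ LP.VE (LP.pe v d (per z) z.length)) :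
    |(w - w').1| ≤ 10 * R ∧ |(w - w').2| ≤ 10 * R := by
  obtain ⟨i, hi, rfl⟩ := mem_VE_pe hw
  obtain ⟨i', hi', rfl⟩ := mem_VE_pe hw'
  have e : vs v d (per z) i - vs v d (per z) i' = mulE (Ud d) (pv z i - pv z i') := by
    rw [vs_Ud, vs_Ud, mulE_sub]
    abel
  rw [e]
  have h1 : |(pv z i - pv z i').1| ≤ 5 * R ∧ |(pv z i - pv z i').2| ≤ 5 * R := by
    rw [← vx_eq_pv hi.le, ← vx_eq_pv hi'.le]
    have h2 := coord_row (fun dir => hbox dir i i' hi.le hi'.le)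
    exact ⟨h2.1.trans (by linarith), h2.2.trans (by linarith)⟩
  have h3 := coord_mulE (Ud_mem hd) h1
  exact ⟨h3.1.trans (by linarith), h3.2.trans (by linarith)⟩

/-- a polygon around f of extent M is near f -/
lemma near_f {E : Finset (Pt × Pt)} (hE : LP.IsPoly E) {f : Pt} (hN : LP.Nw E f ≠ 0) {M : ℤ}
    (h : ∀ w ∈ LP.VE E, ∀ w' ∈ LP.VE E, |(w - w').1| ≤ M ∧ |(w - w').2| ≤ M) :
    ∀ w ∈ LP.VE E, |(w - f).1| ≤ 3 * M ∧ |(w - f).2| ≤ 3 * M := by
  have h1 : ∃ w1 ∈ LP.VE E, LP.lv w1 < LP.lv f := by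
    by_contra hc
    push Not at hc
    exact hN (LP.Nw_low hc)
  have h2 : ∃ w2 ∈ LP.VE E, LP.lv f ≤ LP.lv w2 := by
    by_contra hc
    push Not at hc
    exact hN (LP.Nw_high hE hc)
  have h3 : ∃ w3 ∈ LP.VE E, LP.nn w3 ≤ LP.nn f := by
    by_contra hc
    push Not at hc
    exact hN (LP.Nw_left hE hc)
  have h4 : ∃ w4 ∈ LP.VE E, LP.nn f ≤ LP.nn w4 := by
    by_contra hc
    push Not at hc
    exact hN (LP.Nw_right hE hc)
  obtain ⟨w1, m1, l1⟩ := h1
  obtain ⟨w2, m2, l2⟩ := h2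
  obtain ⟨w3, m3, l3⟩ := h3
  obtain ⟨w4, m4, l4⟩ := h4
  intro w hw
  have k1 := h w hw w1 m1
  have k2 := h w hw w2 m2
  have k3 := h w hw w3 m3
  have k4 := h w hw w4 m4
  obtain ⟨x, y⟩ := w
  obtain ⟨x1, y1⟩ := w1
  obtain ⟨x2, y2⟩ := w2
  obtain ⟨x3, y3⟩ := w3
  obtain ⟨x4, y4⟩ := w4
  obtain ⟨f1, f2⟩ := f
  simp only [LP.lv, LP.nn, Prod.mk_sub_mk, abs_le] at *
  omega

/-! ### 3. The placements -/

open Classical in
/-- a vertex of the word z in the cell c -/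
noncomputable def Xc (b : ℕ) (z : List Bool) (c : ℤ × ℤ) : Pt :=
  if h : ∃ i, i ≤ z.length ∧ cell b (vx oo up z i) = c then vx oo up z h.choose else 0

lemma Xc_cell {b : ℕ} {z : List Bool} {c : ℤ × ℤ} {i : ℕ} (hi : i ≤ z.length) (hc : cell b (vx oo up z i) = c) :
    cell b (Xc b z c) = c := by
  have h : ∃ i, i ≤ z.length ∧ cell b (vx oo up z i) = c := ⟨i, hi, hc⟩
  unfold Xc
  rw [dif_pos h]
  exact h.choose_spec.2

/-- the box of the radius B -/
noncomputable def bxF (B : ℕ) : Finset Pt := Finset.Icc (-(B : ℤ)) B ×ˢ Finset.Icc (-(B : ℤ)) B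

lemma card_bxF (B : ℕ) : (bxF B).card = (2 * B + 1) ^ 2 := by
  unfold bxF
  rw [Finset.card_product, Int.card_Icc, show (B : ℤ) + 1 - -(B : ℤ) = ((2 * B + 1 : ℕ) : ℤ) by push_cast; ring,
    Int.toNat_natCast, sq]

lemma mem_bxF {B : ℕ} {a : Pt} : a ∈ bxF B ↔ |a.1| ≤ B ∧ |a.2| ≤ B := by
  unfold bxF
  rw [Finset.mem_product, Finset.mem_Icc, Finset.mem_Icc, abs_le, abs_le]

/-- the keys of the placements -/
noncomputable def keys (b B : ℕ) (z : List Bool) : Finset (Pt × (ℤ × ℤ) × Pt) := dirs ×ˢ cells b z ×ˢ bxF B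

/-- the polygon of a key -/
noncomputable def dec (b : ℕ) (f : Pt) (z : List Bool) (k : Pt × (ℤ × ℤ) × Pt) : Finset (Pt × Pt) :=
  LP.pe (f + k.2.2 - mulE (Ud k.1) (Xc b z k.2.1)) k.1 (per z) z.length

lemma card_keys (b B : ℕ) (z : List Bool) : (keys b B z).card = 6 * (nb b z * (2 * B + 1) ^ 2) := by
  unfold keys
  rw [Finset.card_product, Finset.card_product, card_bxF]
  rfl

lemma exists_key {b s : ℕ} {f v d : Pt} (hd : d ∈ dirs) {z : List Bool} {w : Pt}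
    (hw : w ∈ LP.VE (LP.pe v d (per z) z.length)) (hs : LP.Bx f s w) :
    ∃ k ∈ keys b (s + 10 * 2 ^ b) z, dec b f z k = LP.pe v d (per z) z.length := by
  obtain ⟨i, hi, rfl⟩ := mem_VE_pe hw
  set c := cell b (vx oo up z i) with hc
  have hX := Xc_cell hi.le hc.symm
  refine ⟨(d, c, v + mulE (Ud d) (Xc b z c) - f), ?_, ?_⟩
  · unfold keys
    rw [Finset.mem_product, Finset.mem_product, mem_bxF]
    refine ⟨hd, Finset.mem_image.2 ⟨i, Finset.mem_range.2 (by omega), hc.symm⟩, ?_⟩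
    have e : v + mulE (Ud d) (Xc b z c) - f =
        (vs v d (per z) i - f) + mulE (Ud d) (Xc b z c - pv z i) := by
      rw [vs_Ud, mulE_sub]
      abel
    have h1 : |(Xc b z c - pv z i).1| ≤ 5 * 2 ^ b ∧ |(Xc b z c - pv z i).2| ≤ 5 * 2 ^ b := by
      rw [← vx_eq_pv hi.le]
      exact coord_cell (hX.trans hc)
    have h2 := coord_mulE (Ud_mem hd) h1
    show |(v + mulE (Ud d) (Xc b z c) - f).1| ≤ _ ∧ |(v + mulE (Ud d) (Xc b z c) - f).2| ≤ _
    rw [e]
    obtain ⟨h3, h4⟩ := hs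
    push_cast
    constructor
    · calc |(vs v d (per z) i - f + mulE (Ud d) (Xc b z c - pv z i)).1|
          = |(vs v d (per z) i - f).1 + (mulE (Ud d) (Xc b z c - pv z i)).1| := rfl
        _ ≤ |(vs v d (per z) i - f).1| + |(mulE (Ud d) (Xc b z c - pv z i)).1| := abs_add_le _ _
        _ ≤ _ := by linarith [h2.1]
    · calc |(vs v d (per z) i - f + mulE (Ud d) (Xc b z c - pv z i)).2|
          = |(vs v d (per z) i - f).2 + (mulE (Ud d) (Xc b z c - pv z i)).2| := rfl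
        _ ≤ |(vs v d (per z) i - f).2| + |(mulE (Ud d) (Xc b z c - pv z i)).2| := abs_add_le _ _
        _ ≤ _ := by linarith [h2.2]
  · unfold dec
    congr 1
    show f + (v + mulE (Ud d) (Xc b z c) - f) - mulE (Ud d) (Xc b z c) = v
    abel

/-- the sum over the polygons with words in Z that hit the box of the radius s around f -/
theorem place_sum (b s : ℕ) (f : Pt) (Z : Set (List Bool)) (S : Finset (Finset (Pt × Pt)))
    (hS : ∀ E ∈ S, ∃ (v d : Pt) (z : List Bool), z ∈ Z ∧ d ∈ dirs ∧ LP.Poly v d (per z) z.length ∧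
      E = LP.pe v d (per z) z.length ∧ ∃ w ∈ LP.VE E, LP.Bx f s w) :
    ∑ E ∈ S, ENNReal.ofReal (xc ^ E.card) ≤
      ((6 * (2 * (s + 10 * 2 ^ b) + 1) ^ 2 : ℕ) : ℝ≥0∞) * ∑' z : Z, wE z.1 * (nb b z.1 : ℝ≥0∞) := by
  classical
  have hkey : ∀ E : S, ∃ x : (Σ z : Z, {k // k ∈ keys b (s + 10 * 2 ^ b) z.1}),
      dec b f x.1.1 x.2.1 = E.1 ∧ E.1.card = x.1.1.length := by
    intro E
    obtain ⟨v, d, z, hz, hd, hP, hE, w, hw, hs⟩ := hS E.1 E.2
    have hw' : w ∈ LP.VE (LP.pe v d (per z) z.length) := hE ▸ hw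
    obtain ⟨k, hk, hk2⟩ := exists_key (b := b) hd hw' hs
    refine ⟨⟨⟨z, hz⟩, ⟨k, hk⟩⟩, ?_, ?_⟩
    · rw [hE]
      exact hk2
    · rw [hE]
      exact LP.pe_card hP
  choose φ hφ1 hφ2 using hkey
  have hinj : Function.Injective φ := by
    intro E E' h
    apply Subtype.ext
    rw [← hφ1 E, ← hφ1 E', h]
  calc ∑ E ∈ S, ENNReal.ofReal (xc ^ E.card)
      = ∑' E : S, ENNReal.ofReal (xc ^ E.1.card) := (Finset.tsum_subtype S fun E => ENNReal.ofReal (xc ^ E.card)).symm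
    _ = ∑' E : S, wE (φ E).1.1 := tsum_congr fun E => by
        unfold wE
        rw [hφ2 E]
    _ ≤ ∑' x : (Σ z : Z, {k // k ∈ keys b (s + 10 * 2 ^ b) z.1}), wE x.1.1 :=
        ENNReal.tsum_comp_le_tsum_of_injective hinj fun x => wE x.1.1
    _ = ∑' (z : Z) (_ : {k // k ∈ keys b (s + 10 * 2 ^ b) z.1}), wE z.1 := ENNReal.tsum_sigma' _
    _ = ∑' z : Z, ((6 * (2 * (s + 10 * 2 ^ b) + 1) ^ 2 : ℕ) : ℝ≥0∞) * (wE z.1 * (nb b z.1 : ℝ≥0∞)) := by
        refine tsum_congr fun z => ?_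
        rw [tsum_fintype, Finset.sum_const, Finset.card_univ, Fintype.card_coe, card_keys, nsmul_eq_mul]
        push_cast
        ring
    _ = _ := ENNReal.tsum_mul_left

end PLD

end HexObs
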