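import Pool.Agent.PLD.SelDefs
import Pool.Agent.PLD.CloseL

/-!
PLD (E1'): choice of the closed leaf and of the weights of the other leaves (combinatorics of cyclic lists).
-/

set_option autoImplicit false

namespace HexObs

namespace PLD

open Finset TS SDN

open scoped ENNReal

/-- the same with the weight G of the first leaf -/
noncomputable def cW (G : List Bool → ℝ≥0∞) (Fs : List (List Bool → ℝ≥0∞)) : List (List Bool) → ℝ≥0∞
  | [] => 0
  | g :: gs => wE g * G g * wF Fs gs

lemma wl_cons (g : List Bool) (gs : List (List Bool)) : SDN.wl (g :: gs) = wE g * SDN.wl gs := by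
  unfold SDN.wl
  rw [List.map_cons, List.prod_cons]

lemma wl_le_wF {Fs : List (List Bool → ℝ≥0∞)} {gs : List (List Bool)}
    (h : List.Forall₂ (fun F g => 1 ≤ F g) Fs gs) : SDN.wl gs ≤ wF Fs gs := by
  induction h with
  | nil => exact le_of_eq rfl
  | @cons F g Fs gs h1 h2 ih =>
    rw [wl_cons]
    show _ ≤ wE g * F g * wF Fs gs
    calc wE g * SDN.wl gs = wE g * 1 * SDN.wl gs := by rw [mul_one]
      _ ≤ wE g * F g * wF Fs gs := by gcongr

lemma wl_rotate (gs : List (List Bool)) (i : ℕ) : SDN.wl (gs.rotate i) = SDN.wl gs := by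
  unfold SDN.wl
  rw [List.map_rotate]
  exact (List.rotate_perm _ _).prod_eq

/-- two elements with the property Q -/
lemma two_good {α : Type*} (Q : α → Bool) (l : List α) {p q : ℕ} (hpq : p < q) (hq : q < l.length)
    (h1 : Q (l[p]'(hpq.trans hq)) = true) (h2 : Q l[q] = true) : 2 ≤ (l.filter Q).length := by
  rw [← List.countP_eq_length_filter]
  have h3 : l.countP Q = (l.take q).countP Q + (l.drop q).countP Q := by
    rw [← List.countP_append, List.take_append_drop]
  have h4 : 0 < (l.take q).countP Q := by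
    rw [List.countP_pos_iff]
    refine ⟨l[p]'(hpq.trans hq), ?_, h1⟩
    rw [List.mem_take_iff_getElem]
    exact ⟨p, by omega, rfl⟩
  have h5 : 0 < (l.drop q).countP Q := by
    rw [List.countP_pos_iff]
    refine ⟨l[q], ?_, h2⟩
    rw [List.mem_drop_iff_getElem]
    exact ⟨0, by omega, by simp⟩
  omega

/-- choice of the rotation and of the two special leaves -/
lemma select {α : Type*} {m : ℕ} (hm : 3 ≤ m) {gs : List α} (hl : gs.length = m) (P : α → Prop) (Q : α → Bool)
    (W : Set α) {i j : ℕ} (hi : i < gs.length) (hj : j < gs.length) (hij : i ≠ j) (hP : P gs[i]) (hW : gs[j] ∈ W)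
    (hQ : (gs.filter Q).length ≤ 1) :
    ∃ a b g1 rest, a < m - 1 ∧ b < m - 1 ∧ a ≠ b ∧ gs.rotate i = g1 :: rest ∧ rest.length = m - 1 ∧ P g1 ∧
      ∀ p (hp : p < rest.length), (p = a → rest[p] ∈ W) ∧ (p ≠ a → p ≠ b → Q rest[p] = false) := by
  have hlen : (gs.rotate i).length = m := by rw [List.length_rotate, hl]
  obtain ⟨g1, rest, hgr⟩ : ∃ g1 rest, gs.rotate i = g1 :: rest := by
    cases h : gs.rotate i with
    | nil =>
      rw [h] at hlen
      simp at hlen
      omega
    | cons g1 rest => exact ⟨g1, rest, rfl⟩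
  have hrl : rest.length = m - 1 := by
    rw [hgr, List.length_cons] at hlen
    omega
  have hg1 : g1 = gs[i] := by
    have h1 : (gs.rotate i)[0]'(by rw [hlen]; omega) = gs[(0 + i) % gs.length]'(Nat.mod_lt _ (by omega)) :=
      List.getElem_rotate gs i 0 (by rw [hlen]; omega)
    have h2 : (gs.rotate i)[0]'(by rw [hlen]; omega) = g1 := by simp only [hgr, List.getElem_cons_zero]
    rw [h2] at h1
    rw [h1]
    congr 1
    rw [zero_add, Nat.mod_eq_of_lt hi]
  have hrest : ∀ p (hp : p < rest.length), rest[p] = gs[(p + 1 + i) % gs.length]'(Nat.mod_lt _ (by omega)) := by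
    intro p hp
    have h1 : (gs.rotate i)[p + 1]'(by rw [hlen]; omega) =
        gs[(p + 1 + i) % gs.length]'(Nat.mod_lt _ (by omega)) :=
      List.getElem_rotate gs i (p + 1) (by rw [hlen]; omega)
    have h2 : (gs.rotate i)[p + 1]'(by rw [hlen]; omega) = rest[p] := by
      simp only [hgr, List.getElem_cons_succ]
    rw [← h2, h1]
  -- the place of j
  obtain ⟨a, ha, haj⟩ : ∃ a, a < m - 1 ∧ (a + 1 + i) % gs.length = j := by
    by_cases h : i < j
    · refine ⟨j - i - 1, by omega, ?_⟩
      have : j - i - 1 + 1 + i = j := by omega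
      rw [this, Nat.mod_eq_of_lt hj]
    · refine ⟨j + m - i - 1, by omega, ?_⟩
      have : j + m - i - 1 + 1 + i = j + gs.length := by omega
      rw [this, Nat.add_mod_right, Nat.mod_eq_of_lt hj]
  have haW : ∀ hp : a < rest.length, rest[a] ∈ W := by
    intro hp
    rw [hrest a hp]
    simp only [haj]
    exact hW
  -- at most one index of rest with Q
  have hone : ∀ p q (hp : p < rest.length) (hq : q < rest.length), Q rest[p] = true → Q rest[q] = true → p = q := by
    have hperm : (rest.filter Q).length ≤ 1 := by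
      have h1 : ((gs.rotate i).filter Q).length = (gs.filter Q).length :=
        ((List.rotate_perm gs i).filter Q).length_eq
      have h2 : (rest.filter Q).length ≤ ((gs.rotate i).filter Q).length := by
        rw [hgr]
        exact ((List.sublist_cons_self g1 rest).filter Q).length_le
      omega
    intro p q hp hq h1 h2
    rcases lt_trichotomy p q with h | h | h
    · have := two_good Q rest h hq h1 h2
      omega
    · exact h
    · have := two_good Q rest h hp h2 h1
      omega
  -- the second special place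
  obtain ⟨b, hb, hab, hbQ⟩ : ∃ b, b < m - 1 ∧ a ≠ b ∧ ∀ p (hp : p < rest.length), p ≠ a → p ≠ b →
      Q rest[p] = false := by
    by_cases h : ∃ p, ∃ hp : p < rest.length, p ≠ a ∧ Q rest[p] = true
    · obtain ⟨p, hp, hpa, hpQ⟩ := h
      refine ⟨p, by omega, hpa.symm, fun q hq _ hqp => ?_⟩
      by_contra hc
      exact hqp (hone q p hq hp (by simpa using hc) hpQ)
    · have h' : ∀ p (hp : p < rest.length), p ≠ a → Q rest[p] = false := by
        intro p hp hpa
        by_contra hc
        exact h ⟨p, hp, hpa, by simpa using hc⟩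
      by_cases ha0 : a = 0
      · exact ⟨1, by omega, by omega, fun p hp h1 _ => h' p hp h1⟩
      · exact ⟨0, by omega, ha0, fun p hp h1 _ => h' p hp h1⟩
  refine ⟨a, b, g1, rest, ha, hb, hab, hgr, hrl, ?_, fun p hp => ⟨?_, hbQ p hp⟩⟩
  · rw [hg1]
    exact hP
  · rintro rfl
    exact haW hp

open Classical in
/-- the weights: W at the place a, 1 at the place b, Bt elsewhere -/
noncomputable def Fsel (m : ℕ) (W : Set (List Bool)) (Bt : List Bool → ℝ≥0∞) (a b : ℕ) : List (List Bool → ℝ≥0∞) :=
  (List.range (m - 1)).map fun p => if p = a then (fun g => if g ∈ W then 1 else 0) else if p = b then (fun _ => 1) else Bt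

/-- the list of the norms -/
noncomputable def csel (m : ℕ) (w u B : ℝ≥0∞) (a b : ℕ) : List ℝ≥0∞ :=
  (List.range (m - 1)).map fun p => if p = a then w else if p = b then u else B

lemma Fsel_length (m : ℕ) (W : Set (List Bool)) (Bt : List Bool → ℝ≥0∞) (a b : ℕ) : (Fsel m W Bt a b).length = m - 1 := by
  unfold Fsel
  rw [List.length_map, List.length_range]

lemma csel_prod {m a b : ℕ} (w u B : ℝ≥0∞) (ha : a < m - 1) (hb : b < m - 1) (hab : a ≠ b) :
    (csel m w u B a b).prod = w * u * B ^ (m - 3) := by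
  have h1 : ∀ (n : ℕ) (f : ℕ → ℝ≥0∞), ((List.range n).map f).prod = ∏ p ∈ range n, f p := by
    intro n f
    induction n with
    | zero => simp
    | succ n ih => rw [List.range_succ, List.map_append, List.prod_append, ih, Finset.prod_range_succ]; simp
  unfold csel
  rw [h1, ← Finset.mul_prod_erase _ _ (mem_range.2 ha), ← Finset.mul_prod_erase _ _
    (Finset.mem_erase.2 ⟨hab.symm, mem_range.2 hb⟩)]
  rw [if_pos rfl, if_neg hab.symm, if_pos rfl]
  have h2 : ∏ x ∈ ((range (m - 1)).erase a).erase b, (if x = a then w else if x = b then u else B) = B ^ (m - 3) := by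
    rw [Finset.prod_congr rfl (g := fun _ => B)]
    · rw [Finset.prod_const, Finset.card_erase_of_mem (Finset.mem_erase.2 ⟨hab.symm, mem_range.2 hb⟩),
        Finset.card_erase_of_mem (mem_range.2 ha), Finset.card_range]
      congr 1
    · intro x hx
      rw [Finset.mem_erase, Finset.mem_erase] at hx
      rw [if_neg hx.2.1, if_neg hx.1]
  rw [h2, mul_assoc]

lemma Fsel_norm {D N k m : ℕ} {W : Set (List Bool)} {Bt : List Bool → ℝ≥0∞} {w u B : ℝ≥0∞}
    (hw : Nrm D N k (open Classical in fun g => if g ∈ W then 1 else 0) w) (hu : Nrm D N k (fun _ => 1) u)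
    (hB : Nrm D N k Bt B) (a b : ℕ) : List.Forall₂ (fun F c => Nrm D N k F c) (Fsel m W Bt a b) (csel m w u B a b) := by
  unfold Fsel csel
  rw [List.forall₂_map_left_iff, List.forall₂_map_right_iff, List.forall₂_same]
  intro p _
  by_cases h1 : p = a
  · rw [if_pos h1, if_pos h1]
    exact hw
  · rw [if_neg h1, if_neg h1]
    by_cases h2 : p = b
    · rw [if_pos h2, if_pos h2]
      exact hu
    · rw [if_neg h2, if_neg h2]
      exact hB

lemma Fsel_one {m : ℕ} {W : Set (List Bool)} {Bt : List Bool → ℝ≥0∞} {a b : ℕ} {rest : List (List Bool)}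
    {Q : List Bool → Bool} (hBt : ∀ g ∈ rest, Q g = false → 1 ≤ Bt g) (hl : rest.length = m - 1)
    (h : ∀ p (hp : p < rest.length), (p = a → rest[p] ∈ W) ∧ (p ≠ a → p ≠ b → Q rest[p] = false)) :
    List.Forall₂ (fun F g => 1 ≤ F g) (Fsel m W Bt a b) rest := by
  rw [List.forall₂_iff_get]
  refine ⟨by rw [Fsel_length, hl], fun p h1 h2 => ?_⟩
  have h3 := h p h2
  have h4 : (Fsel m W Bt a b).get ⟨p, h1⟩ = (open Classical in if p = a then (fun g => if g ∈ W then 1 else 0) else
      if p = b then (fun _ => 1) else Bt) := by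
    unfold Fsel
    simp
  rw [h4]
  simp only [List.get_eq_getElem]
  by_cases hpa : p = a
  · rw [if_pos hpa, if_pos (h3.1 hpa)]
  · rw [if_neg hpa]
    by_cases hpb : p = b
    · rw [if_pos hpb]
    · rw [if_neg hpb]
      exact hBt _ (List.getElem_mem _) (h3.2 hpa hpb)

/-- sum over the choices -/
theorem sum_choice {m : ℕ} (S S' : Set (List (List Bool))) (G : List Bool → ℝ≥0∞)
    (W : Set (List Bool)) (Bt : List Bool → ℝ≥0∞) (X : ℝ≥0∞)
    (hS : ∀ gs ∈ S, ∃ i a b, i < m ∧ a < m - 1 ∧ b < m - 1 ∧ a ≠ b ∧ SDN.wl gs ≤ cW G (Fsel m W Bt a b) (gs.rotate i))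
    (hrot : ∀ gs ∈ S, ∀ i, gs.rotate i ∈ S')
    (hX : ∀ a b, a < m - 1 → b < m - 1 → a ≠ b → ∑' gs : S', cW G (Fsel m W Bt a b) gs.1 ≤ X) :
    WS S ≤ (m : ℝ≥0∞) ^ 3 * X := by
  classical
  have h1 : ∀ gs : S, SDN.wl gs.1 ≤ ∑ i ∈ range m, ∑ a ∈ range (m - 1), ∑ b ∈ range (m - 1),
      if a ≠ b then cW G (Fsel m W Bt a b) (gs.1.rotate i) else 0 := by
    intro gs
    obtain ⟨i, a, b, hi, ha, hb, hab, hle⟩ := hS gs.1 gs.2
    refine hle.trans ?_
    refine le_trans ?_ (Finset.single_le_sum (fun _ _ => zero_le) (mem_range.2 hi))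
    refine le_trans ?_ (Finset.single_le_sum (fun _ _ => zero_le) (mem_range.2 ha))
    refine le_trans ?_ (Finset.single_le_sum (fun _ _ => zero_le) (mem_range.2 hb))
    rw [if_pos hab]
  have h2 : ∀ i a b : ℕ, a < m - 1 → b < m - 1 →
      ∑' gs : S, (if a ≠ b then cW G (Fsel m W Bt a b) (gs.1.rotate i) else 0) ≤ X := by
    intro i a b ha hb
    by_cases hab : a ≠ b
    · simp only [if_pos hab]
      refine le_trans ?_ (hX a b ha hb hab)
      have hinj : Function.Injective (fun gs : S => (⟨gs.1.rotate i, hrot gs.1 gs.2 i⟩ : S')) := by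
        intro x y hxy
        have := congrArg Subtype.val hxy
        exact Subtype.ext (List.rotate_injective i this)
      exact ENNReal.tsum_comp_le_tsum_of_injective hinj fun gs : S' => cW G (Fsel m W Bt a b) gs.1
    · simp only [if_neg hab, tsum_zero]
      exact zero_le
  calc WS S ≤ ∑' gs : S, ∑ i ∈ range m, ∑ a ∈ range (m - 1), ∑ b ∈ range (m - 1),
      (if a ≠ b then cW G (Fsel m W Bt a b) (gs.1.rotate i) else 0) := ENNReal.tsum_le_tsum h1
    _ = ∑ i ∈ range m, ∑ a ∈ range (m - 1), ∑ b ∈ range (m - 1), ∑' gs : S,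
      (if a ≠ b then cW G (Fsel m W Bt a b) (gs.1.rotate i) else 0) := by
        rw [Summable.tsum_finsetSum (fun _ _ => ENNReal.summable)]
        refine Finset.sum_congr rfl fun i _ => ?_
        rw [Summable.tsum_finsetSum (fun _ _ => ENNReal.summable)]
        refine Finset.sum_congr rfl fun a _ => ?_
        exact Summable.tsum_finsetSum (fun _ _ => ENNReal.summable)
    _ ≤ ∑ i ∈ range m, ∑ a ∈ range (m - 1), ∑ b ∈ range (m - 1), X := by
        refine Finset.sum_le_sum fun i _ => Finset.sum_le_sum fun a ha => Finset.sum_le_sum fun b hb => ?_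
        exact h2 i a b (mem_range.1 ha) (mem_range.1 hb)
    _ ≤ (m : ℝ≥0∞) ^ 3 * X := by
        simp only [Finset.sum_const, Finset.card_range, nsmul_eq_mul]
        have h3 : ((m - 1 : ℕ) : ℝ≥0∞) ≤ m := by exact_mod_cast Nat.sub_le m 1
        calc (m : ℝ≥0∞) * (((m - 1 : ℕ) : ℝ≥0∞) * (((m - 1 : ℕ) : ℝ≥0∞) * X)) ≤ m * (m * (m * X)) := by gcongr
          _ = (m : ℝ≥0∞) ^ 3 * X := by ring

end PLD

end HexObs
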