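import Pool.Agent.PLD.OpDefs

/-!
PLD (E1'): the classes of the cyclic chains, good leaves, weights of lists (definitions).
-/

set_option autoImplicit false

namespace HexObs

namespace PLD

open Finset TS SDN

open scoped ENNReal

/-- cyclic chains of m leaves of scale k in the box of radius 2 ^ (L + 2) -/
def CC (m L k : ℕ) : Set (List (List Bool)) := {gs | Cyc gs ∧ gs.length = m ∧
  ∀ g ∈ gs, g ∈ BrR (2 ^ (k + 4)) (2 ^ (L + 2)) ∧ g ∈ CL (k + 6) ∧ g ∈ WL (L + 2)}

/-- total weight of a set of chains -/
noncomputable def WS (S : Set (List (List Bool))) : ℝ≥0∞ := ∑' gs : S, SDN.wl gs.1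

open Classical in
/-- at least two leaves are good -/
def Gd (k n : ℕ) (gs : List (List Bool)) : Prop :=
  2 ≤ (gs.filter fun g => decide (1 / 2 ≤ gam k (k - n) (k - 2 * n) g)).length

end PLD

end HexObs
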