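import Pool.Agent.PLD.SelN
import Pool.Agent.PLD.CloseL

/-!
PLD (E1'), [F1b]: total weight of the cyclic chains with given good leaves.
-/

set_option autoImplicit false

namespace HexObs

namespace PLD

open Finset TS SDN

open scoped ENNReal

variable {C δ : ℝ}

/-- cyclic chains of m leaves with heights in [D, N] -/
def CB (m D N : ℕ) : Set (List (List Bool)) := {gs | Cyc gs ∧ gs.length = m ∧ ∀ g ∈ gs, g ∈ BrR D N}

theorem CB_rot {m D N : ℕ} {gs : List (List Bool)} (h : gs ∈ CB m D N) (i : ℕ) : gs.rotate i ∈ CB m D N :=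
  ⟨h.1.rotate i, by rw [List.length_rotate]; exact h.2.1, fun g hg => h.2.2 g (List.mem_rotate.1 hg)⟩

theorem CB_cl {m D N : ℕ} {gs : List (List Bool)} (h : gs ∈ CB m D N) : Cl D N gs := by
  refine ⟨h.1.chain, ?_, h.1.altH_eq, h.1.altX_eq, h.2.2⟩
  intro x hx y hy
  have h1 := h.1.close
  have h2 : gs.getLast h.1.ne = x := by
    rw [List.getLast?_eq_some_getLast h.1.ne] at hx
    exact Option.some.inj hx
  have h3 : gs.head h.1.ne = y := by
    rw [List.head?_eq_some_head h.1.ne] at hy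
    exact Option.some.inj hy
  rw [h2, h3] at h1
  exact h1

theorem CC_sub {m L k : ℕ} : CC m L k ⊆ CB m (2 ^ (k + 4)) (2 ^ (L + 2)) :=
  fun _ h => ⟨h.1, h.2.1, fun g hg => (h.2.2 g hg).1⟩

theorem CB_empty {m D N : ℕ} (hm : 1 ≤ m) (h : N < D) : CB m D N = ∅ := by
  rw [Set.eq_empty_iff_forall_notMem]
  rintro gs ⟨_, hl, hb⟩
  rcases gs with _ | ⟨g, gs⟩
  · simp at hl
    omega
  · obtain ⟨h, h1, h2, _⟩ := hb g (by simp)
    omega

lemma cW_clW (k j1 j3 : ℕ) (Fs : List (List Bool → ℝ≥0∞)) (gs : List (List Bool)) :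
    cW (fun g => 2 * gam k j1 j3 g) Fs gs = 2 * clW k j1 j3 Fs gs := by
  rcases gs with _ | ⟨g, gs⟩
  · show (0 : ℝ≥0∞) = 2 * 0
    rw [mul_zero]
  · show wE g * (2 * gam k j1 j3 g) * wF Fs gs = 2 * (wE g * gam k j1 j3 g * wF Fs gs)
    ring

lemma one_le_two_gam {x : ℝ≥0∞} (h : 1 / 2 ≤ x) : 1 ≤ 2 * x := by
  calc (1 : ℝ≥0∞) = 2 * (1 / 2) := by
        rw [one_div, ENNReal.mul_inv_cancel (by norm_num) (by norm_num)]
    _ ≤ 2 * x := mul_le_mul_right h _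

lemma one_le_two_bet {k j1 j3 : ℕ} {g : List Bool} (h : ¬ 1 / 2 ≤ gam k j1 j3 g) : 1 ≤ 2 * bet k j1 j3 g := by
  refine one_le_two_gam ?_
  unfold bet
  have h1 : gam k j1 j3 g ≤ 1 / 2 := (not_le.1 h).le
  have h2 : (1 : ℝ≥0∞) / 2 = 1 - 1 / 2 := by
    rw [one_div]
    exact ENNReal.one_sub_inv_two.symm
  rw [h2]
  exact tsub_le_tsub_left h1 _

open Classical in
/-- the closed chains with a good leaf and a leaf in W, at most one leaf without the weight Bt -/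
theorem close_sum (h : Inp C δ) : ∃ K : ℝ, 1 ≤ K ∧ ∀ (m D N k n : ℕ) (ρ w u B : ℝ) (W : Set (List Bool))
    (Bt : List Bool → ℝ≥0∞) (Q : List Bool → Bool) (S : Set (List (List Bool))), 4 ≤ m → 2 ^ (k + 4) ≤ D → D ≤ N →
    2 * n ≤ k → 1 ≤ ρ → UU N ≤ ρ * Ub k → 0 ≤ w → 0 ≤ u → 0 ≤ B →
    Nrm D N k (fun g => if g ∈ W then 1 else 0) (ENNReal.ofReal w) → Nrm D N k (fun _ => 1) (ENNReal.ofReal u) →
    Nrm D N k Bt (ENNReal.ofReal B) → (∀ g, Q g = false → 1 ≤ Bt g) → S ⊆ CB m D N →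
    (∀ gs ∈ S, (gs.filter Q).length ≤ 1 ∧ ∃ (i j : ℕ) (hi : i < gs.length) (hj : j < gs.length), i ≠ j ∧
      1 / 2 ≤ gam k (k - n) (k - 2 * n) gs[i] ∧ gs[j] ∈ W) →
    WS S ≤ ENNReal.ofReal (K * m ^ 3 * (2 : ℝ) ^ (-(2 * (k : ℝ))) * (2 : ℝ) ^ ((13 / 4 : ℝ) * n) * ρ * w * u *
      B ^ (m - 3)) := by
  obtain ⟨K1, hK1, hcp⟩ := chain_prod h
  obtain ⟨K2, hK2, hcl⟩ := closeL
  obtain ⟨K3, hK3, hlow⟩ := Ub_low
  refine ⟨max 1 (2 * K2 * K1 * K3), le_max_left _ _, ?_⟩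
  intro m D N k n ρ w u B W Bt Q S hm hD hDN hnk hρ hU hw hu hB nW nu nB hQ hS hSel
  obtain ⟨X, hX⟩ : ∃ X : ℝ≥0∞, X = 2 * (ENNReal.ofReal (K2 * (2 : ℝ) ^ (-(5 / 4 : ℝ) * ((k - 2 * n : ℕ) : ℝ))) *
    (ENNReal.ofReal (K1 * ρ / Ub (k - n)) * (ENNReal.ofReal w * ENNReal.ofReal u * ENNReal.ofReal B ^ (m - 3)))) :=
    ⟨_, rfl⟩
  have key : WS S ≤ (m : ℝ≥0∞) ^ 3 * X := by
    refine sum_choice S (CB m D N) (fun g => 2 * gam k (k - n) (k - 2 * n) g) W Bt X ?_ (fun gs hgs i => CB_rot (hS hgs) i) ?_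
    · intro gs hgs
      obtain ⟨h1, i, j, hi, hj, hij, hg, hW⟩ := hSel gs hgs
      have hl := (hS hgs).2.1
      obtain ⟨a, b, g1, rest, ha, hb, hab, hr, hrl, hP, hrest⟩ := select (m := m) (by omega) hl
        (fun g => 1 / 2 ≤ gam k (k - n) (k - 2 * n) g) Q W hi hj hij hg hW h1
      refine ⟨i, a, b, by omega, ha, hb, hab, ?_⟩
      rw [hr]
      have h2 : SDN.wl gs = wE g1 * SDN.wl rest := by rw [← wl_rotate gs i, hr, wl_cons]
      rw [h2]
      show _ ≤ wE g1 * (2 * gam k (k - n) (k - 2 * n) g1) * wF (Fsel m W Bt a b) rest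
      have h3 := wl_le_wF (Fsel_one (W := W) (Bt := Bt) (fun g _ => hQ g) hrl hrest)
      calc wE g1 * SDN.wl rest = wE g1 * 1 * SDN.wl rest := by rw [mul_one]
        _ ≤ _ := mul_le_mul' (mul_le_mul_right (one_le_two_gam hP) _) h3
    · intro a b ha hb hab
      have h1 : ∑' gs : CB m D N, cW (fun g => 2 * gam k (k - n) (k - 2 * n) g) (Fsel m W Bt a b) gs.1 =
          2 * ∑' gs : CB m D N, clW k (k - n) (k - 2 * n) (Fsel m W Bt a b) gs.1 := by
        rw [← ENNReal.tsum_mul_left]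
        exact tsum_congr fun gs => cW_clW _ _ _ _ _
      rw [h1, hX]
      refine mul_le_mul_right ?_ _
      refine (hcl D N k (k - n) (k - 2 * n) _ _ fun gs hgs => CB_cl hgs).trans (mul_le_mul_right ?_ _)
      refine (hcp D N k (k - n) ρ _ _ hD hDN (by omega) hρ hU (Fsel_norm (a := a) (b := b) nW nu nB)).trans ?_
      rw [csel_prod _ _ _ ha hb hab]
  refine key.trans ?_
  have hUk := Ub_pos (k - n)
  have e0 : X = ENNReal.ofReal (2 * (K2 * (2 : ℝ) ^ (-(5 / 4 : ℝ) * ((k - 2 * n : ℕ) : ℝ)) *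
      (K1 * ρ / Ub (k - n) * (w * u * B ^ (m - 3))))) := by
    have e2 : (2 : ℝ≥0∞) = ENNReal.ofReal 2 := by norm_num
    have p1 : 0 ≤ K2 * (2 : ℝ) ^ (-(5 / 4 : ℝ) * ((k - 2 * n : ℕ) : ℝ)) :=
      mul_nonneg hK2.le (Real.rpow_nonneg (by norm_num) _)
    have p2 : 0 ≤ K1 * ρ / Ub (k - n) := by positivity
    rw [hX, ← ENNReal.ofReal_pow hB, ← ENNReal.ofReal_mul hw, ← ENNReal.ofReal_mul (mul_nonneg hw hu),
      ← ENNReal.ofReal_mul p2, ← ENNReal.ofReal_mul p1, e2, ← ENNReal.ofReal_mul (by norm_num)]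
  have e1 : (m : ℝ≥0∞) ^ 3 = ENNReal.ofReal ((m : ℝ) ^ 3) := by
    rw [ENNReal.ofReal_pow (Nat.cast_nonneg _), ENNReal.ofReal_natCast]
  rw [e0, e1, ← ENNReal.ofReal_mul (by positivity)]
  refine ENNReal.ofReal_le_ofReal ?_
  -- the power of 2
  have h3 : (2 : ℝ) ^ (-(5 / 4 : ℝ) * ((k - 2 * n : ℕ) : ℝ)) * (1 / Ub (k - n)) ≤
      K3 * ((2 : ℝ) ^ (-(2 * (k : ℝ))) * (2 : ℝ) ^ ((13 / 4 : ℝ) * n)) := by
    have h4 := hlow (k - n)
    have h5 : 1 / Ub (k - n) ≤ K3 * (2 : ℝ) ^ (-((3 / 4 : ℝ) * ((k - n : ℕ) : ℝ))) := by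
      rw [div_le_iff₀ hUk, Real.rpow_neg (by norm_num)]
      have h6 : (0 : ℝ) < (2 : ℝ) ^ ((3 / 4 : ℝ) * ((k - n : ℕ) : ℝ)) := Real.rpow_pos_of_pos (by norm_num) _
      have h7 : K3 * ((2 : ℝ) ^ ((3 / 4 : ℝ) * ((k - n : ℕ) : ℝ)))⁻¹ * Ub (k - n) =
          K3 * Ub (k - n) / (2 : ℝ) ^ ((3 / 4 : ℝ) * ((k - n : ℕ) : ℝ)) := by
        field_simp
      rw [h7, le_div_iff₀ h6, one_mul]
      exact h4
    calc (2 : ℝ) ^ (-(5 / 4 : ℝ) * ((k - 2 * n : ℕ) : ℝ)) * (1 / Ub (k - n))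
        ≤ (2 : ℝ) ^ (-(5 / 4 : ℝ) * ((k - 2 * n : ℕ) : ℝ)) * (K3 * (2 : ℝ) ^ (-((3 / 4 : ℝ) * ((k - n : ℕ) : ℝ)))) := by
          gcongr
      _ = K3 * ((2 : ℝ) ^ (-(5 / 4 : ℝ) * ((k - 2 * n : ℕ) : ℝ)) * (2 : ℝ) ^ (-((3 / 4 : ℝ) * ((k - n : ℕ) : ℝ)))) := by
          ring
      _ = K3 * ((2 : ℝ) ^ (-(2 * (k : ℝ))) * (2 : ℝ) ^ ((13 / 4 : ℝ) * n)) := by
          rw [← Real.rpow_add (by norm_num), ← Real.rpow_add (by norm_num)]
          congr 2
          rw [Nat.cast_sub hnk, Nat.cast_sub (by omega)]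
          push_cast
          ring
  have hBm : 0 ≤ B ^ (m - 3) := pow_nonneg hB _
  have h8 : 0 ≤ 2 * K2 * K1 * (m : ℝ) ^ 3 * ρ * w * u * B ^ (m - 3) := by positivity
  calc (m : ℝ) ^ 3 * (2 * (K2 * (2 : ℝ) ^ (-(5 / 4 : ℝ) * ((k - 2 * n : ℕ) : ℝ)) *
      (K1 * ρ / Ub (k - n) * (w * u * B ^ (m - 3)))))
      = (2 * K2 * K1 * (m : ℝ) ^ 3 * ρ * w * u * B ^ (m - 3)) *
        ((2 : ℝ) ^ (-(5 / 4 : ℝ) * ((k - 2 * n : ℕ) : ℝ)) * (1 / Ub (k - n))) := by ring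
    _ ≤ (2 * K2 * K1 * (m : ℝ) ^ 3 * ρ * w * u * B ^ (m - 3)) *
        (K3 * ((2 : ℝ) ^ (-(2 * (k : ℝ))) * (2 : ℝ) ^ ((13 / 4 : ℝ) * n))) := mul_le_mul_of_nonneg_left h3 h8
    _ = (2 * K2 * K1 * K3) * ((m : ℝ) ^ 3 * ρ * w * u * B ^ (m - 3) *
        ((2 : ℝ) ^ (-(2 * (k : ℝ))) * (2 : ℝ) ^ ((13 / 4 : ℝ) * n))) := by ring
    _ ≤ (max 1 (2 * K2 * K1 * K3)) * ((m : ℝ) ^ 3 * ρ * w * u * B ^ (m - 3) *
        ((2 : ℝ) ^ (-(2 * (k : ℝ))) * (2 : ℝ) ^ ((13 / 4 : ℝ) * n))) := by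
        refine mul_le_mul_of_nonneg_right (le_max_right _ _) ?_
        positivity
    _ = _ := by ring

open Classical in
/-- no closing: at most one leaf without the weight Bt, a leaf in W -/
theorem open_sum (h : Inp C δ) : ∃ K : ℝ, 1 ≤ K ∧ ∀ (m D N k : ℕ) (w u B : ℝ) (W : Set (List Bool))
    (Bt : List Bool → ℝ≥0∞) (Q : List Bool → Bool) (S : Set (List (List Bool))), 3 ≤ m → 2 ^ (k + 4) ≤ D →
    0 ≤ w → 0 ≤ u → 0 ≤ B →
    Nrm D N k (fun g => if g ∈ W then 1 else 0) (ENNReal.ofReal w) → Nrm D N k (fun _ => 1) (ENNReal.ofReal u) →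
    Nrm D N k Bt (ENNReal.ofReal B) → (∀ g, Q g = false → 1 ≤ Bt g) → S ⊆ CB m D N →
    (∀ gs ∈ S, (gs.filter Q).length ≤ 1 ∧ ∃ (j : ℕ) (hj : j < gs.length), gs[j] ∈ W) →
    WS S ≤ ENNReal.ofReal (K * m ^ 3 * UU N * w * u * B ^ (m - 3)) := by
  obtain ⟨K1, hK1, hop⟩ := open_prod h
  refine ⟨K1, hK1, ?_⟩
  intro m D N k w u B W Bt Q S hm hD hw hu hB nW nu nB hQ hS hSel
  have hUN := TH7.UU_nonneg N
  have key : WS S ≤ (m : ℝ≥0∞) ^ 3 * (ENNReal.ofReal (K1 * UU N) *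
      (ENNReal.ofReal w * ENNReal.ofReal u * ENNReal.ofReal B ^ (m - 3))) := by
    refine sum_choice S (CB m D N) (fun _ => 1) W Bt _ ?_ (fun gs hgs i => CB_rot (hS hgs) i) ?_
    · intro gs hgs
      obtain ⟨h1, j, hj, hW⟩ := hSel gs hgs
      have hl := (hS hgs).2.1
      obtain ⟨i, hi, hij⟩ : ∃ i, i < gs.length ∧ i ≠ j := by
        by_cases h0 : j = 0
        · exact ⟨1, by omega, by omega⟩
        · exact ⟨0, by omega, fun h => h0 h.symm⟩
      obtain ⟨a, b, g1, rest, ha, hb, hab, hr, hrl, _, hrest⟩ := select (m := m) hm hl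
        (fun _ => True) Q W hi hj hij trivial hW h1
      refine ⟨i, a, b, by omega, ha, hb, hab, ?_⟩
      rw [hr]
      have h2 : SDN.wl gs = wE g1 * SDN.wl rest := by rw [← wl_rotate gs i, hr, wl_cons]
      rw [h2]
      show _ ≤ wE g1 * 1 * wF (Fsel m W Bt a b) rest
      have h3 := wl_le_wF (Fsel_one (W := W) (Bt := Bt) (fun g _ => hQ g) hrl hrest)
      rw [mul_one]
      exact mul_le_mul_right h3 _
    · intro a b ha hb hab
      refine (openL D N _ _ fun gs hgs => ⟨hgs.1.chain, hgs.2.2⟩).trans ?_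
      refine (hop D N k _ _ hD (Fsel_norm (a := a) (b := b) nW nu nB)).trans ?_
      rw [csel_prod _ _ _ ha hb hab]
  refine key.trans (le_of_eq ?_)
  have e1 : (m : ℝ≥0∞) ^ 3 = ENNReal.ofReal ((m : ℝ) ^ 3) := by
    rw [ENNReal.ofReal_pow (Nat.cast_nonneg _), ENNReal.ofReal_natCast]
  rw [e1, ← ENNReal.ofReal_pow hB, ← ENNReal.ofReal_mul hw, ← ENNReal.ofReal_mul (by positivity),
    ← ENNReal.ofReal_mul (by positivity), ← ENNReal.ofReal_mul (by positivity)]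
  congr 1
  ring

open Classical in
/-- no closing, no further condition, m ≥ 2 -/
theorem open_two (h : Inp C δ) : ∃ K : ℝ, 1 ≤ K ∧ ∀ (m D N k : ℕ) (w u : ℝ) (W : Set (List Bool))
    (S : Set (List (List Bool))), 2 ≤ m → 2 ^ (k + 4) ≤ D → 0 ≤ w → 0 ≤ u →
    Nrm D N k (fun g => if g ∈ W then 1 else 0) (ENNReal.ofReal w) → Nrm D N k (fun _ => 1) (ENNReal.ofReal u) →
    S ⊆ CB m D N → (∀ gs ∈ S, ∃ (j : ℕ) (hj : j < gs.length), gs[j] ∈ W) →
    WS S ≤ ENNReal.ofReal (K * m * UU N * w * u ^ (m - 2)) := by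
  obtain ⟨K1, hK1, hop⟩ := open_prod h
  refine ⟨K1, hK1, ?_⟩
  intro m D N k w u W S hm hD hw hu nW nu hS hSel
  have hUN := TH7.UU_nonneg N
  obtain ⟨Fs, hFs⟩ : ∃ Fs : List (List Bool → ℝ≥0∞), Fs = (fun g => if g ∈ W then 1 else 0) ::
    List.replicate (m - 2) (fun _ => 1) := ⟨_, rfl⟩
  have hone : ∀ i, ∑' gs : S, (if ∃ h : i < gs.1.length, gs.1[i] ∈ W then SDN.wl gs.1 else 0) ≤
      ENNReal.ofReal (K1 * UU N) * (ENNReal.ofReal w * ENNReal.ofReal u ^ (m - 2)) := by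
    intro i
    -- rotation that brings the leaf number i to the place 1
    obtain ⟨r, hr⟩ : ∃ r, r = i + m - 1 := ⟨_, rfl⟩
    have h1 : ∀ gs : S, (if ∃ h : i < gs.1.length, gs.1[i] ∈ W then SDN.wl gs.1 else 0) ≤
        cW (fun _ => 1) Fs (gs.1.rotate r) := by
      intro gs
      by_cases hc : ∃ h : i < gs.1.length, gs.1[i] ∈ W
      · rw [if_pos hc]
        obtain ⟨hi, hW⟩ := hc
        have hl := (hS gs.2).2.1
        have hlr : (gs.1.rotate r).length = m := by rw [List.length_rotate, hl]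
        have hg : (gs.1.rotate r)[1]'(by rw [hlr]; omega) = gs.1[i] := by
          rw [List.getElem_rotate]
          congr 1
          have : 1 + r = i + gs.1.length := by omega
          rw [this, Nat.add_mod_right, Nat.mod_eq_of_lt hi]
        rw [← wl_rotate gs.1 r]
        obtain ⟨ls, hls⟩ : ∃ ls, ls = gs.1.rotate r := ⟨_, rfl⟩
        rw [← hls] at hlr ⊢
        have hg' : ls[1]'(by rw [hlr]; omega) ∈ W := by
          have : ls[1]'(by rw [hlr]; omega) = (gs.1.rotate r)[1]'(by rw [← hls, hlr]; omega) := by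
            simp only [hls]
          rw [this, hg]
          exact hW
        match ls, hlr, hg' with
        | [], hlr, _ => simp at hlr; omega
        | [g1], hlr, _ => simp at hlr; omega
        | g1 :: g2 :: rest, hlr, hg' =>
          rw [wl_cons, wl_cons, hFs]
          show _ ≤ wE g1 * 1 * (wE g2 * (if g2 ∈ W then 1 else 0) * wF (List.replicate (m - 2) (fun _ => 1)) rest)
          have hg2 : g2 ∈ W := hg'
          rw [if_pos hg2, mul_one, mul_one]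
          refine mul_le_mul_right (mul_le_mul_right ?_ _) _
          refine wl_le_wF ?_
          rw [List.forall₂_iff_get]
          refine ⟨?_, fun p h1 h2 => ?_⟩
          · rw [List.length_replicate]
            simp only [List.length_cons] at hlr
            omega
          · simp
      · rw [if_neg hc]
        exact zero_le
    refine (ENNReal.tsum_le_tsum h1).trans ?_
    have h2 : ∑' gs : S, cW (fun _ => 1) Fs (gs.1.rotate r) ≤ ∑' gs : CB m D N, cW (fun _ => 1) Fs gs.1 := by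
      have hinj : Function.Injective (fun gs : S => (⟨gs.1.rotate r, CB_rot (hS gs.2) r⟩ : CB m D N)) := by
        intro x y hxy
        have := congrArg Subtype.val hxy
        exact Subtype.ext (List.rotate_injective r this)
      exact ENNReal.tsum_comp_le_tsum_of_injective hinj fun gs : CB m D N => cW (fun _ => 1) Fs gs.1
    refine h2.trans ((openL D N _ _ fun gs hgs => ⟨hgs.1.chain, hgs.2.2⟩).trans ?_)
    have h3 : List.Forall₂ (fun F c => Nrm D N k F c) Fs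
        (ENNReal.ofReal w :: List.replicate (m - 2) (ENNReal.ofReal u)) := by
      rw [hFs]
      refine List.Forall₂.cons nW ?_
      rw [List.forall₂_iff_get]
      refine ⟨by simp, fun p h1 h2 => ?_⟩
      simp only [List.get_eq_getElem, List.getElem_replicate]
      exact nu
    refine (hop D N k _ _ hD h3).trans (le_of_eq ?_)
    rw [List.prod_cons, List.prod_replicate]
  have hsum : WS S ≤ ∑ i ∈ range m, ∑' gs : S, (if ∃ h : i < gs.1.length, gs.1[i] ∈ W then SDN.wl gs.1 else 0) := by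
    rw [← Summable.tsum_finsetSum (fun _ _ => ENNReal.summable)]
    refine ENNReal.tsum_le_tsum fun gs => ?_
    obtain ⟨j, hj, hW⟩ := hSel gs.1 gs.2
    have hl := (hS gs.2).2.1
    refine le_trans ?_ (Finset.single_le_sum (fun _ _ => zero_le) (mem_range.2 (by omega : j < m)))
    rw [if_pos ⟨hj, hW⟩]
  refine hsum.trans ((Finset.sum_le_sum fun i _ => hone i).trans (le_of_eq ?_))
  rw [Finset.sum_const, Finset.card_range, nsmul_eq_mul]
  rw [← ENNReal.ofReal_natCast, ← ENNReal.ofReal_pow hu, ← ENNReal.ofReal_mul hw, ← ENNReal.ofReal_mul (by positivity),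
    ← ENNReal.ofReal_mul (by positivity)]
  congr 1
  ring

end PLD

end HexObs
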