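import Pool.Agent.PLD.SelF
import Pool.Agent.SDN.XT

/-!
PLD (E1'), [F1b]: total weight of the cyclic chains with given good leaves, final form.
-/

set_option autoImplicit false

namespace HexObs

namespace PLD

open Finset TS SDN

open scoped ENNReal

lemma UU_box {L k : ℕ} (h : k ≤ L) : UU (2 ^ (L + 2)) ≤ (2 : ℝ) ^ (L + 2 - k) * Ub k := by
  have h1 := Ub_add k (L + 2 - k)
  rw [Nat.add_sub_cancel' (by omega)] at h1
  exact h1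

lemma UU_box4 (L : ℕ) : UU (2 ^ (L + 2)) ≤ 4 * Ub L := by
  have h1 := Ub_add L 2
  have : (2 : ℝ) ^ 2 = 4 := by norm_num
  rw [this] at h1
  exact h1

open Classical in
/-- the sum over the chains whose first scale with two good leaves is n, a good leaf and a leaf in W -/
theorem sel : ∃ K c : ℝ, 1 ≤ K ∧ 0 < c ∧ ∀ (m L k n : ℕ) (W : Set (List Bool)) (w : ℝ), 6 ≤ m → k ≤ L →
    3 ≤ n → 2 * n ≤ k → 0 ≤ w →
    Nrm (2 ^ (k + 4)) (2 ^ (L + 2)) k (fun g => if g ∈ W then 1 else 0) (ENNReal.ofReal w) →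
    WS {gs | gs ∈ CC m L k ∧ Gd k n gs ∧ (n = 3 ∨ ¬ Gd k (n - 1) gs) ∧
      ∃ (i j : ℕ) (hi : i < gs.length) (hj : j < gs.length), i ≠ j ∧
        1 / 2 ≤ gam k (k - n) (k - 2 * n) gs[i] ∧ gs[j] ∈ W} ≤
    ENNReal.ofReal (K * m ^ 3 * (2 : ℝ) ^ (-(2 * (k : ℝ))) * (2 : ℝ) ^ ((13 / 4 : ℝ) * n) *
      (K * 2 ^ (L + 2 - k)) ^ 4 * w *
      (if n = 3 then K * 2 ^ (L + 2 - k) else K * 2 ^ (L + 2 - k) * (2 : ℝ) ^ (-(c * ((n : ℝ) - 1)))) ^ (m - 4)) := by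
  obtain ⟨C, δ, h⟩ := inp_exists
  obtain ⟨K1, hK1, h1⟩ := close_sum h
  obtain ⟨K2, hK2, h2⟩ := nrm_one h
  obtain ⟨K3, c, hK3, hc, h3⟩ := nrm_bet h
  obtain ⟨K, hK⟩ : ∃ K, K = K1 + K2 + 2 * K3 := ⟨_, rfl⟩
  refine ⟨K, c, by linarith, hc, fun m L k n W w hm hk hn hnk hw nW => ?_⟩
  have hKone : 1 ≤ K := by linarith
  obtain ⟨ρ, hρd⟩ : ∃ ρ : ℝ, ρ = 2 ^ (L + 2 - k) := ⟨_, rfl⟩
  rw [← hρd]
  have hρ : 1 ≤ ρ := by rw [hρd]; exact one_le_pow₀ (by norm_num)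
  have hU : UU (2 ^ (L + 2)) ≤ ρ * Ub k := by rw [hρd]; exact UU_box hk
  have hK1' : 1 ≤ K := by linarith
  rcases Nat.lt_or_ge (2 ^ (L + 2)) (2 ^ (k + 4)) with hDN | hDN
  · have h4 : {gs | gs ∈ CC m L k ∧ Gd k n gs ∧ (n = 3 ∨ ¬ Gd k (n - 1) gs) ∧
      ∃ (i j : ℕ) (hi : i < gs.length) (hj : j < gs.length), i ≠ j ∧
        1 / 2 ≤ gam k (k - n) (k - 2 * n) gs[i] ∧ gs[j] ∈ W} = ∅ := by
      rw [Set.eq_empty_iff_forall_notMem]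
      rintro gs ⟨h5, _⟩
      have h6 := CC_sub h5
      rw [CB_empty (by omega) hDN] at h6
      exact h6
    rw [h4]
    unfold WS
    rw [tsum_empty]
    exact zero_le
  have n1 := h2 (2 ^ (k + 4)) (2 ^ (L + 2)) k ρ le_rfl hρ hU
  -- the bad weight
  obtain ⟨B, hBd⟩ : ∃ B : ℝ, B = (if n = 3 then K * ρ else K * ρ * (2 : ℝ) ^ (-(c * ((n : ℝ) - 1)))) := ⟨_, rfl⟩
  rw [← hBd]
  have hB0 : 0 ≤ B := by
    rw [hBd]
    split_ifs <;> positivity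
  have hBK : B ≤ K * ρ := by
    rw [hBd]
    split_ifs with h0
    · exact le_rfl
    · refine mul_le_of_le_one_right (by positivity) ?_
      refine Real.rpow_le_one_of_one_le_of_nonpos (by norm_num) ?_
      have : (1 : ℝ) ≤ n := by exact_mod_cast (by omega : 1 ≤ n)
      nlinarith
  have hmain : WS {gs | gs ∈ CC m L k ∧ Gd k n gs ∧ (n = 3 ∨ ¬ Gd k (n - 1) gs) ∧
      ∃ (i j : ℕ) (hi : i < gs.length) (hj : j < gs.length), i ≠ j ∧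
        1 / 2 ≤ gam k (k - n) (k - 2 * n) gs[i] ∧ gs[j] ∈ W} ≤
      ENNReal.ofReal (K1 * m ^ 3 * (2 : ℝ) ^ (-(2 * (k : ℝ))) * (2 : ℝ) ^ ((13 / 4 : ℝ) * n) * ρ * w * (K2 * ρ) *
      B ^ (m - 3)) := by
    by_cases h0 : n = 3
    · refine h1 m (2 ^ (k + 4)) (2 ^ (L + 2)) k n ρ w (K2 * ρ) B W (fun _ => 1) (fun _ => false) _ (by omega) le_rfl hDN
        hnk hρ hU hw (by positivity) hB0 nW n1 ?_ (fun _ _ => le_rfl) (fun gs hgs => CC_sub hgs.1) ?_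
      · refine n1.mono (fun _ => le_rfl) (ENNReal.ofReal_le_ofReal ?_)
        rw [hBd, if_pos h0]
        exact mul_le_mul_of_nonneg_right (by linarith) (by linarith)
      · rintro gs ⟨_, _, _, h5⟩
        refine ⟨?_, h5⟩
        rw [List.filter_false]
        simp
    · refine h1 m (2 ^ (k + 4)) (2 ^ (L + 2)) k n ρ w (K2 * ρ) B W (fun g => 2 * bet k (k - (n - 1)) (k - 2 * (n - 1)) g)
        (fun g => decide (1 / 2 ≤ gam k (k - (n - 1)) (k - 2 * (n - 1)) g)) _ (by omega) le_rfl hDN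
        hnk hρ hU hw (by positivity) hB0 nW n1 ?_ ?_ (fun gs hgs => CC_sub hgs.1) ?_
      · have n2 := (h3 (2 ^ (k + 4)) (2 ^ (L + 2)) k (n - 1) ρ le_rfl hρ hU (by omega) (by omega)).smul 2
        refine n2.mono (fun _ => le_rfl) ?_
        have e1 : (2 : ℝ≥0∞) = ENNReal.ofReal 2 := by norm_num
        rw [e1, ← ENNReal.ofReal_mul (by norm_num)]
        refine ENNReal.ofReal_le_ofReal ?_
        rw [hBd, if_neg h0]
        have e2 : ((n - 1 : ℕ) : ℝ) = (n : ℝ) - 1 := by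
          rw [Nat.cast_sub (by omega)]
          norm_num
        rw [e2]
        have h6 : (0 : ℝ) < (2 : ℝ) ^ (-(c * ((n : ℝ) - 1))) := Real.rpow_pos_of_pos (by norm_num) _
        calc 2 * (K3 * ρ * (2 : ℝ) ^ (-(c * ((n : ℝ) - 1)))) = (2 * K3) * ρ * (2 : ℝ) ^ (-(c * ((n : ℝ) - 1))) := by ring
          _ ≤ K * ρ * (2 : ℝ) ^ (-(c * ((n : ℝ) - 1))) := by
              gcongr
              linarith
      · intro g hg
        exact one_le_two_bet (by simpa using hg)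
      · rintro gs ⟨_, _, h5, h6⟩
        refine ⟨?_, h6⟩
        have h7 := h5.resolve_left h0
        unfold Gd at h7
        omega
  refine hmain.trans (ENNReal.ofReal_le_ofReal ?_)
  obtain ⟨a, ha⟩ : ∃ a : ℝ, a = (m : ℝ) ^ 3 * (2 : ℝ) ^ (-(2 * (k : ℝ))) * (2 : ℝ) ^ ((13 / 4 : ℝ) * n) := ⟨_, rfl⟩
  have ha0 : 0 ≤ a := by rw [ha]; positivity
  have e3 : B ^ (m - 3) = B * B ^ (m - 4) := by
    rw [← pow_succ']
    congr 1
    omega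
  have hBm : 0 ≤ B ^ (m - 4) := pow_nonneg hB0 _
  have hKρ : 1 ≤ K * ρ := by nlinarith
  calc K1 * m ^ 3 * (2 : ℝ) ^ (-(2 * (k : ℝ))) * (2 : ℝ) ^ ((13 / 4 : ℝ) * n) * ρ * w * (K2 * ρ) * B ^ (m - 3)
      = a * w * B ^ (m - 4) * (K1 * (ρ * ((K2 * ρ) * B))) := by rw [e3, ha]; ring
    _ ≤ a * w * B ^ (m - 4) * (K * ((K * ρ) * ((K * ρ) * (K * ρ)))) := by
        have q1 : K1 ≤ K := by linarith
        have q2 : ρ ≤ K * ρ := by nlinarith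
        have q3 : K2 * ρ ≤ K * ρ := mul_le_mul_of_nonneg_right (by linarith) (by linarith)
        gcongr
    _ ≤ a * w * B ^ (m - 4) * (K * (K * ρ) ^ 4) := by
        have q4 : (K * ρ) * ((K * ρ) * (K * ρ)) = (K * ρ) ^ 3 := by ring
        rw [q4]
        have q5 : (K * ρ) ^ 3 ≤ (K * ρ) ^ 4 := pow_le_pow_right₀ hKρ (by norm_num)
        gcongr
    _ = K * m ^ 3 * (2 : ℝ) ^ (-(2 * (k : ℝ))) * (2 : ℝ) ^ ((13 / 4 : ℝ) * n) * (K * ρ) ^ 4 * w * B ^ (m - 4) := by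
        rw [ha]
        ring

open Classical in
/-- at most one good leaf: no closing -/
theorem sel_bad : ∃ K c : ℝ, 1 ≤ K ∧ 0 < c ∧ ∀ (m L k n : ℕ) (W : Set (List Bool)) (w : ℝ), 3 ≤ m → k ≤ L →
    3 ≤ n → 2 * n ≤ k → 0 ≤ w →
    Nrm (2 ^ (k + 4)) (2 ^ (L + 2)) k (fun g => if g ∈ W then 1 else 0) (ENNReal.ofReal w) →
    WS {gs | gs ∈ CC m L k ∧ ¬ Gd k n gs ∧ ∃ (j : ℕ) (hj : j < gs.length), gs[j] ∈ W} ≤
    ENNReal.ofReal (K * m ^ 3 * Ub L * (K * 2 ^ (L + 2 - k)) ^ 3 * w *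
      (K * 2 ^ (L + 2 - k) * (2 : ℝ) ^ (-(c * (n : ℝ)))) ^ (m - 3)) := by
  obtain ⟨C, δ, h⟩ := inp_exists
  obtain ⟨K1, hK1, h1⟩ := open_sum h
  obtain ⟨K2, hK2, h2⟩ := nrm_one h
  obtain ⟨K3, c, hK3, hc, h3⟩ := nrm_bet h
  obtain ⟨K, hK⟩ : ∃ K, K = 4 * K1 + K2 + 2 * K3 := ⟨_, rfl⟩
  refine ⟨K, c, by linarith, hc, fun m L k n W w hm hk hn hnk hw nW => ?_⟩
  have hKone : 1 ≤ K := by linarith
  obtain ⟨ρ, hρd⟩ : ∃ ρ : ℝ, ρ = 2 ^ (L + 2 - k) := ⟨_, rfl⟩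
  rw [← hρd]
  have hρ : 1 ≤ ρ := by rw [hρd]; exact one_le_pow₀ (by norm_num)
  have hU : UU (2 ^ (L + 2)) ≤ ρ * Ub k := by rw [hρd]; exact UU_box hk
  have n1 := h2 (2 ^ (k + 4)) (2 ^ (L + 2)) k ρ le_rfl hρ hU
  obtain ⟨B, hBd⟩ : ∃ B : ℝ, B = K * ρ * (2 : ℝ) ^ (-(c * (n : ℝ))) := ⟨_, rfl⟩
  rw [← hBd]
  have hB0 : 0 ≤ B := by rw [hBd]; positivity
  have hmain := h1 m (2 ^ (k + 4)) (2 ^ (L + 2)) k w (K2 * ρ) B W (fun g => 2 * bet k (k - n) (k - 2 * n) g)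
    (fun g => decide (1 / 2 ≤ gam k (k - n) (k - 2 * n) g))
    {gs | gs ∈ CC m L k ∧ ¬ Gd k n gs ∧ ∃ (j : ℕ) (hj : j < gs.length), gs[j] ∈ W} hm le_rfl hw (by positivity) hB0 nW n1
    ?_ ?_ (fun gs hgs => CC_sub hgs.1) ?_
  · refine hmain.trans (ENNReal.ofReal_le_ofReal ?_)
    have hUN := UU_box4 L
    have hUN0 := TH7.UU_nonneg (2 ^ (L + 2))
    have hUL := Ub_pos L
    have hBm : 0 ≤ B ^ (m - 3) := pow_nonneg hB0 _
    have hKρ : 1 ≤ K * ρ := by nlinarith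
    calc K1 * m ^ 3 * UU (2 ^ (L + 2)) * w * (K2 * ρ) * B ^ (m - 3)
        = ((m : ℝ) ^ 3 * w * B ^ (m - 3)) * (K1 * UU (2 ^ (L + 2)) * (K2 * ρ)) := by ring
      _ ≤ ((m : ℝ) ^ 3 * w * B ^ (m - 3)) * (K1 * (4 * Ub L) * (K * ρ)) := by
          have q1 : K2 * ρ ≤ K * ρ := mul_le_mul_of_nonneg_right (by linarith) (by linarith)
          gcongr
      _ ≤ ((m : ℝ) ^ 3 * w * B ^ (m - 3)) * (K * Ub L * (K * ρ) ^ 3) := by
          have q2 : (K * ρ) ^ 1 ≤ (K * ρ) ^ 3 := pow_le_pow_right₀ hKρ (by norm_num)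
          rw [pow_one] at q2
          have q3 : K1 * (4 * Ub L) ≤ K * Ub L := by nlinarith
          have q4 : 0 ≤ K * Ub L := by positivity
          gcongr
      _ = K * m ^ 3 * Ub L * (K * ρ) ^ 3 * w * B ^ (m - 3) := by ring
  · have n2 := (h3 (2 ^ (k + 4)) (2 ^ (L + 2)) k n ρ le_rfl hρ hU hn hnk).smul 2
    refine n2.mono (fun _ => le_rfl) ?_
    have e1 : (2 : ℝ≥0∞) = ENNReal.ofReal 2 := by norm_num
    rw [e1, ← ENNReal.ofReal_mul (by norm_num)]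
    refine ENNReal.ofReal_le_ofReal ?_
    rw [hBd]
    have h6 : (0 : ℝ) < (2 : ℝ) ^ (-(c * (n : ℝ))) := Real.rpow_pos_of_pos (by norm_num) _
    calc 2 * (K3 * ρ * (2 : ℝ) ^ (-(c * (n : ℝ)))) = (2 * K3) * ρ * (2 : ℝ) ^ (-(c * (n : ℝ))) := by ring
      _ ≤ K * ρ * (2 : ℝ) ^ (-(c * (n : ℝ))) := by
          gcongr
          linarith
  · intro g hg
    exact one_le_two_bet (by simpa using hg)
  · rintro gs ⟨_, h5, h6⟩
    refine ⟨?_, h6⟩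
    unfold Gd at h5
    omega

open Classical in
/-- no condition -/
theorem sel_all : ∃ K : ℝ, 1 ≤ K ∧ ∀ (m L k : ℕ) (W : Set (List Bool)) (w : ℝ), 2 ≤ m → k ≤ L → 0 ≤ w →
    Nrm (2 ^ (k + 4)) (2 ^ (L + 2)) k (fun g => if g ∈ W then 1 else 0) (ENNReal.ofReal w) →
    WS {gs | gs ∈ CC m L k ∧ ∃ (j : ℕ) (hj : j < gs.length), gs[j] ∈ W} ≤
    ENNReal.ofReal (K * m * Ub L * w * (K * 2 ^ (L + 2 - k)) ^ m) := by
  obtain ⟨C, δ, h⟩ := inp_exists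
  obtain ⟨K1, hK1, h1⟩ := open_two h
  obtain ⟨K2, hK2, h2⟩ := nrm_one h
  obtain ⟨K, hK⟩ : ∃ K, K = 4 * K1 + K2 := ⟨_, rfl⟩
  refine ⟨K, by linarith, fun m L k W w hm hk hw nW => ?_⟩
  have hKone : 1 ≤ K := by linarith
  obtain ⟨ρ, hρd⟩ : ∃ ρ : ℝ, ρ = 2 ^ (L + 2 - k) := ⟨_, rfl⟩
  rw [← hρd]
  have hρ : 1 ≤ ρ := by rw [hρd]; exact one_le_pow₀ (by norm_num)
  have hU : UU (2 ^ (L + 2)) ≤ ρ * Ub k := by rw [hρd]; exact UU_box hk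
  have n1 := h2 (2 ^ (k + 4)) (2 ^ (L + 2)) k ρ le_rfl hρ hU
  have hmain := h1 m (2 ^ (k + 4)) (2 ^ (L + 2)) k w (K2 * ρ) W
    {gs | gs ∈ CC m L k ∧ ∃ (j : ℕ) (hj : j < gs.length), gs[j] ∈ W} hm le_rfl hw (by positivity) nW n1
    (fun gs hgs => CC_sub hgs.1) (fun gs hgs => hgs.2)
  refine hmain.trans (ENNReal.ofReal_le_ofReal ?_)
  have hUN := UU_box4 L
  have hUN0 := TH7.UU_nonneg (2 ^ (L + 2))
  have hUL := Ub_pos L
  have hKρ : 1 ≤ K * ρ := by nlinarith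
  have q1 : (K2 * ρ) ^ (m - 2) ≤ (K * ρ) ^ m := by
    calc (K2 * ρ) ^ (m - 2) ≤ (K * ρ) ^ (m - 2) := by
          refine pow_le_pow_left₀ (by positivity) (mul_le_mul_of_nonneg_right (by linarith) (by linarith)) _
      _ ≤ (K * ρ) ^ m := pow_le_pow_right₀ hKρ (by omega)
  have q3 : K1 * UU (2 ^ (L + 2)) ≤ K * Ub L := by nlinarith
  calc K1 * m * UU (2 ^ (L + 2)) * w * (K2 * ρ) ^ (m - 2)
      = (m : ℝ) * w * (K1 * UU (2 ^ (L + 2))) * (K2 * ρ) ^ (m - 2) := by ring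
    _ ≤ (m : ℝ) * w * (K * Ub L) * (K * ρ) ^ m := by
        have : 0 ≤ K * Ub L := by positivity
        gcongr
    _ = K * m * Ub L * w * (K * ρ) ^ m := by ring

end PLD

end HexObs
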