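import Pool.Agent.PLD.SelG
import Pool.Agent.PLD.FinDefs

/-!
PLD (E1'), [F1b]: the three bounds in the form of FinDefs.
-/

set_option autoImplicit false

namespace HexObs

namespace PLD

open Finset TS SDN

open scoped ENNReal

private lemma pw_le {c c' x : ℝ} (h : c ≤ c') (hx : 0 ≤ x) : (2 : ℝ) ^ (-(c' * x)) ≤ (2 : ℝ) ^ (-(c * x)) :=
  Real.rpow_le_rpow_of_exponent_le (by norm_num) (neg_le_neg (mul_le_mul_of_nonneg_right h hx))

private lemma W1_ex {W : Set (List Bool)} {gs : List (List Bool)} (h : W1 W gs) :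
    ∃ (j : ℕ) (hj : j < gs.length), gs[j] ∈ W := by
  obtain ⟨j, hj, h1⟩ := h
  refine ⟨j, hj, ?_⟩
  rwa [List.getD_eq_getElem _ _ hj] at h1

/-- the inputs of the final part -/
theorem sel_exists : ∃ K c : ℝ, Sel K c := by
  obtain ⟨K1, c1, hK1, hc1, h1⟩ := sel
  obtain ⟨K2, c2, hK2, hc2, h2⟩ := sel_bad
  obtain ⟨K3, hK3, h3⟩ := sel_all
  refine ⟨K1 + K2 + K3, min c1 c2, by linarith, lt_min hc1 hc2, ?_, ?_, ?_⟩
  · intro m L k n W w _ hm hk hn hnk hw hW
    have h4 := h1 m L k n W w hm hk hn hnk hw hW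
    refine le_trans ?_ (h4.trans (ENNReal.ofReal_le_ofReal ?_))
    · unfold WS
      refine ENNReal.tsum_mono_subtype (fun gs => SDN.wl gs) ?_
      rintro gs ⟨g1, g2, g3, i, j, hij, hi, hj, g4, g5⟩
      refine ⟨g1, g2, g3, i, j, hi, hj, hij, ?_, ?_⟩
      · rwa [List.getD_eq_getElem _ _ hi] at g4
      · rwa [List.getD_eq_getElem _ _ hj] at g5
    · have e1 : (if n = 3 then K1 * 2 ^ (L + 2 - k) else K1 * 2 ^ (L + 2 - k) * (2 : ℝ) ^ (-(c1 * ((n : ℝ) - 1)))) ≤
          (K1 + K2 + K3) * 2 ^ (L + 2 - k) * (if n = 3 then 1 else (2 : ℝ) ^ (-(min c1 c2 * ((n : ℝ) - 1)))) := by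
        split_ifs
        · rw [mul_one]
          exact mul_le_mul_of_nonneg_right (by linarith) (by positivity)
        · have hn1 : (0 : ℝ) ≤ (n : ℝ) - 1 := by
            have : (1 : ℝ) ≤ n := by exact_mod_cast (by omega : 1 ≤ n)
            linarith
          refine mul_le_mul (mul_le_mul_of_nonneg_right (by linarith) (by positivity)) (pw_le (min_le_left _ _) hn1)
            (by positivity) (by positivity)
      have e0 : 0 ≤ (if n = 3 then K1 * 2 ^ (L + 2 - k) else K1 * 2 ^ (L + 2 - k) *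
          (2 : ℝ) ^ (-(c1 * ((n : ℝ) - 1)))) := by
        split_ifs <;> positivity
      have e2 := pow_le_pow_left₀ e0 e1 (m - 4)
      have e3 : (K1 * 2 ^ (L + 2 - k)) ^ 4 ≤ ((K1 + K2 + K3) * 2 ^ (L + 2 - k)) ^ 4 :=
        pow_le_pow_left₀ (by positivity) (mul_le_mul_of_nonneg_right (by linarith) (by positivity)) 4
      have e4 : K1 ≤ K1 + K2 + K3 := by linarith
      gcongr
  · intro m L k n W w _ hm hk hn hnk hw hW
    have h4 := h2 m L k n W w (by omega) hk hn hnk hw hW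
    refine le_trans ?_ (h4.trans (ENNReal.ofReal_le_ofReal ?_))
    · unfold WS
      refine ENNReal.tsum_mono_subtype (fun gs => SDN.wl gs) ?_
      rintro gs ⟨g1, g2, g3⟩
      exact ⟨g1, g2, W1_ex g3⟩
    · have e1 : K2 * 2 ^ (L + 2 - k) * (2 : ℝ) ^ (-(c2 * (n : ℝ))) ≤
          (K1 + K2 + K3) * 2 ^ (L + 2 - k) * (2 : ℝ) ^ (-(min c1 c2 * (n : ℝ))) := by
        refine mul_le_mul (mul_le_mul_of_nonneg_right (by linarith) (by positivity))
          (pw_le (min_le_right _ _) (Nat.cast_nonneg _)) (by positivity) (by positivity)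
      have e2 := pow_le_pow_left₀ (by positivity) e1 (m - 3)
      have e3 : (K2 * 2 ^ (L + 2 - k)) ^ 3 ≤ ((K1 + K2 + K3) * 2 ^ (L + 2 - k)) ^ 3 :=
        pow_le_pow_left₀ (by positivity) (mul_le_mul_of_nonneg_right (by linarith) (by positivity)) 3
      have e4 : K2 ≤ K1 + K2 + K3 := by linarith
      have e5 := (Ub_pos L).le
      gcongr
  · intro m L k W w _ hm hk hw hW
    have h4 := h3 m L k W w hm hk hw hW
    refine le_trans ?_ (h4.trans (ENNReal.ofReal_le_ofReal ?_))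
    · unfold WS
      refine ENNReal.tsum_mono_subtype (fun gs => SDN.wl gs) ?_
      rintro gs ⟨g1, g3⟩
      exact ⟨g1, W1_ex g3⟩
    · have e3 : (K3 * 2 ^ (L + 2 - k)) ^ m ≤ ((K1 + K2 + K3) * 2 ^ (L + 2 - k)) ^ m :=
        pow_le_pow_left₀ (by positivity) (mul_le_mul_of_nonneg_right (by linarith) (by positivity)) m
      have e4 : K3 ≤ K1 + K2 + K3 := by linarith
      have e5 := (Ub_pos L).le
      gcongr

end PLD

end HexObs
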