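import Pool.Agent.PLD.Defs
import Pool.Agent.SDN.ZigZag

/-!
PLD: the split of a leaf at its largest drawdown (a bridge A with the largest backtrack d rows is folded of three bridges
of height at least d with backtracks at most d rows).
-/

set_option autoImplicit false

namespace HexObs

namespace PLD

open Finset TS SDN SDN.ZZ

/-- the pair of the largest drawdown, the fold p is the last highest vertex before q, the fold q is the last lowest
vertex behind p -/
lemma exists_drawdown (f : ℕ → ℤ) (n : ℕ) : ∃ p q, p ≤ q ∧ q ≤ n ∧ (∀ i i', i ≤ i' → i' ≤ n → f i - f i' ≤ f p - f q) ∧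
    (∀ k, k ≤ q → f k ≤ f p) ∧ (∀ k, p < k → k ≤ q → f k < f p) ∧ (∀ k, p ≤ k → k ≤ n → f q ≤ f k) ∧
    ∀ k, q < k → k ≤ n → f q < f k := by
  obtain ⟨⟨a, b⟩, hab, hmax⟩ := Finset.exists_max_image
    (((range (n + 1)) ×ˢ (range (n + 1))).filter fun x => x.1 ≤ x.2) (fun x => f x.1 - f x.2)
    ⟨(0, 0), by rw [Finset.mem_filter, Finset.mem_product, Finset.mem_range]; exact ⟨⟨Nat.succ_pos n, Nat.succ_pos n⟩, le_rfl⟩⟩
  rw [Finset.mem_filter, Finset.mem_product, Finset.mem_range, Finset.mem_range] at hab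
  obtain ⟨⟨a1, a2⟩, a3⟩ := hab
  simp only at a1 a2 a3
  have hM : ∀ i i', i ≤ i' → i' ≤ n → f i - f i' ≤ f a - f b := by
    intro i i' h1 h2
    refine hmax (i, i') ?_
    rw [Finset.mem_filter, Finset.mem_product, Finset.mem_range, Finset.mem_range]
    refine ⟨⟨?_, ?_⟩, h1⟩
    · show i < n + 1
      omega
    · show i' < n + 1
      omega
  obtain ⟨q, q1, q2, q3, q4⟩ := exists_last_max (fun k => -f k) (a := a) (n := n) (by omega)
  obtain ⟨p, -, p2, p3, p4⟩ := exists_last_max f (Nat.zero_le q)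
  have e1 : f q ≤ f b := by
    have := q3 b a3 (by omega)
    omega
  have e2 : f a ≤ f p := p3 a (Nat.zero_le _) q1
  have e3 := hM p q p2 q2
  have hap : a ≤ p := by
    by_contra hcon
    have := p4 a (by omega) q1
    omega
  refine ⟨p, q, p2, q2, fun i i' h1 h2 => ?_, fun k hk => p3 k (Nat.zero_le _) hk, p4, fun k h1 h2 => ?_, fun k h1 h2 => ?_⟩
  · have := hM i i' h1 h2
    omega
  · have := q3 k (by omega) h2
    omega
  · have := q4 k h1 h2
    omega

/-- the split of a bridge at its largest drawdown -/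
theorem split_leaf {h d0 : ℕ} {g : List Bool} (hg : g ∈ Brd h) (hd0 : ¬ Drw d0 g) :
    ∃ (d u w : ℕ) (f1 f2 f3 : List Bool), d0 < d ∧ Drw d g ∧ (∀ d1, Drw d1 g → d ≤ d1) ∧ f1 ∈ Brd u ∧ f2 ∈ Brd d ∧ f3 ∈ Brd w ∧ d < u ∧ d ≤ w ∧
      u + w = h + d ∧ Drw d f1 ∧ Drw d f2 ∧ Drw d f3 ∧ unf [f1, f2, f3] = g ∧ LFold f1 f2 ∧ LFold f2 f3 := by
  obtain ⟨t1, t2, t3, t4⟩ := mem_Brd.1 hg
  have hSA : g ∈ SA := ⟨fun _ _ _ => Set.mem_univ _, t2⟩
  obtain ⟨p, q, pq, qn, hM, p3, p4, q3, q4⟩ := exists_drawdown (lev g) g.length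
  have hs : 3 * (d0 : ℤ) + 1 < lev g p - lev g q := by
    unfold Drw at hd0
    push Not at hd0
    obtain ⟨i, i', i1, i2, i3⟩ := hd0
    have := hM i i' i1 i2
    omega
  have hs0 : (0 : ℤ) ≤ d0 := by positivity
  have hpq : p < q := by
    rcases Nat.lt_or_ge p q with h' | h'
    · exact h'
    · exfalso
      have : p = q := by omega
      rw [this] at hs
      omega
  have p7 : 1 ≤ p := by
    by_contra hcon
    have h0 : p = 0 := by omega
    have h1 := (t1 q (by omega) qn).1
    rw [h0, lev_zero] at hs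
    omega
  -- the last vertex but one
  have hq2 : q + 2 ≤ g.length := by
    have hn : 1 ≤ g.length := by omega
    have h1 := pre_foot (t := g) (i := g.length - 1) (by rw [show g.length - 1 + 1 = g.length by omega]; exact t3)
    rw [show g.length - 1 + 1 = g.length by omega, t4] at h1
    have h2 := (lev_range hg (i := p) (by omega)).2.1
    by_contra hcon
    rcases Nat.lt_or_ge q g.length with h' | h'
    · have : q = g.length - 1 := by omega
      rw [this] at hs
      omega
    · have : q = g.length := by omega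
      rw [this, t4] at hs
      omega
  obtain ⟨e, rfl⟩ : ∃ e, p = e + 1 := ⟨p - 1, by omega⟩
  obtain ⟨a, rfl⟩ : ∃ a, q = a + 1 := ⟨q - 1, by omega⟩
  -- the third leaf
  obtain ⟨w, w1, w2, w3, w4⟩ := last_leaf' hg (a := a) (by omega) (q3 a (by omega) (by omega)) q4
  have hx : ∀ l, xD (-up) g l = -lev g l := by
    intro l
    unfold xD lev
    rw [ip_neg_right]
  have hst : lev g (e + 1) ≤ lev g (e + 2) + 2 := by
    have := xD_step_le (D := -up) (dirs_neg upd) g (e + 1)
    rw [hx, hx] at this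
    have h3 : lev g (e + 1 + 1) = lev g (e + 2) := rfl
    rw [h3] at this
    omega
  have hp2 : e + 2 < a + 1 := by
    have hmod := lev_mod g (e + 1)
    rcases Nat.lt_or_ge (e + 2) (a + 1) with h' | h'
    · exact h'
    · exfalso
      have h2 : a + 1 = e + 2 := by omega
      rw [h2] at hs w2
      split_ifs at hmod <;> omega
  -- the first leaf
  obtain ⟨c, M, hM1, hMM, hsplit, hB, hlen, hvx, hvq, -, -, hH⟩ := fold_step (q := g) (e := e + 1) (by omega) (by omega)
    t2 (fun j j1 j2 => ⟨(lev_range hg (by omega)).2.2 j1, p3 j (by omega)⟩)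
    (p4 (e + 1 + 1) (by omega) (by omega)) (p4 (e + 1 + 2) (by omega) (by omega))
  have hlG : lst (g.take (e + 1 - 1) ++ [!c]) = !c := lst_append _ _
  have hgap : lev g (a + 1) + 4 ≤ lev g (e + 1) := by
    rw [hMM] at hs ⊢
    omega
  -- the second leaf
  obtain ⟨c', d, r1, r2, r3, r4, r5, r6, r7, r8, r9, r10, r11, r12⟩ := leaf_core (D := -up) (dirs_neg upd) hSA (e := e)
    (e' := a + 1) (by omega) (by omega)
    (by
      rw [hx, hx]
      have := p3 e (by omega)
      omega)
    (fun k k1 k2 => by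
      rw [hx, hx, hx]
      have h1 := p4 k k1 k2
      have h2 := q3 k (by omega) (by omega)
      constructor <;> omega)
    (by
      rw [hx, hx]
      omega)
    (by
      rw [hx, hx]
      have := q4 (a + 1 + 1) (by omega) (by omega)
      omega)
    (by
      rw [hx, hx]
      have := q4 (a + 1 + 2) (by omega) (by omega)
      omega)
  obtain ⟨D, hD⟩ : ∃ D, D = lw g (e + 1) (a + 1) := ⟨_, rfl⟩
  rw [← hD] at r6 r7 r9 r10 r11 r12
  rw [hx, hx] at r5
  have hMh : (M : ℤ) ≤ h := by
    have := (lev_range hg (i := e + 1) (by omega)).2.1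
    omega
  have hq0 : 0 < lev g (a + 1) := (t1 (a + 1) (by omega) qn).1
  refine ⟨d, M, w, g.take (e + 1 - 1) ++ [!c], D, g.drop (a + 2), by omega, ?_, ?_, hB, r6, w1, by omega, by omega,
    by omega, ?_, ?_, ?_, ?_, ?_, ?_⟩
  · intro i i' i1 i2
    have := hM i i' i1 i2
    omega
  · intro d1 h1
    have := h1 (e + 1) (a + 1) pq qn
    omega
  · intro i i' i1 i2
    rw [hlen] at i2
    have h1 : ∀ j, j ≤ e + 1 → lev (g.take (e + 1 - 1) ++ [!c]) j = lev g j := by
      intro j hj
      unfold lev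
      rw [hvx j hj]
    rw [h1 i (by omega), h1 i' i2]
    have := hM i i' i1 (by omega)
    omega
  · intro i i' i1 i2
    have h1 := (lev_range r6 (i := i) (by omega)).2.1
    have h2 := (lev_range r6 (i := i') i2).1
    omega
  · intro i i' i1 i2
    rw [w4, w4]
    rw [List.length_drop] at i2
    have := hM (a + 2 + i) (a + 2 + i') (by omega) (by omega)
    omega
  · have hsp : g.drop (e + 1 + 1) = D.dropLast ++ (!lst D) :: (!lst D) :: g.drop (a + 1 + 1) := by
      have hl : (g.take (e + 2)).length = e + 2 := by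
        rw [List.length_take]
        omega
      conv_lhs => rw [r10]
      rw [List.drop_append_of_le_length (by omega), List.drop_of_length_le (by omega), List.nil_append]
    show (g.take (e + 1 - 1) ++ [!c]).dropLast ++ (!lst (g.take (e + 1 - 1) ++ [!c])) ::
      (!lst (g.take (e + 1 - 1) ++ [!c])) :: (D.dropLast ++ (!lst D) :: (!lst D) :: g.drop (a + 2)) = g
    rw [hlG, Bool.not_not, List.dropLast_concat, ← hsp, ← hsplit]
  · show Hang _ (lst _) D
    rw [hlG]
    apply hH
    intro k hk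
    refine ⟨by omega, ?_⟩
    rw [r9 k hk, ← hvq]
  · exact r12 _ fun k hk => by
      rw [List.length_drop] at hk
      exact ⟨by omega, rfl⟩

end PLD

end HexObs
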