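import Pool.Agent.PLD.NoAlt

/-!
PLD: every closed word has a rotation that is a cyclic chain of two leaves.
-/

set_option autoImplicit false

namespace HexObs

namespace PLD

open Finset TS SDN

lemma last_of {P : ℕ → Prop} {n i0 : ℕ} (hi : i0 ≤ n) (h : P i0) :
    ∃ i, i0 ≤ i ∧ i ≤ n ∧ P i ∧ ∀ k, i < k → k ≤ n → ¬ P k := by
  classical
  have hne : ((range (n + 1)).filter P).Nonempty := ⟨i0, by simp [h]; omega⟩
  refine ⟨((range (n + 1)).filter P).max' hne, ?_, ?_, ?_, ?_⟩
  · exact Finset.le_max' _ _ (by simp [h]; omega)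
  · have := Finset.max'_mem _ hne
    rw [Finset.mem_filter, Finset.mem_range] at this
    omega
  · have := Finset.max'_mem _ hne
    rw [Finset.mem_filter] at this
    exact this.2
  · intro k hk1 hk2 hk3
    have := Finset.le_max' ((range (n + 1)).filter P) k (by simp [hk3]; omega)
    omega

lemma first_of {P : ℕ → Prop} {i0 : ℕ} (h : P i0) : ∃ i, i ≤ i0 ∧ P i ∧ ∀ k, k < i → ¬ P k := by
  classical
  exact ⟨Nat.find ⟨i0, h⟩, Nat.find_min' _ h, Nat.find_spec ⟨i0, h⟩, fun k hk => Nat.find_min _ hk⟩

lemma turn_up (b : Bool) : turn b (-up) ≠ up := by cases b <;> decide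

/-- no way back on the same edge -/
lemma no_back (w : List Bool) {i : ℕ} (h : dx up w i = -up) : dx up w (i + 1) ≠ up := by
  rw [dx_succ, h]
  exact turn_up _

lemma lev_odd {w : List Bool} {i : ℕ} (h : ¬ Even i) : (3 : ℤ) ∣ lev w i - 2 := by
  have := lev_mod w i
  rwa [if_neg h] at this

lemma lev_even {w : List Bool} {i : ℕ} (h : Even i) : (3 : ℤ) ∣ lev w i := by
  have := lev_mod w i
  rwa [if_pos h, sub_zero] at this

lemma lev_len {w : List Bool} (hw : w ∈ Cw) : lev w w.length = 0 := by
  unfold lev
  rw [hw.2.1]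
  decide

/-- the steps of the levels -/
lemma step_e (w : List Bool) {i : ℕ} (hi : Even i) :
    (dx up w i = up ∧ lev w (i + 1) = lev w i + 2) ∨ lev w (i + 1) = lev w i - 1 := by
  have h := lev_succ w i
  rcases step_even upd w hi with ⟨h1, h2⟩ | ⟨_, h2⟩ | ⟨_, h2⟩
  · left
    exact ⟨h1, by omega⟩
  · right
    omega
  · right
    omega

lemma step_o (w : List Bool) {i : ℕ} (hi : ¬ Even i) :
    (dx up w i = -up ∧ lev w (i + 1) = lev w i - 2) ∨ lev w (i + 1) = lev w i + 1 := by
  have h := lev_succ w i
  rcases step_odd upd w hi with ⟨h1, h2⟩ | ⟨_, h2⟩ | ⟨_, h2⟩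
  · left
    exact ⟨h1, by omega⟩
  · right
    omega
  · right
    omega

/-- behind a lowest vertex the walk goes up, unless it stays on the lowest row -/
lemma bottom_exit {w : List Bool} (hw : w ∈ Cw) {m : ℤ} (hm : ∀ i, i ≤ w.length → m ≤ lev w i) (hm0 : m < 0) {j : ℕ}
    (hj : j < w.length) (e : lev w j = m) (hn : j + 2 ≤ w.length → lev w (j + 2) ≠ m) :
    lev w (j + 1) = m + 1 ∧ dx up w (j + 1) = up := by
  have hodd : ¬ Even j := by
    intro hev
    have hj1 : 1 ≤ j := by
      by_contra h
      have : j = 0 := by omega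
      rw [this, lev_zero] at e
      omega
    have h1 : dx up w j = up := by
      rcases step_e w hev with ⟨h, _⟩ | h
      · exact h
      · have := hm (j + 1) (by omega)
        omega
    obtain ⟨l, rfl⟩ : ∃ l, j = l + 1 := ⟨j - 1, by omega⟩
    have hl : ¬ Even l := by
      rw [Nat.even_add_one] at hev
      exact hev
    rcases step_o w hl with ⟨h2, _⟩ | h2
    · exact no_back w h2 h1
    · have := hm l (by omega)
      omega
  have h1 : lev w (j + 1) = m + 1 := by
    rcases step_o w hodd with ⟨_, h⟩ | h
    · have := hm (j + 1) (by omega)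
      omega
    · omega
  refine ⟨h1, ?_⟩
  rcases Nat.lt_or_ge (j + 1) w.length with h2 | h2
  · have hev : Even (j + 1) := by
      rw [Nat.even_add_one]
      exact hodd
    rcases step_e w hev with ⟨h, _⟩ | h
    · exact h
    · exfalso
      refine hn (by omega) ?_
      rw [show j + 2 = j + 1 + 1 from rfl]
      omega
  · rw [show j + 1 = w.length by omega]
    exact hw.2.2.1

lemma pos_of {w : List Bool} {e : ℕ} (he : e ≤ w.length) (hm : ∀ i, i ≤ w.length → -1 ≤ lev w i)
    (h1 : ∀ i, 1 ≤ i → i ≤ e → lev w i ≠ -1) (h2 : 0 < lev w e) {i : ℕ} (i1 : 1 ≤ i) (i2 : i ≤ e) : 0 < lev w i := by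
  by_contra hcon
  have h3 := hm i (by omega)
  have h4 := h1 i i1 i2
  have h0 : lev w i = 0 := by omega
  have hie : i < e := by
    rcases Nat.lt_or_ge i e with h | h
    · exact h
    · rw [show i = e by omega] at h0
      omega
  have hev : Even i := by
    by_contra h
    have := lev_odd (w := w) h
    omega
  have h5 : dx up w i = up := by
    rcases step_e w hev with ⟨h, _⟩ | h
    · exact h
    · exact absurd (by omega) (h1 (i + 1) (by omega) (by omega))
  obtain ⟨l, rfl⟩ : ∃ l, i = l + 1 := ⟨i - 1, by omega⟩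
  have hl : ¬ Even l := by
    rw [Nat.even_add_one] at hev
    exact hev
  have hl1 : 1 ≤ l := by
    by_contra h
    have : l = 0 := by omega
    rw [this] at hl
    exact hl (by decide)
  rcases step_o w hl with ⟨h6, _⟩ | h6
  · exact no_back w h6 h5
  · exact absurd (by omega) (h1 l hl1 (by omega))

/-- levels of the rotated word -/
lemma rot_lev {z : List Bool} (hz : z ∈ Cw) {r : ℕ} (hr : r ≤ z.length) (hd : dx up z r = up) {i : ℕ}
    (hi : i ≤ z.length) :
    lev (z.rotate r) i = (if r + i ≤ z.length then lev z (r + i) else lev z (r + i - z.length)) - lev z r := by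
  have hd' : pd z r = up := by
    rw [← dx_eq_pd hr]
    exact hd
  have h1 := pv_shift hz.1 hd' i
  have h2 : vx oo up (z.rotate r) i = pv (z.rotate r) i := vx_eq_pv (by rw [List.length_rotate]; exact hi)
  have h3 : pv z (r + i) = if r + i ≤ z.length then vx oo up z (r + i) else vx oo up z (r + i - z.length) := by
    split_ifs with h
    · exact (vx_eq_pv h).symm
    · rw [vx_eq_pv (by omega), ← pv_add_len hz (r + i - z.length)]
      congr 1
      omega
  have h4 : pv (z.rotate r) i = pv z (r + i) - pv z r := by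
    rw [h1]
    abel
  unfold lev
  rw [h2, h4, h3, ip_sub_left, ← vx_eq_pv hr]
  split_ifs <;> rfl

/-- the same for a rotation at an edge that goes down -/
lemma rot_levN {z : List Bool} (hz : z ∈ Cw) {r : ℕ} (hr : r ≤ z.length) (hd : dx up z r = -up) {i : ℕ}
    (hi : i ≤ z.length) :
    lev (z.rotate r) i = lev z r - (if r + i ≤ z.length then lev z (r + i) else lev z (r + i - z.length)) := by
  have hd' : pd z r = -up := by
    rw [← dx_eq_pd hr]
    exact hd
  have h1 := pv_shiftN hz.1 hd' i
  have h2 : vx oo up (z.rotate r) i = pv (z.rotate r) i := vx_eq_pv (by rw [List.length_rotate]; exact hi)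
  have h3 : pv z (r + i) = if r + i ≤ z.length then vx oo up z (r + i) else vx oo up z (r + i - z.length) := by
    split_ifs with h
    · exact (vx_eq_pv h).symm
    · rw [vx_eq_pv (by omega), ← pv_add_len hz (r + i - z.length)]
      congr 1
      omega
  have h4 : pv (z.rotate r) i = pv z r - pv z (r + i) := by
    rw [h1]
    abel
  unfold lev
  rw [h2, h4, h3, ip_sub_left, ← vx_eq_pv hr]
  split_ifs <;> rfl

/-- rotation of a rotation -/
lemma rot_rot {z : List Bool} (hz : z ∈ Cw) {r s : ℕ} (hr : r ≤ z.length) (hd : dx up z r = up) (hs : s ≤ z.length)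
    (hd2 : dx up (z.rotate r) s = up) : ∃ t, t ≤ z.length ∧ dx up z t = up ∧ (z.rotate r).rotate s = z.rotate t := by
  have h0 : 0 < z.length := List.length_pos_iff.2 hz.1
  have hd' : pd z r = up := by
    rw [← dx_eq_pd hr]
    exact hd
  refine ⟨(r + s) % z.length, (Nat.mod_lt _ h0).le, ?_, ?_⟩
  · rw [dx_eq_pd (Nat.mod_lt _ h0).le]
    have h1 : pd z (r + s) = up := by
      rw [pd_shift hz.1 hd' s, ← dx_eq_pd (by rw [List.length_rotate]; exact hs)]
      exact hd2
    have h2 : ∀ k j, pd z (z.length * k + j) = pd z j := by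
      intro k j
      induction k with
      | zero => rw [Nat.mul_zero, Nat.zero_add]
      | succ k ih => rw [Nat.mul_succ, Nat.add_comm (z.length * k) z.length, Nat.add_assoc, pd_add_len hz, ih]
    rw [← Nat.div_add_mod (r + s) z.length, h2] at h1
    exact h1
  · rw [List.rotate_rotate, List.rotate_mod]

/-! ### The root -/

/-- root behind a lowest vertex -/
lemma root_A {z : List Bool} (hz : z ∈ Cw) : ∃ r, r ≤ z.length ∧ dx up z r = up ∧
    lev (z.rotate r) (z.length - 1) = -1 ∧ ∀ i, i ≤ z.length → -1 ≤ lev (z.rotate r) i := by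
  have h0 : 0 < z.length := List.length_pos_iff.2 hz.1
  -- the number of letters is even
  have hev : Even z.length := by
    by_contra h
    have := lev_odd (w := z) h
    rw [lev_len hz] at this
    omega
  have hN2 : 2 ≤ z.length := by
    rcases hev with ⟨k, hk⟩
    omega
  have hodd : ¬ Even (z.length - 1) := by
    intro h
    rcases hev with ⟨k, hk⟩
    rcases h with ⟨l, hl⟩
    omega
  have hlast : lev z (z.length - 1) = -1 := by
    have hl := lev_len hz
    have e : z.length - 1 + 1 = z.length := by omega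
    rcases step_o z hodd with ⟨h, _⟩ | h
    · exfalso
      refine no_back z h ?_
      rw [e]
      exact hz.2.2.1
    · rw [e] at h
      omega
  obtain ⟨a0, ha0, hmin⟩ := Finset.exists_min_image (range z.length) (fun i => lev z i) ⟨0, by simpa using h0⟩
  rw [Finset.mem_range] at ha0
  obtain ⟨a, a1, a2, a3, a4⟩ := last_of (P := fun i => lev z i = lev z a0) (n := z.length - 1) (i0 := a0) (by omega) rfl
  obtain ⟨m, hm⟩ : ∃ m, m = lev z a0 := ⟨_, rfl⟩
  rw [← hm] at a3 a4 hmin
  have hm1 : m ≤ -1 := by
    have := hmin (z.length - 1) (by rw [Finset.mem_range]; omega)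
    omega
  have hmall : ∀ i, i ≤ z.length → m ≤ lev z i := by
    intro i hi
    rcases Nat.lt_or_ge i z.length with h | h
    · exact hmin i (by rwa [Finset.mem_range])
    · rw [show i = z.length by omega, lev_len hz]
      omega
  obtain ⟨b1, b2⟩ := bottom_exit hz hmall (by omega) (j := a) (by omega) a3 (fun h => by
    rcases Nat.lt_or_ge (a + 2) z.length with h1 | h1
    · exact a4 (a + 2) (by omega) (by omega)
    · rw [show a + 2 = z.length by omega, lev_len hz]
      omega)
  refine ⟨a + 1, by omega, b2, ?_, ?_⟩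
  · rw [rot_lev hz (by omega) b2 (by omega), b1]
    have hw : lev z (a + 1 + (z.length - 1) - z.length) = m := by
      rw [show a + 1 + (z.length - 1) - z.length = a by omega]
      exact a3
    split_ifs with h
    · have ha : a = 0 := by omega
      rw [show a + 1 + (z.length - 1) = z.length by omega, lev_len hz]
      rw [ha, lev_zero] at a3
      omega
    · rw [hw]
      ring
  · intro i hi
    rw [rot_lev hz (by omega) b2 hi, b1]
    split_ifs with h
    · have := hmall (a + 1 + i) h
      omega
    · have := hmall (a + 1 + i - z.length) (by omega)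
      omega

/-- root from which the walk climbs to the top before it comes back to the bottom -/
lemma root_B {z : List Bool} (hz : z ∈ Cw) : ∃ r, r ≤ z.length ∧ dx up z r = up ∧ ∃ w, w = z.rotate r ∧
    lev w (w.length - 1) = -1 ∧ (∀ i, i ≤ w.length → -1 ≤ lev w i) ∧ ∃ p H, p < w.length ∧ 0 < H ∧ lev w p = H ∧
      (∀ i, i ≤ w.length → lev w i ≤ H) ∧ ∀ i, 1 ≤ i → i ≤ p → lev w i ≠ -1 := by
  obtain ⟨r, hr, hd, hl, hm⟩ := root_A hz
  have hz1 := rotate_mem_Cw hz hr hd
  obtain ⟨z1, e1⟩ : ∃ z1, z1 = z.rotate r := ⟨_, rfl⟩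
  have hlen : z1.length = z.length := by rw [e1, List.length_rotate]
  rw [← e1] at hl hm hz1
  rw [← hlen] at hl hm
  have h0 : 0 < z1.length := List.length_pos_iff.2 hz1.1
  obtain ⟨b0, hb0, hmax⟩ := Finset.exists_max_image (range z1.length) (fun i => lev z1 i) ⟨0, by simpa using h0⟩
  rw [Finset.mem_range] at hb0
  obtain ⟨i1, c1, c2, c3⟩ := first_of (P := fun i => lev z1 i = lev z1 b0) (i0 := b0) rfl
  obtain ⟨H, hH⟩ : ∃ H, H = lev z1 b0 := ⟨_, rfl⟩
  rw [← hH] at c2 c3 hmax
  have hlev1 : lev z1 1 = 2 := by
    rw [lev_succ z1 0, lev_zero]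
    show 0 + ip up up = 2
    decide
  have hN1 : 1 < z1.length := by
    by_contra h
    have e : z1.length = 1 := by omega
    have h2 := lev_len hz1
    rw [e, hlev1] at h2
    omega
  have hH2 : 2 ≤ H := by
    have := hmax 1 (by rwa [Finset.mem_range])
    omega
  have hHall : ∀ i, i ≤ z1.length → lev z1 i ≤ H := by
    intro i hi
    rcases Nat.lt_or_ge i z1.length with h | h
    · exact hmax i (by rwa [Finset.mem_range])
    · rw [show i = z1.length by omega, lev_len hz1]
      omega
  by_cases hex : ∃ j, 1 ≤ j ∧ j ≤ i1 ∧ lev z1 j = -1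
  · obtain ⟨j', j1, j2, j3⟩ := hex
    obtain ⟨j, k1, k2, k3, k4⟩ := last_of (P := fun i => lev z1 i = -1) (n := i1) (i0 := j') j2 j3
    have hji : j < i1 := by
      rcases Nat.lt_or_ge j i1 with h | h
      · exact h
      · rw [show j = i1 by omega] at k3
        omega
    obtain ⟨d1, d2⟩ := bottom_exit hz1 hm (by norm_num) (j := j) (by omega) k3 (fun h => by
      rcases Nat.lt_or_ge i1 (j + 2) with h1 | h1
      · -- the top is the next vertex: impossible
        intro _
        have hj1 : j + 1 = i1 := by omega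
        have hev : ¬ Even j := by
          intro hev
          have := lev_even (w := z1) hev
          omega
        rcases step_o z1 hev with ⟨_, h2⟩ | h2
        · rw [hj1] at h2
          omega
        · rw [hj1] at h2
          omega
      · exact k4 (j + 2) (by omega) h1)
    have hsl : j + 1 ≤ z1.length := by omega
    obtain ⟨t, t1, t2, t3⟩ := rot_rot hz hr hd (s := j + 1) (by omega) (by rw [← e1]; exact d2)
    refine ⟨t, t1, t2, z1.rotate (j + 1), by rw [e1, t3], ?_, ?_, i1 - (j + 1), H, ?_, by omega, ?_, ?_, ?_⟩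
    · rw [List.length_rotate, rot_lev hz1 hsl d2 (by omega), d1]
      have h5 : ¬ j + 1 + (z1.length - 1) ≤ z1.length := by omega
      rw [if_neg h5, show j + 1 + (z1.length - 1) - z1.length = j by omega, k3]
      norm_num
    · intro i hi
      rw [List.length_rotate] at hi
      rw [rot_lev hz1 hsl d2 hi, d1]
      split_ifs with h
      · have := hm (j + 1 + i) h
        omega
      · have := hm (j + 1 + i - z1.length) (by omega)
        omega
    · rw [List.length_rotate]
      omega
    · rw [rot_lev hz1 hsl d2 (by omega), d1, if_pos (by omega), show j + 1 + (i1 - (j + 1)) = i1 by omega, c2]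
      ring
    · intro i hi
      rw [List.length_rotate] at hi
      rw [rot_lev hz1 hsl d2 hi, d1]
      split_ifs with h
      · have := hHall (j + 1 + i) h
        omega
      · have := hHall (j + 1 + i - z1.length) (by omega)
        omega
    · intro i i1' i2
      rw [rot_lev hz1 hsl d2 (by omega), d1, if_pos (by omega)]
      have := k4 (j + 1 + i) (by omega) (by omega)
      intro h
      exact this (by omega)
  · refine ⟨r, hr, hd, z1, e1, hl, hm, i1, H, by omega, by omega, c2, hHall, ?_⟩
    intro i i1' i2 h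
    exact hex ⟨i, i1', i2, h⟩

/-! ### The two leaves -/

/-- the first leaf of a closed word whose first top is at e -/
lemma half {w : List Bool} (hw : w ∈ Cw) {e : ℕ} (he : 1 ≤ e) (he2 : e + 2 ≤ w.length - 1)
    (h1 : ∀ j, 1 ≤ j → j ≤ e → 0 < lev w j ∧ lev w j ≤ lev w e)
    (h2 : lev w (e + 1) < lev w e) (h3 : lev w (e + 2) < lev w e) :
    ∃ (g : List Bool) (M : ℕ), 1 ≤ M ∧ lev w e = 3 * M ∧ g ∈ Brd M ∧ g.length = e ∧ w = blk g ++ w.drop (e + 1) := by
  obtain ⟨q, hq⟩ : ∃ q, q = w.take (w.length - 1) := ⟨_, rfl⟩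
  have hql : q.length = w.length - 1 := by
    rw [hq, List.length_take]
    omega
  have hwq : w = q ++ w.drop (w.length - 1) := by
    rw [hq]
    exact (List.take_append_drop _ w).symm
  have hqv : ∀ i, i ≤ q.length → vx oo up q i = vx oo up w i := by
    intro i hi
    conv_rhs => rw [hwq]
    rw [vx_append (by omega)]
  have hqlev : ∀ i, i ≤ q.length → lev q i = lev w i := fun i hi => by
    unfold lev
    rw [hqv i hi]
  obtain ⟨c, M, hM, f1, f2, f3, f4, -⟩ := fold_step (q := q) (e := e) he (by omega)
    (fun i k hik hk => by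
      rw [hqv i (by omega), hqv k hk]
      exact hw.2.2.2 i k hik (by omega))
    (fun j j1 j2 => by
      rw [hqlev j (by omega), hqlev e (by omega)]
      exact h1 j j1 j2)
    (by
      rw [hqlev _ (by omega), hqlev e (by omega)]
      exact h2)
    (by
      rw [hqlev _ (by omega), hqlev e (by omega)]
      exact h3)
  refine ⟨q.take (e - 1) ++ [!c], M, hM, ?_, f3, f4, ?_⟩
  · rw [← f1, hqlev e (by omega)]
  · have hb : blk (q.take (e - 1) ++ [!c]) = q.take (e - 1) ++ [c, c] := by
      unfold blk
      rw [List.dropLast_concat, lst_append, Bool.not_not]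
    have hd : w.drop (e + 1) = q.drop (e + 1) ++ w.drop (w.length - 1) := by
      conv_lhs => rw [hwq]
      rw [List.drop_append_of_le_length (by omega)]
    rw [hb, hd]
    conv_lhs => rw [hwq, f2]
    simp

theorem two_leaf {z : List Bool} (hz : z ∈ Cw) : ∃ (r h : ℕ) (g1 g2 : List Bool), r ≤ z.length ∧ dx up z r = up ∧
    z.rotate r = cuf [g1, g2] ∧ 1 ≤ h ∧ g1 ∈ Brd h ∧ g2 ∈ Brd h ∧ Cyc [g1, g2] ∧
    ∀ i i', i ≤ z.length → i' ≤ z.length → lev z i - lev z i' ≤ 3 * h + 1 := by
  obtain ⟨r, hr, hd, w, hwz, hl, hm, p, H, hp, hH, ep, hHall, hpos⟩ := root_B hz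
  have hw : w ∈ Cw := by
    rw [hwz]
    exact rotate_mem_Cw hz hr hd
  have hlen : w.length = z.length := by rw [hwz, List.length_rotate]
  have hN : 0 < w.length := List.length_pos_iff.2 hw.1
  have hodd : ¬ Even (w.length - 1) := by
    intro h
    have := lev_even (w := w) h
    omega
  obtain ⟨e, k1, k2, k3, k4⟩ := last_of (P := fun i => lev w i = H) (n := w.length - 1) (i0 := p) (by omega) ep
  have hne1 : e ≠ w.length - 1 := by
    intro h
    rw [h] at k3
    omega
  have he0 : 1 ≤ e := by
    by_contra h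
    have : e = 0 := by omega
    rw [this, lev_zero] at k3
    omega
  have hstrict : ∀ i, e < i → i ≤ w.length → lev w i < H := by
    intro i h1 h2
    have h3 := hHall i h2
    have h4 : lev w i ≠ H := by
      rcases Nat.lt_or_ge i w.length with h | h
      · exact k4 i h1 (by omega)
      · rw [show i = w.length by omega, lev_len hw]
        omega
    omega
  -- e is even
  have heven : Even e := by
    by_contra hod
    have h1 : dx up w e = -up := by
      rcases step_o w hod with ⟨h, _⟩ | h
      · exact h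
      · have := hHall (e + 1) (by omega)
        omega
    obtain ⟨l, rfl⟩ : ∃ l, e = l + 1 := ⟨e - 1, by omega⟩
    have hle : Even l := by
      rw [Nat.even_add_one, not_not] at hod
      exact hod
    rcases step_e w hle with ⟨h2, _⟩ | h2
    · rw [dx_succ, h2] at h1
      revert h1
      cases tf w l <;> decide
    · have := hHall l (by omega)
      omega
  have hH3 : (3 : ℤ) ∣ H := by
    have := lev_even (w := w) heven
    rwa [k3] at this
  have hH3' : 3 ≤ H := by omega
  have he2 : e + 2 ≤ w.length - 1 := by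
    by_contra hcon
    have h1 : e + 1 = w.length - 1 := by omega
    rcases step_e w heven with ⟨_, h2⟩ | h2
    · rw [h1] at h2
      omega
    · rw [h1] at h2
      omega
  have hnom : ∀ i, 1 ≤ i → i ≤ e → lev w i ≠ -1 := by
    intro i i1 i2 h
    rcases Nat.lt_or_ge p i with hpi | hpi
    · have hie : i < e := by
        rcases Nat.lt_or_ge i e with h5 | h5
        · exact h5
        · rw [show i = e by omega] at h
          omega
      exact no_alt hw hH (Int.emod_eq_zero_of_dvd hH3) (fun j hj => ⟨hm j hj, hHall j hj⟩) hl hpi hie (by omega) ep h k3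
    · exact hpos i i1 hpi h
  have hposi : ∀ i, 1 ≤ i → i ≤ e → 0 < lev w i := fun i i1 i2 =>
    pos_of (w := w) (e := e) (by omega) hm hnom (by omega) i1 i2
  have hlt1 := hstrict (e + 1) (by omega) (by omega)
  have hlt2 := hstrict (e + 2) (by omega) (by omega)
  obtain ⟨g1, M, hM, f1, f2, f3, f4⟩ := half hw he0 he2 (fun j j1 j2 => ⟨hposi j j1 j2, by
    rw [k3]
    exact hHall j (by omega)⟩) (by omega) (by omega)
  have hdn : dx up w (e + 1) = -up := by
    rw [f4, ← f3]
    exact dx_blk f2 hM _
  have hle1 : lev w (e + 1) = 3 * M - 1 := by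
    rcases step_e w heven with ⟨_, h2⟩ | h2
    · omega
    · omega
  have hHM : H = 3 * M := by omega
  -- the second half
  have hw' := rotate_mem_CwN hw (r := e + 1) (by omega) hdn
  obtain ⟨w', ew'⟩ : ∃ w', w' = w.rotate (e + 1) := ⟨_, rfl⟩
  rw [← ew'] at hw'
  have hlen' : w'.length = w.length := by rw [ew', List.length_rotate]
  have hlev' : ∀ i, i ≤ w.length → lev w' i = 3 * M - 1 -
      (if e + 1 + i ≤ w.length then lev w (e + 1 + i) else lev w (e + 1 + i - w.length)) := by
    intro i hi
    rw [ew', rot_levN hw (by omega) hdn hi, hle1]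
  obtain ⟨n2, hn2⟩ : ∃ n2, n2 = w.length - e - 2 := ⟨_, rfl⟩
  have hodd2 : ∀ i, e + 1 < i → i ≤ w.length - 1 → lev w i ≠ 3 * M - 1 := by
    intro i i1 i2 h
    have ho : ¬ Even i := by
      intro hev
      have := lev_even (w := w) hev
      omega
    have h1 : dx up w i = -up := by
      rcases step_o w ho with ⟨h2, _⟩ | h2
      · exact h2
      · have := hstrict (i + 1) (by omega) (by omega)
        omega
    obtain ⟨l, rfl⟩ : ∃ l, i = l + 1 := ⟨i - 1, by omega⟩
    have hle : Even l := by
      rw [Nat.even_add_one, not_not] at ho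
      exact ho
    rcases step_e w hle with ⟨h2, _⟩ | h2
    · rw [dx_succ, h2] at h1
      revert h1
      cases tf w l <;> decide
    · have h3 := hstrict l (by omega) (by omega)
      omega
  have g1' : ∀ j, 1 ≤ j → j ≤ n2 → 0 < lev w' j ∧ lev w' j ≤ 3 * M := by
    intro j j1 j2
    rw [hlev' j (by omega), if_pos (by omega)]
    have h1 := hstrict (e + 1 + j) (by omega) (by omega)
    have h2 := hodd2 (e + 1 + j) (by omega) (by omega)
    have h3 := hm (e + 1 + j) (by omega)
    omega
  have g2' : lev w' n2 = 3 * M := by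
    rw [hlev' n2 (by omega), if_pos (by omega), show e + 1 + n2 = w.length - 1 by omega, hl]
    ring
  have g3' : lev w' (n2 + 1) = 3 * M - 1 := by
    rw [hlev' (n2 + 1) (by omega), if_pos (by omega), show e + 1 + (n2 + 1) = w.length by omega, lev_len hw]
    ring
  have g4' : lev w' (n2 + 2) = 3 * M - 3 := by
    rw [hlev' (n2 + 2) (by omega), if_neg (by omega), show e + 1 + (n2 + 2) - w.length = 1 by omega]
    have hlev1 : lev w 1 = 2 := by
      rw [lev_succ w 0, lev_zero]
      show 0 + ip up up = 2
      decide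
    rw [hlev1]
    ring
  obtain ⟨g2, M', hM', f1', f2', f3', f4'⟩ := half hw' (e := n2) (by omega) (by omega) (fun j j1 j2 =>
    ⟨(g1' j j1 j2).1, by
      rw [g2']
      exact (g1' j j1 j2).2⟩) (by omega) (by omega)
  have hMM : M' = M := by omega
  rw [hMM] at f2'
  have hbl1 := blk_length (Brd_ne_nil f2 hM)
  have hbl2 := blk_length (Brd_ne_nil f2' hM)
  have hrot : w' = w.drop (e + 1) ++ w.take (e + 1) := by
    rw [ew', List.rotate_eq_drop_append_take (by omega)]
  have hdrop : w.drop (e + 1) = blk g2 := by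
    have h1 : (w.drop (e + 1)).length = (blk g2).length := by
      rw [List.length_drop, hbl2, f3']
      omega
    rw [hrot] at f4'
    exact (List.append_inj f4' h1).1
  have hcuf : w = cuf [g1, g2] := by
    rw [cuf_eq]
    simp only [List.map_cons, List.map_nil, List.flatten_cons, List.flatten_nil, List.append_nil]
    rw [← hdrop]
    exact f4
  refine ⟨r, M, g1, g2, hr, hd, by rw [← hwz, hcuf], hM, f2, f2', ⟨⟨1, rfl⟩, le_rfl, ?_, by rw [← hcuf]; exact hw⟩, ?_⟩
  · intro g hg
    rcases List.mem_cons.1 hg with h | h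
    · rw [h]
      exact ⟨M, hM, f2⟩
    · rw [List.mem_singleton.1 h]
      exact ⟨M, hM, f2'⟩
  · -- the extent
    have hb : ∀ i, i ≤ z.length → -1 ≤ lev z i - lev z r ∧ lev z i - lev z r ≤ H := by
      intro i hi
      obtain ⟨j, hj, hji⟩ : ∃ j, j ≤ z.length ∧ lev w j = lev z i - lev z r := by
        rcases Nat.lt_or_ge i r with h | h
        · refine ⟨i + z.length - r, by omega, ?_⟩
          rw [hwz, rot_lev hz hr hd (by omega)]
          by_cases h0 : i = 0
          · rw [if_pos (by omega), show r + (i + z.length - r) = z.length by omega, lev_len hz, h0, lev_zero]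
          · rw [if_neg (by omega), show r + (i + z.length - r) - z.length = i by omega]
        · refine ⟨i - r, by omega, ?_⟩
          rw [hwz, rot_lev hz hr hd (by omega), if_pos (by omega), show r + (i - r) = i by omega]
      rw [← hji]
      exact ⟨hm j (by omega), hHall j (by omega)⟩
    intro i i' hi hi'
    have h1 := hb i hi
    have h2 := hb i' hi'
    omega

end PLD

end HexObs
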