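import Pool.Agent.PLD.Split
import Pool.Agent.PLD.TwoLeaf
import Pool.Agent.TightS.SBasic

/-!
PLD: the split theorem. A polygon of more than d0 rows is, from some root, a cyclic chain of n0 leaves with heights at
least d and drawdowns at most d for some d (or of fewer leaves with d = d0).
-/

set_option autoImplicit false

namespace HexObs

namespace PLD

open Finset TS SDN

lemma lst_cat {s t : List Bool} (ht : t ≠ []) : lst (s ++ t) = lst t := by
  unfold lst
  rw [List.getLastD_eq_getLast?, List.getLastD_eq_getLast?, List.getLast?_append_of_ne_nil _ ht]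

lemma unf_three (f1 f2 f3 : List Bool) : unf [f1, f2, f3] = blk f1 ++ (blk f2 ++ f3) := by
  rw [unf_cons, unf_cons]
  rfl

lemma blk_cat {s t : List Bool} (ht : t ≠ []) : blk (s ++ t) = s ++ blk t := by
  unfold blk
  rw [lst_cat ht, List.dropLast_append_of_ne_nil ht, List.append_assoc]

lemma blk_three {f1 f2 f3 : List Bool} (h3 : f3 ≠ []) : blk (unf [f1, f2, f3]) = blk f1 ++ (blk f2 ++ blk f3) := by
  rw [unf_three, ← List.append_assoc, blk_cat h3, List.append_assoc]

lemma cuf_split {A B : List (List Bool)} {f1 f2 f3 g : List Bool} (h3 : f3 ≠ []) (h : unf [f1, f2, f3] = g) :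
    cuf (A ++ f1 :: f2 :: f3 :: B) = cuf (A ++ g :: B) := by
  rw [cuf_eq, cuf_eq, ← h]
  simp only [List.map_append, List.map_cons, List.flatten_append, List.flatten_cons]
  rw [blk_three h3]
  simp only [List.append_assoc]

/-- the split of one leaf of a cyclic chain -/
theorem cyc_split {A B : List (List Bool)} {f1 f2 f3 g : List Bool} {u d w : ℕ} (hc : Cyc (A ++ g :: B))
    (h1 : f1 ∈ Brd u) (h2 : f2 ∈ Brd d) (h3 : f3 ∈ Brd w) (hu : 1 ≤ u) (hd : 1 ≤ d) (hw : 1 ≤ w)
    (h : unf [f1, f2, f3] = g) : Cyc (A ++ f1 :: f2 :: f3 :: B) := by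
  have hne := Brd_ne_nil h3 hw
  refine ⟨?_, ?_, ?_, ?_⟩
  · have := hc.even
    simp only [List.length_append, List.length_cons] at this ⊢
    rw [show A.length + (B.length + 1 + 1 + 1) = A.length + (B.length + 1) + 2 by omega]
    exact this.add even_two
  · simp only [List.length_append, List.length_cons]
    omega
  · intro f hf
    simp only [List.mem_append, List.mem_cons] at hf
    rcases hf with hf | hf | hf | hf | hf
    · exact hc.brd f (by simp [hf])
    · exact ⟨u, hu, hf ▸ h1⟩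
    · exact ⟨d, hd, hf ▸ h2⟩
    · exact ⟨w, hw, hf ▸ h3⟩
    · exact hc.brd f (by simp [hf])
  · rw [cuf_split hne h]
    exact hc.cw

lemma Drw_mono {d d' : ℕ} {g : List Bool} (hd : d ≤ d') (h : Drw d g) : Drw d' g := by
  intro i i' i1 i2
  have := h i i' i1 i2
  omega

/-- the iteration: n0 leaves -/
theorem split_iter {n0 d0 : ℕ} : ∀ (m : ℕ) (gs : List (List Bool)) (d : ℕ), n0 = gs.length + 2 * m → Cyc gs → d0 ≤ d →
    (∀ g ∈ gs, Drw d g ∧ d ≤ hgt g) → ∃ gs' d', Cyc gs' ∧ cuf gs' = cuf gs ∧ gs'.length ≤ n0 ∧ d0 ≤ d' ∧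
      (gs'.length = n0 ∨ d' = d0) ∧ ∀ g ∈ gs', Drw d' g ∧ d' ≤ hgt g := by
  intro m
  induction m with
  | zero =>
    intro gs d hn hc hd hg
    exact ⟨gs, d, hc, rfl, by omega, hd, Or.inl (by omega), hg⟩
  | succ m ih =>
    intro gs d hn hc hd hg
    by_cases h0 : ∀ g ∈ gs, Drw d0 g
    · exact ⟨gs, d0, hc, rfl, by omega, le_rfl, Or.inr rfl, fun g hgg => ⟨h0 g hgg, hd.trans (hg g hgg).2⟩⟩
    · classical
      have hP : ∃ d', ∀ g ∈ gs, Drw d' g := ⟨d, fun g hgg => (hg g hgg).1⟩
      obtain ⟨d', hd'⟩ : ∃ d', d' = Nat.find hP := ⟨_, rfl⟩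
      have p1 : ∀ g ∈ gs, Drw d' g := by
        rw [hd']
        exact Nat.find_spec hP
      have p2 : d' ≤ d := by
        rw [hd']
        exact Nat.find_min' hP fun g hgg => (hg g hgg).1
      have p3 : d0 < d' := by
        by_contra hcon
        exact h0 fun g hgg => Drw_mono (by omega) (p1 g hgg)
      have p4 : ¬ ∀ g ∈ gs, Drw (d' - 1) g := by
        have := Nat.find_min hP (m := d' - 1) (by omega)
        exact this
      push Not at p4
      obtain ⟨g, hgg, hgd⟩ := p4
      obtain ⟨h, hh, hb⟩ := hc.brd g hgg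
      obtain ⟨e, u, w, f1, f2, f3, e1, e2, e3, e4, e5, e6, e7, e8, e9, e10, e11, e12, e13, e14, e15⟩ := split_leaf hb hgd
      have he : e = d' := by
        have := e3 d' (p1 g hgg)
        omega
      subst he
      obtain ⟨A, B, rfl⟩ := List.append_of_mem hgg
      have hw : 1 ≤ w := by omega
      have hc' := cyc_split hc e4 e5 e6 (by omega) (by omega) hw e13
      obtain ⟨gs', d'', r1, r2, r3, r4, r5, r6⟩ := ih (A ++ f1 :: f2 :: f3 :: B) e (by
        rw [hn]
        simp only [List.length_append, List.length_cons]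
        ring) hc' p3.le (by
        intro f hf
        simp only [List.mem_append, List.mem_cons] at hf
        rcases hf with hf | hf | hf | hf | hf
        · exact ⟨p1 f (by simp [hf]), p2.trans (hg f (by simp [hf])).2⟩
        · rw [hf, hgt_eq e4]
          exact ⟨e10, by omega⟩
        · rw [hf, hgt_eq e5]
          exact ⟨e11, le_rfl⟩
        · rw [hf, hgt_eq e6]
          exact ⟨e12, by omega⟩
        · exact ⟨p1 f (by simp [hf]), p2.trans (hg f (by simp [hf])).2⟩)
      refine ⟨gs', d'', r1, ?_, r3, r4, r5, r6⟩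
      rw [r2, cuf_split (Brd_ne_nil e6 hw) e13]

/-- the drawdown of a bridge is at most its height -/
lemma Drw_of_Brd {h : ℕ} {g : List Bool} (hg : g ∈ Brd h) : Drw h g := by
  intro i i' i1 i2
  have h1 := (lev_range hg (i := i) (by omega)).2.1
  have h2 := (lev_range hg (i := i') i2).1
  omega

/-- the split theorem -/
theorem split_all {n0 d0 : ℕ} (hn : Even n0) (hn2 : 2 ≤ n0) {z : List Bool} (hz : z ∈ Cw)
    (hE : ∃ i i', i ≤ z.length ∧ i' ≤ z.length ∧
      (d0 : ℤ) + 1 ≤ row false (vx oo up z i) - row false (vx oo up z i')) :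
    ∃ r gs d, r ≤ z.length ∧ dx up z r = up ∧ Cyc gs ∧ cuf gs = z.rotate r ∧ gs.length ≤ n0 ∧ d0 ≤ d ∧
      (gs.length = n0 ∨ d = d0) ∧ ∀ g ∈ gs, Drw d g ∧ d ≤ hgt g := by
  obtain ⟨r, h, g1, g2, r1, r2, r3, r4, r5, r6, r7, r8⟩ := two_leaf hz
  obtain ⟨i, i', i1, i2, i3⟩ := hE
  have h1 := r8 i i' i1 i2
  have h2 : row false (vx oo up z i) = lev z i / 3 := rfl
  have h3 : row false (vx oo up z i') = lev z i' / 3 := rfl
  rw [h2, h3] at i3
  have hd : d0 ≤ h := by omega
  obtain ⟨k, hk⟩ := hn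
  obtain ⟨gs, d, s1, s2, s3, s4, s5, s6⟩ := split_iter (n0 := n0) (d0 := d0) (k - 1) [g1, g2] h (by
    simp only [List.length_cons, List.length_nil]
    omega) r7 hd (by
    intro g hg
    simp only [List.mem_cons, List.not_mem_nil, or_false] at hg
    rcases hg with hg | hg
    · rw [hg, hgt_eq r5]
      exact ⟨Drw_of_Brd r5, le_rfl⟩
    · rw [hg, hgt_eq r6]
      exact ⟨Drw_of_Brd r6, le_rfl⟩)
  exact ⟨r, gs, d, r1, r2, s1, by rw [s2, r3], s3, s4, s5, s6⟩

end PLD

end HexObs
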