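import Pool.Agent.PLD.Alt
import Pool.Agent.SDN.Dim1Defs

/-!
PLD, (E1'): two leaves of a cyclic chain are tall.
-/

set_option autoImplicit false

namespace HexObs

namespace PLD

open Finset TS SDN

/-- the sums of the heights of the leaves at the even positions, at the odd positions -/
noncomputable def hS : List (List Bool) → ℕ × ℕ
  | [] => (0, 0)
  | g :: gs => (hgt g + (hS gs).2, (hS gs).1)

lemma hgt_Brd {g : List Bool} {h : ℕ} (hg : g ∈ Brd h) : hgt g = h := by
  unfold hgt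
  rw [(mem_Brd.1 hg).2.2.2]
  omega

lemma lev_Brd {g : List Bool} {h : ℕ} (hg : g ∈ Brd h) {i : ℕ} (hi : i ≤ g.length) : 0 ≤ lev g i ∧ lev g i ≤ 3 * h := by
  rcases Nat.eq_zero_or_pos i with h0 | h0
  · rw [h0, lev_zero]
    omega
  · have := (mem_Brd.1 hg).1 i h0 hi
    constructor <;> omega

lemma lev_in {gs : List (List Bool)} (h : ∀ g ∈ gs, ∃ h, 1 ≤ h ∧ g ∈ Brd h) : ∀ i, i ≤ (cuf gs).length →
    -(3 * ((hS gs).2 : ℤ)) ≤ lev (cuf gs) i ∧ lev (cuf gs) i ≤ 3 * ((hS gs).1 : ℤ) := by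
  induction gs with
  | nil =>
    intro i hi
    rw [cuf_nil] at hi ⊢
    have : i = 0 := by simpa using hi
    rw [this, lev_zero]
    simp [hS]
  | cons g gs ih =>
    intro i hi
    obtain ⟨n, hn, hg⟩ := h g (by simp)
    have ih' := ih fun g' hg' => h g' (List.mem_cons_of_mem _ hg')
    obtain ⟨e1, _, _⟩ := unf_step (r := cuf gs) hg hn
    obtain ⟨e0, e2⟩ := unf_step_lev (r := cuf gs) hg hn
    rw [cuf_cons] at hi ⊢
    rw [e1] at hi
    have hh := hgt_Brd hg
    show -(3 * ((hS gs).1 : ℤ)) ≤ _ ∧ _ ≤ 3 * ((hgt g + (hS gs).2 : ℕ) : ℤ)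
    rcases Nat.lt_or_ge g.length i with h1 | h1
    · obtain ⟨j, rfl⟩ := Nat.exists_eq_add_of_lt h1
      have h2 := ih' j (by omega)
      have h3 := (e2 j).1
      rw [show g.length + j + 1 = g.length + 1 + j by omega, h3]
      push_cast
      omega
    · have h2 := lev_Brd hg h1
      rw [(e0 i h1).1]
      push_cast
      omega

lemma lev_diff {gs : List (List Bool)} (h : ∀ g ∈ gs, ∃ h, 1 ≤ h ∧ g ∈ Brd h) : ∀ i k, i ≤ (cuf gs).length →
    k ≤ (cuf gs).length → lev (cuf gs) k - lev (cuf gs) i ≤ 3 * (max (hS gs).1 (hS gs).2 : ℕ) + 1 := by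
  induction gs with
  | nil =>
    intro i k hi hk
    rw [cuf_nil] at hi hk ⊢
    have h1 : i = 0 := by simpa using hi
    have h2 : k = 0 := by simpa using hk
    rw [h1, h2, lev_zero]
    simp [hS]
  | cons g gs ih =>
    intro i k hi hk
    obtain ⟨n, hn, hg⟩ := h g (by simp)
    have hr : ∀ g ∈ gs, ∃ h, 1 ≤ h ∧ g ∈ Brd h := fun g' hg' => h g' (List.mem_cons_of_mem _ hg')
    have ih' := ih hr
    have hin := lev_in hr
    obtain ⟨e1, _, _⟩ := unf_step (r := cuf gs) hg hn
    obtain ⟨e0, e2⟩ := unf_step_lev (r := cuf gs) hg hn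
    rw [cuf_cons] at hi hk ⊢
    rw [e1] at hi hk
    have hh := hgt_Brd hg
    show _ ≤ 3 * ((max (hgt g + (hS gs).2) (hS gs).1 : ℕ) : ℤ) + 1
    rcases Nat.lt_or_ge g.length i with h1 | h1
    · obtain ⟨j, rfl⟩ := Nat.exists_eq_add_of_lt h1
      have h2 := hin j (by omega)
      have h3 := (e2 j).1
      rw [show g.length + j + 1 = g.length + 1 + j by omega, h3]
      rcases Nat.lt_or_ge g.length k with h4 | h4
      · obtain ⟨l, rfl⟩ := Nat.exists_eq_add_of_lt h4
        have h6 := (e2 l).1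
        have h7 := ih' l j (by omega) (by omega)
        rw [show g.length + l + 1 = g.length + 1 + l by omega, h6]
        omega
      · have h5 := lev_Brd hg h4
        rw [(e0 k h4).1]
        omega
    · have h2 := lev_Brd hg h1
      rw [(e0 i h1).1]
      rcases Nat.lt_or_ge g.length k with h4 | h4
      · obtain ⟨l, rfl⟩ := Nat.exists_eq_add_of_lt h4
        have h5 := hin l (by omega)
        have h6 := (e2 l).1
        rw [show g.length + l + 1 = g.length + 1 + l by omega, h6]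
        omega
      · have h5 := lev_Brd hg h4
        rw [(e0 k h4).1]
        omega

lemma altH_hS {gs : List (List Bool)} (h : ∀ g ∈ gs, ∃ h, 1 ≤ h ∧ g ∈ Brd h) :
    altH gs = ((hS gs).1 : ℤ) - (hS gs).2 := by
  induction gs with
  | nil => simp [altH, hS]
  | cons g gs ih =>
    obtain ⟨n, hn, hg⟩ := h g (by simp)
    have hr : ∀ g ∈ gs, ∃ h, 1 ≤ h ∧ g ∈ Brd h := fun g' hg' => h g' (List.mem_cons_of_mem _ hg')
    have hh := hgt_Brd hg
    have h1 : ht g = n := by
      unfold ht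
      rw [(mem_Brd.1 hg).2.2.2]
      omega
    show ht g - altH gs = ((hgt g + (hS gs).2 : ℕ) : ℤ) - (hS gs).1
    rw [ih hr, h1, hh]
    push_cast
    ring

lemma hS_le : ∀ (gs : List (List Bool)) (M M' : ℕ), (∀ i, i < gs.length → Even i → hgt (gs.getD i []) ≤ M) →
    (∀ i, i < gs.length → ¬ Even i → hgt (gs.getD i []) ≤ M') →
    2 * (hS gs).1 ≤ (gs.length + 1) * M ∧ 2 * (hS gs).2 ≤ gs.length * M' := by
  intro gs
  induction gs with
  | nil =>
    intro M M' _ _
    simp [hS]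
  | cons g gs ih =>
    intro M M' h1 h2
    have h3 := ih M' M (fun i hi he => by
      have := h2 (i + 1) (by simpa using hi) (by rw [Nat.even_add_one]; simpa using he)
      simpa using this) (fun i hi he => by
      have := h1 (i + 1) (by simpa using hi) (Nat.even_add_one.2 he)
      simpa using this)
    have h4 : hgt g ≤ M := by
      have := h1 0 (by simp) Even.zero
      simpa using this
    rw [List.length_cons]
    show 2 * (hgt g + (hS gs).2) ≤ _ ∧ 2 * (hS gs).1 ≤ _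
    constructor
    · nlinarith [h3.2]
    · exact h3.1

/-- TallT of helper35 (PLD/Sum) -/
theorem two_tall {L : ℕ} {gs : List (List Bool)} (hc : Cyc gs)
    (he : ∃ i i', i ≤ (cuf gs).length ∧ i' ≤ (cuf gs).length ∧
      2 ^ L ≤ row false (vx oo up (cuf gs) i) - row false (vx oo up (cuf gs) i')) :
    ∃ i j, i ≠ j ∧ i < gs.length ∧ j < gs.length ∧ 2 ^ L ≤ gs.length * (hgt (gs.getD i []) + 1) ∧
      2 ^ L ≤ gs.length * (hgt (gs.getD j []) + 1) := by
  obtain ⟨a, a', ha, ha', h1⟩ := he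
  have h2 := lev_diff hc.brd a' a ha' ha
  have e1 : row false (vx oo up (cuf gs) a) = lev (cuf gs) a / 3 := rfl
  have e2 : row false (vx oo up (cuf gs) a') = lev (cuf gs) a' / 3 := rfl
  rw [e1, e2] at h1
  have h3 := altH_hS hc.brd
  rw [hc.altH_eq] at h3
  have h4 : (hS gs).1 = (hS gs).2 := by omega
  rw [← h4, max_self] at h2
  have h5 : (2 : ℤ) ^ L ≤ (hS gs).1 + 1 := by omega
  have h6 : 2 ^ L ≤ (hS gs).1 + 1 := by exact_mod_cast h5
  have htwo := hc.two
  obtain ⟨i, hi, hi2⟩ := Finset.exists_max_image ((range gs.length).filter Even) (fun i => hgt (gs.getD i []))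
    ⟨0, by simp; omega⟩
  obtain ⟨j, hj, hj2⟩ := Finset.exists_max_image ((range gs.length).filter fun i => ¬ Even i)
    (fun i => hgt (gs.getD i [])) ⟨1, by simp; omega⟩
  rw [mem_filter, mem_range] at hi hj
  obtain ⟨q1, q2⟩ := hS_le gs (hgt (gs.getD i [])) (hgt (gs.getD j []))
    (fun k hk hk2 => hi2 k (by rw [mem_filter, mem_range]; exact ⟨hk, hk2⟩))
    (fun k hk hk2 => hj2 k (by rw [mem_filter, mem_range]; exact ⟨hk, hk2⟩))
  rw [← h4] at q2
  obtain ⟨m, hm⟩ := hc.even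
  rw [hm] at q1 q2 htwo ⊢
  refine ⟨i, j, fun h => hj.2 (h ▸ hi.2), by omega, by omega, ?_, ?_⟩
  · have : 1 ≤ m := by omega
    by_contra hcon
    rw [Nat.not_le] at hcon
    obtain ⟨x, hx⟩ : ∃ x, x = hgt (gs.getD i []) := ⟨_, rfl⟩
    rw [← hx] at q1 hcon
    nlinarith
  · have : 1 ≤ m := by omega
    by_contra hcon
    rw [Nat.not_le] at hcon
    obtain ⟨x, hx⟩ : ∃ x, x = hgt (gs.getD j []) := ⟨_, rfl⟩
    rw [← hx] at q2 hcon
    nlinarith

end PLD

end HexObs
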