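import Pool.Agent.PLD.StarDefs
import Pool.Agent.PLD.SplitT
import Pool.Agent.PLD.Geo
import Pool.Agent.PLD.CellT
import Pool.Agent.PLD.TwoTall

/-!
PLD (E1'), task B: from the polygons to the cyclic chains of leaves (weights, rotations, the covering by the classes CC).
-/

set_option autoImplicit false

namespace HexObs

namespace PLD

open Finset TS SDN

open scoped ENNReal

/-- the closed word z fits in a box of side 2 ^ (L + 1) -/
def Box (L : ℕ) (z : List Bool) : Prop :=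
  ∀ dir i i', i ≤ z.length → i' ≤ z.length → |row dir (vx oo up z i) - row dir (vx oo up z i')| ≤ 2 ^ (L + 1)

/-- the closed word z has at least the extent R rows in the first direction -/
def Ext (R : ℤ) (z : List Bool) : Prop :=
  ∃ i i', i ≤ z.length ∧ i' ≤ z.length ∧ R ≤ row false (vx oo up z i) - row false (vx oo up z i')

namespace Sm

/-! ### 1. Weights -/

lemma wE_anti {a b : List Bool} (h : a.length ≤ b.length) : wE b ≤ wE a := by
  unfold wE
  exact ENNReal.ofReal_le_ofReal (pow_le_pow_of_le_one xc_pos.le B2b_xc_le_one h)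

lemma cuf_cons_length (g : List Bool) (gs : List (List Bool)) :
    g.length + (cuf gs).length ≤ (cuf (g :: gs)).length := by
  have h : cuf (g :: gs) = g.dropLast ++ (!lst g) :: (!lst g) :: cuf gs := by
    unfold cuf
    cases gs with
    | nil => rfl
    | cons g' gs => rfl
  rw [h, List.length_append, List.length_cons, List.length_cons, List.length_dropLast]
  omega

lemma wE_rotate (z : List Bool) (r : ℕ) : wE (z.rotate r) = wE z := by
  unfold wE
  rw [List.length_rotate]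

end Sm

/-- (a) the weight of a polygon is at most the weight of its chain of leaves -/
theorem wE_cuf_le (gs : List (List Bool)) : wE (cuf gs) ≤ SDN.wl gs := by
  induction gs with
  | nil =>
    show wE [] ≤ SDN.wl []
    simp [wE, SDN.wl]
  | cons g gs ih =>
    calc wE (cuf (g :: gs)) ≤ wE (g ++ cuf gs) :=
          Sm.wE_anti (by rw [List.length_append]; exact Sm.cuf_cons_length g gs)
      _ = wE g * wE (cuf gs) := wE_append _ _
      _ ≤ wE g * SDN.wl gs := mul_le_mul_right ih _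
      _ = SDN.wl (g :: gs) := by
          unfold SDN.wl
          rw [List.map_cons, List.prod_cons]

/-- (b) with weights -/
theorem sum_le_wt {Z : Set (List Bool)} {S : Set (List (List Bool))}
    (hrot : ∀ z ∈ Z, ∀ z' ∈ Z, ∀ r, z' = z.rotate r → z' = z) (f : List Bool → ℝ≥0∞)
    (F : List (List Bool) → ℝ≥0∞)
    (h : ∀ z ∈ Z, ∃ (r : ℕ) (gs : List (List Bool)), gs ∈ S ∧ cuf gs = z.rotate r ∧ f z ≤ F gs) :
    ∑' z : Z, wE z.1 * f z.1 ≤ ∑' gs : S, SDN.wl gs.1 * F gs.1 := by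
  choose! r gs h1 h2 h3 using h
  let ψ : Z → S := fun z => ⟨gs z.1, h1 z.1 z.2⟩
  have hψ : Function.Injective ψ := by
    rintro ⟨z, hz⟩ ⟨z', hz'⟩ he
    have e1 : gs z = gs z' := congrArg (fun p => (p.1 : List (List Bool))) he
    have e2 : z.rotate (r z) = z'.rotate (r z') := by rw [← h2 z hz, ← h2 z' hz', e1]
    have e5 : z.IsRotated z' :=
      (List.IsRotated.forall z (r z)).symm.trans (e2 ▸ List.IsRotated.forall z' (r z'))
    obtain ⟨s, hs⟩ := e5
    exact Subtype.ext (hrot z hz z' hz' s hs.symm).symm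
  calc ∑' z : Z, wE z.1 * f z.1 ≤ ∑' z : Z, SDN.wl (ψ z).1 * F (ψ z).1 :=
        ENNReal.tsum_le_tsum fun z => by
          refine mul_le_mul' ?_ (h3 z.1 z.2)
          rw [← Sm.wE_rotate z.1 (r z.1), ← h2 z.1 z.2]
          exact wE_cuf_le _
    _ ≤ ∑' gs : S, SDN.wl gs.1 * F gs.1 := ENNReal.tsum_comp_le_tsum_of_injective hψ fun gs => SDN.wl gs.1 * F gs.1

/-- (b) the weight of a set of polygons is at most the weight of the chains -/
theorem sum_le {Z : Set (List Bool)} {S : Set (List (List Bool))}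
    (hrot : ∀ z ∈ Z, ∀ z' ∈ Z, ∀ r, z' = z.rotate r → z' = z)
    (h : ∀ z ∈ Z, ∃ (r : ℕ) (gs : List (List Bool)), gs ∈ S ∧ cuf gs = z.rotate r) :
    ∑' z : Z, wE z.1 ≤ ∑' gs : S, SDN.wl gs.1 := by
  have h1 := sum_le_wt (Z := Z) (S := S) hrot (fun _ => 1) (fun _ => 1) fun z hz => by
    obtain ⟨r, gs, h1, h2⟩ := h z hz
    exact ⟨r, gs, h1, h2, le_rfl⟩
  simpa using h1

/-! ### 2. The rotated word -/

namespace Sm

lemma lvl_sub (dir : Bool) (p v : Pt) : lvl dir (p - v) = lvl dir p - lvl dir v := by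
  unfold lvl ip
  simp only [Prod.fst_sub, Prod.snd_sub]
  ring

/-- the roots of the admissible rotations are even vertices -/
lemma root_mod {z : List Bool} {r : ℕ} (hd : dx up z r = up) (dir : Bool) : (3 : ℤ) ∣ lvl dir (vx oo up z r) := by
  have h1 : cl (ds up (tf z) r) = if Even r then cl up else - cl up := cl_ds r
  have h2 : Even r := by
    by_contra hn
    rw [if_neg hn] at h1
    have h3 : ds up (tf z) r = up := hd
    rw [h3] at h1
    exact absurd h1 (by decide)
  have h3 : cl (vs oo up (tf z) r) = if Even r then cl oo else cl oo + cl up := cl_vs r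
  rw [if_pos h2] at h3
  have h4 : cl oo = 0 := by decide
  rw [h4] at h3
  have h5 : (3 : ℤ) ∣ (vx oo up z r).1 - (vx oo up z r).2 := (ZMod.intCast_zmod_eq_zero_iff_dvd _ 3).1 h3
  obtain ⟨k, hk⟩ := h5
  cases dir
  · refine ⟨k + (vx oo up z r).2, ?_⟩
    simp only [lvl, ip]
    rw [show SDN.hd false = ((0 : ℤ), (1 : ℤ)) from rfl]
    simp only
    linarith
  · refine ⟨k - (vx oo up z r).1, ?_⟩
    simp only [lvl, ip, SDN.hd, if_true]
    linarith

lemma row_sub {p v : Pt} {dir : Bool} (h : (3 : ℤ) ∣ lvl dir v) : row dir (p - v) = row dir p - row dir v := by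
  unfold row
  rw [lvl_sub]
  omega

lemma vx_rot {z : List Bool} (hz : z ∈ Cw) {r : ℕ} (hr : r ≤ z.length) (hd : dx up z r = up) {i : ℕ}
    (hi : i ≤ z.length) : vx oo up (z.rotate r) i = pv z (r + i) - vx oo up z r := by
  have hd' : pd z r = up := by
    rw [← dx_eq_pd hr]
    exact hd
  have h1 := pv_shift hz.1 hd' i
  rw [vx_eq_pv (z := z.rotate r) (by rw [List.length_rotate]; exact hi), vx_eq_pv hr, h1]
  exact (add_sub_cancel_left _ _).symm

end Sm

/-- the rows of the rotated word -/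
theorem row_rot {z : List Bool} (hz : z ∈ Cw) {r : ℕ} (hr : r ≤ z.length) (hd : dx up z r = up) {i : ℕ}
    (hi : i ≤ z.length) : ∃ j, j ≤ z.length ∧ ∀ dir,
      row dir (vx oo up (z.rotate r) i) = row dir (vx oo up z j) - row dir (vx oo up z r) := by
  have h0 : 0 < z.length := List.length_pos_iff.2 hz.1
  refine ⟨(r + i) % z.length, (Nat.mod_lt _ h0).le, fun dir => ?_⟩
  rw [Sm.vx_rot hz hr hd hi, Sm.row_sub (Sm.root_mod hd dir), pv_mod hz, ← vx_eq_pv (Nat.mod_lt _ h0).le]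

/-- the rows of the word in terms of the rotated word -/
theorem row_rot' {z : List Bool} (hz : z ∈ Cw) {r : ℕ} (hr : r ≤ z.length) (hd : dx up z r = up) {j : ℕ}
    (hj : j ≤ z.length) : ∃ i, i ≤ z.length ∧ ∀ dir,
      row dir (vx oo up (z.rotate r) i) = row dir (vx oo up z j) - row dir (vx oo up z r) := by
  by_cases h : r ≤ j
  · refine ⟨j - r, by omega, fun dir => ?_⟩
    rw [Sm.vx_rot hz hr hd (by omega), Sm.row_sub (Sm.root_mod hd dir), Nat.add_sub_cancel' h, ← vx_eq_pv hj]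
  · refine ⟨z.length + j - r, by omega, fun dir => ?_⟩
    rw [Sm.vx_rot hz hr hd (by omega), Sm.row_sub (Sm.root_mod hd dir), show r + (z.length + j - r) = z.length + j by omega,
      pv_add_len hz, ← vx_eq_pv hj]

theorem Box.rot {L : ℕ} {z : List Bool} (hb : Box L z) (hz : z ∈ Cw) {r : ℕ} (hr : r ≤ z.length)
    (hd : dx up z r = up) : Box L (z.rotate r) := by
  intro dir i i' hi hi'
  rw [List.length_rotate] at hi hi'
  obtain ⟨j, hj, e⟩ := row_rot hz hr hd hi
  obtain ⟨j', hj', e'⟩ := row_rot hz hr hd hi'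
  rw [e dir, e' dir, sub_sub_sub_cancel_right]
  exact hb dir j j' hj hj'

theorem Ext.rot {R : ℤ} {z : List Bool} (hb : Ext R z) (hz : z ∈ Cw) {r : ℕ} (hr : r ≤ z.length)
    (hd : dx up z r = up) : Ext R (z.rotate r) := by
  obtain ⟨j, j', hj, hj', h⟩ := hb
  obtain ⟨i, hi, e⟩ := row_rot' hz hr hd hj
  obtain ⟨i', hi', e'⟩ := row_rot' hz hr hd hj'
  refine ⟨i, i', by rw [List.length_rotate]; exact hi, by rw [List.length_rotate]; exact hi', ?_⟩
  rw [e false, e' false, sub_sub_sub_cancel_right]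
  exact h

/-- the number of the visited cells of the rotated word -/
theorem nb_rot {z : List Bool} (hz : z ∈ Cw) {r : ℕ} (hr : r ≤ z.length) (hd : dx up z r = up) (b : ℕ) :
    nb b z ≤ 4 * nb b (z.rotate r) := by
  set c0 : ℤ := row false (vx oo up z r) with hc0
  set c1 : ℤ := row true (vx oo up z r) with hc1
  have key : cells b z ⊆ ((cells b (z.rotate r)) ×ˢ (Finset.range 2 ×ˢ Finset.range 2)).image
      fun q : (ℤ × ℤ) × (ℕ × ℕ) => (q.1.1 + c0 / 2 ^ b + q.2.1, q.1.2 + c1 / 2 ^ b + q.2.2) := by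
    intro x hx
    unfold cells at hx
    rw [mem_image] at hx
    obtain ⟨j, hj, hx⟩ := hx
    rw [mem_range] at hj
    obtain ⟨i, hi, e⟩ := row_rot' hz hr hd (j := j) (by omega)
    have e0 : row false (vx oo up z j) = row false (vx oo up (z.rotate r) i) + c0 := by rw [e false]; ring
    have e1 : row true (vx oo up z j) = row true (vx oo up (z.rotate r) i) + c1 := by rw [e true]; ring
    have hp : (0 : ℤ) < 2 ^ b := by positivity
    have hdiv : ∀ a c : ℤ, ∃ u : ℕ, u < 2 ∧ (a + c) / 2 ^ b = a / 2 ^ b + c / 2 ^ b + u := by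
      intro a c
      have h1 := Int.emod_add_mul_ediv a (2 ^ b)
      have h2 := Int.emod_add_mul_ediv c (2 ^ b)
      have h3 := Int.emod_nonneg a hp.ne'
      have h4 := Int.emod_nonneg c hp.ne'
      have h5 := Int.emod_lt_of_pos a hp
      have h6 := Int.emod_lt_of_pos c hp
      have h7 : (a + c) / 2 ^ b = a / 2 ^ b + c / 2 ^ b + (a % 2 ^ b + c % 2 ^ b) / 2 ^ b := by
        have h8 : a + c = (a % 2 ^ b + c % 2 ^ b) + (2 ^ b) * (a / 2 ^ b + c / 2 ^ b) := by
          linear_combination (-1 : ℤ) * h1 - h2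
        conv_lhs => rw [h8, Int.add_mul_ediv_left _ _ hp.ne']
        ring
      by_cases h9 : a % 2 ^ b + c % 2 ^ b < 2 ^ b
      · refine ⟨0, by norm_num, ?_⟩
        rw [h7, Int.ediv_eq_zero_of_lt (by linarith) h9]
        rfl
      · refine ⟨1, by norm_num, ?_⟩
        rw [h7]
        have h10 : (a % 2 ^ b + c % 2 ^ b) / 2 ^ b = 1 := by
          rw [Int.ediv_eq_iff_of_pos hp]
          constructor <;> linarith
        rw [h10]
        rfl
    obtain ⟨u, hu, eu⟩ := hdiv (row false (vx oo up (z.rotate r) i)) c0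
    obtain ⟨w, hw, ew⟩ := hdiv (row true (vx oo up (z.rotate r) i)) c1
    rw [mem_image]
    refine ⟨(cell b (vx oo up (z.rotate r) i), (u, w)), ?_, ?_⟩
    · rw [mem_product, mem_product]
      refine ⟨?_, mem_range.2 hu, mem_range.2 hw⟩
      unfold cells
      rw [mem_image]
      exact ⟨i, mem_range.2 (by rw [List.length_rotate]; omega), rfl⟩
    · rw [← hx]
      unfold cell
      rw [e0, e1, eu, ew]
  unfold nb
  refine (card_le_card key).trans (card_image_le.trans ?_)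
  rw [card_product, card_product, card_range]
  omega

/-! ### 3. The classes -/

/-- (c) the chain of the split theorem is in the class of its scale -/
theorem mem_CC {gs : List (List Bool)} {L k d : ℕ} (hc : Cyc gs) (hdw : ∀ g ∈ gs, Drw d g ∧ d ≤ hgt g)
    (h1 : 2 ^ (k + 5) ≤ d + 1) (h2 : d + 2 ≤ 2 ^ (k + 6)) (hbox : ∀ g ∈ gs, g ∈ WL (L + 2) ∧ hgt g ≤ 2 ^ (L + 1)) :
    gs ∈ CC gs.length L k := by
  refine ⟨hc, rfl, fun g hg => ?_⟩
  obtain ⟨h, hh1, hh⟩ := hc.brd g hg
  obtain ⟨hD, hd⟩ := hdw g hg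
  obtain ⟨hw, hH⟩ := hbox g hg
  rw [hgt_eq hh] at hd hH
  have e1 : 2 ^ (k + 5) = 2 * 2 ^ (k + 4) := by ring
  have e2 : 1 ≤ 2 ^ (k + 4) := Nat.one_le_two_pow
  have e3 : 2 ^ (L + 2) = 2 * 2 ^ (L + 1) := by ring
  refine ⟨⟨h, by omega, by omega, hh⟩, ?_, hw⟩
  intro i i' hi hi'
  have h3 := hD i i' hi hi'
  unfold RR
  have h4 : ((d : ℤ) + 2) ≤ 2 ^ (k + 6) := by exact_mod_cast h2
  linarith

/-- the scale of a resolution -/
theorem exists_scale {d : ℕ} (hd : 31 ≤ d) : ∃ k, 2 ^ (k + 5) ≤ d + 1 ∧ d + 2 ≤ 2 ^ (k + 6) := by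
  have h1 : 2 ^ Nat.log 2 (d + 1) ≤ d + 1 := Nat.pow_log_le_self 2 (by omega)
  have h2 : d + 1 < 2 ^ (Nat.log 2 (d + 1) + 1) := Nat.lt_pow_succ_log_self (by norm_num) _
  have h3 : 5 ≤ Nat.log 2 (d + 1) := by
    refine Nat.le_log_of_pow_le (by norm_num) ?_
    omega
  refine ⟨Nat.log 2 (d + 1) - 5, ?_, ?_⟩
  · rw [Nat.sub_add_cancel h3]
    exact h1
  · rw [show Nat.log 2 (d + 1) - 5 + 6 = Nat.log 2 (d + 1) + 1 by omega]
    omega

/-- the statement of the split theorem -/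
def SplitT : Prop := ∀ (n0 d0 : ℕ) (z : List Bool), Even n0 → 2 ≤ n0 → 1 ≤ d0 → z ∈ Cw → Ext (d0 + 1) z →
  ∃ (r : ℕ) (gs : List (List Bool)) (d : ℕ), r ≤ z.length ∧ dx up z r = up ∧ Cyc gs ∧ cuf gs = z.rotate r ∧
    gs.length ≤ n0 ∧ d0 ≤ d ∧ (gs.length = n0 ∨ d = d0) ∧ ∀ g ∈ gs, Drw d g ∧ d ≤ hgt g

/-- the statement of the box theorem (task A (ii)) -/
def BoxT : Prop := ∀ (L : ℕ) (gs : List (List Bool)), Cyc gs → Box L (cuf gs) →
  ∀ g ∈ gs, g ∈ WL (L + 2) ∧ hgt g ≤ 2 ^ (L + 1)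

/-- the statement of the theorem on the cells (task A (i)) -/
def CellT (C : ℕ) : Prop := ∀ (b : ℕ) (gs : List (List Bool)), Cyc gs → nb b (cuf gs) ≤ C * (gs.map (nb b)).sum

/-- the statement of the theorem on the two tall leaves (task A (iii)) -/
def TallT : Prop := ∀ (L : ℕ) (gs : List (List Bool)), 1 ≤ L → Cyc gs → Ext (2 ^ L) (cuf gs) →
  ∃ i j, i ≠ j ∧ i < gs.length ∧ j < gs.length ∧ 2 ^ L ≤ gs.length * (hgt (gs.getD i []) + 1) ∧
    2 ^ L ≤ gs.length * (hgt (gs.getD j []) + 1)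

/-- the covering of the polygons by the classes -/
theorem cover_poly (hS : SplitT) (hB : BoxT) {n0 L : ℕ} (h1 : Even n0) (h2 : 2 ≤ n0) {z : List Bool} (hz : z ∈ Cw)
    (hb : Box L z) (he : Ext 32 z) : ∃ (m k r : ℕ) (gs : List (List Bool)), gs ∈ CC m L k ∧ r ≤ z.length ∧
      dx up z r = up ∧ cuf gs = z.rotate r ∧ Box L (cuf gs) ∧ m ≤ n0 ∧ k + 4 ≤ L ∧ (m = n0 ∨ k = 0) := by
  obtain ⟨r, gs, d, hr, hd, hc, hu, hl, hd0, hor, hg⟩ := hS n0 31 z h1 h2 (by norm_num) hz (by
    have h : (((31 : ℕ) : ℤ) + 1) = 32 := by norm_num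
    rw [h]
    exact he)
  obtain ⟨k, hk1, hk2⟩ := exists_scale hd0
  have hb' : Box L (cuf gs) := by
    rw [hu]
    exact hb.rot hz hr hd
  have hA := hB L gs hc hb'
  refine ⟨gs.length, k, r, gs, mem_CC hc hg hk1 hk2 hA, hr, hd, hu, hb', hl, ?_, ?_⟩
  · have hne : gs ≠ [] := by
      intro h
      have := hc.two
      rw [h] at this
      simp at this
    obtain ⟨g, hg0⟩ := List.exists_mem_of_ne_nil gs hne
    have e1 := (hg g hg0).2
    have e2 := (hA g hg0).2
    have e3 : 2 ^ (k + 5) ≤ 2 ^ (L + 1) + 1 := by omega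
    by_contra hlt
    have e4 : L + 2 ≤ k + 5 := by omega
    have e5 : 2 ^ (L + 2) ≤ 2 ^ (k + 5) := Nat.pow_le_pow_right (by norm_num) e4
    have e6 : 2 ^ (L + 2) = 2 * 2 ^ (L + 1) := by ring
    have e7 : 2 ≤ 2 ^ (L + 1) := by
      calc 2 = 2 ^ 1 := rfl
        _ ≤ 2 ^ (L + 1) := Nat.pow_le_pow_right (by norm_num) (by omega)
    omega
  · rcases hor with h | h
    · exact Or.inl h
    · right
      by_contra hk
      have e1 : 2 ^ 6 ≤ 2 ^ (k + 5) := Nat.pow_le_pow_right (by norm_num) (by omega)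
      omega

/-- the reduction from polygons to lists of leaves -/
theorem red_of (hS : SplitT) (hB : BoxT) (hT : TallT) {C : ℕ} (hC : CellT C) : Red := by
  refine ⟨(4 * (C + 1) : ℕ), by exact_mod_cast (show 1 ≤ 4 * (C + 1) by omega), fun m L b Z hm h2 hL hZ => ?_⟩
  set F : List (List Bool) → ℝ≥0∞ := fun gs => ENNReal.ofReal (((4 * (C + 1) : ℕ) : ℝ) * ((gs.map (nb b)).sum : ℕ)) with hF
  have key : ∀ z ∈ Z, ∃ (r : ℕ) (gs : List (List Bool)),
      gs ∈ (⋃ k ∈ range (L + 1), SK m L k) ∪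
        (⋃ m' ∈ (range m).filter (fun m' => Even m' ∧ 2 ≤ m'), SK m' L 0) ∧
      cuf gs = z.rotate r ∧ ((nb b z : ℕ) : ℝ≥0∞) ≤ F gs := by
    intro z hz
    have hzc := hZ.cw hz
    have hb : Box L z := hZ.box z hz
    have he : Ext (2 ^ L) z := hZ.ext z hz
    have he32 : Ext 32 z := by
      obtain ⟨i, i', hi, hi', h⟩ := he
      refine ⟨i, i', hi, hi', le_trans ?_ h⟩
      calc (32 : ℤ) ≤ 2 ^ 6 := by norm_num
        _ ≤ 2 ^ L := pow_le_pow_right₀ (by norm_num) hL
    obtain ⟨n, k, r, gs, hgs, hr, hd, hu, _, hn, hk, hor⟩ := cover_poly hS hB hm h2 hzc hb he32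
    have hc := hgs.1
    have he' : Ext (2 ^ L) (cuf gs) := by
      rw [hu]
      exact he.rot hzc hr hd
    obtain ⟨i, j, hij, hi, hj, ti, tj⟩ := hT L gs (by omega) hc he'
    have hmem : ∀ i, i < gs.length → gs.getD i [] ∈ gs := fun i hi => by
      rw [List.getD_eq_getElem _ _ hi]
      exact List.getElem_mem hi
    have hsk : gs ∈ SK n L k := by
      refine ⟨hgs, i, j, hij, hi, hj, ⟨(hgs.2.2 _ (hmem i hi)).2.1, ?_⟩, ⟨(hgs.2.2 _ (hmem j hj)).2.1, ?_⟩⟩
      · rw [← hgs.2.1]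
        exact ti
      · rw [← hgs.2.1]
        exact tj
    refine ⟨r, gs, ?_, hu, ?_⟩
    · by_cases hmn : n = m
      · left
        subst hmn
        exact Set.mem_biUnion (Finset.mem_coe.2 (mem_range.2 (show k < L + 1 by omega))) hsk
      · right
        have hk0 : k = 0 := by tauto
        subst hk0
        have e1 : Even n := by
          rw [← hgs.2.1]
          exact hc.even
        have e2 : 2 ≤ n := by
          rw [← hgs.2.1]
          exact hc.two
        exact Set.mem_biUnion (Finset.mem_coe.2 (mem_filter.2 ⟨mem_range.2 (show n < m by omega), e1, e2⟩)) hsk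
    · have n1 := nb_rot hzc hr hd b
      rw [← hu] at n1
      have n2 := hC b gs hc
      have n3 : nb b z ≤ 4 * (C + 1) * (gs.map (nb b)).sum := by
        calc nb b z ≤ 4 * nb b (cuf gs) := n1
          _ ≤ 4 * (C * (gs.map (nb b)).sum) := Nat.mul_le_mul_left _ n2
          _ ≤ 4 * (C + 1) * (gs.map (nb b)).sum := by
              rw [← mul_assoc]
              exact Nat.mul_le_mul_right _ (by omega)
      rw [hF]
      show ((nb b z : ℕ) : ℝ≥0∞) ≤ ENNReal.ofReal (((4 * (C + 1) : ℕ) : ℝ) * ((gs.map (nb b)).sum : ℕ))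
      rw [← Nat.cast_mul, ENNReal.ofReal_natCast]
      exact_mod_cast n3
  refine (sum_le_wt hZ.uniq (fun z => ((nb b z : ℕ) : ℝ≥0∞)) F key).trans ?_
  refine (ENNReal.tsum_union_le (fun gs => SDN.wl gs * F gs) _ _).trans (add_le_add ?_ ?_)
  · exact ENNReal.tsum_biUnion_le (fun gs => SDN.wl gs * F gs) (range (L + 1)) fun k => SK m L k
  · exact ENNReal.tsum_biUnion_le (fun gs => SDN.wl gs * F gs)
      ((range m).filter (fun m' => Even m' ∧ 2 ≤ m')) fun m' => SK m' L 0

/-- the reduction from polygons to lists of leaves, all inputs proved -/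
theorem red : Red := by
  refine red_of (C := 10) ?_ ?_ ?_ ?_
  · intro n0 d0 z h1 h2 _ hz he
    exact split_all h1 h2 hz he
  · intro L gs hc hb
    exact box_t hc hb
  · intro L gs _ hc he
    exact two_tall hc he
  · intro b gs hc
    exact cell_t hc

end PLD

end HexObs
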